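import Mathlib

set_option linter.unusedSectionVars false
open Matrix

namespace Pool.Agent.Helper28

theorem amgm_pow {k : ℕ} (z : Fin (k + 1) → ℝ) (hz : ∀ i, 0 ≤ z i) :
    ∏ i, z i ≤ ((∑ i, z i) / (k + 1)) ^ (k + 1) := by
  have h := Real.geom_mean_le_arith_mean_weighted Finset.univ
    (fun _ : Fin (k + 1) => (1 : ℝ) / (k + 1)) z (fun i _ => by positivity)
    (by simp; field_simp) (fun i _ => hz i)
  rw [← Finset.mul_sum] at h
  have h0 : 0 ≤ ∏ i : Fin (k + 1), z i ^ ((1 : ℝ) / (k + 1)) :=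
    Finset.prod_nonneg fun i _ => Real.rpow_nonneg (hz i) _
  have h1 := pow_le_pow_left₀ h0 h (k + 1)
  rw [← Finset.prod_pow] at h1
  have h2 : ∀ i, (z i ^ ((1 : ℝ) / (k + 1))) ^ (k + 1) = z i := by
    intro i
    rw [← Real.rpow_natCast, ← Real.rpow_mul (hz i)]
    push_cast
    rw [one_div, inv_mul_cancel₀ (by positivity), Real.rpow_one]
  simp only [h2] at h1
  refine h1.trans (le_of_eq ?_)
  congr 1
  ring

theorem abs_det_le (N : Matrix (Fin 6) (Fin 6) ℝ) :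
    |N.det| ≤ ((N * Nᵀ).trace / 6) ^ 3 := by
  have hP : (N * Nᵀ).PosSemidef := by
    have := Matrix.posSemidef_self_mul_conjTranspose N
    rwa [conjTranspose_eq_transpose_of_trivial] at this
  have hH := hP.1
  have h1 : (N * Nᵀ).det = ∏ i, hH.eigenvalues i := by
    simpa using hH.det_eq_prod_eigenvalues
  have h2 : (N * Nᵀ).trace = ∑ i, hH.eigenvalues i := by
    simpa using hH.trace_eq_sum_eigenvalues
  have hnn : ∀ i, 0 ≤ hH.eigenvalues i := fun i => hP.eigenvalues_nonneg i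
  have h3 := amgm_pow (k := 5) hH.eigenvalues hnn
  rw [← h1, ← h2, det_mul, det_transpose] at h3
  have ht : 0 ≤ (N * Nᵀ).trace := by
    rw [h2]; exact Finset.sum_nonneg fun i _ => hnn i
  refine abs_le_of_sq_le_sq ?_ (by positivity)
  norm_num at h3
  calc N.det ^ 2 = N.det * N.det := sq _
    _ ≤ ((N * Nᵀ).trace / 6) ^ 6 := h3
    _ = (((N * Nᵀ).trace / 6) ^ 3) ^ 2 := by ring

open scoped MatrixOrder in
theorem exists_fac (A : Matrix (Fin 6) (Fin 6) ℝ) :
    ∃ R : Matrix (Fin 6) (Fin 6) ℝ, 1 + A * Aᵀ = R * Rᵀ ∧ IsUnit R.det := by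
  have hP : (1 + A * Aᵀ).PosDef := by
    have h1 : (A * Aᵀ).PosSemidef := by
      have := Matrix.posSemidef_self_mul_conjTranspose A
      rwa [conjTranspose_eq_transpose_of_trivial] at this
    exact Matrix.PosDef.one.add_posSemidef h1
  obtain ⟨B, hB⟩ := CStarAlgebra.nonneg_iff_eq_star_mul_self.mp hP.posSemidef.nonneg
  refine ⟨Bᵀ, ?_, ?_⟩
  · rw [hB, Matrix.transpose_transpose]
    rfl
  · have h2 := hP.det_pos
    rw [hB] at h2
    rw [det_transpose]
    rw [isUnit_iff_ne_zero]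
    intro h0
    rw [det_mul, h0, mul_zero] at h2
    exact lt_irrefl _ h2

theorem tr_nonneg (N : Matrix (Fin 6) (Fin 6) ℝ) : 0 ≤ (N * Nᵀ).trace := by
  have := (Matrix.posSemidef_self_mul_conjTranspose N).trace_nonneg
  rwa [conjTranspose_eq_transpose_of_trivial] at this

theorem cal_core (h w k : ℝ) (h1 : h + w = 6) (hk : k ^ 2 ≤ h * w) (_ : 0 ≤ h) (_ : 0 ≤ w)
    (a b c d : ℝ) (ha : |a| ≤ (h / 6) ^ 3) (hb : |b| ≤ (w / 6) ^ 3)
    (hc : |c| ≤ ((h + 2 * k + w) / 6) ^ 3) (hd : |d| ≤ ((h - 2 * k + w) / 6) ^ 3) :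
    |(4 / 5) * (a + b) + (1 / 10) * (c + d)| ≤ 1 := by
  have hw' : w = 6 - h := by linarith
  subst hw'
  have e1 : |(4 / 5) * (a + b) + (1 / 10) * (c + d)|
      ≤ (4 / 5) * (|a| + |b|) + (1 / 10) * (|c| + |d|) := by
    refine (abs_add_le _ _).trans ?_
    rw [abs_mul, abs_mul, abs_of_pos (by norm_num : (0 : ℝ) < 4 / 5),
      abs_of_pos (by norm_num : (0 : ℝ) < 1 / 10)]
    have := abs_add_le a b
    have := abs_add_le c d
    linarith
  refine e1.trans ?_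
  have e2 : (h / 6) ^ 3 + ((6 - h) / 6) ^ 3 = 1 / 4 + (3 / 4) * ((h - 3) / 3) ^ 2 := by ring
  have e3 : ((h + 2 * k + (6 - h)) / 6) ^ 3 + ((h - 2 * k + (6 - h)) / 6) ^ 3
      = 2 + 6 * (k / 3) ^ 2 := by ring
  have e4 : ((h - 3) / 3) ^ 2 + (k / 3) ^ 2 ≤ 1 := by nlinarith
  nlinarith

theorem cal_le (A : Matrix (Fin 6) (Fin 6) ℝ) :
    |(4 / 5) * (1 + A.det) + (1 / 10) * ((1 + A).det + (1 - A).det)|
      ≤ Real.sqrt (1 + A * Aᵀ).det := by
  obtain ⟨R, hR, hu⟩ := exists_fac A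
  have hRi : R⁻¹ * R = 1 := Matrix.nonsing_inv_mul R hu
  have hRi2 : R * R⁻¹ = 1 := Matrix.mul_nonsing_inv R hu
  set H := R⁻¹ with hH
  set W := R⁻¹ * A with hW
  have hHW : H * Hᵀ + W * Wᵀ = 1 := by
    have e : H * Hᵀ + W * Wᵀ = R⁻¹ * (1 + A * Aᵀ) * (R⁻¹)ᵀ := by
      rw [hW, hH, transpose_mul]
      noncomm_ring
    rw [e, hR]
    have e2 : R⁻¹ * (R * Rᵀ) * (R⁻¹)ᵀ = (R⁻¹ * R) * (R⁻¹ * R)ᵀ := by
      rw [transpose_mul]; noncomm_ring
    rw [e2, hRi]; simp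
  have ht := congrArg Matrix.trace hHW
  rw [trace_add, trace_one] at ht
  have hRH : R.det * H.det = 1 := by rw [← det_mul, hRi2, det_one]
  have hk1 : (W * Hᵀ).trace = (H * Wᵀ).trace := by
    rw [← trace_transpose, transpose_mul, transpose_transpose]
  have hpl : ((H + W) * (H + W)ᵀ).trace
      = (H * Hᵀ).trace + 2 * (H * Wᵀ).trace + (W * Wᵀ).trace := by
    have : (H + W) * (H + W)ᵀ = H * Hᵀ + H * Wᵀ + W * Hᵀ + W * Wᵀ := by
      rw [transpose_add]; noncomm_ring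
    rw [this, trace_add, trace_add, trace_add, hk1]; ring
  have hmi : ((H - W) * (H - W)ᵀ).trace
      = (H * Hᵀ).trace - 2 * (H * Wᵀ).trace + (W * Wᵀ).trace := by
    have : (H - W) * (H - W)ᵀ = H * Hᵀ - H * Wᵀ - W * Hᵀ + W * Wᵀ := by
      rw [transpose_sub]; noncomm_ring
    rw [this, trace_add, trace_sub, trace_sub, hk1]; ring
  have hdisc : (H * Wᵀ).trace ^ 2 ≤ (H * Hᵀ).trace * (W * Wᵀ).trace := by
    have hq : ∀ t : ℝ, 0 ≤ (H * Hᵀ).trace * (t * t) + (2 * (H * Wᵀ).trace) * t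
        + (W * Wᵀ).trace := by
      intro t
      have h1 := tr_nonneg (t • H + W)
      have h2 : (t • H + W) * (t • H + W)ᵀ
          = (t * t) • (H * Hᵀ) + t • (H * Wᵀ) + t • (W * Hᵀ) + W * Wᵀ := by
        rw [transpose_add, transpose_smul]
        simp only [add_mul, mul_add, smul_mul_assoc, mul_smul_comm, smul_smul, smul_add]
        abel
      rw [h2, trace_add, trace_add, trace_add, trace_smul, trace_smul, trace_smul, hk1] at h1
      simp only [smul_eq_mul] at h1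
      linarith
    have := discrim_le_zero hq
    unfold discrim at this
    nlinarith
  have hcore := cal_core _ _ _ (by simpa using ht) hdisc (tr_nonneg H) (tr_nonneg W)
    H.det W.det (H + W).det (H - W).det (abs_det_le H) (abs_det_le W)
    (by rw [← hpl]; exact abs_det_le _) (by rw [← hmi]; exact abs_det_le _)
  have hA : A = R * W := by rw [hW, ← Matrix.mul_assoc, hRi2, Matrix.one_mul]
  have h1A : 1 + A = R * (H + W) := by rw [mul_add, ← hA, hRi2]
  have h1A' : 1 - A = R * (H - W) := by rw [mul_sub, ← hA, hRi2]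
  have hs : Real.sqrt (1 + A * Aᵀ).det = |R.det| := by
    rw [hR, det_mul, det_transpose, Real.sqrt_mul_self_eq_abs]
  rw [hs, h1A, h1A', det_mul, det_mul]
  have hAd : A.det = R.det * W.det := by rw [← det_mul, ← hA]
  have : (4 / 5) * (1 + A.det) + (1 / 10) * (R.det * (H + W).det + R.det * (H - W).det)
      = R.det * ((4 / 5) * (H.det + W.det) + (1 / 10) * ((H + W).det + (H - W).det)) := by
    rw [hAd, ← hRH]; ring
  rw [this, abs_mul]
  calc |R.det| * _ ≤ |R.det| * 1 := mul_le_mul_of_nonneg_left hcore (abs_nonneg _)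
    _ = |R.det| := mul_one _

theorem row_bound (N N' : Matrix (Fin 6) (Fin 6) ℝ) (K : ℝ)
    (h : N * Nᵀ + N' * N'ᵀ = (K ^ 2) • (1 : Matrix (Fin 6) (Fin 6) ℝ)) (hK : 0 ≤ K)
    (i j : Fin 6) : |N i j| ≤ K := by
  have h1 := congrFun (congrFun h i) i
  simp only [Matrix.add_apply, Matrix.mul_apply, Matrix.transpose_apply, Matrix.smul_apply,
    Matrix.one_apply_eq, smul_eq_mul, mul_one] at h1
  have h2 : N i j * N i j ≤ ∑ x, N i x * N i x :=
    Finset.single_le_sum (f := fun x => N i x * N i x) (fun x _ => mul_self_nonneg _)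
      (Finset.mem_univ j)
  have h3 : 0 ≤ ∑ x, N' i x * N' i x := Finset.sum_nonneg fun x _ => mul_self_nonneg _
  refine abs_le_of_sq_le_sq ?_ hK
  nlinarith

theorem adj_bound (N : Matrix (Fin 6) (Fin 6) ℝ) (K : ℝ) (hK : 1 ≤ K)
    (h : ∀ i j, |N i j| ≤ K) (i j : Fin 6) : |N.adjugate i j| ≤ 720 * K ^ 6 := by
  rw [Matrix.adjugate_apply]
  have h1 := Matrix.det_le (A := N.updateRow j (Pi.single i 1))
    (abv := (AbsoluteValue.abs : AbsoluteValue ℝ ℝ)) (x := K) (fun a b => by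
      rw [Matrix.updateRow_apply]
      split_ifs with hab
      · rw [Pi.single_apply]
        split_ifs
        · simpa using hK
        · simp; linarith
      · exact h a b)
  have h2 : (Nat.factorial (Fintype.card (Fin 6)) : ℕ) = 720 := by
    simp [Nat.factorial]
  rw [h2] at h1
  simpa using h1

/-- the matrix determinant lemma for the identity -/
theorem det_one_add_vec (y : Fin 6 → ℝ) : (1 + Matrix.vecMulVec y y).det = 1 + y ⬝ᵥ y := by
  have := Matrix.det_one_add_replicateCol_mul_replicateRow (ι := Unit) y y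
  rwa [← Matrix.vecMulVec_eq] at this

theorem amgm2 (x y κ : ℝ) (hx : 0 ≤ x) (hy : 0 ≤ y) (hκ : 0 < κ) (w : ℝ)
    (hw : w ^ 2 ≤ 2 * x * y) : w ≤ κ * x + y / (2 * κ) := by
  have h1 : 0 ≤ κ * x + y / (2 * κ) := by positivity
  refine le_of_sq_le_sq ?_ h1 |> fun h => h
  have h2 : (κ * x + y / (2 * κ)) ^ 2 = (κ * x - y / (2 * κ)) ^ 2 + 2 * x * y := by
    field_simp
    ring
  rw [h2]
  nlinarith [sq_nonneg (κ * x - y / (2 * κ))]

/-- the calibrating expression -/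
noncomputable def calf (A : Matrix (Fin 6) (Fin 6) ℝ) : ℝ :=
  (4 / 5) * (1 + A.det) + (1 / 10) * ((1 + A).det + (1 - A).det)

theorem pw1 (A : Matrix (Fin 6) (Fin 6) ℝ) (a : Fin 6 → ℝ) (τ κ : ℝ) (hκ : 0 < κ) (i : Fin 6) :
    |((1 + τ • A).adjugate *ᵥ a) i| ≤ 4320 * (1 + τ ^ 2) ^ 3 *
      (κ * Real.sqrt (1 + A * Aᵀ + Matrix.vecMulVec a a).det
        + (Real.sqrt (1 + A * Aᵀ + Matrix.vecMulVec a a).det - calf A) / (2 * κ)) := by
  obtain ⟨R, hR, hu⟩ := exists_fac A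
  have hRi : R⁻¹ * R = 1 := Matrix.nonsing_inv_mul R hu
  have hRi2 : R * R⁻¹ = 1 := Matrix.mul_nonsing_inv R hu
  set B := 1 + τ • A with hB
  set B' := A - τ • (1 : Matrix (Fin 6) (Fin 6) ℝ) with hB'
  set N := R⁻¹ * B with hN
  set N' := R⁻¹ * B' with hN'
  set y := R⁻¹ *ᵥ a with hy
  have hay : R *ᵥ y = a := by rw [hy, Matrix.mulVec_mulVec, hRi2, Matrix.one_mulVec]
  have hBB : B * Bᵀ + B' * B'ᵀ = (1 + τ ^ 2) • (1 + A * Aᵀ) := by
    rw [hB, hB', transpose_add, transpose_sub, transpose_smul, transpose_smul, transpose_one]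
    simp only [add_mul, mul_add, sub_mul, mul_sub, smul_mul_assoc, mul_smul_comm, smul_smul,
      smul_add, one_mul, mul_one, add_smul, one_smul, smul_sub, sq]
    abel
  have hK2 : (Real.sqrt (1 + τ ^ 2)) ^ 2 = 1 + τ ^ 2 := Real.sq_sqrt (by positivity)
  have hNN : N * Nᵀ + N' * N'ᵀ
      = ((Real.sqrt (1 + τ ^ 2)) ^ 2) • (1 : Matrix (Fin 6) (Fin 6) ℝ) := by
    have e : N * Nᵀ + N' * N'ᵀ = R⁻¹ * (B * Bᵀ + B' * B'ᵀ) * (R⁻¹)ᵀ := by
      rw [hN, hN', transpose_mul, transpose_mul]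
      noncomm_ring
    rw [e, hBB, hR, hK2]
    have e2 : R⁻¹ * ((1 + τ ^ 2) • (R * Rᵀ)) * (R⁻¹)ᵀ
        = (1 + τ ^ 2) • ((R⁻¹ * R) * (R⁻¹ * R)ᵀ) := by
      rw [transpose_mul, Matrix.mul_smul, Matrix.smul_mul]
      congr 1
      noncomm_ring
    rw [e2, hRi]; simp
  have hK1 : 1 ≤ Real.sqrt (1 + τ ^ 2) := by
    rw [Real.one_le_sqrt]
    nlinarith [sq_nonneg τ]
  have hNb : ∀ i j, |N i j| ≤ Real.sqrt (1 + τ ^ 2) :=
    row_bound N N' _ hNN (Real.sqrt_nonneg _)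
  have hadj : ∀ i j, |N.adjugate i j| ≤ 720 * (1 + τ ^ 2) ^ 3 := by
    intro i j
    refine (adj_bound N _ hK1 hNb i j).trans (le_of_eq ?_)
    rw [show (Real.sqrt (1 + τ ^ 2)) ^ 6 = ((Real.sqrt (1 + τ ^ 2)) ^ 2) ^ 3 by ring, hK2]
  have hBN : B = R * N := by rw [hN, ← Matrix.mul_assoc, hRi2, Matrix.one_mul]
  have hadjR : R.adjugate *ᵥ a = R.det • y := by
    have : R.adjugate = R.det • R⁻¹ := by
      rw [Matrix.inv_def, smul_smul, Ring.mul_inverse_cancel _ hu, one_smul]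
    rw [this, Matrix.smul_mulVec, hy]
  have hv : B.adjugate *ᵥ a = N.adjugate *ᵥ (R.det • y) := by
    rw [hBN, Matrix.adjugate_mul_distrib, ← Matrix.mulVec_mulVec, hadjR]
  set Q := (1 + A * Aᵀ + Matrix.vecMulVec a a).det with hQ
  have hQe : Q = R.det ^ 2 * (1 + y ⬝ᵥ y) := by
    have e : 1 + A * Aᵀ + Matrix.vecMulVec a a = R * (1 + Matrix.vecMulVec y y) * Rᵀ := by
      rw [hR, mul_add, add_mul, mul_one]
      congr 1
      rw [Matrix.mul_vecMulVec, hay, Matrix.vecMulVec_mul, Matrix.vecMul_transpose, hay]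
    rw [hQ, e, det_mul, det_mul, det_transpose, det_one_add_vec]
    ring
  have hyy : 0 ≤ y ⬝ᵥ y := by
    rw [dotProduct]; exact Finset.sum_nonneg fun i _ => mul_self_nonneg _
  have hQn : 0 ≤ Q := by rw [hQe]; positivity
  set f := Real.sqrt Q with hf
  have hf2 : f ^ 2 = Q := Real.sq_sqrt hQn
  have hfn : 0 ≤ f := Real.sqrt_nonneg _
  have hcal : calf A ≤ |R.det| := by
    have := (abs_le.1 (cal_le A)).2
    rw [hR, det_mul, det_transpose, Real.sqrt_mul_self_eq_abs] at this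
    exact this
  have hRf : |R.det| ≤ f := by
    refine Real.le_sqrt_of_sq_le ?_
    rw [sq_abs, hQe]
    nlinarith [sq_nonneg R.det]
  have hcf : 0 ≤ f - calf A := by linarith
  have hcomp : ∀ j, |R.det * y j| ≤ κ * f + (f - calf A) / (2 * κ) := by
    intro j
    refine amgm2 f (f - calf A) κ hfn hcf hκ _ ?_
    have h1 : y j * y j ≤ y ⬝ᵥ y :=
      Finset.single_le_sum (f := fun x => y x * y x) (fun x _ => mul_self_nonneg _)
        (Finset.mem_univ j)
    rw [sq_abs]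
    have h2 : (R.det * y j) ^ 2 ≤ f ^ 2 - |R.det| ^ 2 := by
      rw [hf2, hQe, sq_abs]
      nlinarith [sq_nonneg R.det]
    refine h2.trans ?_
    have h3 : f ^ 2 - |R.det| ^ 2 = (f - |R.det|) * (f + |R.det|) := by ring
    rw [h3]
    have h4 : 0 ≤ |R.det| := abs_nonneg _
    nlinarith
  rw [hv]
  set M := κ * f + (f - calf A) / (2 * κ) with hM
  have hM0 : 0 ≤ M := (abs_nonneg _).trans (hcomp 0)
  calc |(N.adjugate *ᵥ (R.det • y)) i|
      = |∑ j, N.adjugate i j * (R.det * y j)| := by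
        rw [Matrix.mulVec, dotProduct]
        simp
    _ ≤ ∑ j, |N.adjugate i j * (R.det * y j)| := Finset.abs_sum_le_sum_abs _ _
    _ ≤ ∑ _j : Fin 6, 720 * (1 + τ ^ 2) ^ 3 * M := by
        refine Finset.sum_le_sum fun j _ => ?_
        rw [abs_mul]
        exact mul_le_mul (hadj i j) (hcomp j) (abs_nonneg _) (by positivity)
    _ = 4320 * (1 + τ ^ 2) ^ 3 * M := by
        simp; ring

end Pool.Agent.Helper28
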