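import Pool.Agent.Helper28.Haar
import Pool.Agent.Helper28.Cal

set_option linter.unusedSectionVars false
open Matrix

namespace Pool.Agent.Helper28

/-- the standing algebraic relations at a point of the sphere -/
structure Adm (x V : EuclideanSpace ℝ (Fin 8)) (G : Matrix (Fin 8) (Fin 8) ℝ) : Prop where
  hx : ‖x‖ = 1
  hV : ‖V‖ = 1
  hxV : inner ℝ x V = 0
  Gx : G *ᵥ x.ofLp = 0
  xG : x.ofLp ᵥ* G = 0
  VG : V.ofLp ᵥ* G = 0

theorem adj_conj (O M : Matrix (Fin 8) (Fin 8) ℝ) (hO : Oᵀ * O = 1) :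
    (O * M * Oᵀ).adjugate = O * M.adjugate * Oᵀ := by
  have hO' : O * Oᵀ = 1 := mul_eq_one_comm.mp hO
  have hd : O.det * O.det = 1 := by
    have := congrArg Matrix.det hO
    rwa [det_mul, det_transpose, det_one] at this
  have hu : IsUnit O.det := IsUnit.of_mul_eq_one _ hd
  have h1 : O⁻¹ = Oᵀ := Matrix.inv_eq_left_inv hO
  have h2 : O.adjugate = O.det • Oᵀ := by
    rw [← h1, Matrix.inv_def, smul_smul, Ring.mul_inverse_cancel _ hu, one_smul]
  have h3 : Oᵀ.adjugate = O.det • O := by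
    rw [← adjugate_transpose, h2, transpose_smul, transpose_transpose]
  rw [adjugate_mul_distrib, adjugate_mul_distrib, h2, h3]
  simp only [Matrix.smul_mul, Matrix.mul_smul, smul_smul, hd, one_smul, Matrix.mul_assoc]

theorem adj_block (s : ℝ) (C : Matrix (Fin 6) (Fin 2) ℝ) (A : Matrix (Fin 6) (Fin 6) ℝ)
    (a : Fin 6 → ℝ) :
    (fromBlocks 1 0 (s • C) (1 + s • A)).adjugate *ᵥ (Sum.elim (0 : Fin 2 → ℝ) a)
      = Sum.elim (0 : Fin 2 → ℝ) ((1 + s • A).adjugate *ᵥ a) := by
  rw [← cramer_eq_adjugate_mulVec, ← cramer_eq_adjugate_mulVec]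
  funext i
  rcases i with i | i
  · rw [cramer_apply]
    have : (fromBlocks 1 0 (s • C) (1 + s • A)).updateCol (Sum.inl i) (Sum.elim (0 : Fin 2 → ℝ) a)
        = fromBlocks ((1 : Matrix (Fin 2) (Fin 2) ℝ).updateCol i 0) 0
          ((s • C).updateCol i a) (1 + s • A) := by
      ext p q
      rcases p with p | p <;> rcases q with q | q <;>
        simp [Matrix.updateCol_apply]
    rw [this, det_fromBlocks_zero₁₂]
    have h0 : ((1 : Matrix (Fin 2) (Fin 2) ℝ).updateCol i 0).det = 0 := by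
      apply det_eq_zero_of_column_eq_zero i
      intro j
      simp
    rw [h0]; simp
  · rw [cramer_apply]
    have : (fromBlocks 1 0 (s • C) (1 + s • A)).updateCol (Sum.inr i) (Sum.elim (0 : Fin 2 → ℝ) a)
        = fromBlocks (1 : Matrix (Fin 2) (Fin 2) ℝ) 0
          (s • C) ((1 + s • A).updateCol i a) := by
      ext p q
      rcases p with p | p <;> rcases q with q | q <;>
        simp [Matrix.updateCol_apply]
    rw [this, det_fromBlocks_zero₁₂]
    simp [cramer_apply]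

theorem adapt (x V : EuclideanSpace ℝ (Fin 8)) (G : Matrix (Fin 8) (Fin 8) ℝ) (h : Adm x V G) :
    ∃ (A : Matrix (Fin 6) (Fin 6) ℝ) (a : Fin 6 → ℝ) (U : Matrix (Fin 6) (Fin 8) ℝ),
      (∀ s : ℝ, (1 + s • G).det = (1 + s • A).det) ∧
      (∀ r : ℝ, (1 + (r ^ 2) • (Gᵀ * G)).det
        = (1 + (r ^ 2) • (A * Aᵀ) + (r ^ 2) • Matrix.vecMulVec a a).det) ∧
      (∀ (s : ℝ) (e : Fin 8 → ℝ), e ⬝ᵥ ((1 + s • G).adjugate *ᵥ (G *ᵥ V.ofLp))
        = (U *ᵥ e) ⬝ᵥ ((1 + s • A).adjugate *ᵥ a)) ∧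
      (∀ (e : Fin 8 → ℝ) (i : Fin 6), ((U *ᵥ e) i) ^ 2 ≤ e ⬝ᵥ e) := by
  obtain ⟨b, hb0, hb1⟩ := exists_onb2 (n := 6) (E := EuclideanSpace ℝ (Fin 8)) (by simp) x V
    h.hx h.hV h.hxV
  set O : Matrix (Fin 8) (Fin 8) ℝ := Matrix.of fun i j => (b j).ofLp i with hOdef
  have hO : Oᵀ * O = 1 := by
    ext i j
    rw [Matrix.mul_apply]
    have h1 := orthonormal_iff_ite.1 b.orthonormal j i
    rw [PiLp.inner_apply] at h1
    simp only [RCLike.inner_apply, conj_trivial] at h1
    rw [Matrix.one_apply]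
    have h2 : (if j = i then (1 : ℝ) else 0) = if i = j then 1 else 0 := by
      by_cases hij : i = j
      · simp [hij]
      · rw [if_neg hij, if_neg (fun hh => hij hh.symm)]
    rw [← h2, ← h1]
    rfl
  have hO' : O * Oᵀ = 1 := mul_eq_one_comm.mp hO
  set G1 := Oᵀ * G * O with hG1
  have hG : G = O * G1 * Oᵀ := by
    rw [hG1]
    calc G = (O * Oᵀ) * G * (O * Oᵀ) := by rw [hO']; simp
      _ = O * (Oᵀ * G * O) * Oᵀ := by simp only [Matrix.mul_assoc]
  have hG1e : ∀ i j, G1 i j = (b i).ofLp ⬝ᵥ (G *ᵥ (b j).ofLp) := by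
    intro i j
    rw [hG1, Matrix.mul_assoc, Matrix.mul_apply]
    rfl
  have hG1e' : ∀ i j, G1 i j = ((b i).ofLp ᵥ* G) ⬝ᵥ (b j).ofLp := by
    intro i j
    rw [hG1e, Matrix.dotProduct_mulVec]
  have r0 : ∀ j, G1 0 j = 0 := fun j => by rw [hG1e', hb0, h.xG, zero_dotProduct]
  have r1 : ∀ j, G1 1 j = 0 := fun j => by rw [hG1e', hb1, h.VG, zero_dotProduct]
  have c0 : ∀ i, G1 i 0 = 0 := fun i => by rw [hG1e, hb0, h.Gx, dotProduct_zero]
  set e : Fin 2 ⊕ Fin 6 ≃ Fin 8 := finSumFinEquiv with he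
  have e0 : e (Sum.inl 0) = 0 := rfl
  have e1 : e (Sum.inl 1) = 1 := rfl
  set A : Matrix (Fin 6) (Fin 6) ℝ := Matrix.of fun i j => G1 (e (Sum.inr i)) (e (Sum.inr j))
    with hA
  set C : Matrix (Fin 6) (Fin 2) ℝ := Matrix.of fun i j => G1 (e (Sum.inr i)) (e (Sum.inl j))
    with hC
  set a : Fin 6 → ℝ := fun i => G1 (e (Sum.inr i)) 1 with ha
  have hblk : G1.submatrix e e = fromBlocks 0 0 C A := by
    ext p q
    rcases p with p | p
    · rcases q with q | q
      · fin_cases p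
        · exact r0 _
        · exact r1 _
      · fin_cases p
        · exact r0 _
        · exact r1 _
    · rcases q with q | q
      · rfl
      · rfl
  have hCC : C * Cᵀ = Matrix.vecMulVec a a := by
    ext i j
    rw [Matrix.mul_apply, Fin.sum_univ_two, Matrix.vecMulVec_apply]
    have h1 : C i 0 = 0 := c0 _
    rw [h1, zero_mul, zero_add]
    rfl
  have hdetO : O.det * Oᵀ.det = 1 := by rw [← det_mul, hO', det_one]
  have hdet : ∀ M : Matrix (Fin 8) (Fin 8) ℝ, (1 + O * M * Oᵀ).det = (1 + M).det := by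
    intro M
    have : 1 + O * M * Oᵀ = O * (1 + M) * Oᵀ := by
      rw [mul_add, add_mul, mul_one, hO']
    rw [this, det_mul, det_mul]
    calc O.det * (1 + M).det * Oᵀ.det = (O.det * Oᵀ.det) * (1 + M).det := by ring
      _ = (1 + M).det := by rw [hdetO, one_mul]
  have hsub : ∀ s : ℝ, (1 + s • G1).submatrix e e = fromBlocks 1 0 (s • C) (1 + s • A) := by
    intro s
    have : (1 + s • G1).submatrix e e = 1 + s • (G1.submatrix e e) := by
      ext p q
      simp [Matrix.one_apply]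
    rw [this, hblk, ← Matrix.fromBlocks_one, Matrix.fromBlocks_smul, Matrix.fromBlocks_add]
    simp
  refine ⟨A, a, Matrix.of fun i k => O k (e (Sum.inr i)), ?_, ?_, ?_, ?_⟩
  · intro s
    have : s • G = O * (s • G1) * Oᵀ := by
      rw [Matrix.mul_smul, Matrix.smul_mul, ← hG]
    rw [this, hdet, ← Matrix.det_submatrix_equiv_self e, hsub, det_fromBlocks_zero₁₂, det_one,
      one_mul]
  · intro r
    have h1 : (r ^ 2) • (Gᵀ * G) = O * (((r ^ 2) • G1ᵀ) * G1) * Oᵀ := by
      have : Gᵀ * G = O * (G1ᵀ * G1) * Oᵀ := by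
        rw [hG, transpose_mul, transpose_mul, transpose_transpose]
        calc O * (G1ᵀ * Oᵀ) * (O * G1 * Oᵀ) = O * G1ᵀ * (Oᵀ * O) * G1 * Oᵀ := by
              simp only [Matrix.mul_assoc]
          _ = O * (G1ᵀ * G1) * Oᵀ := by rw [hO]; simp only [Matrix.mul_assoc, Matrix.one_mul]
      rw [this, Matrix.smul_mul, Matrix.mul_smul, Matrix.smul_mul]
    rw [h1, hdet, det_one_add_mul_comm, ← Matrix.det_submatrix_equiv_self e]
    have h2 : (1 + G1 * (r ^ 2) • G1ᵀ).submatrix e e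
        = fromBlocks 1 0 0 (1 + (r ^ 2) • (A * Aᵀ) + (r ^ 2) • Matrix.vecMulVec a a) := by
      have h3 : (1 + G1 * (r ^ 2) • G1ᵀ).submatrix e e
          = 1 + (r ^ 2) • ((G1.submatrix e e) * (G1.submatrix e e)ᵀ) := by
        rw [Matrix.transpose_submatrix, Matrix.submatrix_mul_equiv, Matrix.mul_smul]
        ext p q
        simp [Matrix.one_apply]
      rw [h3, hblk, Matrix.fromBlocks_transpose, Matrix.fromBlocks_multiply,
        Matrix.fromBlocks_smul, ← Matrix.fromBlocks_one, Matrix.fromBlocks_add]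
      congr 1
      · simp
      · simp
      · simp
      · simp only [hCC, smul_add]
        abel
    rw [h2, det_fromBlocks_zero₁₂, det_one, one_mul]
  · intro s w
    have h1 : 1 + s • G = O * (1 + s • G1) * Oᵀ := by
      rw [mul_add, add_mul, mul_one, hO', Matrix.mul_smul, Matrix.smul_mul, ← hG]
    rw [h1, adj_conj O _ hO]
    set c : Fin 8 → ℝ := fun k => G1 k 1 with hc
    have h2 : Oᵀ *ᵥ (G *ᵥ V.ofLp) = c := by
      funext k
      rw [hc]
      simp only
      rw [hG1e, hb1]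
      rfl
    have h3 : c ∘ e = Sum.elim (0 : Fin 2 → ℝ) a := by
      funext p
      rcases p with p | p
      · fin_cases p
        · exact r0 1
        · exact r1 1
      · rfl
    have h4 : ((1 + s • G1).adjugate *ᵥ c) ∘ e
        = Sum.elim (0 : Fin 2 → ℝ) ((1 + s • A).adjugate *ᵥ a) := by
      rw [← adj_block s C A a, ← h3, ← hsub, Matrix.adjugate_submatrix_equiv_self]
      funext p
      simp only [Function.comp_apply, Matrix.mulVec, dotProduct, Matrix.submatrix_apply]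
      rw [← e.sum_comp]
    rw [← Matrix.mulVec_mulVec, ← Matrix.mulVec_mulVec, h2, Matrix.dotProduct_mulVec]
    have h5 : (w ᵥ* O) ⬝ᵥ ((1 + s • G1).adjugate *ᵥ c)
        = ∑ p, (w ᵥ* O) (e p) * (((1 + s • G1).adjugate *ᵥ c) ∘ e) p := by
      rw [dotProduct, ← e.sum_comp]
      rfl
    rw [h5, h4, Fintype.sum_sum_type]
    simp only [Sum.elim_inl, Sum.elim_inr, Pi.zero_apply, mul_zero, Finset.sum_const_zero,
      zero_add]
    rw [dotProduct]
    refine Finset.sum_congr rfl fun i _ => ?_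
    congr 1
    simp only [Matrix.vecMul, Matrix.mulVec, dotProduct, Matrix.of_apply]
    exact Finset.sum_congr rfl fun k _ => mul_comm _ _
  · intro w i
    set k := e (Sum.inr i) with hk
    have h1 : ((Matrix.of fun i k => O k (e (Sum.inr i))) *ᵥ w) i = ∑ l, (b k).ofLp l * w l := rfl
    rw [h1]
    have h2 := Finset.sum_mul_sq_le_sq_mul_sq Finset.univ (fun l => (b k).ofLp l) w
    have h3 : ∑ l, (b k).ofLp l ^ 2 = 1 := by
      have := EuclideanSpace.norm_sq_eq (b k)
      rw [b.norm_eq_one] at this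
      simp only [Real.norm_eq_abs, sq_abs, one_pow] at this
      exact this.symm
    rw [h3, one_mul] at h2
    refine h2.trans (le_of_eq ?_)
    rw [dotProduct]
    exact Finset.sum_congr rfl fun l _ => sq _

end Pool.Agent.Helper28
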