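import Pool.Agent.Helper28.Adapt

set_option linter.unusedSectionVars false
open Matrix Polynomial

namespace Pool.Agent.Helper28

theorem det_pol (A B : Matrix (Fin 6) (Fin 6) ℝ) :
    ∃ p : ℝ[X], p.natDegree ≤ 6 ∧ (∀ s : ℝ, (B + s • A).det = p.eval s) ∧ p.coeff 6 = A.det := by
  refine ⟨det ((X : ℝ[X]) • A.map C + B.map C), ?_, ?_, ?_⟩
  · simpa using natDegree_det_X_add_C_le A B
  · intro s
    rw [← Polynomial.coe_evalRingHom, RingHom.map_det]
    congr 1
    ext i j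
    simp [add_comm]
    exact mul_comm _ _
  · simpa using coeff_det_X_add_C_card A B

theorem adj_pol (A : Matrix (Fin 6) (Fin 6) ℝ) (a u : Fin 6 → ℝ) :
    ∃ p : ℝ[X], p.natDegree ≤ 6 ∧
      ∀ s : ℝ, u ⬝ᵥ ((1 + s • A).adjugate *ᵥ a) = p.eval s := by
  have h1 : ∀ i : Fin 6, ∃ p : ℝ[X], p.natDegree ≤ 6 ∧
      ∀ s : ℝ, ((1 + s • A).adjugate *ᵥ a) i = p.eval s := by
    intro i
    obtain ⟨p, hp, hp2, -⟩ := det_pol (A.updateCol i 0) ((1 : Matrix (Fin 6) (Fin 6) ℝ).updateCol i a)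
    refine ⟨p, hp, fun s => ?_⟩
    rw [← hp2, ← cramer_eq_adjugate_mulVec, cramer_apply]
    congr 1
    ext k l
    by_cases hl : l = i
    · subst hl; simp
    · simp [hl]
  choose p hp hp2 using h1
  refine ⟨∑ i, Polynomial.C (u i) * p i, ?_, fun s => ?_⟩
  · refine Polynomial.natDegree_sum_le_of_forall_le _ _ fun i _ => ?_
    exact (Polynomial.natDegree_C_mul_le _ _).trans (hp i)
  · rw [Polynomial.eval_finsetSum, dotProduct]
    refine Finset.sum_congr rfl fun i _ => ?_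
    rw [hp2]; simp

theorem one_add_sum_le {ι : Type*} (s : Finset ι) (f : ι → ℝ) (hf : ∀ i, 0 ≤ f i) :
    1 + ∑ i ∈ s, f i ≤ ∏ i ∈ s, (1 + f i) := by
  classical
  induction s using Finset.induction_on with
  | empty => simp
  | insert a s ha ih =>
    rw [Finset.sum_insert ha, Finset.prod_insert ha]
    have h1 := hf a
    have h2 : 0 ≤ ∑ i ∈ s, f i := Finset.sum_nonneg fun i _ => hf i
    nlinarith [mul_nonneg h1 h2, mul_le_mul_of_nonneg_left ih h1]

theorem det_one_add_ge {n : ℕ} (P : Matrix (Fin n) (Fin n) ℝ) (hP : P.PosSemidef) :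
    1 + P.trace ≤ (1 + P).det := by
  have hH := hP.1
  have hnn : ∀ i, 0 ≤ hH.eigenvalues i := fun i => hP.eigenvalues_nonneg i
  have h2 : P.trace = ∑ i, hH.eigenvalues i := by
    simpa using hH.trace_eq_sum_eigenvalues
  have h1 : (1 + P).det = ∏ i, (1 + hH.eigenvalues i) := by
    have hs := hH.spectral_theorem
    set U := hH.eigenvectorUnitary with hU
    have hU1 : (U : Matrix (Fin n) (Fin n) ℝ) * star (U : Matrix (Fin n) (Fin n) ℝ) = 1 :=
      Unitary.mul_star_self_of_mem U.2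
    have e : 1 + P = (U : Matrix (Fin n) (Fin n) ℝ)
        * Matrix.diagonal (fun i => 1 + hH.eigenvalues i)
        * star (U : Matrix (Fin n) (Fin n) ℝ) := by
      have hD : Matrix.diagonal (fun i => 1 + hH.eigenvalues i)
          = 1 + Matrix.diagonal hH.eigenvalues := by
        rw [← Matrix.diagonal_one, Matrix.diagonal_add]
      rw [hD, mul_add, add_mul, mul_one, hU1]
      congr 1
    rw [e, det_mul, det_mul, det_diagonal]
    have hd := congrArg Matrix.det hU1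
    rw [det_mul, det_one] at hd
    calc (U : Matrix (Fin n) (Fin n) ℝ).det * (∏ i, (1 + hH.eigenvalues i))
        * (star (U : Matrix (Fin n) (Fin n) ℝ)).det
        = ((U : Matrix (Fin n) (Fin n) ℝ).det * (star (U : Matrix (Fin n) (Fin n) ℝ)).det)
          * (∏ i, (1 + hH.eigenvalues i)) := by ring
      _ = _ := by rw [hd, one_mul]
  rw [h1, h2]
  exact one_add_sum_le _ _ hnn

/-- constant in the pointwise bound -/
noncomputable def Cst (r s : ℝ) : ℝ := 6 * (1 / r) * (4320 * (1 + (s / r) ^ 2) ^ 3)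

theorem Cst_nonneg (r s : ℝ) (hr : 0 < r) : 0 ≤ Cst r s := by
  unfold Cst; positivity

theorem pw_main (x V : EuclideanSpace ℝ (Fin 8)) (G : Matrix (Fin 8) (Fin 8) ℝ) (h : Adm x V G)
    (r : ℝ) (hr : 0 < r) :
    (∃ p : ℝ[X], p.natDegree ≤ 6 ∧ (∀ s : ℝ, (1 + s • G).det = p.eval s) ∧
      (4 / 5) * (1 + r ^ 6 * p.coeff 6) + (1 / 10) * ((1 + r • G).det + (1 + (-r) • G).det)
        ≤ Real.sqrt (1 + (r ^ 2) • (Gᵀ * G)).det ∧
      ∀ (s κ : ℝ) (w : Fin 8 → ℝ), 0 < κ → w ⬝ᵥ w ≤ 1 →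
        |w ⬝ᵥ ((1 + s • G).adjugate *ᵥ (G *ᵥ V.ofLp))| ≤ Cst r s *
          (κ * Real.sqrt (1 + (r ^ 2) • (Gᵀ * G)).det
            + (Real.sqrt (1 + (r ^ 2) • (Gᵀ * G)).det
              - ((4 / 5) * (1 + r ^ 6 * p.coeff 6)
                + (1 / 10) * ((1 + r • G).det + (1 + (-r) • G).det))) / (2 * κ))) ∧
    ∀ w : Fin 8 → ℝ, ∃ q : ℝ[X], q.natDegree ≤ 6 ∧
      ∀ s : ℝ, w ⬝ᵥ ((1 + s • G).adjugate *ᵥ (G *ᵥ V.ofLp)) = q.eval s := by
  obtain ⟨A, a, U, h1, h2, h3, h4⟩ := adapt x V G h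
  refine ⟨?_, ?_⟩
  · obtain ⟨p, hp, hp2, hp3⟩ := det_pol A 1
    have hcal : (4 / 5) * (1 + r ^ 6 * p.coeff 6)
        + (1 / 10) * ((1 + r • G).det + (1 + (-r) • G).det) = calf (r • A) := by
      unfold calf
      rw [hp3, h1, h1, Matrix.det_smul]
      have : (1 : Matrix (Fin 6) (Fin 6) ℝ) + (-r) • A = 1 - r • A := by
        rw [neg_smul, sub_eq_add_neg]
      rw [this]
      simp
    have hf : (1 + (r ^ 2) • (Gᵀ * G)).det
        = (1 + (r • A) * (r • A)ᵀ + Matrix.vecMulVec (r • a) (r • a)).det := by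
      rw [h2]
      congr 2
      · congr 1
        rw [transpose_smul, Matrix.smul_mul, Matrix.mul_smul, smul_smul, sq]
      · rw [Matrix.smul_vecMulVec, Matrix.vecMulVec_smul, smul_smul, sq]
    rw [hf]
    refine ⟨p, hp, fun s => by rw [h1, hp2], ?_, ?_⟩
    · rw [hcal]
      have h5 := (abs_le.1 (cal_le (r • A))).2
      refine h5.trans (Real.sqrt_le_sqrt ?_)
      obtain ⟨R, hR, hu⟩ := exists_fac (r • A)
      have hRi2 : R * R⁻¹ = 1 := Matrix.mul_nonsing_inv R hu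
      set y := R⁻¹ *ᵥ (r • a) with hy
      have hay : R *ᵥ y = r • a := by rw [hy, Matrix.mulVec_mulVec, hRi2, Matrix.one_mulVec]
      have e : 1 + (r • A) * (r • A)ᵀ + Matrix.vecMulVec (r • a) (r • a)
          = R * (1 + Matrix.vecMulVec y y) * Rᵀ := by
        rw [hR, mul_add, add_mul, mul_one]
        congr 1
        rw [Matrix.mul_vecMulVec, hay, Matrix.vecMulVec_mul, Matrix.vecMul_transpose, hay]
      rw [e, hR, det_mul, det_mul, det_mul, det_transpose, det_one_add_vec]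
      have hyy : 0 ≤ y ⬝ᵥ y := by
        rw [dotProduct]; exact Finset.sum_nonneg fun i _ => mul_self_nonneg _
      nlinarith [mul_self_nonneg R.det]
    · intro s κ w hκ hw
      rw [hcal, h3]
      set M := κ * Real.sqrt (1 + (r • A) * (r • A)ᵀ + Matrix.vecMulVec (r • a) (r • a)).det
        + (Real.sqrt (1 + (r • A) * (r • A)ᵀ + Matrix.vecMulVec (r • a) (r • a)).det
          - calf (r • A)) / (2 * κ) with hM
      have hr0 : r ≠ 0 := hr.ne'
      have hsc : (1 + s • A).adjugate *ᵥ a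
          = (1 / r) • ((1 + (s / r) • (r • A)).adjugate *ᵥ (r • a)) := by
        rw [Matrix.mulVec_smul, smul_smul, smul_smul]
        rw [div_mul_cancel₀ _ hr0, div_mul_cancel₀ _ hr0, one_smul]
      have hcomp : ∀ i, |((1 + s • A).adjugate *ᵥ a) i|
          ≤ (1 / r) * (4320 * (1 + (s / r) ^ 2) ^ 3 * M) := by
        intro i
        rw [hsc, Pi.smul_apply, smul_eq_mul, abs_mul, abs_of_pos (by positivity : 0 < 1 / r)]
        exact mul_le_mul_of_nonneg_left (pw1 (r • A) (r • a) (s / r) κ hκ i) (by positivity)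
      have hU : ∀ i, |(U *ᵥ w) i| ≤ 1 := by
        intro i
        refine abs_le_of_sq_le_sq ?_ zero_le_one
        rw [one_pow]
        exact (h4 w i).trans hw
      calc |(U *ᵥ w) ⬝ᵥ ((1 + s • A).adjugate *ᵥ a)|
          ≤ ∑ i, |(U *ᵥ w) i * ((1 + s • A).adjugate *ᵥ a) i| := by
            rw [dotProduct]; exact Finset.abs_sum_le_sum_abs _ _
        _ ≤ ∑ _i : Fin 6, 1 * ((1 / r) * (4320 * (1 + (s / r) ^ 2) ^ 3 * M)) := by
            refine Finset.sum_le_sum fun i _ => ?_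
            rw [abs_mul]
            exact mul_le_mul (hU i) (hcomp i) (abs_nonneg _) zero_le_one
        _ = Cst r s * M := by
            simp [Cst]; ring
  · intro w
    obtain ⟨q, hq, hq2⟩ := adj_pol A a (U *ᵥ w)
    exact ⟨q, hq, fun s => by rw [h3, hq2]⟩

end Pool.Agent.Helper28
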