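import Pool.Agent.Helper28.Geo2
import Pool.Agent.Helper28.PolF

set_option linter.unusedSectionVars false
open MeasureTheory Metric Matrix Polynomial

namespace Pool.Agent.Helper28

/-- interpolation functionals for polynomials of degree at most six -/
noncomputable def co (k : ℕ) (h : ℝ → ℝ) : ℝ :=
  match k with
  | 0 => h 0
  | 1 => (-h (-3) + 9 * h (-2) - 45 * h (-1) + 45 * h 1 - 9 * h 2 + h 3) / 60
  | 2 => (2 * h (-3) - 27 * h (-2) + 270 * h (-1) - 490 * h 0 + 270 * h 1 - 27 * h 2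
          + 2 * h 3) / 360
  | 3 => (h (-3) - 8 * h (-2) + 13 * h (-1) - 13 * h 1 + 8 * h 2 - h 3) / 48
  | 4 => (-h (-3) + 12 * h (-2) - 39 * h (-1) + 56 * h 0 - 39 * h 1 + 12 * h 2 - h 3) / 144
  | 5 => (-h (-3) + 4 * h (-2) - 5 * h (-1) + 5 * h 1 - 4 * h 2 + h 3) / 240
  | 6 => (h (-3) - 6 * h (-2) + 15 * h (-1) - 20 * h 0 + 15 * h 1 - 6 * h 2 + h 3) / 720
  | _ => 0

theorem co_coeff (p : ℝ[X]) (hp : p.natDegree ≤ 6) (h : ℝ → ℝ) (hh : ∀ s, h s = p.eval s)
    (k : ℕ) : co k h = p.coeff k := by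
  have he : ∀ s : ℝ, h s = p.coeff 0 + p.coeff 1 * s + p.coeff 2 * s ^ 2 + p.coeff 3 * s ^ 3
      + p.coeff 4 * s ^ 4 + p.coeff 5 * s ^ 5 + p.coeff 6 * s ^ 6 := by
    intro s
    rw [hh, Polynomial.eval_eq_sum_range' (n := 7) (by omega)]
    simp [Finset.sum_range_succ]
  match k with
  | 0 => simp only [co, he]; ring
  | 1 => simp only [co, he]; ring
  | 2 => simp only [co, he]; ring
  | 3 => simp only [co, he]; ring
  | 4 => simp only [co, he]; ring
  | 5 => simp only [co, he]; ring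
  | 6 => simp only [co, he]; ring
  | (n + 7) =>
    rw [Polynomial.coeff_eq_zero_of_natDegree_lt (by omega)]
    rfl

theorem coef_zero (n : ℕ) (c : ℕ → ℝ) (η : ℝ) (hη : 0 < η)
    (h : ∀ s : ℝ, |s| ≤ η → ∑ j ∈ Finset.range n, c j * s ^ j = 0) (j : ℕ) (hj : j < n) :
    c j = 0 := by
  set P : ℝ[X] := ∑ j ∈ Finset.range n, Polynomial.C (c j) * X ^ j with hP
  have hev : ∀ s : ℝ, P.eval s = ∑ j ∈ Finset.range n, c j * s ^ j := by
    intro s
    rw [hP, Polynomial.eval_finsetSum]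
    simp
  have h0 : P = 0 := by
    refine Polynomial.eq_zero_of_infinite_isRoot P ?_
    have : Set.Icc (-η) η ⊆ {s | P.IsRoot s} := by
      intro s hs
      rw [Set.mem_ofPred_eq, Polynomial.IsRoot, hev]
      exact h s (abs_le.2 hs)
    exact (Set.Icc_infinite (by linarith)).mono this
  have h1 : P.coeff j = c j := by
    rw [hP, Polynomial.finsetSum_coeff]
    simp only [Polynomial.coeff_C_mul, Polynomial.coeff_X_pow]
    rw [Finset.sum_eq_single j]
    · simp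
    · intro b _ hb
      simp [hb.symm]
    · intro hj'
      exact absurd (Finset.mem_range.2 hj) hj'
  rw [← h1, h0, Polynomial.coeff_zero]

theorem deriv_gen (p Q : ℝ[X]) (s u0 : ℝ) (F : ℝ → ℝ)
    (hF : ∀ ε, F ε = ((1 + (s + ε * u0) ^ 2) ^ 4)⁻¹ * ((1 + (s + ε * u0) ^ 2)
      * p.eval (s + ε * u0) + ε * Q.eval (s + ε * u0))) :
    HasDerivAt F (((1 + s ^ 2) ^ 4)⁻¹ * (u0 * ((1 + s ^ 2) * (derivative p).eval s
      - 6 * s * p.eval s) + Q.eval s)) 0 := by
  have hFe : F = fun ε => ((1 + (s + ε * u0) ^ 2) ^ 4)⁻¹ * ((1 + (s + ε * u0) ^ 2)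
      * p.eval (s + ε * u0) + ε * Q.eval (s + ε * u0)) := funext hF
  rw [hFe]
  have hσ : HasDerivAt (fun ε : ℝ => s + ε * u0) u0 0 := by
    simpa using ((hasDerivAt_id (0 : ℝ)).mul_const u0).const_add s
  have h1 : HasDerivAt (fun ε : ℝ => 1 + (s + ε * u0) ^ 2) (2 * s * u0) 0 := by
    have := (hσ.pow 2).const_add 1
    simpa using this
  have h2 : HasDerivAt (fun ε : ℝ => ((1 + (s + ε * u0) ^ 2) ^ 4)⁻¹)
      (-(4 * (1 + s ^ 2) ^ 3 * (2 * s * u0)) / ((1 + s ^ 2) ^ 4) ^ 2) 0 := by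
    have h20 : HasDerivAt (fun ε : ℝ => (1 + (s + ε * u0) ^ 2) ^ 4)
        (4 * (1 + s ^ 2) ^ 3 * (2 * s * u0)) 0 := by
      have := h1.fun_pow 4
      simpa using this
    have hne0 : (1 + (s + 0 * u0) ^ 2) ^ 4 ≠ 0 := by positivity
    have := h20.fun_inv hne0
    simpa using this
  have hp : HasDerivAt (fun ε : ℝ => p.eval (s + ε * u0)) ((derivative p).eval s * u0) 0 := by
    have h3 : HasDerivAt (fun y => p.eval y) ((derivative p).eval s) (s + 0 * u0) := by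
      simpa using p.hasDerivAt s
    exact h3.comp (0 : ℝ) hσ
  have hQ : HasDerivAt (fun ε : ℝ => Q.eval (s + ε * u0)) ((derivative Q).eval s * u0) 0 := by
    have h3 : HasDerivAt (fun y => Q.eval y) ((derivative Q).eval s) (s + 0 * u0) := by
      simpa using Q.hasDerivAt s
    exact h3.comp (0 : ℝ) hσ
  have h4 := h2.mul ((h1.mul hp).add ((hasDerivAt_id (0 : ℝ)).mul hQ))
  have hne : (1 + s ^ 2 : ℝ) ≠ 0 := by positivity
  refine h4.congr_deriv ?_
  simp
  field_simp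
  ring

end Pool.Agent.Helper28
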