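import Pool.Agent.Helper28.Coef

set_option linter.unusedSectionVars false
open MeasureTheory Metric Matrix Polynomial

namespace Pool.Agent.Helper28

noncomputable def Dd (V : E8 → E8) (s : ℝ) (x : E8) : ℝ := (1 + s • mt (Gop V x)).det
noncomputable def Rr (V : E8 → E8) (e : Fin 8 → ℝ) (s : ℝ) (x : E8) : ℝ :=
  e ⬝ᵥ Rv (V x) (mt (Gop V x)) s
noncomputable def dk (V : E8 → E8) (k : ℕ) (x : E8) : ℝ := co k (fun s => Dd V s x)
noncomputable def rk (V : E8 → E8) (e : Fin 8 → ℝ) (k : ℕ) (x : E8) : ℝ :=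
  co k (fun s => Rr V e s x)

theorem co_cont {X : Type*} [TopologicalSpace X] (k : ℕ) (h : ℝ → X → ℝ)
    (hh : ∀ s, Continuous (h s)) : Continuous (fun x => co k (fun s => h s x)) := by
  match k with
  | 0 => exact hh 0
  | 1 => simp only [co]; fun_prop
  | 2 => simp only [co]; fun_prop
  | 3 => simp only [co]; fun_prop
  | 4 => simp only [co]; fun_prop
  | 5 => simp only [co]; fun_prop
  | 6 => simp only [co]; fun_prop
  | (n + 7) => exact continuous_const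

variable {V : E8 → E8}

theorem Pj_cont : Continuous Pj := by
  unfold Pj
  have h4 : Continuous (fun z : E8 => (innerSL ℝ z).smulRight z) := by
    fun_prop
  exact continuous_const.sub h4

theorem UT.contG (h : UT V) : Continuous (fun x => mt (Gop V x)) := by
  have h1 := h.cdV.continuous_fderiv (by norm_num)
  have h2 : Continuous (fun x => Gop V x) := Pj_cont.clm_comp (h1.clm_comp Pj_cont)
  refine continuous_matrix fun i j => ?_
  simp only [mt_apply]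
  have h3 : Continuous (fun x => (Gop V x) (EuclideanSpace.single j 1)) :=
    h2.clm_apply continuous_const
  fun_prop

theorem UT.contD (h : UT V) (s : ℝ) : Continuous (Dd V s) := by
  have := h.contG
  unfold Dd
  fun_prop

theorem UT.contR (h : UT V) (e : Fin 8 → ℝ) (s : ℝ) : Continuous (Rr V e s) := by
  have h1 := h.contG
  have h2 : Continuous (fun x => (V x).ofLp) := by
    have := h.cdV.continuous
    fun_prop
  have h3 : Continuous (fun x => 1 + s • mt (Gop V x)) := continuous_const.add (h1.const_smul s)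
  exact continuous_const.dotProduct (h3.matrix_adjugate.matrix_mulVec (h1.matrix_mulVec h2))

theorem UT.polD (h : UT V) (x : E8) (hx : ‖x‖ = 1) :
    ∃ p : ℝ[X], p.natDegree ≤ 6 ∧ (∀ s, Dd V s x = p.eval s) ∧ ∀ k, dk V k x = p.coeff k := by
  obtain ⟨⟨p, hp, hp2, -⟩, -⟩ := pw_main x (V x) _ (h.adm x hx) 1 one_pos
  exact ⟨p, hp, hp2, fun k => co_coeff p hp _ hp2 k⟩

theorem UT.polR (h : UT V) (e : Fin 8 → ℝ) (x : E8) (hx : ‖x‖ = 1) :
    ∃ q : ℝ[X], q.natDegree ≤ 6 ∧ (∀ s, Rr V e s x = q.eval s) ∧ ∀ k, rk V e k x = q.coeff k := by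
  obtain ⟨-, h2⟩ := pw_main x (V x) _ (h.adm x hx) 1 one_pos
  obtain ⟨q, hq, hq2⟩ := h2 e
  exact ⟨q, hq, hq2, fun k => co_coeff q hq _ hq2 k⟩

noncomputable def u1 (e : Fin 8 → ℝ) (x : E8) : ℝ := e ⬝ᵥ x.ofLp
noncomputable def u2 (V : E8 → E8) (e : Fin 8 → ℝ) (x : E8) : ℝ := e ⬝ᵥ (V x).ofLp

theorem u1_inner (e : Fin 8 → ℝ) : u1 e = fun x => inner ℝ (WithLp.toLp 2 e : E8) x := by
  funext x; rw [inner_dot]; rfl

theorem u2_inner (e : Fin 8 → ℝ) : u2 V e = fun x => inner ℝ (WithLp.toLp 2 e : E8) (V x) := by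
  funext x; rw [inner_dot]; rfl

theorem u1_cd (e : Fin 8 → ℝ) (n : WithTop ℕ∞) : ContDiff ℝ n (u1 e) := by
  rw [u1_inner]; exact contDiff_const.inner ℝ contDiff_id

theorem UT.u2_cd (h : UT V) (e : Fin 8 → ℝ) : ContDiff ℝ 2 (u2 V e) := by
  rw [u2_inner]; exact contDiff_const.inner ℝ h.cdV2

theorem gv_u1 (e : Fin 8 → ℝ) (x : E8) : gv (u1 e) x = e - (e ⬝ᵥ x.ofLp) • x.ofLp := by
  funext j
  have h1 : HasFDerivAt (u1 e) (innerSL ℝ (WithLp.toLp 2 e : E8)) x := by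
    rw [u1_inner]
    exact (innerSL ℝ (WithLp.toLp 2 e : E8)).hasFDerivAt
  rw [gv, h1.fderiv, innerSL_apply_apply, Pj_apply, inner_sub_right, real_inner_smul_right,
    inner_dot, inner_dot, inner_dot]
  simp [mul_comm]

theorem UT.gv_u2 (h : UT V) (e : Fin 8 → ℝ) (x : E8) (hx : ‖x‖ = 1) :
    gv (u2 V e) x = e ᵥ* mt (Gop V x) - (e ⬝ᵥ x.ofLp) • (V x).ofLp := by
  funext j
  have h1 : HasFDerivAt (u2 V e) (innerSL ℝ (WithLp.toLp 2 e : E8) ∘L fderiv ℝ V x) x := by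
    rw [u2_inner]
    exact (innerSL ℝ (WithLp.toLp 2 e : E8)).hasFDerivAt.comp x (h.diff x).hasFDerivAt
  have h2 := (h.tan2 x _ hx (inner_Pj x (EuclideanSpace.single j 1) hx)).2
  have h3 : inner ℝ (Pj x (EuclideanSpace.single j 1)) (V x) = (V x).ofLp j := by
    rw [Pj_apply, inner_sub_left, real_inner_smul_left, h.tan x hx, mul_zero, sub_zero,
      EuclideanSpace.inner_single_left]
    simp
  rw [h3] at h2
  have h4 : fderiv ℝ V x (Pj x (EuclideanSpace.single j 1))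
      = Gop V x (EuclideanSpace.single j 1) - (V x).ofLp j • x := by
    simp only [Gop, ContinuousLinearMap.comp_apply]
    rw [Pj_apply x (fderiv ℝ V x (Pj x (EuclideanSpace.single j 1))), h2, neg_smul]
    abel
  rw [gv, h1.fderiv, ContinuousLinearMap.comp_apply, h4, innerSL_apply_apply, inner_sub_right,
    real_inner_smul_right, inner_dot, inner_dot, Pi.sub_apply, Pi.smul_apply, smul_eq_mul,
    mul_comm]
  congr 1

theorem UT.AFdet (h : UT V) (u : E8 → ℝ) (s ε : ℝ) (x : E8) (hx : ‖x‖ = 1) :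
    (AF V u s ε x).det = (1 + (s + ε * u x) ^ 2) * Dd V (s + ε * u x) x
      + ε * (Dd V (s + ε * u x) x * (gv u x ⬝ᵥ (V x).ofLp)
        - (s + ε * u x) * (gv u x ⬝ᵥ Rv (V x) (mt (Gop V x)) (s + ε * u x))
        + (s + ε * u x) * (Dd V (s + ε * u x) x * (gv u x ⬝ᵥ x.ofLp))) := by
  rw [AF, h.Mop_eq x hx, (h.adm x hx).la1]
  rfl

theorem UT.AF1 (h : UT V) (e : Fin 8 → ℝ) (s ε : ℝ) (x : E8) (hx : ‖x‖ = 1) :
    (AF V (u1 e) s ε x).det = (1 + (s + ε * u1 e x) ^ 2) * Dd V (s + ε * u1 e x) x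
      + ε * (Dd V (s + ε * u1 e x) x * u2 V e x
        - (s + ε * u1 e x) * Rr V e (s + ε * u1 e x) x) := by
  rw [h.AFdet _ _ _ _ hx, gv_u1]
  congr 2
  exact (h.adm x hx).q1 _ e

theorem UT.AF2 (h : UT V) (e : Fin 8 → ℝ) (s ε : ℝ) (x : E8) (hx : ‖x‖ = 1) :
    (AF V (u2 V e) s ε x).det = (1 + (s + ε * u2 V e x) ^ 2) * Dd V (s + ε * u2 V e x) x
      + ε * (Rr V e (s + ε * u2 V e x) x
        - u1 e x * Dd V (s + ε * u2 V e x) x) := by
  rw [h.AFdet _ _ _ _ hx, h.gv_u2 e x hx]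
  congr 2
  exact (h.adm x hx).q2 _ e

/-- coefficients of the first identity -/
noncomputable def tX (V : E8 → E8) (e : Fin 8 → ℝ) (j : ℕ) (x : E8) : ℝ :=
  match j with
  | 0 => u1 e x * dk V 1 x + u2 V e x * dk V 0 x
  | (j + 1) => (j + 2) * (u1 e x * dk V (j + 2) x) + (j - 6) * (u1 e x * dk V j x)
      + u2 V e x * dk V (j + 1) x - rk V e j x

/-- coefficients of the second identity -/
noncomputable def tY (V : E8 → E8) (e : Fin 8 → ℝ) (j : ℕ) (x : E8) : ℝ :=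
  match j with
  | 0 => u2 V e x * dk V 1 x - u1 e x * dk V 0 x + rk V e 0 x
  | (j + 1) => (j + 2) * (u2 V e x * dk V (j + 2) x) + (j - 6) * (u2 V e x * dk V j x)
      - u1 e x * dk V (j + 1) x + rk V e (j + 1) x

theorem poly_eval7 (p : ℝ[X]) (hp : p.natDegree ≤ 6) (s : ℝ) :
    p.eval s = p.coeff 0 + p.coeff 1 * s + p.coeff 2 * s ^ 2 + p.coeff 3 * s ^ 3
      + p.coeff 4 * s ^ 4 + p.coeff 5 * s ^ 5 + p.coeff 6 * s ^ 6 := by
  rw [Polynomial.eval_eq_sum_range' (n := 7) (by omega)]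
  simp [Finset.sum_range_succ]

theorem poly_deriv7 (p : ℝ[X]) (hp : p.natDegree ≤ 6) (s : ℝ) :
    (derivative p).eval s = p.coeff 1 + 2 * p.coeff 2 * s + 3 * p.coeff 3 * s ^ 2
      + 4 * p.coeff 4 * s ^ 3 + 5 * p.coeff 5 * s ^ 4 + 6 * p.coeff 6 * s ^ 5 := by
  have h1 : (derivative p).natDegree < 6 :=
    lt_of_le_of_lt (Polynomial.natDegree_derivative_le p) (by omega)
  rw [Polynomial.eval_eq_sum_range' (n := 6) h1]
  simp [Finset.sum_range_succ, Polynomial.coeff_derivative]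
  ring

theorem UT.derX (h : UT V) (e : Fin 8 → ℝ) (s : ℝ) (x : E8) (hx : ‖x‖ = 1) :
    deriv (fun ε => FF V (u1 e) s ε x) 0
      = ((1 + s ^ 2) ^ 4)⁻¹ * ∑ j ∈ Finset.range 8, tX V e j x * s ^ j := by
  obtain ⟨p, hp, hp1, hp2⟩ := h.polD x hx
  obtain ⟨q, hq, hq1, hq2⟩ := h.polR e x hx
  have hd := deriv_gen p (p * Polynomial.C (u2 V e x) - X * q) s (u1 e x)
    (fun ε => FF V (u1 e) s ε x) (fun ε => by
      rw [FF, h.AF1 e s ε x hx, hp1, hq1]
      simp)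
  rw [hd.deriv]
  congr 1
  have c7 : p.coeff 7 = 0 := Polynomial.coeff_eq_zero_of_natDegree_lt (by omega)
  have c8 : p.coeff 8 = 0 := Polynomial.coeff_eq_zero_of_natDegree_lt (by omega)
  rw [poly_deriv7 p hp]
  simp only [Finset.sum_range_succ, Finset.sum_range_zero, tX, hp2, hq2,
    Polynomial.eval_sub, Polynomial.eval_mul, Polynomial.eval_C, Polynomial.eval_X]
  rw [poly_eval7 p hp, poly_eval7 q hq]
  norm_num [c7, c8]
  ring

theorem UT.derY (h : UT V) (e : Fin 8 → ℝ) (s : ℝ) (x : E8) (hx : ‖x‖ = 1) :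
    deriv (fun ε => FF V (u2 V e) s ε x) 0
      = ((1 + s ^ 2) ^ 4)⁻¹ * ∑ j ∈ Finset.range 8, tY V e j x * s ^ j := by
  obtain ⟨p, hp, hp1, hp2⟩ := h.polD x hx
  obtain ⟨q, hq, hq1, hq2⟩ := h.polR e x hx
  have hd := deriv_gen p (q - Polynomial.C (u1 e x) * p) s (u2 V e x)
    (fun ε => FF V (u2 V e) s ε x) (fun ε => by
      rw [FF, h.AF2 e s ε x hx, hp1, hq1]
      simp)
  rw [hd.deriv]
  congr 1
  have c7 : p.coeff 7 = 0 := Polynomial.coeff_eq_zero_of_natDegree_lt (by omega)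
  have c8 : p.coeff 8 = 0 := Polynomial.coeff_eq_zero_of_natDegree_lt (by omega)
  have d7 : q.coeff 7 = 0 := Polynomial.coeff_eq_zero_of_natDegree_lt (by omega)
  rw [poly_deriv7 p hp]
  simp only [Finset.sum_range_succ, Finset.sum_range_zero, tY, hp2, hq2,
    Polynomial.eval_sub, Polynomial.eval_mul, Polynomial.eval_C, Polynomial.eval_X]
  rw [poly_eval7 p hp, poly_eval7 q hq]
  norm_num [c7, c8, d7]
  ring

end Pool.Agent.Helper28
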