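import Pool.Agent.Helper28.Coef2

set_option linter.unusedSectionVars false
open MeasureTheory Metric Matrix Polynomial

namespace Pool.Agent.Helper28

variable {V : E8 → E8}

/-- the surface measure -/
noncomputable abbrev σ8 : Measure (sphere (0 : E8) 1) := (volume : Measure E8).toSphere

theorem int_of_cont (f : E8 → ℝ) (hf : Continuous f) :
    Integrable (fun x : sphere (0 : E8) 1 => f x) σ8 := by
  have : Continuous (fun x : sphere (0 : E8) 1 => f x) := hf.comp continuous_subtype_val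
  exact this.integrable_of_hasCompactSupport (HasCompactSupport.of_compactSpace _)

theorem int4 (f1 f2 f3 f4 : E8 → ℝ) (h1 : Continuous f1) (h2 : Continuous f2)
    (h3 : Continuous f3) (h4 : Continuous f4) (a b c d : ℝ) :
    ∫ x : sphere (0 : E8) 1, (a * f1 x + b * f2 x + c * f3 x + d * f4 x) ∂σ8
      = a * (∫ x : sphere (0 : E8) 1, f1 x ∂σ8) + b * (∫ x : sphere (0 : E8) 1, f2 x ∂σ8)
        + c * (∫ x : sphere (0 : E8) 1, f3 x ∂σ8) + d * (∫ x : sphere (0 : E8) 1, f4 x ∂σ8) := by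
  have i1 := (int_of_cont f1 h1).const_mul a
  have i2 := (int_of_cont f2 h2).const_mul b
  have i3 := (int_of_cont f3 h3).const_mul c
  have i4 := (int_of_cont f4 h4).const_mul d
  rw [integral_add (f := fun x : sphere (0 : E8) 1 => a * f1 x + b * f2 x + c * f3 x)
      (g := fun x : sphere (0 : E8) 1 => d * f4 x) ((i1.add i2).add i3) i4,
    integral_add (f := fun x : sphere (0 : E8) 1 => a * f1 x + b * f2 x)
      (g := fun x : sphere (0 : E8) 1 => c * f3 x) (i1.add i2) i3,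
    integral_add (f := fun x : sphere (0 : E8) 1 => a * f1 x)
      (g := fun x : sphere (0 : E8) 1 => b * f2 x) i1 i2,
    integral_const_mul, integral_const_mul, integral_const_mul, integral_const_mul]

theorem UT.cdk (h : UT V) (k : ℕ) : Continuous (dk V k) := co_cont k (fun s x => Dd V s x) h.contD
theorem UT.crk (h : UT V) (e : Fin 8 → ℝ) (k : ℕ) : Continuous (rk V e k) :=
  co_cont k (fun s x => Rr V e s x) (h.contR e)
theorem cu1 (e : Fin 8 → ℝ) : Continuous (u1 e) := (u1_cd e 1).continuous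
theorem UT.cu2 (h : UT V) (e : Fin 8 → ℝ) : Continuous (u2 V e) := (h.u2_cd e).continuous

theorem UT.ctX (h : UT V) (e : Fin 8 → ℝ) (j : ℕ) : Continuous (tX V e j) := by
  have h1 := h.cdk
  have h2 := h.crk e
  have h3 := cu1 e
  have h4 := h.cu2 e
  match j with
  | 0 => exact (h3.mul (h1 1)).add (h4.mul (h1 0))
  | (j + 1) =>
    exact ((((h3.mul (h1 (j + 2))).const_mul _).add ((h3.mul (h1 j)).const_mul _)).add
      (h4.mul (h1 (j + 1)))).sub (h2 j)

theorem UT.ctY (h : UT V) (e : Fin 8 → ℝ) (j : ℕ) : Continuous (tY V e j) := by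
  have h1 := h.cdk
  have h2 := h.crk e
  have h3 := cu1 e
  have h4 := h.cu2 e
  match j with
  | 0 => exact ((h4.mul (h1 1)).sub (h3.mul (h1 0))).add (h2 0)
  | (j + 1) =>
    exact ((((h4.mul (h1 (j + 2))).const_mul _).add ((h4.mul (h1 j)).const_mul _)).sub
      (h3.mul (h1 (j + 1)))).add (h2 (j + 1))

theorem UT.int_gen (h : UT V) (u : E8 → ℝ) (hu : ContDiff ℝ 2 u) (t : ℕ → E8 → ℝ)
    (ht : ∀ j, Continuous (t j))
    (hder : ∀ (s : ℝ) (x : E8), ‖x‖ = 1 → deriv (fun ε => FF V u s ε x) 0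
      = ((1 + s ^ 2) ^ 4)⁻¹ * ∑ j ∈ Finset.range 8, t j x * s ^ j) (j : ℕ) (hj : j < 8) :
    ∫ x : sphere (0 : E8) 1, t j x ∂σ8 = 0 := by
  obtain ⟨η, hη, hint⟩ := h.key_int u hu
  refine coef_zero 8 (fun j => ∫ x : sphere (0 : E8) 1, t j x ∂σ8) η hη (fun s hs => ?_) j hj
  have hd := hasDerivAt_sphere σ8 (fun ε x => FF V u s ε x) (h.cdF u hu s) 0
  have hc : (fun ε => ∫ x : sphere (0 : E8) 1, FF V u s ε x ∂σ8)
      =ᶠ[nhds 0] fun _ => σ8.real Set.univ := by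
    filter_upwards [Metric.closedBall_mem_nhds (0 : ℝ) hη] with ε hε
    refine hint s ε hs ?_
    simpa using hε
  have hd2 := (hd.congr_of_eventuallyEq hc.symm).unique (hasDerivAt_const (0 : ℝ) _)
  have hcongr : ∫ x : sphere (0 : E8) 1, deriv (fun ε => FF V u s ε x) 0 ∂σ8
      = ∫ x : sphere (0 : E8) 1, ((1 + s ^ 2) ^ 4)⁻¹ * ∑ j ∈ Finset.range 8, t j x * s ^ j ∂σ8 :=
    integral_congr_ae (Filter.Eventually.of_forall fun x => hder s x (by simp))
  rw [hcongr, integral_const_mul, integral_finsetSum] at hd2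
  · have hN : ((1 + s ^ 2) ^ 4 : ℝ)⁻¹ ≠ 0 := by positivity
    have h3 := (mul_eq_zero.1 hd2).resolve_left hN
    rw [← h3]
    refine Finset.sum_congr rfl fun j _ => ?_
    rw [integral_mul_const]
  · intro j _
    exact (int_of_cont (t j) (ht j)).mul_const _

theorem UT.intX (h : UT V) (e : Fin 8 → ℝ) (j : ℕ) (hj : j < 8) :
    ∫ x : sphere (0 : E8) 1, tX V e j x ∂σ8 = 0 :=
  h.int_gen (u1 e) (u1_cd e 2) (tX V e) (h.ctX e) (h.derX e) j hj

theorem UT.intY (h : UT V) (e : Fin 8 → ℝ) (j : ℕ) (hj : j < 8) :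
    ∫ x : sphere (0 : E8) 1, tY V e j x ∂σ8 = 0 :=
  h.int_gen (u2 V e) (h.u2_cd e) (tY V e) (h.ctY e) (h.derY e) j hj

theorem UT.intXs (h : UT V) (e : Fin 8 → ℝ) (j : ℕ) (hj : j + 1 < 8) :
    ((j : ℝ) + 2) * (∫ x : sphere (0 : E8) 1, u1 e x * dk V (j + 2) x ∂σ8)
      + ((j : ℝ) - 6) * (∫ x : sphere (0 : E8) 1, u1 e x * dk V j x ∂σ8)
      + (∫ x : sphere (0 : E8) 1, u2 V e x * dk V (j + 1) x ∂σ8)
      - (∫ x : sphere (0 : E8) 1, rk V e j x ∂σ8) = 0 := by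
  have h0 := h.intX e (j + 1) hj
  have h1 := int4 (fun x => u1 e x * dk V (j + 2) x) (fun x => u1 e x * dk V j x)
    (fun x => u2 V e x * dk V (j + 1) x) (fun x => rk V e j x)
    ((cu1 e).mul (h.cdk (j + 2))) ((cu1 e).mul (h.cdk j)) ((h.cu2 e).mul (h.cdk (j + 1)))
    (h.crk e j) ((j : ℝ) + 2) ((j : ℝ) - 6) 1 (-1)
  have h2 : ∫ x : sphere (0 : E8) 1, tX V e (j + 1) x ∂σ8
      = ∫ x : sphere (0 : E8) 1, (((j : ℝ) + 2) * (u1 e x * dk V (j + 2) x)
        + ((j : ℝ) - 6) * (u1 e x * dk V j x) + 1 * (u2 V e x * dk V (j + 1) x)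
        + (-1) * (rk V e j x)) ∂σ8 := by
    refine integral_congr_ae (Filter.Eventually.of_forall fun x => ?_)
    simp only [tX]
    ring
  rw [h2, h1] at h0
  linarith

theorem UT.intYs (h : UT V) (e : Fin 8 → ℝ) (j : ℕ) (hj : j + 1 < 8) :
    ((j : ℝ) + 2) * (∫ x : sphere (0 : E8) 1, u2 V e x * dk V (j + 2) x ∂σ8)
      + ((j : ℝ) - 6) * (∫ x : sphere (0 : E8) 1, u2 V e x * dk V j x ∂σ8)
      - (∫ x : sphere (0 : E8) 1, u1 e x * dk V (j + 1) x ∂σ8)
      + (∫ x : sphere (0 : E8) 1, rk V e (j + 1) x ∂σ8) = 0 := by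
  have h0 := h.intY e (j + 1) hj
  have h1 := int4 (fun x => u2 V e x * dk V (j + 2) x) (fun x => u2 V e x * dk V j x)
    (fun x => u1 e x * dk V (j + 1) x) (fun x => rk V e (j + 1) x)
    ((h.cu2 e).mul (h.cdk (j + 2))) ((h.cu2 e).mul (h.cdk j)) ((cu1 e).mul (h.cdk (j + 1)))
    (h.crk e (j + 1)) ((j : ℝ) + 2) ((j : ℝ) - 6) (-1) 1
  have h2 : ∫ x : sphere (0 : E8) 1, tY V e (j + 1) x ∂σ8
      = ∫ x : sphere (0 : E8) 1, (((j : ℝ) + 2) * (u2 V e x * dk V (j + 2) x)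
        + ((j : ℝ) - 6) * (u2 V e x * dk V j x) + (-1) * (u1 e x * dk V (j + 1) x)
        + 1 * (rk V e (j + 1) x)) ∂σ8 := by
    refine integral_congr_ae (Filter.Eventually.of_forall fun x => ?_)
    simp only [tY]
    ring
  rw [h2, h1] at h0
  linarith

theorem Dd_zero (x : E8) : Dd V 0 x = 1 := by simp [Dd]

theorem UT.K0 (h : UT V) (e : Fin 8 → ℝ) :
    15 * (∫ x : sphere (0 : E8) 1, u2 V e x ∂σ8)
      = 3 * (∫ x : sphere (0 : E8) 1, rk V e 1 x ∂σ8)
        + 2 * (∫ x : sphere (0 : E8) 1, rk V e 3 x ∂σ8)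
        + 8 * (∫ x : sphere (0 : E8) 1, rk V e 5 x ∂σ8) := by
  have e0 := h.intX e 0 (by norm_num)
  have i1 := int_of_cont (fun x => u1 e x * dk V 1 x) ((cu1 e).mul (h.cdk 1))
  have i2 := int_of_cont (fun x => u2 V e x * dk V 0 x) ((h.cu2 e).mul (h.cdk 0))
  simp only [tX] at e0
  rw [integral_add i1 i2] at e0
  have e2 := h.intXs e 1 (by norm_num)
  have e4 := h.intXs e 3 (by norm_num)
  have e6 := h.intXs e 5 (by norm_num)
  have f1 := h.intYs e 0 (by norm_num)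
  have f3 := h.intYs e 2 (by norm_num)
  have f5 := h.intYs e 4 (by norm_num)
  norm_num at e0 e2 e4 e6 f1 f3 f5
  have z7 : ∫ x : sphere (0 : E8) 1, u1 e x * dk V 7 x ∂σ8 = 0 := by
    have : ∀ x : sphere (0 : E8) 1, u1 e x * dk V 7 x = 0 := by
      intro x; simp [dk, co]
    simp [this]
  have k0 : ∫ x : sphere (0 : E8) 1, u2 V e x * dk V 0 x ∂σ8
      = ∫ x : sphere (0 : E8) 1, u2 V e x ∂σ8 := by
    refine integral_congr_ae (Filter.Eventually.of_forall fun x => ?_)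
    simp [dk, co, Dd_zero]
  rw [z7] at e6
  rw [k0] at e0 f1
  linarith

end Pool.Agent.Helper28
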