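import Pool.Agent.Helper28.Coef3

set_option linter.unusedSectionVars false
open MeasureTheory Metric Matrix Polynomial

namespace Pool.Agent.Helper28

variable {V : E8 → E8}

theorem UT.intD_small (h : UT V) : ∃ η : ℝ, 0 < η ∧ ∀ s : ℝ, |s| ≤ η →
    ∫ x : sphere (0 : E8) 1, Dd V s x ∂σ8 = (1 + s ^ 2) ^ 3 * σ8.real Set.univ := by
  obtain ⟨η, hη, hint⟩ := h.key_int (u1 0) (u1_cd 0 2)
  refine ⟨η, hη, fun s hs => ?_⟩
  have h1 := hint s 0 hs (by simpa using hη.le)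
  have h2 : ∀ x : sphere (0 : E8) 1, FF V (u1 0) s 0 x = ((1 + s ^ 2) ^ 3)⁻¹ * Dd V s x := by
    intro x
    have h3 := h.AF1 0 s 0 x (by simp)
    rw [FF, h3]
    have hne : (1 + s ^ 2 : ℝ) ≠ 0 := by positivity
    simp only [zero_mul, add_zero]
    field_simp
  simp only [h2] at h1
  rw [integral_const_mul] at h1
  have hne : ((1 + s ^ 2) ^ 3 : ℝ) ≠ 0 := by positivity
  rw [← h1, ← mul_assoc, mul_inv_cancel₀ hne, one_mul]

/-- binomial coefficients interleaved with zeros -/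
noncomputable def bc (k : ℕ) : ℝ :=
  match k with
  | 0 => 1
  | 1 => 0
  | 2 => 3
  | 3 => 0
  | 4 => 3
  | 5 => 0
  | 6 => 1
  | _ => 0

theorem UT.Dd_sum (h : UT V) (s : ℝ) (x : E8) (hx : ‖x‖ = 1) :
    Dd V s x = ∑ k ∈ Finset.range 7, dk V k x * s ^ k := by
  obtain ⟨p, hp, hp1, hp2⟩ := h.polD x hx
  rw [hp1, Polynomial.eval_eq_sum_range' (n := 7) (by omega)]
  exact Finset.sum_congr rfl fun k _ => by rw [hp2]

theorem UT.intD_sum (h : UT V) (s : ℝ) :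
    ∫ x : sphere (0 : E8) 1, Dd V s x ∂σ8
      = ∑ k ∈ Finset.range 7, (∫ x : sphere (0 : E8) 1, dk V k x ∂σ8) * s ^ k := by
  have h1 : ∫ x : sphere (0 : E8) 1, Dd V s x ∂σ8
      = ∫ x : sphere (0 : E8) 1, ∑ k ∈ Finset.range 7, dk V k x * s ^ k ∂σ8 :=
    integral_congr_ae (Filter.Eventually.of_forall fun x => h.Dd_sum s x (by simp))
  rw [h1, integral_finsetSum]
  · exact Finset.sum_congr rfl fun k _ => by rw [integral_mul_const]
  · intro k _
    exact (int_of_cont _ (h.cdk k)).mul_const _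

theorem UT.int_dk (h : UT V) (k : ℕ) (hk : k < 7) :
    ∫ x : sphere (0 : E8) 1, dk V k x ∂σ8 = bc k * σ8.real Set.univ := by
  obtain ⟨η, hη, hint⟩ := h.intD_small
  have := coef_zero 7 (fun k => (∫ x : sphere (0 : E8) 1, dk V k x ∂σ8)
    - bc k * σ8.real Set.univ) η hη (fun s hs => by
      have h1 := hint s hs
      rw [h.intD_sum] at h1
      simp only [Finset.sum_range_succ, Finset.sum_range_zero, bc] at h1 ⊢
      linear_combination h1) k hk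
  linarith

theorem UT.intD (h : UT V) (s : ℝ) :
    ∫ x : sphere (0 : E8) 1, Dd V s x ∂σ8 = (1 + s ^ 2) ^ 3 * σ8.real Set.univ := by
  rw [h.intD_sum]
  rw [Finset.sum_congr rfl fun k hk => by rw [h.int_dk k (Finset.mem_range.1 hk)]]
  simp only [Finset.sum_range_succ, Finset.sum_range_zero, bc]
  ring

/-- the calibration -/
noncomputable def cal (V : E8 → E8) (r : ℝ) (x : E8) : ℝ :=
  (4 / 5) * (1 + r ^ 6 * dk V 6 x) + (1 / 10) * (Dd V r x + Dd V (-r) x)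

/-- the volume density -/
noncomputable def fv (V : E8 → E8) (r : ℝ) (x : E8) : ℝ :=
  Real.sqrt (1 + (r ^ 2) • ((mt (Gop V x))ᵀ * mt (Gop V x))).det

theorem UT.cont_cal (h : UT V) (r : ℝ) : Continuous (cal V r) := by
  have h1 := h.cdk 6
  have h2 := h.contD r
  have h3 := h.contD (-r)
  unfold cal
  fun_prop

theorem UT.cont_fv (h : UT V) (r : ℝ) : Continuous (fv V r) := by
  have h1 := h.contG
  unfold fv
  fun_prop

theorem UT.int_cal (h : UT V) (r : ℝ) :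
    ∫ x : sphere (0 : E8) 1, cal V r x ∂σ8
      = ((4 / 5) * (1 + r ^ 6) + (1 / 5) * (1 + r ^ 2) ^ 3) * σ8.real Set.univ := by
  have h1 := int4 (fun _ => 1) (dk V 6) (Dd V r) (Dd V (-r)) continuous_const (h.cdk 6)
    (h.contD r) (h.contD (-r)) (4 / 5) ((4 / 5) * r ^ 6) (1 / 10) (1 / 10)
  have h2 : ∫ x : sphere (0 : E8) 1, cal V r x ∂σ8
      = ∫ x : sphere (0 : E8) 1, ((4 / 5) * 1 + ((4 / 5) * r ^ 6) * dk V 6 x
        + (1 / 10) * Dd V r x + (1 / 10) * Dd V (-r) x) ∂σ8 := by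
    refine integral_congr_ae (Filter.Eventually.of_forall fun x => ?_)
    simp only [cal]
    ring
  rw [h2, h1, h.int_dk 6 (by norm_num), h.intD, h.intD]
  simp only [bc, integral_const, smul_eq_mul]
  ring

theorem UT.pw_cal (h : UT V) (r : ℝ) (hr : 0 < r) (x : E8) (hx : ‖x‖ = 1) :
    cal V r x ≤ fv V r x ∧ ∀ (s κ : ℝ) (w : Fin 8 → ℝ), 0 < κ → w ⬝ᵥ w ≤ 1 →
      |Rr V w s x| ≤ Cst r s * (κ * fv V r x + (fv V r x - cal V r x) / (2 * κ)) := by
  obtain ⟨⟨p, hp, hp2, hc, hb⟩, -⟩ := pw_main x (V x) _ (h.adm x hx) r hr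
  have hk : dk V 6 x = p.coeff 6 := co_coeff p hp _ hp2 6
  rw [← hk] at hc hb
  exact ⟨hc, hb⟩

theorem Cst_mono (r s : ℝ) (hr : 0 < r) (hs : |s| ≤ 3) : Cst r s ≤ Cst r 3 := by
  unfold Cst
  have h1 : (s / r) ^ 2 ≤ (3 / r) ^ 2 := by
    rw [div_pow, div_pow]
    have : s ^ 2 ≤ 3 ^ 2 := by
      rw [← sq_abs s]
      exact pow_le_pow_left₀ (abs_nonneg s) hs 2
    gcongr
  gcongr

theorem co_bound (h : ℝ → ℝ) (B : ℝ) (hB : ∀ s : ℝ, |s| ≤ 3 → |h s| ≤ B) :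
    |co 1 h| ≤ 2 * B ∧ |co 3 h| ≤ 2 * B ∧ |co 5 h| ≤ 2 * B := by
  have a1 := abs_le.1 (hB (-3) (by norm_num))
  have a2 := abs_le.1 (hB (-2) (by norm_num))
  have a3 := abs_le.1 (hB (-1) (by norm_num))
  have a4 := abs_le.1 (hB 1 (by norm_num))
  have a5 := abs_le.1 (hB 2 (by norm_num))
  have a6 := abs_le.1 (hB 3 (by norm_num))
  obtain ⟨a1, b1⟩ := a1
  obtain ⟨a2, b2⟩ := a2
  obtain ⟨a3, b3⟩ := a3
  obtain ⟨a4, b4⟩ := a4
  obtain ⟨a5, b5⟩ := a5
  obtain ⟨a6, b6⟩ := a6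
  refine ⟨?_, ?_, ?_⟩ <;> rw [abs_le] <;> simp only [co] <;> constructor <;> linarith

theorem UT.K0_bound (h : UT V) (r κ : ℝ) (hr : 0 < r) (hκ : 0 < κ) (w : Fin 8 → ℝ)
    (hw : w ⬝ᵥ w ≤ 1) :
    |∫ x : sphere (0 : E8) 1, u2 V w x ∂σ8| ≤ 2 * Cst r 3 *
      (κ * (∫ x : sphere (0 : E8) 1, fv V r x ∂σ8)
        + ((∫ x : sphere (0 : E8) 1, fv V r x ∂σ8)
          - ((4 / 5) * (1 + r ^ 6) + (1 / 5) * (1 + r ^ 2) ^ 3) * σ8.real Set.univ) / (2 * κ)) := by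
  set M : E8 → ℝ := fun x => κ * fv V r x + (fv V r x - cal V r x) / (2 * κ) with hM
  have hMc : Continuous M :=
    ((h.cont_fv r).const_mul κ).add (((h.cont_fv r).sub (h.cont_cal r)).div_const _)
  have hMn : ∀ x : E8, ‖x‖ = 1 → 0 ≤ M x := by
    intro x hx
    have h1 := (h.pw_cal r hr x hx).1
    have h2 : 0 ≤ fv V r x := Real.sqrt_nonneg _
    have h3 : 0 ≤ fv V r x - cal V r x := by linarith
    simp only [hM]
    positivity
  have hMi : ∫ x : sphere (0 : E8) 1, M x ∂σ8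
      = κ * (∫ x : sphere (0 : E8) 1, fv V r x ∂σ8)
        + ((∫ x : sphere (0 : E8) 1, fv V r x ∂σ8)
          - ((4 / 5) * (1 + r ^ 6) + (1 / 5) * (1 + r ^ 2) ^ 3) * σ8.real Set.univ) / (2 * κ) := by
    have h1 := int4 (fv V r) (cal V r) (fun _ => 0) (fun _ => 0) (h.cont_fv r) (h.cont_cal r)
      continuous_const continuous_const (κ + 1 / (2 * κ)) (-(1 / (2 * κ))) 0 0
    have h2 : ∫ x : sphere (0 : E8) 1, M x ∂σ8
        = ∫ x : sphere (0 : E8) 1, ((κ + 1 / (2 * κ)) * fv V r x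
          + (-(1 / (2 * κ))) * cal V r x + 0 * 0 + 0 * 0) ∂σ8 := by
      refine integral_congr_ae (Filter.Eventually.of_forall fun x => ?_)
      simp only [hM]
      ring
    rw [h2, h1, h.int_cal]
    ring
  rw [← hMi]
  have hR : ∀ (s : ℝ) (x : E8), ‖x‖ = 1 → |s| ≤ 3 → |Rr V w s x| ≤ Cst r 3 * M x := by
    intro s x hx hs
    refine ((h.pw_cal r hr x hx).2 s κ w hκ hw).trans ?_
    exact mul_le_mul_of_nonneg_right (Cst_mono r s hr hs) (hMn x hx)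
  have hrk : ∀ k ∈ ({1, 3, 5} : Finset ℕ), |∫ x : sphere (0 : E8) 1, rk V w k x ∂σ8|
      ≤ 2 * Cst r 3 * ∫ x : sphere (0 : E8) 1, M x ∂σ8 := by
    intro k hk
    have hpt : ∀ x : sphere (0 : E8) 1, ‖rk V w k x‖ ≤ 2 * Cst r 3 * M x := by
      intro x
      have hx : ‖(x : E8)‖ = 1 := by simp
      have h1 := co_bound (fun s => Rr V w s x) (Cst r 3 * M x) (fun s hs => hR s x hx hs)
      rw [Real.norm_eq_abs, mul_assoc]
      simp only [Finset.mem_insert, Finset.mem_singleton] at hk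
      rcases hk with rfl | rfl | rfl
      · exact h1.1
      · exact h1.2.1
      · exact h1.2.2
    have h2 := norm_integral_le_of_norm_le ((int_of_cont M hMc).const_mul (2 * Cst r 3))
      (Filter.Eventually.of_forall hpt)
    rwa [integral_const_mul, Real.norm_eq_abs] at h2
  have hK := h.K0 w
  have r1 := abs_le.1 (hrk 1 (by simp))
  have r3 := abs_le.1 (hrk 3 (by simp))
  have r5 := abs_le.1 (hrk 5 (by simp))
  have hpos : 0 ≤ 2 * Cst r 3 * ∫ x : sphere (0 : E8) 1, M x ∂σ8 :=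
    (abs_nonneg _).trans (hrk 1 (by simp))
  rw [abs_le]
  constructor <;> linarith [r1.1, r1.2, r3.1, r3.2, r5.1, r5.2]

end Pool.Agent.Helper28
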