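import Mathlib

open Set MeasureTheory
open scoped ContDiff InnerProductSpace ENNReal

namespace Pool.Agent.Helper28.Cr

/-- Euclidean 3-space -/
abbrev E3 := EuclideanSpace ℝ (Fin 3)

/-- the bundle `T^r S^2` of tangent vectors of length `r` of the unit sphere, as a subset of `ℝ³ × ℝ³` -/
def TS (r : ℝ) : Set (E3 × E3) := {p | ‖p.1‖ = 1 ∧ ⟪p.1, p.2⟫_ℝ = 0 ∧ ‖p.2‖ = r}

/-- `a` is a tangent vector of `T^r S^2` at the point `p` -/
def IsTan (p a : E3 × E3) : Prop :=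
  ⟪p.1, a.1⟫_ℝ = 0 ∧ ⟪p.2, a.2⟫_ℝ = 0 ∧ ⟪a.1, p.2⟫_ℝ + ⟪p.1, a.2⟫_ℝ = 0

/-- `S` is a smooth embedded surface without boundary in `T^r S^2`: near each of its points it is the
zero set, in `T^r S^2`, of a smooth function whose differential at the point does not vanish on the
tangent space of `T^r S^2` -/
def IsSurf (r : ℝ) (S : Set (E3 × E3)) : Prop :=
  S ⊆ TS r ∧ ∀ p ∈ S, ∃ (W : Set (E3 × E3)) (f : E3 × E3 → ℝ), IsOpen W ∧ p ∈ W ∧
    ContDiffOn ℝ ∞ f W ∧ (∀ q ∈ W, q ∈ TS r → (q ∈ S ↔ f q = 0)) ∧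
    ∃ a, IsTan p a ∧ fderiv ℝ f p a ≠ 0

/-- the Sasaki metric at `p = (x, v)`, on tangent vectors `a = (x', v')`, `b` of `T^r S^2`; the
covariant derivative of `v` is the tangential part `v' - ⟨x, v'⟩ x` -/
noncomputable def sas (p a b : E3 × E3) : ℝ :=
  ⟪a.1, b.1⟫_ℝ + ⟪a.2 - ⟪p.1, a.2⟫_ℝ • p.1, b.2 - ⟪p.1, b.2⟫_ℝ • p.1⟫_ℝ

/-- the coefficients of the first fundamental form of the parametrisation `φ` at `w` -/
noncomputable def gr (φ : ℝ × ℝ → E3 × E3) (w e e' : ℝ × ℝ) : ℝ :=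
  sas (φ w) (fderiv ℝ φ w e) (fderiv ℝ φ w e')

/-- the area density of a parametrisation `φ`: the square root of the Gram determinant of its partial
derivatives in the Sasaki metric -/
noncomputable def jac (φ : ℝ × ℝ → E3 × E3) (w : ℝ × ℝ) : ℝ :=
  √(gr φ w (1, 0) (1, 0) * gr φ w (0, 1) (0, 1) - gr φ w (1, 0) (0, 1) ^ 2)

/-- `φ`, restricted to the measurable set `B`, is an injective parametrisation of a piece of `S`, and
`φ` is continuously differentiable from a neighbourhood of `B` to `S` -/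
def IsPatch (S : Set (E3 × E3)) (φ : ℝ × ℝ → E3 × E3) (B : Set (ℝ × ℝ)) : Prop :=
  MeasurableSet B ∧ InjOn φ B ∧
    ∃ O, IsOpen O ∧ B ⊆ O ∧ ContDiffOn ℝ 1 φ O ∧ MapsTo φ O S

/-- a finite family of parametrised pieces of `S` with pairwise disjoint images -/
def IsFam (S : Set (E3 × E3)) {n : ℕ} (φ : Fin n → ℝ × ℝ → E3 × E3) (B : Fin n → Set (ℝ × ℝ)) :
    Prop :=
  (∀ i, IsPatch S (φ i) (B i)) ∧ Pairwise (fun i j => Disjoint (φ i '' B i) (φ j '' B j))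

/-- the sum of the areas of the pieces of a family -/
noncomputable def famArea {n : ℕ} (φ : Fin n → ℝ × ℝ → E3 × E3) (B : Fin n → Set (ℝ × ℝ)) :
    ℝ≥0∞ := ∑ i, ∫⁻ w in B i, ENNReal.ofReal (jac (φ i) w)

/-- the area of `S` for the Sasaki metric: the supremum, over the finite families of parametrised
pieces of `S` with pairwise disjoint images, of the sum of their areas -/
noncomputable def area (S : Set (E3 × E3)) : ℝ≥0∞ :=
  ⨆ (n : ℕ) (φ : Fin n → ℝ × ℝ → E3 × E3) (B : Fin n → Set (ℝ × ℝ)) (_ : IsFam S φ B), famArea φ B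

/-- `V` is a smooth tangent field of constant length `r` on the dense open subset `U ∩ S^2` of the
unit sphere `S^2` -/
def IsField (r : ℝ) (U : Set E3) (V : E3 → E3) : Prop :=
  IsOpen U ∧ Metric.sphere (0 : E3) 1 ⊆ closure (U ∩ Metric.sphere (0 : E3) 1) ∧
    ContDiffOn ℝ ∞ V U ∧ ∀ x ∈ U, ‖x‖ = 1 → ⟪x, V x⟫_ℝ = 0 ∧ ‖V x‖ = r

/-- `Σ_V`: the closure of the graph of the field `V` given on the set `U ∩ S²` -/
def Sig (U : Set E3) (V : E3 → E3) : Set (E3 × E3) :=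
  closure {p | p.1 ∈ U ∧ ‖p.1‖ = 1 ∧ p.2 = V p.1}

/-- `a` and `b` are orthonormal -/
def Orth (a b : E3) : Prop := ‖a‖ = 1 ∧ ‖b‖ = 1 ∧ ⟪a, b⟫_ℝ = 0

/-- the parallel transport field `P^{a,b}` -/
noncomputable def Pf (a b x : E3) : E3 := b - (⟪x, b⟫_ℝ / (1 + ⟪x, a⟫_ℝ)) • (a + x)

/-- the surface `Σ_{r P^{a,b}}` of the parallel transport field of length `r` -/
noncomputable def SigP (r : ℝ) (a b : E3) : Set (E3 × E3) :=
  Sig {x | x ≠ -a} (fun x => r • Pf a b x)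

end Pool.Agent.Helper28.Cr
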