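import Mathlib

open Set Filter Topology
open scoped ContDiff

namespace Pool.Agent.Helper28.Cr

abbrev Q4 := Fin 4 → ℝ

/-- local datum: an even local defining function of the cone `S` -/
structure LD (S : Set Q4) where
  W : Set Q4
  f : Q4 → ℝ
  op : IsOpen W
  sm : ContDiffOn ℝ ∞ f W
  sy : ∀ x ∈ W, -x ∈ W
  ev : ∀ x ∈ W, f (-x) = f x
  ze : ∀ x ∈ W, (x ∈ S ↔ f x = 0)
  re : ∀ x ∈ W, x ∈ S → fderiv ℝ f x ≠ 0

lemma mv {f : Q4 → ℝ} {x₀ ν : Q4} (hf : ContDiffAt ℝ 1 f x₀) (hν : 0 < fderiv ℝ f x₀ ν) :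
    ∃ c > 0, ∃ δ > 0, ∀ x, dist x x₀ < δ → ∀ σ : ℝ, |σ| < δ →
      c * σ ^ 2 ≤ σ * (f (x + σ • ν) - f x) := by
  have h1 : ∀ᶠ x in 𝓝 x₀, ContDiffAt ℝ 1 f x := hf.eventually (by simp)
  have h2 : ContinuousAt (fun x => fderiv ℝ f x ν) x₀ := by
    have := (hf.fderiv_right (m := 0) (by norm_num)).continuousAt
    exact this.clm_apply continuousAt_const
  have h3 : ∀ᶠ x in 𝓝 x₀, fderiv ℝ f x₀ ν / 2 < fderiv ℝ f x ν :=
    h2.eventually (lt_mem_nhds (by linarith))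
  obtain ⟨ρ, hρ, hb⟩ := Metric.eventually_nhds_iff.1 (h1.and h3)
  refine ⟨fderiv ℝ f x₀ ν / 2, by linarith, ρ / (2 * (1 + ‖ν‖)), by positivity, ?_⟩
  intro x hx σ hσ
  have hν0 : 0 ≤ ‖ν‖ := norm_nonneg _
  have hball : ∀ t ∈ Icc (0:ℝ) 1, dist (x + (t * σ) • ν) x₀ < ρ := by
    intro t ht
    have e1 : dist (x + (t * σ) • ν) x₀ ≤ dist x x₀ + |σ| * ‖ν‖ := by
      calc dist (x + (t * σ) • ν) x₀ ≤ dist (x + (t * σ) • ν) x + dist x x₀ := dist_triangle _ _ _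
        _ = ‖(t * σ) • ν‖ + dist x x₀ := by rw [dist_eq_norm]; congr 2; abel
        _ ≤ |σ| * ‖ν‖ + dist x x₀ := by
            gcongr
            rw [norm_smul, Real.norm_eq_abs, abs_mul, abs_of_nonneg ht.1]
            have : t * |σ| ≤ |σ| := mul_le_of_le_one_left (abs_nonneg _) ht.2
            exact mul_le_mul_of_nonneg_right this hν0
        _ = _ := by ring
    have e2 : |σ| * ‖ν‖ ≤ ρ / (2 * (1 + ‖ν‖)) * ‖ν‖ := mul_le_mul_of_nonneg_right hσ.le hν0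
    have e3 : ρ / (2 * (1 + ‖ν‖)) + ρ / (2 * (1 + ‖ν‖)) * ‖ν‖ = ρ / 2 := by
      field_simp
    linarith
  have hd : ∀ t ∈ Icc (0:ℝ) 1, HasDerivAt (fun t : ℝ => f (x + (t * σ) • ν))
      (σ * fderiv ℝ f (x + (t * σ) • ν) ν) t := by
    intro t ht
    have hdf : DifferentiableAt ℝ f (x + (t * σ) • ν) :=
      (hb (hball t ht)).1.differentiableAt (by norm_num)
    have hl : HasDerivAt (fun t : ℝ => x + (t * σ) • ν) (σ • ν) t := by
      have := (((hasDerivAt_id t).mul_const σ).smul_const ν).const_add x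
      simpa using this
    have := hdf.hasFDerivAt.comp_hasDerivAt t hl
    rw [map_smul, smul_eq_mul] at this
    exact this
  obtain ⟨ξ, hξ, he⟩ := exists_hasDerivAt_eq_slope (fun t : ℝ => f (x + (t * σ) • ν))
    (fun t => σ * fderiv ℝ f (x + (t * σ) • ν) ν) (a := 0) (b := 1) one_pos
    (fun t ht => (hd t ht).continuousAt.continuousWithinAt)
    (fun t ht => hd t (Ioo_subset_Icc_self ht))
  simp only [sub_zero, div_one, one_mul, zero_mul, zero_smul, add_zero] at he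
  have h5 := (hb (hball ξ (Ioo_subset_Icc_self hξ))).2
  rw [← he]
  nlinarith [sq_nonneg σ, mul_le_mul_of_nonneg_right h5.le (sq_nonneg σ)]

lemma root {f : Q4 → ℝ} {x₀ ν : Q4} (hf : ContDiffAt ℝ 1 f x₀) (h0 : f x₀ = 0)
    (hν : 0 < fderiv ℝ f x₀ ν) :
    ∃ C > 0, ∀ᶠ x in 𝓝 x₀, ∃ σ : ℝ, |σ| ≤ C * |f x| ∧ f (x + σ • ν) = 0 := by
  obtain ⟨c, hc, δ, hδ, H⟩ := mv hf hν
  refine ⟨1 / c, by positivity, ?_⟩
  have h1 : ∀ᶠ x in 𝓝 x₀, ContDiffAt ℝ 1 f x := hf.eventually (by simp)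
  obtain ⟨ρ, hρ, hb⟩ := Metric.eventually_nhds_iff.1 h1
  have hcont : ContinuousAt (fun x => |f x|) x₀ := hf.continuousAt.abs
  have h4 : ∀ᶠ x in 𝓝 x₀, |f x| < min (c * δ) (c * (ρ / (2 * (1 + ‖ν‖)))) := by
    apply hcont.eventually (gt_mem_nhds _)
    simp only [h0, abs_zero]
    have : 0 ≤ ‖ν‖ := norm_nonneg _
    positivity
  have h5 : ∀ᶠ x in 𝓝 x₀, dist x x₀ < min δ (ρ / 2) :=
    Metric.eventually_nhds_iff.2 ⟨min δ (ρ / 2), by positivity, fun _ h => h⟩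
  filter_upwards [h4, h5] with x hx hx'
  have hx1 := lt_of_lt_of_le hx (min_le_left _ _)
  have hx2 := lt_of_lt_of_le hx (min_le_right _ _)
  have hx3 := lt_of_lt_of_le hx' (min_le_left _ _)
  have hx4 := lt_of_lt_of_le hx' (min_le_right _ _)
  have hν0 : 0 ≤ ‖ν‖ := norm_nonneg _
  set τ : ℝ := 1 / c * |f x| with hτ
  have hτ0 : 0 ≤ τ := by positivity
  have hcτ : c * τ = |f x| := by rw [hτ]; field_simp
  have hτδ : τ < δ := by
    rw [← hcτ] at hx1
    exact lt_of_mul_lt_mul_left hx1 hc.le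
  have hτρ : τ < ρ / (2 * (1 + ‖ν‖)) := by
    rw [← hcτ] at hx2
    exact lt_of_mul_lt_mul_left hx2 hc.le
  have hcon : ContinuousOn (fun σ : ℝ => f (x + σ • ν)) (Icc (-τ) τ) := by
    intro σ hσ
    have habs : |σ| ≤ τ := abs_le.2 ⟨hσ.1, hσ.2⟩
    have : dist (x + σ • ν) x₀ < ρ := by
      calc dist (x + σ • ν) x₀ ≤ dist (x + σ • ν) x + dist x x₀ := dist_triangle _ _ _
        _ = ‖σ • ν‖ + dist x x₀ := by rw [dist_eq_norm]; congr 2; abel
        _ = |σ| * ‖ν‖ + dist x x₀ := by rw [norm_smul, Real.norm_eq_abs]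
        _ ≤ τ * ‖ν‖ + dist x x₀ := by gcongr
        _ ≤ ρ / (2 * (1 + ‖ν‖)) * ‖ν‖ + dist x x₀ := by gcongr
        _ < ρ / 2 + ρ / 2 := by
            have : ρ / (2 * (1 + ‖ν‖)) * ‖ν‖ ≤ ρ / 2 := by
              rw [div_mul_eq_mul_div, div_le_div_iff₀ (by positivity) (by positivity)]
              nlinarith
            linarith
        _ = ρ := by ring
    have hca : ContinuousAt f (x + σ • ν) := (hb this).continuousAt
    have hl : ContinuousAt (fun σ : ℝ => x + σ • ν) σ := by fun_prop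
    exact (ContinuousAt.comp (f := fun σ : ℝ => x + σ • ν) (g := f) hca hl).continuousWithinAt
  have habs1 : |(-τ)| < δ := by rw [abs_neg, abs_of_nonneg hτ0]; exact hτδ
  have habs2 : |τ| < δ := by rw [abs_of_nonneg hτ0]; exact hτδ
  have hm1 := H x hx3 (-τ) habs1
  have hm2 := H x hx3 τ habs2
  rcases eq_or_lt_of_le hτ0 with hz | hpos
  · refine ⟨0, by rw [abs_zero]; positivity, ?_⟩
    have : |f x| = 0 := by rw [← hcτ, ← hz]; ring
    simpa using this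
  have hlow : f (x + (-τ) • ν) ≤ 0 := by
    have e1 : f (x + (-τ) • ν) ≤ f x - c * τ := by
      have : τ * (c * τ) ≤ τ * (f x - f (x + (-τ) • ν)) := by nlinarith
      have := le_of_mul_le_mul_left this hpos
      linarith
    have := le_abs_self (f x)
    linarith
  have hhigh : 0 ≤ f (x + τ • ν) := by
    have e1 : f x + c * τ ≤ f (x + τ • ν) := by
      have : τ * (c * τ) ≤ τ * (f (x + τ • ν) - f x) := by nlinarith
      have := le_of_mul_le_mul_left this hpos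
      linarith
    have := neg_abs_le (f x)
    linarith
  have hivt := intermediate_value_Icc (by linarith : -τ ≤ τ) hcon
  obtain ⟨σ, hσ, h⟩ := hivt ⟨hlow, hhigh⟩
  exact ⟨σ, abs_le.2 ⟨hσ.1, hσ.2⟩, h⟩

lemma same_sign {f g : Q4 → ℝ} {x₀ ν : Q4} (hf : ContDiffAt ℝ 1 f x₀) (hg : ContDiffAt ℝ 1 g x₀)
    (hf0 : f x₀ = 0) (hz : ∀ᶠ x in 𝓝 x₀, (f x = 0 ↔ g x = 0))
    (hfν : 0 < fderiv ℝ f x₀ ν) (hgν : 0 < fderiv ℝ g x₀ ν) :
    ∀ᶠ x in 𝓝 x₀, 0 ≤ f x * g x := by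
  obtain ⟨c, hc, δ, hδ, H⟩ := mv hf hfν
  obtain ⟨c', hc', δ', hδ', H'⟩ := mv hg hgν
  obtain ⟨C, hC, HR⟩ := root hf hf0 hfν
  obtain ⟨ρ, hρ, hb⟩ := Metric.eventually_nhds_iff.1 hz
  have hν0 : 0 ≤ ‖ν‖ := norm_nonneg _
  have hcont : ContinuousAt (fun x => C * |f x|) x₀ := continuousAt_const.mul hf.continuousAt.abs
  have h4 : ∀ᶠ x in 𝓝 x₀, C * |f x| < min (min δ δ') (ρ / (2 * (1 + ‖ν‖))) := by
    apply hcont.eventually (gt_mem_nhds _)
    simp only [hf0, abs_zero, mul_zero]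
    positivity
  have h5 : ∀ᶠ x in 𝓝 x₀, dist x x₀ < min (min δ δ') (ρ / 2) :=
    Metric.eventually_nhds_iff.2 ⟨min (min δ δ') (ρ / 2), by positivity, fun _ h => h⟩
  filter_upwards [HR, h4, h5] with x hx h4 h5
  obtain ⟨σ, hσ, hr⟩ := hx
  have a1 := lt_of_lt_of_le h4 (min_le_left _ _)
  have a2 := lt_of_lt_of_le h4 (min_le_right _ _)
  have a3 := lt_of_lt_of_le a1 (min_le_left _ _)
  have a4 := lt_of_lt_of_le a1 (min_le_right _ _)
  have b1 := lt_of_lt_of_le h5 (min_le_left _ _)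
  have b2 := lt_of_lt_of_le h5 (min_le_right _ _)
  have b3 := lt_of_lt_of_le b1 (min_le_left _ _)
  have b4 := lt_of_lt_of_le b1 (min_le_right _ _)
  have e1 := H x b3 σ (lt_of_le_of_lt hσ a3)
  have e2 := H' x b4 σ (lt_of_le_of_lt hσ a4)
  have hin : dist (x + σ • ν) x₀ < ρ := by
    calc dist (x + σ • ν) x₀ ≤ dist (x + σ • ν) x + dist x x₀ := dist_triangle _ _ _
      _ = ‖σ • ν‖ + dist x x₀ := by rw [dist_eq_norm]; congr 2; abel
      _ = |σ| * ‖ν‖ + dist x x₀ := by rw [norm_smul, Real.norm_eq_abs]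
      _ ≤ ρ / (2 * (1 + ‖ν‖)) * ‖ν‖ + dist x x₀ := by
          gcongr
          exact hσ.trans a2.le
      _ < ρ / 2 + ρ / 2 := by
          have : ρ / (2 * (1 + ‖ν‖)) * ‖ν‖ ≤ ρ / 2 := by
            rw [div_mul_eq_mul_div, div_le_div_iff₀ (by positivity) (by positivity)]
            nlinarith
          linarith
      _ = ρ := by ring
  have hgr : g (x + σ • ν) = 0 := (hb hin).1 hr
  rw [hr] at e1
  rw [hgr] at e2
  by_cases hs : σ = 0
  · subst hs
    have : f x = 0 := by simpa using hr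
    rw [this]; simp
  · have hp : 0 < σ ^ 2 := by positivity
    have k1 : 0 < -(σ * f x) := by nlinarith
    have k2 : 0 < -(σ * g x) := by nlinarith
    have k3 : 0 < σ ^ 2 * (f x * g x) := by nlinarith [mul_pos k1 k2]
    by_contra hn
    push Not at hn
    nlinarith

variable {S : Set Q4}

lemma LD.cda (D : LD S) {x : Q4} (hx : x ∈ D.W) : ContDiffAt ℝ ∞ D.f x :=
  (D.sm x hx).contDiffAt (D.op.mem_nhds hx)

lemma LD.cda1 (D : LD S) {x : Q4} (hx : x ∈ D.W) : ContDiffAt ℝ 1 D.f x :=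
  (D.cda hx).of_le (by exact_mod_cast le_top)

/-- the two signs -/
lemma dich (D D' : LD S) {x : Q4} (hx : x ∈ D.W) (hx' : x ∈ D'.W) :
    (∀ᶠ y in 𝓝 x, 0 ≤ D.f y * D'.f y) ∨ (∀ᶠ y in 𝓝 x, D.f y * D'.f y ≤ 0) := by
  have hnear : ∀ᶠ y in 𝓝 x, y ∈ D.W ∧ y ∈ D'.W :=
    Filter.Eventually.and (D.op.mem_nhds hx) (D'.op.mem_nhds hx')
  by_cases hS : x ∈ S
  · have hf0 : D.f x = 0 := (D.ze x hx).1 hS
    have hf1 := D.re x hx hS
    have hg1 := D'.re x hx' hS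
    have hz : ∀ᶠ y in 𝓝 x, (D.f y = 0 ↔ D'.f y = 0) := by
      filter_upwards [hnear] with y hy
      rw [← D.ze y hy.1, ← D'.ze y hy.2]
    -- choose ν
    have hν : ∃ ν, 0 < fderiv ℝ D.f x ν ∧ fderiv ℝ D'.f x ν ≠ 0 := by
      obtain ⟨a, ha⟩ : ∃ a, 0 < fderiv ℝ D.f x a := by
        by_contra hn
        push Not at hn
        apply hf1
        ext a
        have h1 := hn a
        have h2 := hn (-a)
        rw [map_neg] at h2
        simp only [_root_.zero_apply]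
        linarith
      obtain ⟨b, hb⟩ : ∃ b, fderiv ℝ D'.f x b ≠ 0 := by
        by_contra hn
        push Not at hn
        exact hg1 (by ext a; simpa using hn a)
      by_cases hc : fderiv ℝ D'.f x a = 0
      · -- perturb
        set A := fderiv ℝ D.f x a with hA
        set B := fderiv ℝ D.f x b with hB
        refine ⟨a + (A / (2 * (1 + |B|))) • b, ?_, ?_⟩
        · rw [map_add, map_smul, smul_eq_mul, ← hA, ← hB]
          have h0 : 0 ≤ |B| := abs_nonneg _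
          have h1 : -(A / 2) ≤ A / (2 * (1 + |B|)) * B := by
            rw [div_mul_eq_mul_div, le_div_iff₀ (by positivity)]
            nlinarith [neg_abs_le B]
          linarith
        · rw [map_add, map_smul, hc, zero_add, smul_eq_mul]
          have h0 : 0 ≤ |B| := abs_nonneg _
          exact mul_ne_zero (by positivity) hb
      · exact ⟨a, ha, hc⟩
    obtain ⟨ν, h1, h2⟩ := hν
    rcases lt_or_gt_of_ne h2 with h | h
    · right
      have hneg : fderiv ℝ (fun y => -(D'.f y)) x ν = -(fderiv ℝ D'.f x ν) := by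
        rw [fderiv_fun_neg]; rfl
      have := same_sign (f := D.f) (g := fun y => -(D'.f y)) (x₀ := x) (ν := ν) (D.cda1 hx)
        ((D'.cda1 hx').neg) hf0 (by
          filter_upwards [hz] with y hy
          rw [hy]; simp) h1 (by rw [hneg]; linarith)
      filter_upwards [this] with y hy
      linarith [mul_neg (D.f y) (D'.f y)]
    · left
      exact same_sign (D.cda1 hx) (D'.cda1 hx') hf0 hz h1 h
  · have h1 : D.f x ≠ 0 := fun h => hS ((D.ze x hx).2 h)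
    have h2 : D'.f x ≠ 0 := fun h => hS ((D'.ze x hx').2 h)
    have hc : ContinuousAt (fun y => D.f y * D'.f y) x :=
      (D.cda hx).continuousAt.mul (D'.cda hx').continuousAt
    rcases lt_or_gt_of_ne (mul_ne_zero h1 h2) with h | h
    · right
      filter_upwards [hc.eventually (gt_mem_nhds h)] with y hy using le_of_lt hy
    · left
      filter_upwards [hc.eventually (lt_mem_nhds h)] with y hy using le_of_lt hy

lemma excl (D D' : LD S) {x : Q4} (hx : x ∈ D.W) (hx' : x ∈ D'.W)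
    (h1 : ∀ᶠ y in 𝓝 x, 0 ≤ D.f y * D'.f y) (h2 : ∀ᶠ y in 𝓝 x, D.f y * D'.f y ≤ 0) : False := by
  have hnear : ∀ᶠ y in 𝓝 x, y ∈ D.W ∧ y ∈ D'.W :=
    Filter.Eventually.and (D.op.mem_nhds hx) (D'.op.mem_nhds hx')
  have h3 : ∀ᶠ y in 𝓝 x, D.f y = 0 := by
    filter_upwards [h1, h2, hnear] with y a b c
    rcases mul_eq_zero.1 (le_antisymm b a) with h | h
    · exact h
    · exact (D.ze y c.1).1 ((D'.ze y c.2).2 h)
  have hS : x ∈ S := (D.ze x hx).2 h3.self_of_nhds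
  apply D.re x hx hS
  have : D.f =ᶠ[𝓝 x] fun _ => (0:ℝ) := h3
  rw [this.fderiv_eq]
  simp

open Classical in
/-- comparison sign of two local data at a point -/
noncomputable def eps (D D' : LD S) (x : Q4) : ℤ :=
  if (∀ᶠ y in 𝓝 x, 0 ≤ D.f y * D'.f y) then 1 else -1

lemma eps_mul_self (D D' : LD S) (x : Q4) : eps D D' x * eps D D' x = 1 := by
  unfold eps; split_ifs <;> norm_num

lemma eps_comm (D D' : LD S) (x : Q4) : eps D D' x = eps D' D x := by
  unfold eps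
  congr 1
  simp only [mul_comm]

lemma eps_neg (D D' : LD S) {x : Q4} (hx : x ∈ D.W) (hx' : x ∈ D'.W) :
    eps D D' (-x) = eps D D' x := by
  have hnear : ∀ᶠ y in 𝓝 x, y ∈ D.W ∧ y ∈ D'.W :=
    Filter.Eventually.and (D.op.mem_nhds hx) (D'.op.mem_nhds hx')
  have key : (∀ᶠ y in 𝓝 (-x), 0 ≤ D.f y * D'.f y) ↔ (∀ᶠ y in 𝓝 x, 0 ≤ D.f y * D'.f y) := by
    have e : 𝓝 (-x) = map (fun y => -y) (𝓝 x) := by
      have := (Homeomorph.neg Q4).map_nhds_eq x
      exact this.symm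
    rw [e, eventually_map]
    constructor
    · intro h
      filter_upwards [h, hnear] with y hy hy'
      rw [D.ev y hy'.1, D'.ev y hy'.2] at hy
      exact hy
    · intro h
      filter_upwards [h, hnear] with y hy hy'
      rw [D.ev y hy'.1, D'.ev y hy'.2]
      exact hy
  unfold eps
  by_cases h : ∀ᶠ y in 𝓝 x, 0 ≤ D.f y * D'.f y
  · rw [if_pos h, if_pos (key.2 h)]
  · rw [if_neg h, if_neg (fun h' => h (key.1 h'))]

lemma eps_const (D D' : LD S) {C : Set Q4} (hC : IsPreconnected C) (h1 : C ⊆ D.W) (h2 : C ⊆ D'.W)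
    {x y : Q4} (hx : x ∈ C) (hy : y ∈ C) : eps D D' x = eps D D' y := by
  set P : Set Q4 := {z | ∀ᶠ y in 𝓝 z, 0 ≤ D.f y * D'.f y} with hP
  set N : Set Q4 := {z | ∀ᶠ y in 𝓝 z, D.f y * D'.f y ≤ 0} with hN
  have oP : IsOpen P := isOpen_setOfPred_eventually_nhds
  have oN : IsOpen N := isOpen_setOfPred_eventually_nhds
  have hcov : C ⊆ P ∪ N := fun z hz => dich D D' (h1 hz) (h2 hz)
  by_cases hxP : x ∈ P
  · have hyP : y ∈ P := by
      by_contra hyP
      have hyN : y ∈ N := (hcov hy).resolve_left hyP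
      obtain ⟨z, hz, hzP, hzN⟩ := hC P N oP oN hcov ⟨x, hx, hxP⟩ ⟨y, hy, hyN⟩
      exact excl D D' (h1 hz) (h2 hz) hzP hzN
    unfold eps
    have hxP' : ∀ᶠ y in 𝓝 x, 0 ≤ D.f y * D'.f y := hxP
    have hyP' : ∀ᶠ z in 𝓝 y, 0 ≤ D.f z * D'.f z := hyP
    rw [if_pos hxP', if_pos hyP']
  · have hxN : x ∈ N := (hcov hx).resolve_left hxP
    have hyP : y ∉ P := by
      intro hyP
      obtain ⟨z, hz, hzP, hzN⟩ := hC P N oP oN hcov ⟨y, hy, hyP⟩ ⟨x, hx, hxN⟩
      exact excl D D' (h1 hz) (h2 hz) hzP hzN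
    unfold eps
    have hxP' : ¬ ∀ᶠ y in 𝓝 x, 0 ≤ D.f y * D'.f y := hxP
    have hyP' : ¬ ∀ᶠ z in 𝓝 y, 0 ≤ D.f z * D'.f z := hyP
    rw [if_neg hxP', if_neg hyP']

lemma eps_cocycle (D D' D'' : LD S) {x : Q4} (h1 : x ∈ D.W) (h2 : x ∈ D'.W) (h3 : x ∈ D''.W) :
    eps D D' x * eps D' D'' x = eps D D'' x := by
  have hnear : ∀ᶠ y in 𝓝 x, y ∈ D.W ∧ y ∈ D'.W ∧ y ∈ D''.W :=
    Filter.Eventually.and (D.op.mem_nhds h1) (Filter.Eventually.and (D'.op.mem_nhds h2) (D''.op.mem_nhds h3))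
  have hz : ∀ᶠ y in 𝓝 x, (D'.f y = 0 → D.f y = 0 ∧ D''.f y = 0) := by
    filter_upwards [hnear] with y hy h
    have hS := (D'.ze y hy.2.1).2 h
    exact ⟨(D.ze y hy.1).1 hS, (D''.ze y hy.2.2).1 hS⟩
  -- the sign of the product
  have hprod : ∀ᶠ y in 𝓝 x, ∀ (s t : ℝ), s * t = 1 ∨ s * t = -1 → 0 ≤ s * (D.f y * D'.f y) →
      0 ≤ t * (D'.f y * D''.f y) → 0 ≤ s * t * (D.f y * D''.f y) := by
    filter_upwards [hz] with y hy s t hst a b
    by_cases h0 : D'.f y = 0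
    · rw [(hy h0).1]; simp
    · have hp : 0 < D'.f y ^ 2 := by positivity
      have : 0 ≤ D'.f y ^ 2 * (s * t * (D.f y * D''.f y)) := by
        have := mul_nonneg a b
        nlinarith
      exact nonneg_of_mul_nonneg_right this hp
  rcases dich D D' h1 h2 with a | a <;> rcases dich D' D'' h2 h3 with b | b
  · have c : ∀ᶠ y in 𝓝 x, 0 ≤ D.f y * D''.f y := by
      filter_upwards [a, b, hprod] with y ha hb hp
      simpa using hp 1 1 (by norm_num) (by simpa using ha) (by simpa using hb)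
    unfold eps
    rw [if_pos a, if_pos b, if_pos c]; norm_num
  · have b' : ¬ ∀ᶠ y in 𝓝 x, 0 ≤ D'.f y * D''.f y := fun h => excl D' D'' h2 h3 h b
    have c : ∀ᶠ y in 𝓝 x, D.f y * D''.f y ≤ 0 := by
      filter_upwards [a, b, hprod] with y ha hb hp
      have := hp 1 (-1) (by norm_num) (by simpa using ha) (by linarith)
      linarith
    have c' : ¬ ∀ᶠ y in 𝓝 x, 0 ≤ D.f y * D''.f y := fun h => excl D D'' h1 h3 h c
    unfold eps
    rw [if_pos a, if_neg b', if_neg c']; norm_num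
  · have a' : ¬ ∀ᶠ y in 𝓝 x, 0 ≤ D.f y * D'.f y := fun h => excl D D' h1 h2 h a
    have c : ∀ᶠ y in 𝓝 x, D.f y * D''.f y ≤ 0 := by
      filter_upwards [a, b, hprod] with y ha hb hp
      have := hp (-1) 1 (by norm_num) (by linarith) (by simpa using hb)
      linarith
    have c' : ¬ ∀ᶠ y in 𝓝 x, 0 ≤ D.f y * D''.f y := fun h => excl D D'' h1 h3 h c
    unfold eps
    rw [if_neg a', if_pos b, if_neg c']; norm_num
  · have a' : ¬ ∀ᶠ y in 𝓝 x, 0 ≤ D.f y * D'.f y := fun h => excl D D' h1 h2 h a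
    have b' : ¬ ∀ᶠ y in 𝓝 x, 0 ≤ D'.f y * D''.f y := fun h => excl D' D'' h2 h3 h b
    have c : ∀ᶠ y in 𝓝 x, 0 ≤ D.f y * D''.f y := by
      filter_upwards [a, b, hprod] with y ha hb hp
      have := hp (-1) (-1) (by norm_num) (by linarith) (by linarith)
      simpa using this
    unfold eps
    rw [if_neg a', if_neg b', if_pos c]; norm_num

end Pool.Agent.Helper28.Cr
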