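import Mathlib
import Pool.Agent.Helper28.CrTop1

open Set Filter Topology
open scoped ContDiff

namespace Pool.Agent.Helper28.Cr

variable {S : Set Q4}

open Classical in
noncomputable def sg (x : ℝ) : ℤ := if 0 < x then 1 else -1

lemma sg_mul_self (x : ℝ) : sg x * sg x = 1 := by unfold sg; split_ifs <;> norm_num

lemma sg_eq_of_mul_pos {x y : ℝ} (h : 0 < x * y) : sg x = sg y := by
  unfold sg
  rcases lt_trichotomy 0 x with hx | hx | hx
  · have : 0 < y := by
      by_contra hn; push Not at hn; nlinarith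
    rw [if_pos hx, if_pos this]
  · rw [← hx] at h; simp at h
  · have : y < 0 := by
      by_contra hn; push Not at hn; nlinarith
    rw [if_neg (by linarith), if_neg (by linarith)]

lemma sg_eq_of_mul_neg {x y : ℝ} (h : x * y < 0) : sg x = - sg y := by
  unfold sg
  rcases lt_trichotomy 0 x with hx | hx | hx
  · have : y < 0 := by
      by_contra hn; push Not at hn; nlinarith
    rw [if_pos hx, if_neg (by linarith)]; norm_num
  · rw [← hx] at h; simp at h
  · have : 0 < y := by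
      by_contra hn; push Not at hn; nlinarith
    rw [if_neg (by linarith), if_pos this]

lemma eps_off (D D' : LD S) {x : Q4} (hx : x ∈ D.W) (hx' : x ∈ D'.W) (hS : x ∉ S) :
    eps D D' x = sg (D.f x) * sg (D'.f x) := by
  have h1 : D.f x ≠ 0 := fun h => hS ((D.ze x hx).2 h)
  have h2 : D'.f x ≠ 0 := fun h => hS ((D'.ze x hx').2 h)
  have hc : ContinuousAt (fun y => D.f y * D'.f y) x :=
    (D.cda hx).continuousAt.mul (D'.cda hx').continuousAt
  rcases lt_or_gt_of_ne (mul_ne_zero h1 h2) with h | h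
  · have hev : ∀ᶠ y in 𝓝 x, D.f y * D'.f y ≤ 0 := by
      filter_upwards [hc.eventually (gt_mem_nhds h)] with y hy using le_of_lt hy
    have hn : ¬ ∀ᶠ y in 𝓝 x, 0 ≤ D.f y * D'.f y := fun h => excl D D' hx hx' h hev
    unfold eps
    rw [if_neg hn, sg_eq_of_mul_neg h, neg_mul, sg_mul_self]
  · have hev : ∀ᶠ y in 𝓝 x, 0 ≤ D.f y * D'.f y := by
      filter_upwards [hc.eventually (lt_mem_nhds h)] with y hy using le_of_lt hy
    unfold eps
    rw [if_pos hev, sg_eq_of_mul_pos h, sg_mul_self]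

/-- the grid data -/
structure Grid (S : Set Q4) where
  N : ℕ
  hN : 0 < N
  h : ℝ → ℝ → Q4
  hc : Continuous (fun z : ℝ × ℝ => h z.1 z.2)
  per : ∀ s t, h s (t + 1) = - h s t
  D : ℕ → ℕ → LD S
  hD : ∀ i < N, ∀ j < N, ∀ s ∈ Icc ((i:ℝ) / N) ((i + 1) / N), ∀ t ∈ Icc ((j:ℝ) / N) ((j + 1) / N),
    h s t ∈ (D i j).W

namespace Grid

variable (G : Grid S)

def E (i j : ℕ) : LD S := G.D i (j % G.N)

lemma hE {i : ℕ} (hi : i < G.N) {j : ℕ} (hj : j ≤ G.N) {s : ℝ}
    (hs : s ∈ Icc ((i:ℝ) / G.N) ((i + 1) / G.N)) {t : ℝ}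
    (ht : t ∈ Icc ((j:ℝ) / G.N) ((j + 1) / G.N)) : G.h s t ∈ (G.E i j).W := by
  have hN : (0:ℝ) < G.N := by exact_mod_cast G.hN
  unfold E
  rcases Nat.lt_or_eq_of_le hj with h | h
  · rw [Nat.mod_eq_of_lt h]
    exact G.hD i hi j h s hs t ht
  · subst h
    rw [Nat.mod_self]
    have h1 : G.h s (t - 1) ∈ (G.D i 0).W := by
      apply G.hD i hi 0 G.hN s hs
      rw [div_self hN.ne'] at ht
      constructor
      · simp only [Nat.cast_zero, zero_div]; linarith [ht.1]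
      · have := ht.2
        rw [add_div, div_self hN.ne'] at this
        simp only [Nat.cast_zero, zero_add]
        linarith
    have h2 := G.per s (t - 1)
    rw [sub_add_cancel] at h2
    rw [h2]
    exact (G.D i 0).sy _ h1

lemma contS (t : ℝ) : Continuous (fun s => G.h s t) :=
  G.hc.comp (f := fun s : ℝ => ((s, t) : ℝ × ℝ)) (by fun_prop)

lemma contT (s : ℝ) : Continuous (fun t => G.h s t) :=
  G.hc.comp (f := fun t : ℝ => ((s, t) : ℝ × ℝ)) (by fun_prop)

noncomputable def hol (i : ℕ) (s : ℝ) : ℤ :=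
  ∏ j ∈ Finset.range G.N, eps (G.E i j) (G.E i (j + 1)) (G.h s (((j:ℝ) + 1) / G.N))

lemma left_mem (j : ℕ) : ((j:ℝ) / G.N) ∈ Icc ((j:ℝ) / G.N) ((j + 1) / G.N) := by
  have hN : (0:ℝ) < G.N := by exact_mod_cast G.hN
  constructor
  · exact le_refl _
  · gcongr; linarith

lemma right_mem (j : ℕ) : (((j:ℝ) + 1) / G.N) ∈ Icc ((j:ℝ) / G.N) ((j + 1) / G.N) := by
  have hN : (0:ℝ) < G.N := by exact_mod_cast G.hN
  constructor
  · gcongr; linarith
  · exact le_refl _

lemma right_mem' (j : ℕ) : (((j:ℝ) + 1) / G.N) ∈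
    Icc (((j + 1 : ℕ) : ℝ) / G.N) ((((j + 1 : ℕ) : ℝ) + 1) / G.N) := by
  have := G.left_mem (j + 1)
  push_cast at this ⊢
  exact this

lemma hol_row {i : ℕ} (hi : i < G.N) {s s' : ℝ}
    (hs : s ∈ Icc ((i:ℝ) / G.N) ((i + 1) / G.N)) (hs' : s' ∈ Icc ((i:ℝ) / G.N) ((i + 1) / G.N)) :
    G.hol i s = G.hol i s' := by
  unfold hol
  apply Finset.prod_congr rfl
  intro j hj
  rw [Finset.mem_range] at hj
  apply eps_const (C := (fun s => G.h s (((j:ℝ) + 1) / G.N)) '' Icc ((i:ℝ) / G.N) ((i + 1) / G.N))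
  · exact isPreconnected_Icc.image _ (G.contS _).continuousOn
  · rintro _ ⟨u, hu, rfl⟩
    exact G.hE hi hj.le hu (G.right_mem j)
  · rintro _ ⟨u, hu, rfl⟩
    exact G.hE hi hj hu (G.right_mem' j)
  · exact ⟨s, hs, rfl⟩
  · exact ⟨s', hs', rfl⟩

lemma hol_step {i : ℕ} (hi : i + 1 < G.N) :
    G.hol i (((i:ℝ) + 1) / G.N) = G.hol (i + 1) (((i:ℝ) + 1) / G.N) := by
  set s : ℝ := ((i:ℝ) + 1) / G.N with hs
  have hs1 : s ∈ Icc ((i:ℝ) / G.N) ((i + 1) / G.N) := G.right_mem i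
  have hs2 : s ∈ Icc (((i + 1 : ℕ) : ℝ) / G.N) ((((i + 1 : ℕ) : ℝ) + 1) / G.N) := G.right_mem' i
  have hi' : i < G.N := by omega
  set a : ℕ → ℤ := fun j => eps (G.E i j) (G.E (i + 1) j) (G.h s ((j:ℝ) / G.N)) with ha
  have haa : ∀ j, a j * a j = 1 := fun j => eps_mul_self _ _ _
  have hedge : ∀ j, j ≤ G.N → a j = eps (G.E i j) (G.E (i + 1) j) (G.h s (((j:ℝ) + 1) / G.N)) := by
    intro j hj
    apply eps_const (C := (fun t => G.h s t) '' Icc ((j:ℝ) / G.N) ((j + 1) / G.N))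
    · exact isPreconnected_Icc.image _ (G.contT _).continuousOn
    · rintro _ ⟨u, hu, rfl⟩
      exact G.hE hi' hj hs1 hu
    · rintro _ ⟨u, hu, rfl⟩
      exact G.hE hi hj hs2 hu
    · exact ⟨_, G.left_mem j, rfl⟩
    · exact ⟨_, G.right_mem j, rfl⟩
  have hterm : ∀ j, j < G.N → eps (G.E i j) (G.E i (j + 1)) (G.h s (((j:ℝ) + 1) / G.N)) =
      a j * a (j + 1) * eps (G.E (i + 1) j) (G.E (i + 1) (j + 1)) (G.h s (((j:ℝ) + 1) / G.N)) := by
    intro j hj
    have m1 := G.hE hi' hj.le hs1 (G.right_mem j)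
    have m2 := G.hE hi' hj hs1 (G.right_mem' j)
    have m3 := G.hE hi hj.le hs2 (G.right_mem j)
    have m4 := G.hE hi hj hs2 (G.right_mem' j)
    have c1 := eps_cocycle (G.E i j) (G.E i (j + 1)) (G.E (i + 1) (j + 1)) m1 m2 m4
    have c2 := eps_cocycle (G.E i j) (G.E (i + 1) j) (G.E (i + 1) (j + 1)) m1 m3 m4
    have hv : a (j + 1) = eps (G.E i (j + 1)) (G.E (i + 1) (j + 1)) (G.h s (((j:ℝ) + 1) / G.N)) := by
      simp only [ha]; push_cast; rfl
    rw [← hedge j hj.le] at c2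
    rw [← hv] at c1
    have h1 := haa (j + 1)
    calc eps (G.E i j) (G.E i (j + 1)) (G.h s (((j:ℝ) + 1) / G.N))
        = eps (G.E i j) (G.E i (j + 1)) (G.h s (((j:ℝ) + 1) / G.N)) * (a (j + 1) * a (j + 1)) := by
          rw [h1, mul_one]
      _ = (eps (G.E i j) (G.E i (j + 1)) (G.h s (((j:ℝ) + 1) / G.N)) * a (j + 1)) * a (j + 1) := by
          ring
      _ = _ := by rw [c1, ← c2]; ring
  have haN : a G.N = a 0 := by
    have h0 : G.h s ((G.N : ℝ) / G.N) = - G.h s (((0:ℕ) : ℝ) / G.N) := by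
      have hN : (0:ℝ) < G.N := by exact_mod_cast G.hN
      rw [div_self hN.ne']
      have := G.per s 0
      rw [zero_add] at this
      rw [this]; simp
    have e1 : G.E i G.N = G.E i 0 := by unfold E; simp
    have e2 : G.E (i + 1) G.N = G.E (i + 1) 0 := by unfold E; simp
    simp only [ha]
    rw [h0, e1, e2]
    exact eps_neg _ _ (G.hE hi' (Nat.zero_le _) hs1 (G.left_mem 0))
      (G.hE hi (Nat.zero_le _) hs2 (G.left_mem 0))
  have hprod : (∏ j ∈ Finset.range G.N, a j) = ∏ j ∈ Finset.range G.N, a (j + 1) := by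
    have h1 := Finset.prod_range_succ a G.N
    have h2 := Finset.prod_range_succ' a G.N
    rw [h1, haN] at h2
    have h3 := haa 0
    calc (∏ j ∈ Finset.range G.N, a j) = (∏ j ∈ Finset.range G.N, a j) * a 0 * a 0 := by
          rw [mul_assoc, h3, mul_one]
      _ = (∏ j ∈ Finset.range G.N, a (j + 1)) * a 0 * a 0 := by rw [h2]
      _ = _ := by rw [mul_assoc, h3, mul_one]
  unfold hol
  rw [Finset.prod_congr rfl (fun j hj => hterm j (Finset.mem_range.1 hj)), Finset.prod_mul_distrib,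
    Finset.prod_mul_distrib, ← hprod, ← Finset.prod_mul_distrib]
  rw [Finset.prod_congr rfl (fun j _ => haa j)]
  simp

lemma hol_all {s : ℝ} (hs : s ∈ Icc (((G.N - 1 : ℕ) : ℝ) / G.N) ((((G.N - 1 : ℕ) : ℝ) + 1) / G.N)) :
    G.hol 0 0 = G.hol (G.N - 1) s := by
  have hN := G.hN
  have key : ∀ i, i < G.N → G.hol 0 0 = G.hol i ((i:ℝ) / G.N) := by
    intro i
    induction i with
    | zero => intro _; simp
    | succ i ih =>
      intro hi
      rw [ih (by omega), G.hol_row (by omega) (G.left_mem i) (G.right_mem i), G.hol_step hi]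
      push_cast
      rfl
  rw [key (G.N - 1) (by omega)]
  exact G.hol_row (by omega) (G.left_mem _) hs

/-- the sign at the left end of a cell -/
noncomputable def bL (i : ℕ) (s : ℝ) (j : ℕ) : ℤ := sg ((G.E i j).f (G.h s ((j:ℝ) / G.N)))
noncomputable def bR (i : ℕ) (s : ℝ) (j : ℕ) : ℤ := sg ((G.E i j).f (G.h s (((j:ℝ) + 1) / G.N)))

lemma hol_line {i : ℕ} (hi : i < G.N) {s : ℝ} (hs : s ∈ Icc ((i:ℝ) / G.N) ((i + 1) / G.N))
    (hv : ∀ j : ℕ, j ≤ G.N → G.h s ((j:ℝ) / G.N) ∉ S) :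
    G.hol i s = ∏ j ∈ Finset.range G.N, (G.bL i s j * G.bR i s j) := by
  have h1 : G.hol i s = ∏ j ∈ Finset.range G.N, (G.bR i s j * G.bL i s (j + 1)) := by
    unfold hol
    apply Finset.prod_congr rfl
    intro j hj
    rw [Finset.mem_range] at hj
    have hS := hv (j + 1) hj
    push_cast at hS
    rw [eps_off _ _ (G.hE hi hj.le hs (G.right_mem j)) (G.hE hi hj hs (G.right_mem' j)) hS]
    unfold bR bL
    push_cast
    rfl
  have hN0 : G.bL i s G.N = G.bL i s 0 := by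
    have h0 : G.h s ((G.N : ℝ) / G.N) = - G.h s (((0:ℕ) : ℝ) / G.N) := by
      have hN : (0:ℝ) < G.N := by exact_mod_cast G.hN
      rw [div_self hN.ne']
      have := G.per s 0
      rw [zero_add] at this
      rw [this]; simp
    have e1 : G.E i G.N = G.E i 0 := by unfold E; simp
    unfold bL
    rw [h0, e1, (G.E i 0).ev _ (G.hE hi (Nat.zero_le _) hs (G.left_mem 0))]
  have hLL : ∀ j, G.bL i s j * G.bL i s j = 1 := fun j => sg_mul_self _
  have hprod : (∏ j ∈ Finset.range G.N, G.bL i s j) = ∏ j ∈ Finset.range G.N, G.bL i s (j + 1) := by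
    have h1 := Finset.prod_range_succ (G.bL i s) G.N
    have h2 := Finset.prod_range_succ' (G.bL i s) G.N
    rw [h1, hN0] at h2
    have h3 := hLL 0
    calc (∏ j ∈ Finset.range G.N, G.bL i s j)
        = (∏ j ∈ Finset.range G.N, G.bL i s j) * G.bL i s 0 * G.bL i s 0 := by
          rw [mul_assoc, h3, mul_one]
      _ = (∏ j ∈ Finset.range G.N, G.bL i s (j + 1)) * G.bL i s 0 * G.bL i s 0 := by rw [h2]
      _ = _ := by rw [mul_assoc, h3, mul_one]
  rw [h1, Finset.prod_mul_distrib, ← hprod, ← Finset.prod_mul_distrib]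
  apply Finset.prod_congr rfl
  intro j _
  ring

/-- on a cell where the line misses `S`, the sign is constant -/
lemma cell_const {i : ℕ} (hi : i < G.N) {s : ℝ} (hs : s ∈ Icc ((i:ℝ) / G.N) ((i + 1) / G.N))
    {j : ℕ} (hj : j < G.N) {a b : ℝ} (ha : (j:ℝ) / G.N ≤ a) (hab : a ≤ b)
    (hb : b ≤ ((j:ℝ) + 1) / G.N)
    (hmiss : ∀ t ∈ Icc a b, G.h s t ∉ S) :
    sg ((G.E i j).f (G.h s a)) = sg ((G.E i j).f (G.h s b)) := by
  apply sg_eq_of_mul_pos
  have hcell : ∀ t ∈ Icc a b, G.h s t ∈ (G.E i j).W := fun t ht =>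
    G.hE hi hj.le hs ⟨ha.trans ht.1, ht.2.trans hb⟩
  have hne : ∀ t ∈ Icc a b, (G.E i j).f (G.h s t) ≠ 0 := fun t ht h0 =>
    hmiss t ht (((G.E i j).ze _ (hcell t ht)).2 h0)
  have hcon : ContinuousOn (fun t => (G.E i j).f (G.h s t)) (Icc a b) := by
    intro t ht
    have h1 : ContinuousAt (G.E i j).f (G.h s t) := ((G.E i j).cda (hcell t ht)).continuousAt
    exact (ContinuousAt.comp (f := fun t => G.h s t) (g := (G.E i j).f) h1
      (G.contT s).continuousAt).continuousWithinAt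
  by_contra hn
  push Not at hn
  have hna := hne a (left_mem_Icc.2 hab)
  have hnb := hne b (right_mem_Icc.2 hab)
  have hlt : (G.E i j).f (G.h s a) * (G.E i j).f (G.h s b) < 0 :=
    lt_of_le_of_ne hn (mul_ne_zero hna hnb)
  rcases mul_neg_iff.1 hlt with ⟨p, q⟩ | ⟨p, q⟩
  · obtain ⟨t, ht, h0⟩ := intermediate_value_Icc' hab hcon ⟨q.le, p.le⟩
    exact hne t ht h0
  · obtain ⟨t, ht, h0⟩ := intermediate_value_Icc hab hcon ⟨p.le, q.le⟩
    exact hne t ht h0

lemma cell_sub {j : ℕ} (hj : j < G.N) {t : ℝ} (ht : t ∈ Icc ((j:ℝ) / G.N) (((j:ℝ) + 1) / G.N)) :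
    t ∈ Icc (0:ℝ) 1 := by
  have hN : (0:ℝ) < G.N := by exact_mod_cast G.hN
  constructor
  · exact le_trans (by positivity) ht.1
  · apply ht.2.trans
    rw [div_le_one hN]
    exact_mod_cast hj

lemma vertex_mem {j : ℕ} (hj : j ≤ G.N) : (j:ℝ) / G.N ∈ Icc (0:ℝ) 1 := by
  have hN : (0:ℝ) < G.N := by exact_mod_cast G.hN
  constructor
  · positivity
  · rw [div_le_one hN]
    exact_mod_cast hj

lemma hol_miss {i : ℕ} (hi : i < G.N) {s : ℝ} (hs : s ∈ Icc ((i:ℝ) / G.N) ((i + 1) / G.N))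
    (hmiss : ∀ t ∈ Icc (0:ℝ) 1, G.h s t ∉ S) : G.hol i s = 1 := by
  rw [G.hol_line hi hs (fun j hj => hmiss _ (G.vertex_mem hj))]
  apply Finset.prod_eq_one
  intro j hj
  rw [Finset.mem_range] at hj
  have : G.bL i s j = G.bR i s j := by
    apply G.cell_const hi hs hj (le_refl _) (G.left_mem j).2 (le_refl _)
    intro t ht
    exact hmiss t (G.cell_sub hj ht)
  rw [this]
  exact sg_mul_self _

/-- the fibre line: exactly one transversal crossing at `t = 1/2` -/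
lemma hol_fibre {m : ℕ} (hodd : G.N = 2 * m + 1)
    (hS : ∀ t ∈ Icc (0:ℝ) 1, (G.h 0 t ∈ S → t = 1 / 2)) {p : Q4}
    (hder : HasDerivAt (fun t => G.h 0 t) p (1 / 2))
    (hmem : G.h 0 (1 / 2) ∈ S)
    (htr : ∀ D : LD S, G.h 0 (1 / 2) ∈ D.W → fderiv ℝ D.f (G.h 0 (1 / 2)) p ≠ 0) :
    G.hol 0 0 = -1 := by
  have hN : (0:ℝ) < G.N := by exact_mod_cast G.hN
  have hNr : (G.N : ℝ) = 2 * m + 1 := by rw [hodd]; push_cast; ring
  have hs : (0:ℝ) ∈ Icc (((0:ℕ):ℝ) / G.N) ((((0:ℕ):ℝ) + 1) / G.N) := by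
    constructor
    · simp
    · positivity
  have hvert : ∀ j : ℕ, (j:ℝ) / G.N ≠ 1 / 2 := by
    intro j h
    rw [div_eq_div_iff hN.ne' (by norm_num), hNr] at h
    have : (j * 2 : ℕ) = 2 * m + 1 := by exact_mod_cast (by linarith : (j:ℝ) * 2 = 2 * m + 1)
    omega
  rw [G.hol_line G.hN hs (fun j hj h => hvert j (hS _ (G.vertex_mem hj) h))]
  have hm : m ∈ Finset.range G.N := by rw [Finset.mem_range]; omega
  rw [← Finset.mul_prod_erase _ _ hm]
  have hrest : ∏ j ∈ (Finset.range G.N).erase m, (G.bL 0 0 j * G.bR 0 0 j) = 1 := by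
    apply Finset.prod_eq_one
    intro j hj
    rw [Finset.mem_erase, Finset.mem_range] at hj
    have : G.bL 0 0 j = G.bR 0 0 j := by
      apply G.cell_const G.hN hs hj.2 (le_refl _) (G.left_mem j).2 (le_refl _)
      intro t ht hmem
      have h1 := hS t (G.cell_sub hj.2 ht) hmem
      rw [h1] at ht
      apply hj.1
      have h2 := ht.1
      have h3 := ht.2
      rw [div_le_div_iff₀ hN (by norm_num)] at h2
      rw [div_le_div_iff₀ (by norm_num) hN] at h3
      rw [hNr] at h2 h3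
      have h4 : (j * 2 : ℕ) ≤ 2 * m + 1 := by exact_mod_cast (by linarith : (j:ℝ) * 2 ≤ 2 * m + 1)
      have h5 : (2 * m + 1 : ℕ) ≤ (j + 1) * 2 := by
        exact_mod_cast (by linarith : (2 * m + 1 : ℝ) ≤ ((j:ℝ) + 1) * 2)
      omega
    rw [this]
    exact sg_mul_self _
  rw [hrest, mul_one]
  -- the middle cell
  have hmid : (m:ℝ) / G.N < 1 / 2 := by
    rw [div_lt_div_iff₀ hN (by norm_num), hNr]; linarith
  have hmid' : (1:ℝ) / 2 < ((m:ℝ) + 1) / G.N := by
    rw [div_lt_div_iff₀ (by norm_num) hN, hNr]; linarith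
  have hmN : m < G.N := by omega
  have hW : G.h 0 (1 / 2) ∈ (G.E 0 m).W := G.hE G.hN hmN.le hs ⟨hmid.le, hmid'.le⟩
  have hf0 : (G.E 0 m).f (G.h 0 (1 / 2)) = 0 := ((G.E 0 m).ze _ hW).1 hmem
  have hd : HasDerivAt (fun t => (G.E 0 m).f (G.h 0 t))
      (fderiv ℝ (G.E 0 m).f (G.h 0 (1 / 2)) p) (1 / 2) := by
    have h1 : DifferentiableAt ℝ (G.E 0 m).f (G.h 0 (1 / 2)) :=
      ((G.E 0 m).cda1 hW).differentiableAt (by norm_num)
    exact h1.hasFDerivAt.comp_hasDerivAt (1 / 2 : ℝ) hder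
  have hcne := htr _ hW
  set c := fderiv ℝ (G.E 0 m).f (G.h 0 (1 / 2)) p with hc
  -- near 1/2, f(h t) / (t - 1/2) has the sign of c
  have hev : ∀ᶠ t in 𝓝[≠] (1 / 2 : ℝ), 0 < c * (slope (fun t => (G.E 0 m).f (G.h 0 t)) (1 / 2) t) := by
    have h1 := hd.tendsto_slope
    have h2 : Tendsto (fun t => c * (slope (fun t => (G.E 0 m).f (G.h 0 t)) (1 / 2) t)) (𝓝[≠] (1 / 2 : ℝ))
        (𝓝 (c * c)) := h1.const_mul c
    exact h2.eventually (lt_mem_nhds (mul_self_pos.2 hcne))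
  rw [eventually_nhdsWithin_iff, Metric.eventually_nhds_iff] at hev
  obtain ⟨ε, hε, hev⟩ := hev
  set δ : ℝ := min (ε / 2) (min (1 / 2 - (m:ℝ) / G.N) (((m:ℝ) + 1) / G.N - 1 / 2)) with hδ
  have hδ0 : 0 < δ := by
    rw [hδ]
    refine lt_min (by positivity) (lt_min (by linarith) (by linarith))
  have hδ1 : δ < ε := lt_of_le_of_lt (min_le_left _ _) (by linarith)
  have hδ2 : δ ≤ 1 / 2 - (m:ℝ) / G.N := (min_le_right _ _).trans (min_le_left _ _)
  have hδ3 : δ ≤ ((m:ℝ) + 1) / G.N - 1 / 2 := (min_le_right _ _).trans (min_le_right _ _)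
  have e1 := hev (y := 1 / 2 - δ) (by rw [Real.dist_eq]; rw [show (1 / 2 - δ - 1 / 2 : ℝ) = -δ by ring, abs_neg, abs_of_pos hδ0]; exact hδ1)
    (by simp only [mem_compl_iff, mem_singleton_iff]; intro h; linarith)
  have e2 := hev (y := 1 / 2 + δ) (by rw [Real.dist_eq]; rw [show (1 / 2 + δ - 1 / 2 : ℝ) = δ by ring, abs_of_pos hδ0]; exact hδ1)
    (by simp only [mem_compl_iff, mem_singleton_iff]; intro h; linarith)
  rw [slope_def_field, hf0] at e1 e2
  have hneg : (G.E 0 m).f (G.h 0 (1 / 2 - δ)) * (G.E 0 m).f (G.h 0 (1 / 2 + δ)) < 0 := by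
    set A := (G.E 0 m).f (G.h 0 (1 / 2 - δ)) with hA
    set B := (G.E 0 m).f (G.h 0 (1 / 2 + δ)) with hB
    have e1' : 0 < -(c * A) := by
      have : c * ((A - 0) / (1 / 2 - δ - 1 / 2)) = -(c * A) / δ := by
        have : (1 / 2 - δ - 1 / 2 : ℝ) = -δ := by ring
        rw [this]; field_simp; ring
      rw [this] at e1
      by_contra hn
      push Not at hn
      have := div_nonpos_of_nonpos_of_nonneg hn hδ0.le
      linarith
    have e2' : 0 < c * B := by
      have : c * ((B - 0) / (1 / 2 + δ - 1 / 2)) = (c * B) / δ := by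
        have : (1 / 2 + δ - 1 / 2 : ℝ) = δ := by ring
        rw [this]; field_simp; ring
      rw [this] at e2
      by_contra hn
      push Not at hn
      have := div_nonpos_of_nonpos_of_nonneg hn hδ0.le
      linarith
    have hcc : 0 < c ^ 2 := by positivity
    have := mul_pos e1' e2'
    by_contra hn
    push Not at hn
    nlinarith
  have l1 : G.bL 0 0 m = sg ((G.E 0 m).f (G.h 0 (1 / 2 - δ))) := by
    apply G.cell_const G.hN hs hmN (le_refl _) (by linarith) (by linarith)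
    intro t ht hmem
    have := hS t (G.cell_sub hmN ⟨ht.1, by linarith [ht.2]⟩) hmem
    rw [this] at ht
    linarith [ht.2]
  have l2 : sg ((G.E 0 m).f (G.h 0 (1 / 2 + δ))) = G.bR 0 0 m := by
    apply G.cell_const G.hN hs hmN (by linarith) (by linarith) (le_refl _)
    intro t ht hmem
    have := hS t (G.cell_sub hmN ⟨by linarith [ht.1], ht.2⟩) hmem
    rw [this] at ht
    linarith [ht.1]
  rw [l1, ← l2, sg_eq_of_mul_neg hneg, neg_mul, sg_mul_self]

end Grid

end Pool.Agent.Helper28.Cr
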