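import Mathlib
import Pool.Agent.Helper28.CrTop2

open Set Filter Topology
open scoped ContDiff

namespace Pool.Agent.Helper28.Cr

variable {S : Set Q4}

def Ind (p q : Q4) : Prop := ∀ s t : ℝ, s • p + t • q = 0 → s = 0 ∧ t = 0

lemma Ind.symm {p q : Q4} (h : Ind p q) : Ind q p := by
  intro s t hst
  have := h t s (by rw [add_comm]; exact hst)
  exact ⟨this.2, this.1⟩

lemma Ind.ne_left {p q : Q4} (h : Ind p q) : p ≠ 0 := by
  rintro rfl
  have := (h 1 0 (by simp)).1
  norm_num at this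

lemma ind_of_notMem {p q : Q4} (hp : p ≠ 0) (h : q ∉ Submodule.span ℝ {p}) : Ind p q := by
  intro s t hst
  have ht : t = 0 := by
    by_contra ht
    apply h
    rw [Submodule.mem_span_singleton]
    refine ⟨-(t⁻¹ * s), ?_⟩
    have : t • q = -(s • p) := by rw [eq_neg_iff_add_eq_zero, add_comm]; exact hst
    have h2 : q = t⁻¹ • (t • q) := by rw [smul_smul, inv_mul_cancel₀ ht, one_smul]
    rw [h2, this, neg_smul, smul_neg, smul_smul]
  subst ht
  simp only [zero_smul, add_zero, smul_eq_zero] at hst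
  exact ⟨hst.resolve_right hp, rfl⟩

lemma notMem_of_ind {p q : Q4} (h : Ind p q) : q ∉ Submodule.span ℝ {p} := by
  intro hm
  rw [Submodule.mem_span_singleton] at hm
  obtain ⟨a, ha⟩ := hm
  have := (h a (-1) (by rw [ha]; simp)).2
  norm_num at this

lemma joined_snd {p q q' : Q4} (h : Ind p q) (h' : Ind p q') :
    JoinedIn {z : Q4 × Q4 | Ind z.1 z.2} (p, q) (p, q') := by
  have hp := h.ne_left
  have hcod : 1 < Module.rank ℝ (Q4 ⧸ Submodule.span ℝ {p}) := by
    rw [← Module.finrank_eq_rank]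
    have h1 := Submodule.finrank_quotient_add_finrank (Submodule.span ℝ ({p} : Set Q4))
    have h2 : Module.finrank ℝ (Submodule.span ℝ ({p} : Set Q4)) = 1 := finrank_span_singleton hp
    have h3 : Module.finrank ℝ Q4 = 4 := by simp
    have : 1 < Module.finrank ℝ (Q4 ⧸ Submodule.span ℝ ({p} : Set Q4)) := by omega
    exact_mod_cast this
  have hpc := isPathConnected_compl_of_one_lt_codim hcod
  have hj := hpc.joinedIn q (notMem_of_ind h) q' (notMem_of_ind h')
  have hm := hj.map (f := fun x : Q4 => ((p, x) : Q4 × Q4)) (by fun_prop)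
  apply hm.mono
  rintro _ ⟨x, hx, rfl⟩
  exact ind_of_notMem hp hx

lemma joined_all {p q p' q' : Q4} (h : Ind p q) (h' : Ind p' q') :
    JoinedIn {z : Q4 × Q4 | Ind z.1 z.2} (p, q) (p', q') := by
  have hp := h.ne_left
  have hp' := h'.ne_left
  obtain ⟨r, hr⟩ : ∃ r, r ∉ Submodule.span ℝ ({p, p'} : Set Q4) := by
    by_contra hn
    push Not at hn
    have htop : Submodule.span ℝ ({p, p'} : Set Q4) = ⊤ := by
      rw [Submodule.eq_top_iff']; exact hn
    have h1 : Module.finrank ℝ (Submodule.span ℝ ({p, p'} : Set Q4)) ≤ 2 := by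
      have h2 := finrank_span_finset_le_card (R := ℝ) ({p, p'} : Finset Q4)
      have h3 : ({p, p'} : Finset Q4).card ≤ 2 := Finset.card_le_two
      have h4 : ((({p, p'} : Finset Q4)) : Set Q4) = {p, p'} := by simp
      rw [Set.finrank, h4] at h2
      omega
    rw [htop, finrank_top] at h1
    simp at h1
  have hr1 : r ∉ Submodule.span ℝ ({p} : Set Q4) := fun hm =>
    hr (Submodule.span_mono (by simp) hm)
  have hr2 : r ∉ Submodule.span ℝ ({p'} : Set Q4) := fun hm =>
    hr (Submodule.span_mono (by simp) hm)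
  have i1 := ind_of_notMem hp hr1
  have i2 := ind_of_notMem hp' hr2
  have j1 := joined_snd h i1
  have j3 := joined_snd i2 h'
  have j2 : JoinedIn {z : Q4 × Q4 | Ind z.1 z.2} (p, r) (p', r) := by
    have := joined_snd i1.symm i2.symm
    have hm := this.map (f := fun z : Q4 × Q4 => (z.2, z.1)) (by fun_prop)
    apply hm.mono
    rintro _ ⟨x, hx, rfl⟩
    exact Ind.symm hx
  exact (j1.trans j2).trans j3

/-- local datum away from `S` -/
noncomputable def offLD (S : Set Q4) (hneg : ∀ q ∈ S, -q ∈ S) : LD S where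
  W := {q | ∀ᶠ y in 𝓝 q, y ∉ S}
  f := fun _ => 1
  op := isOpen_setOfPred_eventually_nhds
  sm := contDiffOn_const
  sy := by
    intro x hx
    have hx' : ∀ᶠ y in 𝓝 x, y ∉ S := hx
    show ∀ᶠ y in 𝓝 (-x), y ∉ S
    have e : 𝓝 (-x) = map (fun y => -y) (𝓝 x) := ((Homeomorph.neg Q4).map_nhds_eq x).symm
    rw [e, eventually_map]
    filter_upwards [hx'] with y hy h
    apply hy
    have := hneg _ h
    rwa [neg_neg] at this
  ev := fun _ _ => rfl
  ze := by
    intro x hx
    have hx' : ∀ᶠ y in 𝓝 x, y ∉ S := hx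
    constructor
    · intro h; exact absurd h hx'.self_of_nhds
    · intro h; norm_num at h
  re := by
    intro x hx h
    have hx' : ∀ᶠ y in 𝓝 x, y ∉ S := hx
    exact absurd h hx'.self_of_nhds

lemma cos_sin_ne {p q : Q4} (h : Ind p q) (t : ℝ) : Real.cos t • p + Real.sin t • q ≠ 0 := by
  intro h0
  have := h _ _ h0
  have h1 := Real.sin_sq_add_cos_sq t
  rw [this.1, this.2] at h1
  norm_num at h1

theorem top_step (hcl : ∀ q, q ≠ 0 → q ∉ S → ∀ᶠ y in 𝓝 q, y ∉ S)
    (hneg : ∀ q ∈ S, -q ∈ S) (hloc : ∀ q ∈ S, ∃ D : LD S, q ∈ D.W) {p₀ q₀ : Q4}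
    (hind : Ind p₀ q₀)
    (h1 : ∀ t ∈ Icc (0:ℝ) 1, (Real.cos (Real.pi * t) • p₀ + Real.sin (Real.pi * t) • q₀ ∈ S → t = 1 / 2))
    (hq₀ : q₀ ∈ S)
    (htr : ∀ D : LD S, q₀ ∈ D.W → fderiv ℝ D.f q₀ p₀ ≠ 0)
    {p q : Q4} (hpq : Ind p q) : ∃ t : ℝ, Real.cos t • p + Real.sin t • q ∈ S := by
  by_contra hmiss
  push Not at hmiss
  have hj := joined_all hind hpq
  obtain ⟨γ, hγ⟩ := hj
  set g : ℝ → Q4 × Q4 := fun s => γ.extend s with hg
  have hgc : Continuous g := γ.continuous_extend
  have hgI : ∀ s, Ind (g s).1 (g s).2 := by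
    intro s
    have : γ.extend s ∈ range γ.extend := ⟨s, rfl⟩
    rw [Path.extend_range] at this
    obtain ⟨u, hu⟩ := this
    have h2 := hγ u
    rw [hu] at h2
    exact h2
  have hg0 : g 0 = (p₀, q₀) := by simp [hg]
  have hg1 : g 1 = (p, q) := by simp [hg]
  set h : ℝ → ℝ → Q4 := fun s t =>
    Real.cos (Real.pi * t) • (g s).1 + Real.sin (Real.pi * t) • (g s).2 with hh
  have hhc : Continuous (fun z : ℝ × ℝ => h z.1 z.2) := by
    simp only [hh]
    fun_prop
  have hper : ∀ s t, h s (t + 1) = - h s t := by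
    intro s t
    simp only [hh]
    rw [mul_add, mul_one, Real.cos_add_pi, Real.sin_add_pi, neg_smul, neg_smul, neg_add]
  have hne : ∀ s t, h s t ≠ 0 := fun s t => cos_sin_ne (hgI s) _
  -- the covering
  have hcover : ∀ z : ℝ × ℝ, ∃ D : LD S, h z.1 z.2 ∈ D.W := by
    intro z
    by_cases hz : h z.1 z.2 ∈ S
    · exact hloc _ hz
    · exact ⟨offLD S hneg, hcl _ (hne _ _) hz⟩
  have hK : IsCompact (Icc (0:ℝ) 1 ×ˢ Icc (0:ℝ) 1) := isCompact_Icc.prod isCompact_Icc
  obtain ⟨δ, hδ, hleb⟩ := lebesgue_number_lemma_of_metric (ι := LD S)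
    (c := fun D => (fun z : ℝ × ℝ => h z.1 z.2) ⁻¹' D.W) hK (fun D => D.op.preimage hhc)
    (by
      intro z _
      obtain ⟨D, hD⟩ := hcover z
      exact mem_iUnion.2 ⟨D, hD⟩)
  obtain ⟨m, hm⟩ := exists_nat_one_div_lt hδ
  set N := 2 * m + 1 with hN
  have hNpos : 0 < N := by omega
  have hNr : (0:ℝ) < N := by exact_mod_cast hNpos
  have hNδ : 1 / (N:ℝ) < δ := by
    apply lt_of_le_of_lt _ hm
    apply one_div_le_one_div_of_le (by positivity)
    rw [hN]; push_cast
    have : (0:ℝ) ≤ m := Nat.cast_nonneg _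
    linarith
  have hchoice : ∀ i j : ℕ, ∃ D : LD S, i < N → j < N →
      Metric.ball (((i:ℝ) / N, (j:ℝ) / N) : ℝ × ℝ) δ ⊆ (fun z : ℝ × ℝ => h z.1 z.2) ⁻¹' D.W := by
    intro i j
    by_cases hij : i < N ∧ j < N
    · have hmem : (((i:ℝ) / N, (j:ℝ) / N) : ℝ × ℝ) ∈ Icc (0:ℝ) 1 ×ˢ Icc (0:ℝ) 1 := by
        refine ⟨⟨by positivity, ?_⟩, ⟨by positivity, ?_⟩⟩
        · show (i:ℝ) / N ≤ 1
          rw [div_le_one hNr]; exact_mod_cast hij.1.le
        · show (j:ℝ) / N ≤ 1
          rw [div_le_one hNr]; exact_mod_cast hij.2.le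
      obtain ⟨D, hD⟩ := hleb _ hmem
      exact ⟨D, fun _ _ => hD⟩
    · refine ⟨offLD S hneg, fun a b => absurd ⟨a, b⟩ hij⟩
  choose D hD using hchoice
  let G : Grid S :=
    { N := N
      hN := hNpos
      h := h
      hc := hhc
      per := hper
      D := D
      hD := by
        intro i hi j hj s hs t ht
        apply hD i j hi hj (a := (s, t))
        rw [Metric.mem_ball, Prod.dist_eq, max_lt_iff]
        have e1 : ((i:ℝ) + 1) / N = i / N + 1 / N := by ring
        have e2 : ((j:ℝ) + 1) / N = j / N + 1 / N := by ring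
        constructor
        · show dist s ((i:ℝ) / N) < δ
          rw [Real.dist_eq, abs_lt]
          have := hs.1
          have h2 := hs.2
          rw [e1] at h2
          constructor <;> linarith
        · show dist t ((j:ℝ) / N) < δ
          rw [Real.dist_eq, abs_lt]
          have := ht.1
          have h2 := ht.2
          rw [e2] at h2
          constructor <;> linarith }
  have hfib : G.hol 0 0 = -1 := by
    apply G.hol_fibre (m := m) hN (p := -(Real.pi • p₀))
    · intro t ht hmem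
      apply h1 t ht
      have : G.h 0 t = h 0 t := rfl
      rw [this] at hmem
      simp only [hh, hg0] at hmem
      exact hmem
    · show HasDerivAt (fun t => h 0 t) (-(Real.pi • p₀)) (1 / 2)
      simp only [hh, hg0]
      have a1 : HasDerivAt (fun t : ℝ => Real.pi * t) Real.pi (1 / 2) := by
        simpa using (hasDerivAt_id (1 / 2 : ℝ)).const_mul Real.pi
      have a2 := a1.cos.smul_const p₀
      have a3 := a1.sin.smul_const q₀
      have a4 := a2.fun_add a3
      have e1 : Real.pi * (1 / 2) = Real.pi / 2 := by ring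
      rw [e1, Real.sin_pi_div_two, Real.cos_pi_div_two] at a4
      have e2 : -(Real.pi • p₀) = (-1 * Real.pi) • p₀ + (0 * Real.pi) • q₀ := by simp
      rw [e2]
      exact a4
    · show h 0 (1 / 2) ∈ S
      simp only [hh, hg0]
      have e1 : Real.pi * (1 / 2) = Real.pi / 2 := by ring
      rw [e1, Real.sin_pi_div_two, Real.cos_pi_div_two]
      simpa using hq₀
    · intro D' hD'
      have e0 : G.h 0 (1 / 2) = q₀ := by
        show h 0 (1 / 2) = q₀
        simp only [hh, hg0]
        have e1 : Real.pi * (1 / 2) = Real.pi / 2 := by ring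
        rw [e1, Real.sin_pi_div_two, Real.cos_pi_div_two]
        simp
      rw [e0] at hD' ⊢
      rw [map_neg, map_smul, smul_eq_mul]
      exact neg_ne_zero.2 (mul_ne_zero Real.pi_ne_zero (htr D' hD'))
  have hs1 : (1:ℝ) ∈ Icc (((G.N - 1 : ℕ) : ℝ) / G.N) ((((G.N - 1 : ℕ) : ℝ) + 1) / G.N) := by
    show (1:ℝ) ∈ Icc (((N - 1 : ℕ) : ℝ) / N) ((((N - 1 : ℕ) : ℝ) + 1) / N)
    have : ((N - 1 : ℕ) : ℝ) = N - 1 := by
      rw [Nat.cast_sub (by omega)]; simp
    rw [this]
    constructor
    · rw [div_le_one hNr]; linarith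
    · rw [sub_add_cancel, div_self hNr.ne']
  have hall := G.hol_all hs1
  have hm1 : G.hol (G.N - 1) 1 = 1 := by
    apply G.hol_miss _ hs1
    · intro t _ hmem
      have : G.h 1 t = h 1 t := rfl
      rw [this] at hmem
      simp only [hh, hg1] at hmem
      exact hmiss _ hmem
    · show N - 1 < N
      omega
  rw [hfib, hm1] at hall
  norm_num at hall

end Pool.Agent.Helper28.Cr
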