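import Mathlib
import Pool.Agent.Helper28.CrTop3
import Pool.Agent.Helper28.CrDef

open Set Filter Topology MeasureTheory
open scoped ContDiff InnerProductSpace

namespace Pool.Agent.Helper28.Cr

lemma inner3 (x y : E3) : ⟪x, y⟫_ℝ = x 0 * y 0 + x 1 * y 1 + x 2 * y 2 := by
  rw [PiLp.inner_apply, Fin.sum_univ_three]
  simp only [RCLike.inner_apply, conj_trivial]
  ring

lemma nsq3 (x : E3) : ‖x‖ ^ 2 = x 0 ^ 2 + x 1 ^ 2 + x 2 ^ 2 := by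
  rw [← real_inner_self_eq_norm_sq, inner3]; ring

lemma ext3 {x y : E3} (h0 : x 0 = y 0) (h1 : x 1 = y 1) (h2 : x 2 = y 2) : x = y := by
  ext i
  fin_cases i
  · exact h0
  · exact h1
  · exact h2

def nq (q : Q4) : ℝ := q 0 ^ 2 + q 1 ^ 2 + q 2 ^ 2 + q 3 ^ 2

lemma nq_nonneg (q : Q4) : 0 ≤ nq q := by unfold nq; positivity

lemma ext4 {x y : Q4} (h0 : x 0 = y 0) (h1 : x 1 = y 1) (h2 : x 2 = y 2) (h3 : x 3 = y 3) :
    x = y := by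
  ext i
  fin_cases i
  · exact h0
  · exact h1
  · exact h2
  · exact h3

lemma nq_pos {q : Q4} (h : q ≠ 0) : 0 < nq q := by
  rcases (nq_nonneg q).lt_or_eq with h1 | h1
  · exact h1
  · exfalso
    apply h
    unfold nq at h1
    have a0 := sq_nonneg (q 0)
    have a1 := sq_nonneg (q 1)
    have a2 := sq_nonneg (q 2)
    have a3 := sq_nonneg (q 3)
    apply ext4 <;> simp only [Pi.zero_apply] <;> apply pow_eq_zero_iff (n := 2) (by norm_num) |>.1 <;> linarith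

lemma ne_of_nq {q : Q4} (h : nq q ≠ 0) : q ≠ 0 := by
  rintro rfl; apply h; simp [nq]

noncomputable def c1 (q : Q4) : E3 :=
  !₂[q 0 ^ 2 + q 1 ^ 2 - q 2 ^ 2 - q 3 ^ 2, 2 * (q 1 * q 2 + q 0 * q 3), 2 * (q 1 * q 3 - q 0 * q 2)]
noncomputable def c2 (q : Q4) : E3 :=
  !₂[2 * (q 1 * q 2 - q 0 * q 3), q 0 ^ 2 - q 1 ^ 2 + q 2 ^ 2 - q 3 ^ 2, 2 * (q 2 * q 3 + q 0 * q 1)]
noncomputable def c3 (q : Q4) : E3 :=
  !₂[2 * (q 1 * q 3 + q 0 * q 2), 2 * (q 2 * q 3 - q 0 * q 1), q 0 ^ 2 - q 1 ^ 2 - q 2 ^ 2 + q 3 ^ 2]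

/-- quaternion product -/
def qm (p q : Q4) : Q4 :=
  ![p 0 * q 0 - p 1 * q 1 - p 2 * q 2 - p 3 * q 3,
    p 0 * q 1 + p 1 * q 0 + p 2 * q 3 - p 3 * q 2,
    p 0 * q 2 - p 1 * q 3 + p 2 * q 0 + p 3 * q 1,
    p 0 * q 3 + p 1 * q 2 - p 2 * q 1 + p 3 * q 0]

def im (ζ : Fin 3 → ℝ) : Q4 := ![0, ζ 0, ζ 1, ζ 2]

/-- the covering map -/
noncomputable def pr (r : ℝ) (q : Q4) : E3 × E3 := ((nq q)⁻¹ • c1 q, (r * (nq q)⁻¹) • c2 q)

noncomputable def G (r : ℝ) (ζ : Fin 3 → ℝ) (p : E3 × E3) : Fin 3 → ℝ :=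
  ![ζ 0 * p.1 0 + ζ 1 * (p.2 0 / r) + ζ 2 * ((p.1 1 * p.2 2 - p.1 2 * p.2 1) / r),
    ζ 0 * p.1 1 + ζ 1 * (p.2 1 / r) + ζ 2 * ((p.1 2 * p.2 0 - p.1 0 * p.2 2) / r),
    ζ 0 * p.1 2 + ζ 1 * (p.2 2 / r) + ζ 2 * ((p.1 0 * p.2 1 - p.1 1 * p.2 0) / r)]

def Rel (ζ y : Fin 3 → ℝ) (q : Q4) : Prop := qm q (im ζ) = qm (im y) q

lemma TS_coord {r : ℝ} {p : E3 × E3} (h : p ∈ TS r) :
    p.1 0 ^ 2 + p.1 1 ^ 2 + p.1 2 ^ 2 = 1 ∧ p.1 0 * p.2 0 + p.1 1 * p.2 1 + p.1 2 * p.2 2 = 0 ∧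
      p.2 0 ^ 2 + p.2 1 ^ 2 + p.2 2 ^ 2 = r ^ 2 := by
  obtain ⟨h1, h2, h3⟩ := h
  refine ⟨?_, ?_, ?_⟩
  · rw [← nsq3, h1]; norm_num
  · rw [← inner3]; exact h2
  · rw [← nsq3, h3]

lemma mem_TS {r : ℝ} (hr : 0 < r) {p : E3 × E3}
    (h1 : p.1 0 ^ 2 + p.1 1 ^ 2 + p.1 2 ^ 2 = 1) (h2 : p.1 0 * p.2 0 + p.1 1 * p.2 1 + p.1 2 * p.2 2 = 0)
    (h3 : p.2 0 ^ 2 + p.2 1 ^ 2 + p.2 2 ^ 2 = r ^ 2) : p ∈ TS r := by
  refine ⟨?_, ?_, ?_⟩
  · rw [← nsq3] at h1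
    nlinarith [norm_nonneg p.1]
  · rw [inner3]; exact h2
  · rw [← nsq3] at h3
    exact (sq_eq_sq₀ (norm_nonneg _) hr.le).1 h3

lemma pr_mem {r : ℝ} (hr : 0 < r) {q : Q4} (hq : q ≠ 0) : pr r q ∈ TS r := by
  have hn := (nq_pos hq).ne'
  apply mem_TS hr
  · simp only [pr, c1, PiLp.smul_apply, smul_eq_mul]
    simp only [WithLp.ofLp_toLp, Matrix.cons_val_zero, Matrix.cons_val_one, Matrix.cons_val]
    field_simp
    unfold nq; ring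
  · simp only [pr, c1, c2, PiLp.smul_apply, smul_eq_mul]
    simp only [WithLp.ofLp_toLp, Matrix.cons_val_zero, Matrix.cons_val_one, Matrix.cons_val]
    field_simp
    unfold nq; ring
  · simp only [pr, c2, PiLp.smul_apply, smul_eq_mul]
    simp only [WithLp.ofLp_toLp, Matrix.cons_val_zero, Matrix.cons_val_one, Matrix.cons_val]
    field_simp
    unfold nq; ring

lemma pr_smul (r : ℝ) {c : ℝ} (hc : c ≠ 0) (q : Q4) : pr r (c • q) = pr r q := by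
  have h1 : nq (c • q) = c ^ 2 * nq q := by
    simp only [nq, Pi.smul_apply, smul_eq_mul]; ring
  have h2 : c1 (c • q) = c ^ 2 • c1 q := by
    apply ext3 <;> simp only [c1, PiLp.smul_apply, smul_eq_mul, Pi.smul_apply] <;>
      simp only [WithLp.ofLp_toLp, Matrix.cons_val_zero, Matrix.cons_val_one, Matrix.cons_val] <;> ring
  have h3 : c2 (c • q) = c ^ 2 • c2 q := by
    apply ext3 <;> simp only [c2, PiLp.smul_apply, smul_eq_mul, Pi.smul_apply] <;>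
      simp only [WithLp.ofLp_toLp, Matrix.cons_val_zero, Matrix.cons_val_one, Matrix.cons_val] <;> ring
  unfold pr
  rw [h1, h2, h3, smul_smul, smul_smul]
  have hc2 : c ^ 2 ≠ 0 := by positivity
  congr 2
  · rw [mul_inv, mul_comm, ← mul_assoc, mul_inv_cancel₀ hc2, one_mul]
  · rw [mul_inv, mul_assoc, mul_comm (c ^ 2)⁻¹, mul_assoc, inv_mul_cancel₀ hc2, mul_one]

lemma pr_neg (r : ℝ) (q : Q4) : pr r (-q) = pr r q := by
  have := pr_smul r (c := -1) (by norm_num) q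
  rwa [neg_one_smul] at this

lemma Rel.coord {ζ y : Fin 3 → ℝ} {q : Q4} (h : Rel ζ y q) :
    -(q 1 * ζ 0) - q 2 * ζ 1 - q 3 * ζ 2 = -(y 0 * q 1) - y 1 * q 2 - y 2 * q 3 ∧
    q 0 * ζ 0 + q 2 * ζ 2 - q 3 * ζ 1 = y 0 * q 0 + y 1 * q 3 - y 2 * q 2 ∧
    q 0 * ζ 1 - q 1 * ζ 2 + q 3 * ζ 0 = -(y 0 * q 3) + y 1 * q 0 + y 2 * q 1 ∧
    q 0 * ζ 2 + q 1 * ζ 1 - q 2 * ζ 0 = y 0 * q 2 - y 1 * q 1 + y 2 * q 0 := by
  have e0 := congrFun h 0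
  have e1 := congrFun h 1
  have e2 := congrFun h 2
  have e3 := congrFun h 3
  simp only [qm, im, Matrix.cons_val_zero, Matrix.cons_val_one, Matrix.cons_val] at e0 e1 e2 e3
  refine ⟨by linarith, by linarith, by linarith, by linarith⟩

lemma rel_of_coord {ζ y : Fin 3 → ℝ} {q : Q4}
    (h0 : -(q 1 * ζ 0) - q 2 * ζ 1 - q 3 * ζ 2 = -(y 0 * q 1) - y 1 * q 2 - y 2 * q 3)
    (h1 : q 0 * ζ 0 + q 2 * ζ 2 - q 3 * ζ 1 = y 0 * q 0 + y 1 * q 3 - y 2 * q 2)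
    (h2 : q 0 * ζ 1 - q 1 * ζ 2 + q 3 * ζ 0 = -(y 0 * q 3) + y 1 * q 0 + y 2 * q 1)
    (h3 : q 0 * ζ 2 + q 1 * ζ 1 - q 2 * ζ 0 = y 0 * q 2 - y 1 * q 1 + y 2 * q 0) : Rel ζ y q := by
  unfold Rel
  apply ext4 <;>
    simp only [qm, im, Matrix.cons_val_zero, Matrix.cons_val_one, Matrix.cons_val] <;> linarith

lemma Rel.comb {ζ y : Fin 3 → ℝ} {p q : Q4} (h : Rel ζ y p) (h' : Rel ζ y q) (s t : ℝ) :
    Rel ζ y (s • p + t • q) := by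
  obtain ⟨a0, a1, a2, a3⟩ := h.coord
  obtain ⟨b0, b1, b2, b3⟩ := h'.coord
  apply rel_of_coord <;> simp only [Pi.add_apply, Pi.smul_apply, smul_eq_mul]
  · linear_combination s * a0 + t * b0
  · linear_combination s * a1 + t * b1
  · linear_combination s * a2 + t * b2
  · linear_combination s * a3 + t * b3

/-- the value of `G` on the frame -/
lemma G_pr0 {r : ℝ} (hr : r ≠ 0) {q : Q4} (hq : q ≠ 0) (ζ : Fin 3 → ℝ) (i : Fin 3) :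
    G r ζ (pr r q) i = (ζ 0 * c1 q i + ζ 1 * c2 q i + ζ 2 * c3 q i) / nq q := by
  have hn := (nq_pos hq).ne'
  fin_cases i
  · simp only [Fin.zero_eta, G, pr, c1, c2, c3, PiLp.smul_apply, smul_eq_mul]
    simp only [WithLp.ofLp_toLp, Matrix.cons_val_zero, Matrix.cons_val_one, Matrix.cons_val]
    field_simp
    unfold nq; ring
  · simp only [Fin.mk_one, G, pr, c1, c2, c3, PiLp.smul_apply, smul_eq_mul]
    simp only [WithLp.ofLp_toLp, Matrix.cons_val_zero, Matrix.cons_val_one, Matrix.cons_val]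
    field_simp
    unfold nq; ring
  · simp only [Fin.reduceFinMk, G, pr, c1, c2, c3, PiLp.smul_apply, smul_eq_mul]
    simp only [WithLp.ofLp_toLp, Matrix.cons_val_zero, Matrix.cons_val_one, Matrix.cons_val]
    field_simp
    unfold nq; ring

lemma G_pr {r : ℝ} (hr : r ≠ 0) {q : Q4} (hq : q ≠ 0) {ζ y : Fin 3 → ℝ} (h : Rel ζ y q) :
    G r ζ (pr r q) = y := by
  have hn := (nq_pos hq).ne'
  obtain ⟨e0, e1, e2, e3⟩ := h.coord
  ext i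
  rw [G_pr0 hr hq, div_eq_iff hn]
  fin_cases i
  · simp only [Fin.zero_eta, c1, c2, c3, nq]
    simp only [WithLp.ofLp_toLp, Matrix.cons_val_zero, Matrix.cons_val_one, Matrix.cons_val]
    linear_combination (-q 1) * e0 + q 0 * e1 - q 3 * e2 + q 2 * e3
  · simp only [Fin.mk_one, c1, c2, c3, nq]
    simp only [WithLp.ofLp_toLp, Matrix.cons_val_zero, Matrix.cons_val_one, Matrix.cons_val]
    linear_combination (-q 2) * e0 + q 3 * e1 + q 0 * e2 - q 1 * e3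
  · simp only [Fin.reduceFinMk, c1, c2, c3, nq]
    simp only [WithLp.ofLp_toLp, Matrix.cons_val_zero, Matrix.cons_val_one, Matrix.cons_val]
    linear_combination (-q 3) * e0 - q 2 * e1 + q 1 * e2 + q 0 * e3

end Pool.Agent.Helper28.Cr
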