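import Mathlib
import Pool.Agent.Helper28.CrQuat

open Set Filter Topology MeasureTheory
open scoped ContDiff InnerProductSpace

namespace Pool.Agent.Helper28.Cr

/-- the frame entries -/
lemma pr_entries {r : ℝ} (hr : r ≠ 0) {q q' : Q4} (hq : q ≠ 0) (hq' : q' ≠ 0)
    (h : pr r q = pr r q') : ∀ i : Fin 3, c1 q i / nq q = c1 q' i / nq q' ∧
      c2 q i / nq q = c2 q' i / nq q' ∧ c3 q i / nq q = c3 q' i / nq q' := by
  intro i
  have e1 := G_pr0 hr hq ![1, 0, 0] i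
  have e1' := G_pr0 hr hq' ![1, 0, 0] i
  have e2 := G_pr0 hr hq ![0, 1, 0] i
  have e2' := G_pr0 hr hq' ![0, 1, 0] i
  have e3 := G_pr0 hr hq ![0, 0, 1] i
  have e3' := G_pr0 hr hq' ![0, 0, 1] i
  rw [← h] at e1' e2' e3'
  simp only [Matrix.cons_val_zero, Matrix.cons_val_one, Matrix.cons_val, zero_mul, one_mul,
    zero_add, add_zero] at e1 e1' e2 e2' e3 e3'
  exact ⟨e1.symm.trans e1', e2.symm.trans e2', e3.symm.trans e3'⟩

lemma prods_eq {r : ℝ} (hr : r ≠ 0) {q q' : Q4} (hq : q ≠ 0) (hq' : q' ≠ 0)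
    (h : pr r q = pr r q') (i j : Fin 4) : q i * q j / nq q = q' i * q' j / nq q' := by
  have hn := (nq_pos hq).ne'
  have hn' := (nq_pos hq').ne'
  have H := pr_entries hr hq hq' h
  obtain ⟨a0, b0, d0⟩ := H 0
  obtain ⟨a1, b1, d1⟩ := H 1
  obtain ⟨a2, b2, d2⟩ := H 2
  have hnn : nq q / nq q = nq q' / nq q' := by rw [div_self hn, div_self hn']
  simp only [c1, c2, c3, nq, WithLp.ofLp_toLp, Matrix.cons_val_zero, Matrix.cons_val_one,
    Matrix.cons_val] at a0 b0 d0 a1 b1 d1 a2 b2 d2 hnn ⊢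
  simp only [nq] at hn hn'
  have key : ∀ (X Y Z T X' Y' Z' T' : ℝ), True := fun _ _ _ _ _ _ _ _ => trivial
  rw [div_eq_div_iff hn hn'] at a0 b0 d0 a1 b1 d1 a2 b2 d2 ⊢
  fin_cases i <;> fin_cases j <;>
    simp only [Fin.zero_eta, Fin.mk_one, Fin.reduceFinMk]
  · linear_combination (1/4) * (a0 + b1 + d2)
  · linear_combination (1/4) * (b2 - d1)
  · linear_combination (1/4) * (d0 - a2)
  · linear_combination (1/4) * (a1 - b0)
  · linear_combination (1/4) * (b2 - d1)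
  · linear_combination (1/4) * (a0 - b1 - d2)
  · linear_combination (1/4) * (a1 + b0)
  · linear_combination (1/4) * (d0 + a2)
  · linear_combination (1/4) * (d0 - a2)
  · linear_combination (1/4) * (a1 + b0)
  · linear_combination (1/4) * (b1 - a0 - d2)
  · linear_combination (1/4) * (b2 + d1)
  · linear_combination (1/4) * (a1 - b0)
  · linear_combination (1/4) * (d0 + a2)
  · linear_combination (1/4) * (b2 + d1)
  · linear_combination (1/4) * (d2 - a0 - b1)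

lemma pr_inj {r : ℝ} (hr : r ≠ 0) {q q' : Q4} (hq : q ≠ 0) (hq' : q' ≠ 0)
    (h : pr r q = pr r q') : ∃ c : ℝ, c ≠ 0 ∧ q' = c • q := by
  have hn := (nq_pos hq).ne'
  have hn' := (nq_pos hq').ne'
  obtain ⟨i, hi⟩ : ∃ i, q i ≠ 0 := by
    by_contra hn
    push Not at hn
    exact hq (funext hn)
  have P := prods_eq hr hq hq' h
  have hi' : q' i ≠ 0 := by
    intro h0
    have := P i i
    rw [h0, zero_mul, zero_div, div_eq_zero_iff] at this
    rcases this with h1 | h1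
    · exact hi (mul_self_eq_zero.1 h1)
    · exact hn h1
  refine ⟨q i * nq q' / (nq q * q' i), ?_, ?_⟩
  · apply div_ne_zero (mul_ne_zero hi hn') (mul_ne_zero hn hi')
  · ext j
    have := P i j
    rw [div_eq_div_iff hn hn'] at this
    simp only [Pi.smul_apply, smul_eq_mul]
    rw [div_mul_eq_mul_div, eq_div_iff (mul_ne_zero hn hi')]
    linarith

/-- smoothness -/
lemma cd_nq : ContDiff ℝ ∞ nq := by unfold nq; fun_prop

lemma cd_c1 : ContDiff ℝ ∞ c1 := by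
  rw [contDiff_euclidean]
  intro i
  fin_cases i <;> simp only [Fin.zero_eta, Fin.mk_one, Fin.reduceFinMk, c1, WithLp.ofLp_toLp,
    Matrix.cons_val_zero, Matrix.cons_val_one, Matrix.cons_val] <;> fun_prop

lemma cd_c2 : ContDiff ℝ ∞ c2 := by
  rw [contDiff_euclidean]
  intro i
  fin_cases i <;> simp only [Fin.zero_eta, Fin.mk_one, Fin.reduceFinMk, c2, WithLp.ofLp_toLp,
    Matrix.cons_val_zero, Matrix.cons_val_one, Matrix.cons_val] <;> fun_prop

lemma cd_pr (r : ℝ) {q : Q4} (hq : q ≠ 0) : ContDiffAt ℝ ∞ (pr r) q := by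
  unfold pr
  have h1 : ContDiffAt ℝ ∞ (fun q => (nq q)⁻¹) q := cd_nq.contDiffAt.inv (nq_pos hq).ne'
  exact (h1.smul cd_c1.contDiffAt).prodMk ((contDiffAt_const.mul h1).smul cd_c2.contDiffAt)

lemma cont_pr (r : ℝ) : ContinuousOn (pr r) {q | q ≠ 0} := fun _ hq =>
  (cd_pr r hq).continuousAt.continuousWithinAt

/-- the direction `q η / 2` -/
noncomputable def dirq (q : Q4) (η : Fin 3 → ℝ) : Q4 := (1 / 2 : ℝ) • qm q (im η)

lemma pr_deriv (r : ℝ) {q : Q4} (hq : q ≠ 0) (η : Fin 3 → ℝ) :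
    fderiv ℝ (pr r) q (dirq q η) =
      ((nq q)⁻¹ • (η 2 • c2 q - η 1 • c3 q), (r * (nq q)⁻¹) • (η 0 • c3 q - η 2 • c1 q)) := by
  have hn := (nq_pos hq).ne'
  set d := dirq q η with hd
  have e0 : ∀ t : ℝ, nq (q + t • d) = nq q + t ^ 2 * nq d := by
    intro t
    simp only [hd, dirq, qm, im, nq, Pi.add_apply, Pi.smul_apply, smul_eq_mul,
      Matrix.cons_val_zero, Matrix.cons_val_one, Matrix.cons_val]
    ring
  have e1 : ∀ t : ℝ, c1 (q + t • d) = c1 q + t • (η 2 • c2 q - η 1 • c3 q) + t ^ 2 • c1 d := by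
    intro t
    apply ext3 <;>
      simp only [hd, dirq, qm, im, c1, c2, c3, PiLp.add_apply, PiLp.sub_apply, PiLp.smul_apply,
        Pi.add_apply, Pi.smul_apply, smul_eq_mul, WithLp.ofLp_toLp,
        Matrix.cons_val_zero, Matrix.cons_val_one, Matrix.cons_val] <;> ring
  have e2 : ∀ t : ℝ, c2 (q + t • d) = c2 q + t • (η 0 • c3 q - η 2 • c1 q) + t ^ 2 • c2 d := by
    intro t
    apply ext3 <;>
      simp only [hd, dirq, qm, im, c1, c2, c3, PiLp.add_apply, PiLp.sub_apply, PiLp.smul_apply,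
        Pi.add_apply, Pi.smul_apply, smul_eq_mul, WithLp.ofLp_toLp,
        Matrix.cons_val_zero, Matrix.cons_val_one, Matrix.cons_val] <;> ring
  have hsq : HasDerivAt (fun t : ℝ => t ^ 2) 0 0 := by
    simpa using hasDerivAt_pow 2 (0:ℝ)
  have hN : HasDerivAt (fun t : ℝ => (nq q + t ^ 2 * nq d)⁻¹) 0 0 := by
    have := ((hsq.mul_const (nq d)).const_add (nq q)).fun_inv (by simpa using hn)
    simpa using this
  have hpoly : ∀ A B C : E3, HasDerivAt (fun t : ℝ => A + t • B + t ^ 2 • C) B 0 := by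
    intro A B C
    have h1 := ((hasDerivAt_id (0:ℝ)).smul_const B).const_add A
    have h2 := h1.fun_add (hsq.smul_const C)
    simpa using h2
  have hcurve : HasDerivAt (fun t : ℝ => pr r (q + t • d))
      ((nq q)⁻¹ • (η 2 • c2 q - η 1 • c3 q), (r * (nq q)⁻¹) • (η 0 • c3 q - η 2 • c1 q)) 0 := by
    have heq : (fun t : ℝ => pr r (q + t • d)) = fun t : ℝ =>
        ((nq q + t ^ 2 * nq d)⁻¹ • (c1 q + t • (η 2 • c2 q - η 1 • c3 q) + t ^ 2 • c1 d),
          (r * (nq q + t ^ 2 * nq d)⁻¹) • (c2 q + t • (η 0 • c3 q - η 2 • c1 q) + t ^ 2 • c2 d)) := by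
      funext t
      unfold pr
      rw [e0, e1, e2]
    rw [heq]
    have h1 := hN.fun_smul (hpoly (c1 q) (η 2 • c2 q - η 1 • c3 q) (c1 d))
    have h2 := (hN.const_mul r).fun_smul (hpoly (c2 q) (η 0 • c3 q - η 2 • c1 q) (c2 d))
    have h3 := h1.prodMk h2
    simpa using h3
  have hdiff : DifferentiableAt ℝ (pr r) (q + (0:ℝ) • d) := by
    rw [zero_smul, add_zero]
    exact (cd_pr r hq).differentiableAt (by simp)
  have hl : HasDerivAt (fun t : ℝ => q + t • d) d 0 := by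
    simpa using ((hasDerivAt_id (0:ℝ)).smul_const d).const_add q
  have hcomp := hdiff.hasFDerivAt.comp_hasDerivAt (0:ℝ) hl
  rw [zero_smul, add_zero] at hcomp
  exact hcomp.unique hcurve

lemma expand3 (q : Q4) (y : E3) :
    (nq q ^ 2) • y = ⟪c1 q, y⟫_ℝ • c1 q + ⟪c2 q, y⟫_ℝ • c2 q + ⟪c3 q, y⟫_ℝ • c3 q := by
  apply ext3 <;>
    simp only [inner3, PiLp.add_apply, PiLp.smul_apply, smul_eq_mul, c1, c2, c3, nq, WithLp.ofLp_toLp,
      Matrix.cons_val_zero, Matrix.cons_val_one, Matrix.cons_val] <;> ring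

/-- surjectivity of the differential -/
lemma pr_submersion {r : ℝ} (hr : 0 < r) {q : Q4} (hq : q ≠ 0) {a : E3 × E3}
    (ha : IsTan (pr r q) a) : ∃ η : Fin 3 → ℝ, fderiv ℝ (pr r) q (dirq q η) = a := by
  have hn := nq_pos hq
  obtain ⟨h1, h2, h3⟩ := ha
  have h1' : ⟪c1 q, a.1⟫_ℝ = 0 := by
    simp only [pr, inner_smul_left, conj_trivial] at h1
    exact (mul_eq_zero.1 h1).resolve_left (by positivity)
  have h2' : ⟪c2 q, a.2⟫_ℝ = 0 := by
    simp only [pr, inner_smul_left, conj_trivial] at h2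
    exact (mul_eq_zero.1 h2).resolve_left (by positivity)
  have h3' : r * ⟪c2 q, a.1⟫_ℝ + ⟪c1 q, a.2⟫_ℝ = 0 := by
    simp only [pr, inner_smul_left, inner_smul_right, conj_trivial] at h3
    rw [real_inner_comm] at h3
    have : (nq q)⁻¹ * (r * ⟪c2 q, a.1⟫_ℝ + ⟪c1 q, a.2⟫_ℝ) = 0 := by linarith
    exact (mul_eq_zero.1 this).resolve_left (by positivity)
  refine ⟨![⟪c3 q, a.2⟫_ℝ / (r * nq q), -(⟪c3 q, a.1⟫_ℝ / nq q), ⟪c2 q, a.1⟫_ℝ / nq q], ?_⟩
  rw [pr_deriv r hq]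
  simp only [Matrix.cons_val_zero, Matrix.cons_val_one, Matrix.cons_val]
  have e1 := expand3 q a.1
  have e2 := expand3 q a.2
  rw [h1', zero_smul, zero_add] at e1
  rw [h2', zero_smul, add_zero] at e2
  have hN2 : (nq q ^ 2) ≠ 0 := by positivity
  apply Prod.ext
  · show (nq q)⁻¹ • ((⟪c2 q, a.1⟫_ℝ / nq q) • c2 q - -(⟪c3 q, a.1⟫_ℝ / nq q) • c3 q) = a.1
    apply smul_right_injective E3 hN2
    simp only
    rw [e1, neg_smul, sub_neg_eq_add, smul_add, smul_add, smul_smul, smul_smul, smul_smul, smul_smul]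
    congr 2 <;> field_simp
  · show (r * (nq q)⁻¹) • ((⟪c3 q, a.2⟫_ℝ / (r * nq q)) • c3 q - (⟪c2 q, a.1⟫_ℝ / nq q) • c1 q) = a.2
    have h4 : ⟪c1 q, a.2⟫_ℝ = -(r * ⟪c2 q, a.1⟫_ℝ) := by linarith
    apply smul_right_injective E3 hN2
    simp only
    rw [e2, h4, smul_sub, smul_sub, smul_smul, smul_smul, smul_smul, smul_smul, sub_eq_add_neg,
      ← neg_smul, add_comm]
    congr 2 <;> field_simp

/-- existence of two independent solutions of the relation -/
lemma rel_exists {ζ y : Fin 3 → ℝ}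
    (hy : y 0 ^ 2 + y 1 ^ 2 + y 2 ^ 2 = ζ 0 ^ 2 + ζ 1 ^ 2 + ζ 2 ^ 2)
    (hne : y + ζ ≠ 0) : ∃ A B : Q4, Ind A B ∧ Rel ζ y A ∧ Rel ζ y B := by
  refine ⟨![(ζ 0 ^ 2 + ζ 1 ^ 2 + ζ 2 ^ 2) + (y 0 * ζ 0 + y 1 * ζ 1 + y 2 * ζ 2),
    -(y 1 * ζ 2 - y 2 * ζ 1), -(y 2 * ζ 0 - y 0 * ζ 2), -(y 0 * ζ 1 - y 1 * ζ 0)],
    im (y + ζ), ?_, ?_, ?_⟩
  · intro s t hst
    have e0 := congrFun hst 0
    have e1 := congrFun hst 1
    have e2 := congrFun hst 2
    have e3 := congrFun hst 3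
    simp only [im, Pi.add_apply, Pi.smul_apply, smul_eq_mul, Pi.zero_apply,
      Matrix.cons_val_zero, Matrix.cons_val_one, Matrix.cons_val, mul_zero, add_zero] at e0 e1 e2 e3
    have hpos : 0 < (y 0 + ζ 0) ^ 2 + (y 1 + ζ 1) ^ 2 + (y 2 + ζ 2) ^ 2 := by
      by_contra hn
      push Not at hn
      apply hne
      have a0 := sq_nonneg (y 0 + ζ 0)
      have a1 := sq_nonneg (y 1 + ζ 1)
      have a2 := sq_nonneg (y 2 + ζ 2)
      ext i
      simp only [Pi.add_apply, Pi.zero_apply]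
      apply pow_eq_zero_iff (n := 2) (by norm_num) |>.1
      fin_cases i
      · simp only [Fin.zero_eta]; linarith
      · simp only [Fin.mk_one]; linarith
      · simp only [Fin.reduceFinMk]; linarith
    have hs : s = 0 := by
      have : s * (2 * ((ζ 0 ^ 2 + ζ 1 ^ 2 + ζ 2 ^ 2) + (y 0 * ζ 0 + y 1 * ζ 1 + y 2 * ζ 2))) = 0 := by
        linarith
      rcases mul_eq_zero.1 this with h | h
      · exact h
      · exfalso; nlinarith
    refine ⟨hs, ?_⟩
    subst hs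
    simp only [zero_mul, zero_add] at e1 e2 e3
    have : t * ((y 0 + ζ 0) ^ 2 + (y 1 + ζ 1) ^ 2 + (y 2 + ζ 2) ^ 2) = 0 := by
      linear_combination (y 0 + ζ 0) * e1 + (y 1 + ζ 1) * e2 + (y 2 + ζ 2) * e3
    rcases mul_eq_zero.1 this with h | h
    · exact h
    · exact absurd h hpos.ne'
  · apply rel_of_coord <;>
      simp only [Matrix.cons_val_zero, Matrix.cons_val_one, Matrix.cons_val]
    · ring
    · linear_combination (-ζ 0) * hy
    · linear_combination (-ζ 1) * hy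
    · linear_combination (-ζ 2) * hy
  · apply rel_of_coord <;>
      simp only [im, Pi.add_apply, Matrix.cons_val_zero, Matrix.cons_val_one, Matrix.cons_val]
    · linear_combination hy
    · ring
    · ring
    · ring

end Pool.Agent.Helper28.Cr
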