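import Mathlib
import Pool.Agent.Helper28.CrQuat2

open Set Filter Topology MeasureTheory
open scoped ContDiff InnerProductSpace

namespace Pool.Agent.Helper28.Cr

variable {S : Set Q4}

lemma line_sign {f g : Q4 → ℝ} {x w : Q4} (hf : DifferentiableAt ℝ f x)
    (hg : DifferentiableAt ℝ g x) (hf0 : f x = 0) (hg0 : g x = 0) :
    Tendsto (fun t : ℝ => (f (x + t • w) * g (x + t • w)) / t ^ 2) (𝓝[≠] 0)
      (𝓝 (fderiv ℝ f x w * fderiv ℝ g x w)) := by
  have hl : HasDerivAt (fun t : ℝ => x + t • w) w 0 := by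
    simpa using ((hasDerivAt_id (0:ℝ)).smul_const w).const_add x
  have key : ∀ {f : Q4 → ℝ}, DifferentiableAt ℝ f x → f x = 0 →
      Tendsto (fun t : ℝ => f (x + t • w) / t) (𝓝[≠] 0) (𝓝 (fderiv ℝ f x w)) := by
    intro f hf hf0
    have hdf : DifferentiableAt ℝ f (x + (0:ℝ) • w) := by simpa using hf
    have h1 := (hdf.hasFDerivAt.comp_hasDerivAt (0:ℝ) hl).tendsto_slope
    have e1 : ∀ t : ℝ, slope (f ∘ fun t : ℝ => x + t • w) 0 t = f (x + t • w) / t := by
      intro t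
      rw [slope_def_field]
      simp [hf0]
    have e2 : fderiv ℝ f (x + (0:ℝ) • w) w = fderiv ℝ f x w := by simp
    rw [e2] at h1
    exact h1.congr e1
  have := (key hf hf0).mul (key hg hg0)
  refine this.congr (fun t => ?_)
  rw [div_mul_div_comm, sq]

lemma ker_indep (D D' : LD S) {x : Q4} (hx : x ∈ D.W) (hx' : x ∈ D'.W) (hS : x ∈ S) {v : Q4}
    (h : fderiv ℝ D.f x v = 0) : fderiv ℝ D'.f x v = 0 := by
  by_contra hB
  obtain ⟨u, hu⟩ : ∃ u, fderiv ℝ D.f x u ≠ 0 := by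
    by_contra hn
    push Not at hn
    exact D.re x hx hS (by ext a; simpa using hn a)
  have hd : DifferentiableAt ℝ D.f x := (D.cda1 hx).differentiableAt (by norm_num)
  have hd' : DifferentiableAt ℝ D'.f x := (D'.cda1 hx').differentiableAt (by norm_num)
  have h0 : D.f x = 0 := (D.ze x hx).1 hS
  have h0' : D'.f x = 0 := (D'.ze x hx').1 hS
  have hpt : ∀ w : Q4, Tendsto (fun t : ℝ => x + t • w) (𝓝[≠] 0) (𝓝 x) := by
    intro w
    have : Tendsto (fun t : ℝ => x + t • w) (𝓝 0) (𝓝 (x + (0:ℝ) • w)) :=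
      Continuous.tendsto (by fun_prop) 0
    rw [zero_smul, add_zero] at this
    exact this.mono_left nhdsWithin_le_nhds
  set A := fderiv ℝ D.f x u
  set B := fderiv ℝ D'.f x v
  set C := fderiv ℝ D'.f x u with hC
  rcases dich D D' hx hx' with hp | hp
  · have hl := line_sign (w := (((-C - A) / B) • v + u)) hd hd' h0 h0'
    have e : fderiv ℝ D.f x (((-C - A) / B) • v + u) * fderiv ℝ D'.f x (((-C - A) / B) • v + u) =
        -(A ^ 2) := by
      rw [map_add, map_smul, map_add, map_smul, h, smul_zero, zero_add, smul_eq_mul]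
      show A * ((-C - A) / B * B + C) = -(A ^ 2)
      rw [div_mul_cancel₀ _ hB]; ring
    rw [e] at hl
    have h1 := hl.eventually (gt_mem_nhds (neg_lt_zero.2 (by positivity : 0 < A ^ 2)))
    have h2 := (hpt (((-C - A) / B) • v + u)).eventually hp
    obtain ⟨t, ht, ht2⟩ := (h1.and h2).exists
    have := div_nonneg ht2 (sq_nonneg t)
    linarith
  · have hl := line_sign (w := (((-C + A) / B) • v + u)) hd hd' h0 h0'
    have e : fderiv ℝ D.f x (((-C + A) / B) • v + u) * fderiv ℝ D'.f x (((-C + A) / B) • v + u) =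
        (A ^ 2) := by
      rw [map_add, map_smul, map_add, map_smul, h, smul_zero, zero_add, smul_eq_mul]
      show A * ((-C + A) / B * B + C) = (A ^ 2)
      rw [div_mul_cancel₀ _ hB]; ring
    rw [e] at hl
    have h1 := hl.eventually (lt_mem_nhds (by positivity : 0 < A ^ 2))
    have h2 := (hpt (((-C + A) / B) • v + u)).eventually hp
    obtain ⟨t, ht, ht2⟩ := (h1.and h2).exists
    have := div_nonpos_of_nonpos_of_nonneg ht2 (sq_nonneg t)
    linarith

/-- the cone over the lift of `Σ` -/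
def hat (r : ℝ) (M : Set (E3 × E3)) : Set Q4 := {q | q ≠ 0 ∧ pr r q ∈ M}

lemma hat_smul {r : ℝ} {M : Set (E3 × E3)} {q : Q4} (h : q ∈ hat r M) {c : ℝ} (hc : c ≠ 0) :
    c • q ∈ hat r M :=
  ⟨smul_ne_zero hc h.1, by rw [pr_smul r hc]; exact h.2⟩

lemma hat_neg {r : ℝ} {M : Set (E3 × E3)} {q : Q4} (h : q ∈ hat r M) : -q ∈ hat r M :=
  ⟨neg_ne_zero.2 h.1, by rw [pr_neg]; exact h.2⟩

lemma hat_closed {r : ℝ} {M : Set (E3 × E3)} (hc : IsClosed M) {q : Q4} (hq : q ≠ 0)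
    (h : q ∉ hat r M) : ∀ᶠ y in 𝓝 q, y ∉ hat r M := by
  have h1 : pr r q ∈ Mᶜ := fun h' => h ⟨hq, h'⟩
  have h2 := (cd_pr r hq).continuousAt.eventually (hc.isOpen_compl.mem_nhds h1)
  filter_upwards [h2] with y hy h'
  exact hy h'.2

lemma hat_LD {r : ℝ} (hr : 0 < r) {M : Set (E3 × E3)} (hS : IsSurf r M) {q : Q4}
    (hq : q ∈ hat r M) : ∃ D : LD (hat r M), q ∈ D.W ∧
      ∃ f : E3 × E3 → ℝ, DifferentiableAt ℝ f (pr r q) ∧ D.f = (fun x => f (pr r x)) ∧
        (∃ a, IsTan (pr r q) a ∧ fderiv ℝ f (pr r q) a ≠ 0) ∧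
        ∀ᶠ p in 𝓝 (pr r q), p ∈ TS r → (p ∈ M ↔ f p = 0) := by
  obtain ⟨W, f, hWo, hpW, hf, hz, a, ha, hfa⟩ := hS.2 _ hq.2
  set F : Q4 → ℝ := fun x => f (pr r x) with hF
  set O : Set Q4 := {x | x ≠ 0} ∩ pr r ⁻¹' W with hO
  have hOo : IsOpen O := (cont_pr r).isOpen_inter_preimage isOpen_ne hWo
  have hFO : ContDiffOn ℝ ∞ F O := by
    intro x hx
    have h1 : ContDiffAt ℝ ∞ f (pr r x) := (hf _ hx.2).contDiffAt (hWo.mem_nhds hx.2)
    exact (h1.comp x (cd_pr r hx.1)).contDiffWithinAt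
  have hFd : ContinuousOn (fderiv ℝ F) O := hFO.continuousOn_fderiv_of_isOpen hOo (by simp)
  have hev : ∀ x, F (-x) = F x := fun x => by simp only [hF, pr_neg]
  have hOs : ∀ x ∈ O, -x ∈ O := fun x hx => ⟨neg_ne_zero.2 hx.1, by
    show pr r (-x) ∈ W
    rw [pr_neg]; exact hx.2⟩
  have hdiff : ∀ x ∈ O, DifferentiableAt ℝ F x := fun x hx =>
    ((hFO x hx).contDiffAt (hOo.mem_nhds hx)).differentiableAt (by simp)
  have hqO : q ∈ O := ⟨hq.1, hpW⟩
  have hfdiff : DifferentiableAt ℝ f (pr r q) :=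
    ((hf _ hpW).contDiffAt (hWo.mem_nhds hpW)).differentiableAt (by simp)
  refine ⟨{ W := O ∩ fderiv ℝ F ⁻¹' {0}ᶜ
            f := F
            op := hFd.isOpen_inter_preimage hOo isOpen_compl_singleton
            sm := hFO.mono inter_subset_left
            sy := ?_
            ev := fun x _ => hev x
            ze := ?_
            re := fun x hx _ => hx.2 }, ⟨hqO, ?_⟩, f, hfdiff, rfl, ⟨a, ha, hfa⟩, ?_⟩
  · rintro x ⟨hx, hx'⟩
    refine ⟨hOs x hx, fun h0 => hx' ?_⟩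
    have h1 : HasFDerivAt F (0 : Q4 →L[ℝ] ℝ) (-x) := by
      rw [← show fderiv ℝ F (-x) = 0 from h0]
      exact (hdiff _ (hOs x hx)).hasFDerivAt
    have h2 : HasFDerivAt (fun y : Q4 => -y) (-(ContinuousLinearMap.id ℝ Q4)) x :=
      (hasFDerivAt_id x).fun_neg
    have h3 := h1.comp x h2
    have h4 : F ∘ (fun y : Q4 => -y) = F := funext hev
    rw [h4, ContinuousLinearMap.zero_comp] at h3
    exact h3.fderiv
  · rintro x ⟨hx, -⟩
    have h1 := hz (pr r x) hx.2 (pr_mem hr hx.1)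
    constructor
    · intro h; exact h1.1 h.2
    · intro h; exact ⟨hx.1, h1.2 h⟩
  · intro h0
    have h0' : fderiv ℝ F q = 0 := h0
    obtain ⟨η, hη⟩ := pr_submersion hr hq.1 ha
    apply hfa
    have h1 : fderiv ℝ F q = (fderiv ℝ f (pr r q)).comp (fderiv ℝ (pr r) q) :=
      (hfdiff.hasFDerivAt.comp q ((cd_pr r hq.1).differentiableAt (by simp)).hasFDerivAt).fderiv
    rw [← hη]
    have := congrArg (fun L => L (dirq q η)) h1
    simp only [h0', ContinuousLinearMap.comp_apply] at this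
    rw [← this]; simp
  · filter_upwards [hWo.mem_nhds hpW] with p hp hpT using hz p hp hpT

end Pool.Agent.Helper28.Cr
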