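import Mathlib
import Pool.Agent.Helper28.CrSurf

open Set Filter Topology MeasureTheory
open scoped ContDiff InnerProductSpace

namespace Pool.Agent.Helper28.Cr

lemma rot_fibre (q : Q4) (α β : ℝ) :
    nq (qm q ![α, β, 0, 0]) = (α ^ 2 + β ^ 2) * nq q ∧
    c1 (qm q ![α, β, 0, 0]) = (α ^ 2 + β ^ 2) • c1 q ∧
    c2 (qm q ![α, β, 0, 0]) = (α ^ 2 - β ^ 2) • c2 q + (2 * α * β) • c3 q := by
  refine ⟨?_, ?_, ?_⟩
  · simp only [nq, qm, Matrix.cons_val_zero, Matrix.cons_val_one, Matrix.cons_val]; ring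
  · apply ext3 <;>
      simp only [qm, c1, PiLp.smul_apply, smul_eq_mul, WithLp.ofLp_toLp,
        Matrix.cons_val_zero, Matrix.cons_val_one, Matrix.cons_val] <;> ring
  · apply ext3 <;>
      simp only [qm, c2, c3, PiLp.add_apply, PiLp.smul_apply, smul_eq_mul, WithLp.ofLp_toLp,
        Matrix.cons_val_zero, Matrix.cons_val_one, Matrix.cons_val] <;> ring

lemma pr_surj {r : ℝ} (hr : 0 < r) {p : E3 × E3} (hp : p ∈ TS r) : ∃ q, q ≠ 0 ∧ pr r q = p := by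
  obtain ⟨hx, hxv, hv⟩ := TS_coord hp
  -- first step
  obtain ⟨q, hq, hq1⟩ : ∃ q : Q4, q ≠ 0 ∧ (nq q)⁻¹ • c1 q = p.1 := by
    by_cases hne : (![p.1 0, p.1 1, p.1 2] : Fin 3 → ℝ) + ![1, 0, 0] = 0
    · refine ⟨![0, 0, 1, 0], ?_, ?_⟩
      · intro h
        have := congrFun h 2
        simp at this
      · have e0 := congrFun hne 0
        have e1 := congrFun hne 1
        have e2 := congrFun hne 2
        simp at e0 e1 e2
        apply ext3 <;> simp [nq, c1] <;> linarith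
    · obtain ⟨A, B, hAB, hA, hB⟩ := rel_exists (ζ := ![1, 0, 0]) (y := ![p.1 0, p.1 1, p.1 2])
        (by simpa using hx) hne
      refine ⟨A, hAB.ne_left, ?_⟩
      have h1 := G_pr hr.ne' hAB.ne_left hA
      have e0 := congrFun h1 0
      have e1 := congrFun h1 1
      have e2 := congrFun h1 2
      simp only [G, Matrix.cons_val_zero, Matrix.cons_val_one, Matrix.cons_val, one_mul, zero_mul,
        add_zero] at e0 e1 e2
      exact ext3 e0 e1 e2
  have hn := nq_pos hq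
  set N := nq q with hN
  have hx1 : ⟪c1 q, p.2⟫_ℝ = 0 := by
    have h1 : ⟪p.1, p.2⟫_ℝ = 0 := hp.2.1
    rw [← hq1, inner_smul_left, conj_trivial] at h1
    exact (mul_eq_zero.1 h1).resolve_left (by positivity)
  have hexp := expand3 q p.2
  rw [hx1, zero_smul, zero_add, ← hN] at hexp
  set s2 := ⟪c2 q, p.2⟫_ℝ with hs2
  set s3 := ⟪c3 q, p.2⟫_ℝ with hs3
  have hnorm : s2 ^ 2 + s3 ^ 2 = (r * N) ^ 2 := by
    have h1 : ⟪(N ^ 2) • p.2, p.2⟫_ℝ = N ^ 2 * r ^ 2 := by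
      rw [inner_smul_left, conj_trivial, real_inner_self_eq_norm_sq, hp.2.2]
    rw [hexp, inner_add_left, inner_smul_left, inner_smul_left, ← hs2, ← hs3] at h1
    simp only [conj_trivial] at h1
    nlinarith
  set c := s2 / (r * N) with hc
  set s := s3 / (r * N) with hs
  have hrN : 0 < r * N := by positivity
  have hcs : c ^ 2 + s ^ 2 = 1 := by
    rw [hc, hs, div_pow, div_pow, ← add_div, hnorm, div_self (by positivity)]
  have hv2 : p.2 = (r * N⁻¹) • (c • c2 q + s • c3 q) := by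
    apply smul_right_injective E3 (by positivity : (N ^ 2) ≠ 0)
    simp only
    rw [hexp, smul_smul, smul_add, smul_smul, smul_smul, hc, hs]
    congr 2 <;> field_simp
  by_cases h1c : 1 + c = 0
  · have hs0 : s = 0 := by nlinarith
    have hcm : c = -1 := by linarith
    obtain ⟨r1, r2, r3⟩ := rot_fibre q 0 1
    refine ⟨qm q ![0, 1, 0, 0], ne_of_nq (by rw [r1]; positivity), ?_⟩
    apply Prod.ext
    · show (nq _)⁻¹ • c1 _ = p.1
      rw [r1, r2]; norm_num; exact hq1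
    · show (r * (nq _)⁻¹) • c2 _ = p.2
      rw [r1, r3, hv2, hs0, hcm]; norm_num [hN]
  · have h1c' : 0 < 1 + c := by
      rcases lt_or_gt_of_ne h1c with h | h
      · nlinarith [sq_nonneg s]
      · exact h
    have e1 : (1 + c) ^ 2 + s ^ 2 = 2 * (1 + c) := by linarith
    have e2 : (1 + c) ^ 2 - s ^ 2 = 2 * (1 + c) * c := by linarith
    obtain ⟨r1, r2, r3⟩ := rot_fibre q (1 + c) s
    rw [e1] at r1 r2
    rw [e2] at r3
    rw [← hN] at r1
    refine ⟨qm q ![1 + c, s, 0, 0], ne_of_nq (by rw [r1]; positivity), ?_⟩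
    apply Prod.ext
    · show (nq _)⁻¹ • c1 _ = p.1
      rw [r1, r2, smul_smul, ← hq1]
      congr 1
      field_simp
    · show (r * (nq _)⁻¹) • c2 _ = p.2
      rw [r1, r3, hv2, smul_add, smul_add, smul_smul, smul_smul, smul_smul, smul_smul]
      congr 2 <;> field_simp

lemma sig_fibre {U : Set E3} {V : E3 → E3} (hU : IsOpen U) (hV : ContDiffOn ℝ ∞ V U)
    {p : E3 × E3} (hp : p ∈ Sig U V) (h1 : p.1 ∈ U) : p.2 = V p.1 := by
  by_contra hne
  have hVc : ContinuousAt V p.1 := (hV.continuousOn).continuousAt (hU.mem_nhds h1)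
  have hc : ContinuousAt (fun z : E3 × E3 => z.2 - V z.1) p := by
    have : ContinuousAt (fun z : E3 × E3 => V z.1) p :=
      ContinuousAt.comp (f := fun z : E3 × E3 => z.1) (g := V) hVc continuousAt_fst
    exact continuousAt_snd.sub this
  have h2 : ∀ᶠ z in 𝓝 p, z.2 - V z.1 ≠ 0 := hc.eventually (isOpen_ne.mem_nhds (sub_ne_zero.2 hne))
  have h3 := mem_closure_iff_frequently.1 hp
  obtain ⟨z, hz, hz2⟩ := (h3.and_eventually h2).exists
  exact hz2 (sub_eq_zero.2 hz.2.2)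

lemma mem_sig {U : Set E3} {V : E3 → E3} {x : E3} (h1 : x ∈ U) (h2 : ‖x‖ = 1) :
    (x, V x) ∈ Sig U V := subset_closure ⟨h1, h2, rfl⟩

/-- the normalised line -/
lemma curve_deriv {x₀ x' : E3} (h0 : ‖x₀‖ = 1) (h : ⟪x₀, x'⟫_ℝ = 0) :
    HasDerivAt (fun t : ℝ => (√(1 + t ^ 2 * ‖x'‖ ^ 2))⁻¹ • (x₀ + t • x')) x' 0 ∧
    ∀ t : ℝ, ‖(√(1 + t ^ 2 * ‖x'‖ ^ 2))⁻¹ • (x₀ + t • x')‖ = 1 := by
  constructor
  · have hsq : HasDerivAt (fun t : ℝ => t ^ 2) 0 0 := by
      simpa using hasDerivAt_pow 2 (0:ℝ)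
    have h1 := (hsq.mul_const (‖x'‖ ^ 2)).const_add 1
    have h2 := (h1.sqrt (by norm_num)).fun_inv (by norm_num)
    have h3 := ((hasDerivAt_id (0:ℝ)).smul_const x').const_add x₀
    have h4 := h2.fun_smul h3
    simpa using h4
  · intro t
    have h1 : ‖x₀ + t • x'‖ ^ 2 = 1 + t ^ 2 * ‖x'‖ ^ 2 := by
      rw [norm_add_sq_real, inner_smul_right, h, norm_smul, h0, mul_pow, Real.norm_eq_abs, sq_abs]
      ring
    have h2 : ‖x₀ + t • x'‖ = √(1 + t ^ 2 * ‖x'‖ ^ 2) := by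
      rw [← h1, Real.sqrt_sq (norm_nonneg _)]
    have h3 : 0 < √(1 + t ^ 2 * ‖x'‖ ^ 2) := Real.sqrt_pos.2 (by positivity)
    rw [norm_smul, h2, norm_inv, Real.norm_eq_abs, abs_of_pos h3, inv_mul_cancel₀ h3.ne']

lemma fibre_tr {r : ℝ} (hr : 0 < r) {U : Set E3} {V : E3 → E3} (hU : IsOpen U)
    (hV : ContDiffOn ℝ ∞ V U) (hT : ∀ x ∈ U, ‖x‖ = 1 → ⟪x, V x⟫_ℝ = 0 ∧ ‖V x‖ = r)
    (hS : IsSurf r (Sig U V)) {q₀ : Q4} (hq₀ : q₀ ∈ hat r (Sig U V)) (hxU : (pr r q₀).1 ∈ U)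
    (D : LD (hat r (Sig U V))) (hD : q₀ ∈ D.W) : fderiv ℝ D.f q₀ (dirq q₀ ![1, 0, 0]) ≠ 0 := by
  intro hzero
  obtain ⟨D', hD', f, hfd, hDf, ⟨a, ha, hfa⟩, hloc⟩ := hat_LD hr hS hq₀
  have hzero' := ker_indep D D' hD hD' hq₀ hzero
  set P := pr r q₀ with hP
  have hPT : P ∈ TS r := pr_mem hr hq₀.1
  have hVx : P.2 = V P.1 := sig_fibre hU hV hq₀.2 hxU
  -- the vertical direction
  have hvert : fderiv ℝ f P (0, (r * (nq q₀)⁻¹) • c3 q₀) = 0 := by
    have h1 : fderiv ℝ D'.f q₀ = (fderiv ℝ f (pr r q₀)).comp (fderiv ℝ (pr r) q₀) := by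
      rw [hDf]
      exact (hfd.hasFDerivAt.comp q₀ ((cd_pr r hq₀.1).differentiableAt (by simp)).hasFDerivAt).fderiv
    rw [h1, ContinuousLinearMap.comp_apply, pr_deriv r hq₀.1] at hzero'
    simpa using hzero'
  -- horizontal directions
  set L := fderiv ℝ V P.1 with hL
  have hVd : HasFDerivAt V L P.1 :=
    (((hV _ hxU).contDiffAt (hU.mem_nhds hxU)).differentiableAt (by simp)).hasFDerivAt
  obtain ⟨hcd, hcn⟩ := curve_deriv hPT.1 ha.1
  set γ : ℝ → E3 := fun t => (√(1 + t ^ 2 * ‖a.1‖ ^ 2))⁻¹ • (P.1 + t • a.1) with hγ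
  have hγ0 : γ 0 = P.1 := by simp [hγ]
  have hVγ : HasDerivAt (fun t => V (γ t)) (L a.1) 0 := by
    have h1 : HasFDerivAt V L (γ 0) := by rw [hγ0]; exact hVd
    exact h1.comp_hasDerivAt (0:ℝ) hcd
  have hγU : ∀ᶠ t in 𝓝 (0:ℝ), γ t ∈ U := by
    apply hcd.continuousAt.eventually
    rw [hγ0]
    exact hU.mem_nhds hxU
  have hpair : HasDerivAt (fun t => (γ t, V (γ t))) (a.1, L a.1) 0 := hcd.prodMk hVγ
  have hP0 : (γ 0, V (γ 0)) = P := by rw [hγ0, ← hVx]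
  have htan : IsTan P (a.1, L a.1) := by
    refine ⟨ha.1, ?_, ?_⟩
    · have h1 := hVγ.inner ℝ hVγ
      have h2 : (fun t => ⟪V (γ t), V (γ t)⟫_ℝ) =ᶠ[𝓝 0] fun _ => r ^ 2 := by
        filter_upwards [hγU] with t ht
        rw [real_inner_self_eq_norm_sq, (hT _ ht (hcn t)).2]
      have h3 := (h1.congr_of_eventuallyEq h2.symm).unique (hasDerivAt_const (0:ℝ) (r ^ 2))
      rw [hγ0, ← hVx] at h3
      have h4 := real_inner_comm P.2 (L a.1)
      show ⟪P.2, L a.1⟫_ℝ = 0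
      linarith
    · have h1 := hcd.inner ℝ hVγ
      have h2 : (fun t => ⟪γ t, V (γ t)⟫_ℝ) =ᶠ[𝓝 0] fun _ => (0:ℝ) := by
        filter_upwards [hγU] with t ht
        exact (hT _ ht (hcn t)).1
      have h3 := (h1.congr_of_eventuallyEq h2.symm).unique (hasDerivAt_const (0:ℝ) (0:ℝ))
      rw [hγ0, ← hVx] at h3
      show ⟪a.1, P.2⟫_ℝ + ⟪P.1, L a.1⟫_ℝ = 0
      linarith
  have hhor : fderiv ℝ f P (a.1, L a.1) = 0 := by
    have hfd' : HasFDerivAt f (fderiv ℝ f P) (γ 0, V (γ 0)) := by rw [hP0]; exact hfd.hasFDerivAt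
    have h1 := hfd'.comp_hasDerivAt (0:ℝ) hpair
    have h2 : (f ∘ fun t => (γ t, V (γ t))) =ᶠ[𝓝 0] fun _ => (0:ℝ) := by
      have h3 : Tendsto (fun t => (γ t, V (γ t))) (𝓝 0) (𝓝 P) := by
        have := hpair.continuousAt.tendsto
        rwa [hP0] at this
      filter_upwards [hγU, h3.eventually hloc] with t ht hl
      have hTS : (γ t, V (γ t)) ∈ TS r := ⟨hcn t, (hT _ ht (hcn t)).1, (hT _ ht (hcn t)).2⟩
      exact (hl hTS).1 (mem_sig ht (hcn t))
    exact (h1.congr_of_eventuallyEq h2.symm).unique (hasDerivAt_const (0:ℝ) (0:ℝ))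
  -- conclude
  apply hfa
  set u := a.2 - L a.1 with hu
  have hsplit : a = (a.1, L a.1) + (0, u) := by
    apply Prod.ext
    · simp
    · simp [hu]
  have hn := nq_pos hq₀.1
  have hu1 : ⟪P.1, u⟫_ℝ = 0 := by
    rw [hu, inner_sub_right]
    have h1 := ha.2.2
    have h2 := htan.2.2
    simp only at h2
    linarith
  have hu2 : ⟪P.2, u⟫_ℝ = 0 := by
    rw [hu, inner_sub_right]
    have h1 := ha.2.1
    have h2 := htan.2.1
    simp only at h2
    linarith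
  have hu1' : ⟪c1 q₀, u⟫_ℝ = 0 := by
    simp only [hP, pr, inner_smul_left, conj_trivial] at hu1
    exact (mul_eq_zero.1 hu1).resolve_left (by positivity)
  have hu2' : ⟪c2 q₀, u⟫_ℝ = 0 := by
    simp only [hP, pr, inner_smul_left, conj_trivial] at hu2
    exact (mul_eq_zero.1 hu2).resolve_left (by positivity)
  have hexp := expand3 q₀ u
  rw [hu1', hu2', zero_smul, zero_smul, zero_add, zero_add] at hexp
  have hu3 : u = (⟪c3 q₀, u⟫_ℝ / (r * nq q₀)) • ((r * (nq q₀)⁻¹) • c3 q₀) := by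
    apply smul_right_injective E3 (by positivity : (nq q₀ ^ 2) ≠ 0)
    simp only
    rw [smul_smul, smul_smul, hexp]
    congr 1
    field_simp
  have h0u : ((0, u) : E3 × E3) = (⟪c3 q₀, u⟫_ℝ / (r * nq q₀)) • ((0, (r * (nq q₀)⁻¹) • c3 q₀) : E3 × E3) := by
    rw [Prod.smul_mk, smul_zero, ← hu3]
  rw [hsplit, map_add, hhor, h0u, map_smul, hvert, smul_zero, add_zero]

end Pool.Agent.Helper28.Cr
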