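import Mathlib
import Pool.Agent.Helper28.CrFib

open Set Filter Topology MeasureTheory
open scoped ContDiff InnerProductSpace

namespace Pool.Agent.Helper28.Cr

lemma comb_fib (q : Q4) (s t : ℝ) :
    s • dirq q ![1, 0, 0] + t • q = qm q ![t, s / 2, 0, 0] := by
  apply ext4 <;>
    simp only [dirq, qm, im, Pi.add_apply, Pi.smul_apply, smul_eq_mul,
      Matrix.cons_val_zero, Matrix.cons_val_one, Matrix.cons_val] <;> ring

theorem hat_meets {r : ℝ} (hr : 0 < r) {U : Set E3} {V : E3 → E3} (hU : IsOpen U)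
    (hd : Metric.sphere (0:E3) 1 ⊆ closure (U ∩ Metric.sphere (0:E3) 1))
    (hV : ContDiffOn ℝ ∞ V U) (hT : ∀ x ∈ U, ‖x‖ = 1 → ⟪x, V x⟫_ℝ = 0 ∧ ‖V x‖ = r)
    (hS : IsSurf r (Sig U V)) {p q : Q4} (hpq : Ind p q) :
    ∃ t : ℝ, Real.cos t • p + Real.sin t • q ∈ hat r (Sig U V) := by
  obtain ⟨x₀, hx₀U, hx₀⟩ : ∃ x₀, x₀ ∈ U ∧ ‖x₀‖ = 1 := by
    have h1 : (!₂[1, 0, 0] : E3) ∈ Metric.sphere (0:E3) 1 := by
      rw [mem_sphere_zero_iff_norm]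
      have : ‖(!₂[1, 0, 0] : E3)‖ ^ 2 = 1 := by rw [nsq3]; simp
      nlinarith [norm_nonneg (!₂[1, 0, 0] : E3)]
    have h2 : (U ∩ Metric.sphere (0:E3) 1).Nonempty := by
      rw [← closure_nonempty_iff]; exact ⟨_, hd h1⟩
    obtain ⟨x, hx, hx'⟩ := h2
    exact ⟨x, hx, mem_sphere_zero_iff_norm.1 hx'⟩
  have hT0 := hT x₀ hx₀U hx₀
  have hTS : ((x₀, V x₀) : E3 × E3) ∈ TS r := ⟨hx₀, hT0.1, hT0.2⟩
  obtain ⟨q₀, hq₀, hpr⟩ := pr_surj hr hTS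
  have hmem : q₀ ∈ hat r (Sig U V) := ⟨hq₀, by rw [hpr]; exact mem_sig hx₀U hx₀⟩
  have hxU : (pr r q₀).1 ∈ U := by rw [hpr]; exact hx₀U
  have hn := nq_pos hq₀
  have hind : Ind (dirq q₀ ![1, 0, 0]) q₀ := by
    intro s t hst
    rw [comb_fib] at hst
    have h1 := (rot_fibre q₀ t (s / 2)).1
    rw [hst] at h1
    have h2 : nq (0 : Q4) = 0 := by simp [nq]
    rw [h2] at h1
    have h3 : t ^ 2 + (s / 2) ^ 2 = 0 := by
      rcases mul_eq_zero.1 h1.symm with h | h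
      · exact h
      · exact absurd h hn.ne'
    constructor <;> nlinarith [sq_nonneg t, sq_nonneg s]
  apply top_step (S := hat r (Sig U V)) (p₀ := dirq q₀ ![1, 0, 0]) (q₀ := q₀)
    (fun q hq h => hat_closed isClosed_closure hq h) (fun q hq => hat_neg hq)
    (fun q hq => by
      obtain ⟨D, hD, -⟩ := hat_LD hr hS hq
      exact ⟨D, hD⟩) hind _ hmem (fun D hD => fibre_tr hr hU hV hT hS hmem hxU D hD) hpq
  intro t ht hmemt
  set cs := Real.cos (Real.pi * t) with hcs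
  set sn := Real.sin (Real.pi * t) with hsn
  rw [comb_fib] at hmemt
  obtain ⟨r1, r2, r3⟩ := rot_fibre q₀ sn (cs / 2)
  have hne := hmemt.1
  have hq' := nq_pos hne
  have hfac : sn ^ 2 + (cs / 2) ^ 2 ≠ 0 := by
    intro h0; rw [r1, h0, zero_mul] at hq'; exact lt_irrefl _ hq'
  have hfst : (pr r (qm q₀ ![sn, cs / 2, 0, 0])).1 = (pr r q₀).1 := by
    show (nq _)⁻¹ • c1 _ = (nq q₀)⁻¹ • c1 q₀
    rw [r1, r2, smul_smul]
    congr 1
    rw [mul_comm, mul_inv, ← mul_assoc, mul_inv_cancel₀ hfac, one_mul]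
  have h1 : (pr r (qm q₀ ![sn, cs / 2, 0, 0])).2 = V (pr r (qm q₀ ![sn, cs / 2, 0, 0])).1 :=
    sig_fibre hU hV hmemt.2 (by rw [hfst]; exact hxU)
  have h2 : (pr r q₀).2 = V (pr r q₀).1 := sig_fibre hU hV hmem.2 hxU
  have heq : pr r q₀ = pr r (qm q₀ ![sn, cs / 2, 0, 0]) := by
    apply Prod.ext
    · exact hfst.symm
    · rw [h1, h2, hfst]
  obtain ⟨c, -, hc⟩ := pr_inj hr.ne' hq₀ hne heq
  rw [← comb_fib] at hc
  have h3 : cs • dirq q₀ ![1, 0, 0] + (sn - c) • q₀ = 0 := by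
    rw [sub_smul, ← hc]; abel
  have h4 := (hind _ _ h3).1
  rw [hcs, Real.cos_eq_zero_iff] at h4
  obtain ⟨k, hk⟩ := h4
  have hpi := Real.pi_pos
  have h5 : t = (2 * k + 1) / 2 := by
    have : Real.pi * t = Real.pi * ((2 * k + 1) / 2) := by rw [hk]; ring
    exact mul_left_cancel₀ hpi.ne' this
  have h6 : (k:ℝ) = 0 := by
    have a1 := ht.1
    have a2 := ht.2
    rw [h5] at a1 a2
    have b1 : (-1:ℝ) < k := by linarith
    have b2 : (k:ℝ) < 1 := by linarith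
    have b3 : (-1:ℤ) < k := by exact_mod_cast b1
    have b4 : k < 1 := by exact_mod_cast b2
    have : k = 0 := by omega
    exact_mod_cast this
  rw [h5, h6]; norm_num

theorem sphere_cover {r : ℝ} (hr : 0 < r) {U : Set E3} {V : E3 → E3} (hU : IsOpen U)
    (hd : Metric.sphere (0:E3) 1 ⊆ closure (U ∩ Metric.sphere (0:E3) 1))
    (hV : ContDiffOn ℝ ∞ V U) (hT : ∀ x ∈ U, ‖x‖ = 1 → ⟪x, V x⟫_ℝ = 0 ∧ ‖V x‖ = r)
    (hS : IsSurf r (Sig U V)) {ζ y : Fin 3 → ℝ}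
    (hy : y 0 ^ 2 + y 1 ^ 2 + y 2 ^ 2 = ζ 0 ^ 2 + ζ 1 ^ 2 + ζ 2 ^ 2)
    (hne : y + ζ ≠ 0) : ∃ q ∈ hat r (Sig U V), Rel ζ y q := by
  obtain ⟨A, B, hAB, hA, hB⟩ := rel_exists hy hne
  obtain ⟨t, ht⟩ := hat_meets hr hU hd hV hT hS hAB
  exact ⟨_, ht, hA.comb hB _ _⟩

end Pool.Agent.Helper28.Cr
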