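import Mathlib
import Pool.Agent.Helper28.CrMeet

open Set Filter Topology MeasureTheory
open scoped ContDiff InnerProductSpace

namespace Pool.Agent.Helper28.Cr

/-- body angular velocity of the tangent vector `a` at `p` -/
noncomputable def eta (r : ℝ) (p a : E3 × E3) : Fin 3 → ℝ :=
  ![((p.1 1 * p.2 2 - p.1 2 * p.2 1) * a.2 0 + (p.1 2 * p.2 0 - p.1 0 * p.2 2) * a.2 1 +
      (p.1 0 * p.2 1 - p.1 1 * p.2 0) * a.2 2) / r ^ 2,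
    -((p.1 1 * p.2 2 - p.1 2 * p.2 1) * a.1 0 + (p.1 2 * p.2 0 - p.1 0 * p.2 2) * a.1 1 +
      (p.1 0 * p.2 1 - p.1 1 * p.2 0) * a.1 2) / r,
    (p.2 0 * a.1 0 + p.2 1 * a.1 1 + p.2 2 * a.1 2) / r]

lemma c_orth (q : Q4) : ⟪c1 q, c1 q⟫_ℝ = nq q ^ 2 ∧ ⟪c2 q, c2 q⟫_ℝ = nq q ^ 2 ∧
    ⟪c3 q, c3 q⟫_ℝ = nq q ^ 2 ∧ ⟪c1 q, c2 q⟫_ℝ = 0 ∧ ⟪c1 q, c3 q⟫_ℝ = 0 ∧ ⟪c2 q, c3 q⟫_ℝ = 0 := by
  refine ⟨?_, ?_, ?_, ?_, ?_, ?_⟩ <;>
    simp only [inner3, c1, c2, c3, nq, WithLp.ofLp_toLp,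
      Matrix.cons_val_zero, Matrix.cons_val_one, Matrix.cons_val] <;> ring

lemma c_cross (q : Q4) : c1 q 1 * c2 q 2 - c1 q 2 * c2 q 1 = nq q * c3 q 0 ∧
    c1 q 2 * c2 q 0 - c1 q 0 * c2 q 2 = nq q * c3 q 1 ∧
    c1 q 0 * c2 q 1 - c1 q 1 * c2 q 0 = nq q * c3 q 2 := by
  refine ⟨?_, ?_, ?_⟩ <;>
    simp only [c1, c2, c3, nq, WithLp.ofLp_toLp,
      Matrix.cons_val_zero, Matrix.cons_val_one, Matrix.cons_val] <;> ring

/-- the tangent vector with angular velocity `η` -/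
noncomputable def tv (r : ℝ) (q : Q4) (η : Fin 3 → ℝ) : E3 × E3 :=
  ((nq q)⁻¹ • (η 2 • c2 q - η 1 • c3 q), (r * (nq q)⁻¹) • (η 0 • c3 q - η 2 • c1 q))

lemma eta_tv {r : ℝ} (hr : 0 < r) {q : Q4} (hq : q ≠ 0) (η : Fin 3 → ℝ) :
    eta r (pr r q) (tv r q η) = η := by
  have hn := nq_pos hq
  obtain ⟨k1, k2, k3⟩ := c_cross q
  obtain ⟨o1, o2, o3, o4, o5, o6⟩ := c_orth q
  rw [inner3] at o1 o2 o3 o4 o5 o6
  have hn' := hn.ne'
  have hcr : ∀ i j k l : Fin 3, True := fun _ _ _ _ => trivial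
  ext i
  fin_cases i
  · simp only [Fin.zero_eta, eta, tv, pr, PiLp.smul_apply, PiLp.sub_apply, smul_eq_mul,
      Matrix.cons_val_zero, Matrix.cons_val_one, Matrix.cons_val]
    rw [div_eq_iff (by positivity)]
    field_simp
    linear_combination (c3 q 0 * η 0 - η 2 * c1 q 0) * k1 + (c3 q 1 * η 0 - η 2 * c1 q 1) * k2 +
      (c3 q 2 * η 0 - η 2 * c1 q 2) * k3 + nq q * η 0 * o3 - nq q * η 2 * o5
  · simp only [Fin.mk_one, eta, tv, pr, PiLp.smul_apply, PiLp.sub_apply, smul_eq_mul,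
      Matrix.cons_val_zero, Matrix.cons_val_one, Matrix.cons_val]
    rw [div_eq_iff (by positivity)]
    field_simp
    linear_combination (c3 q 0 * η 1 - η 2 * c2 q 0) * k1 + (c3 q 1 * η 1 - η 2 * c2 q 1) * k2 +
      (c3 q 2 * η 1 - η 2 * c2 q 2) * k3 + nq q * η 1 * o3 - nq q * η 2 * o6
  · simp only [Fin.reduceFinMk, eta, tv, pr, PiLp.smul_apply, PiLp.sub_apply, smul_eq_mul,
      Matrix.cons_val_zero, Matrix.cons_val_one, Matrix.cons_val]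
    rw [div_eq_iff (by positivity)]
    field_simp
    linear_combination η 2 * o2 - η 1 * o6

lemma tan_rep {r : ℝ} (hr : 0 < r) {q : Q4} (hq : q ≠ 0) {a : E3 × E3}
    (ha : IsTan (pr r q) a) : a = tv r q (eta r (pr r q) a) := by
  obtain ⟨η, hη⟩ := pr_submersion hr hq ha
  rw [pr_deriv r hq] at hη
  have h1 : tv r q η = a := hη
  rw [← h1, eta_tv hr hq]

lemma sas_tv {r : ℝ} (hr : 0 < r) {q : Q4} (hq : q ≠ 0) (η θ : Fin 3 → ℝ) :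
    sas (pr r q) (tv r q η) (tv r q θ) = r ^ 2 * (η 0 * θ 0) + η 1 * θ 1 + η 2 * θ 2 := by
  have hn := nq_pos hq
  obtain ⟨o1, o2, o3, o4, o5, o6⟩ := c_orth q
  have o4' : ⟪c2 q, c1 q⟫_ℝ = 0 := by rw [real_inner_comm]; exact o4
  have o5' : ⟪c3 q, c1 q⟫_ℝ = 0 := by rw [real_inner_comm]; exact o5
  have o6' : ⟪c3 q, c2 q⟫_ℝ = 0 := by rw [real_inner_comm]; exact o6
  unfold sas tv pr
  simp only [inner_smul_left, inner_smul_right, inner_sub_left, inner_sub_right, o1, o2, o3, o4, o5,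
    o6, o4', o5', o6', conj_trivial]
  field_simp
  ring

noncomputable def crs (η θ : Fin 3 → ℝ) : Fin 3 → ℝ :=
  ![η 1 * θ 2 - η 2 * θ 1, η 2 * θ 0 - η 0 * θ 2, η 0 * θ 1 - η 1 * θ 0]

/-- the normal vector in body coordinates -/
noncomputable def nv (r : ℝ) (p a b : E3 × E3) : Fin 3 → ℝ := crs (eta r p a) (eta r p b)

lemma gram {r : ℝ} (hr : 0 < r) {p a b : E3 × E3} (hp : p ∈ TS r) (ha : IsTan p a)
    (hb : IsTan p b) :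
    sas p a a * sas p b b - sas p a b ^ 2 =
      (nv r p a b 0) ^ 2 + (r * nv r p a b 1) ^ 2 + (r * nv r p a b 2) ^ 2 := by
  obtain ⟨q, hq, rfl⟩ := pr_surj hr hp
  unfold nv
  set η := eta r (pr r q) a with hη
  set θ := eta r (pr r q) b with hθ
  rw [tan_rep hr hq ha, tan_rep hr hq hb, sas_tv hr hq, sas_tv hr hq, sas_tv hr hq, ← hη, ← hθ]
  simp only [crs, Matrix.cons_val_zero, Matrix.cons_val_one, Matrix.cons_val]
  ring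

/-- the derivative of `G` -/
noncomputable def dG (r : ℝ) (ζ : Fin 3 → ℝ) (p a : E3 × E3) : Fin 3 → ℝ :=
  ![ζ 0 * a.1 0 + ζ 1 * (a.2 0 / r) +
      ζ 2 * ((a.1 1 * p.2 2 - a.1 2 * p.2 1 + (p.1 1 * a.2 2 - p.1 2 * a.2 1)) / r),
    ζ 0 * a.1 1 + ζ 1 * (a.2 1 / r) +
      ζ 2 * ((a.1 2 * p.2 0 - a.1 0 * p.2 2 + (p.1 2 * a.2 0 - p.1 0 * a.2 2)) / r),
    ζ 0 * a.1 2 + ζ 1 * (a.2 2 / r) +
      ζ 2 * ((a.1 0 * p.2 1 - a.1 1 * p.2 0 + (p.1 0 * a.2 1 - p.1 1 * a.2 0)) / r)]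

def det3 (x y z : Fin 3 → ℝ) : ℝ :=
  x 0 * (y 1 * z 2 - y 2 * z 1) - x 1 * (y 0 * z 2 - y 2 * z 0) + x 2 * (y 0 * z 1 - y 1 * z 0)

/-- image of a body vector in space -/
noncomputable def Rv (q : Q4) (ζ : Fin 3 → ℝ) : Fin 3 → ℝ :=
  fun i => (ζ 0 * c1 q i + ζ 1 * c2 q i + ζ 2 * c3 q i) / nq q

lemma dG_tv {r : ℝ} (hr : 0 < r) {q : Q4} (hq : q ≠ 0) (ζ η : Fin 3 → ℝ) :
    dG r ζ (pr r q) (tv r q η) = Rv q (crs η ζ) := by
  have hn := nq_pos hq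
  obtain ⟨k1, k2, k3⟩ := c_cross q
  have k4 : c2 q 1 * c3 q 2 - c2 q 2 * c3 q 1 = nq q * c1 q 0 ∧
      c2 q 2 * c3 q 0 - c2 q 0 * c3 q 2 = nq q * c1 q 1 ∧
      c2 q 0 * c3 q 1 - c2 q 1 * c3 q 0 = nq q * c1 q 2 := by
    refine ⟨?_, ?_, ?_⟩ <;>
      simp only [c1, c2, c3, nq, WithLp.ofLp_toLp,
        Matrix.cons_val_zero, Matrix.cons_val_one, Matrix.cons_val] <;> ring
  have k5 : c3 q 1 * c1 q 2 - c3 q 2 * c1 q 1 = nq q * c2 q 0 ∧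
      c3 q 2 * c1 q 0 - c3 q 0 * c1 q 2 = nq q * c2 q 1 ∧
      c3 q 0 * c1 q 1 - c3 q 1 * c1 q 0 = nq q * c2 q 2 := by
    refine ⟨?_, ?_, ?_⟩ <;>
      simp only [c1, c2, c3, nq, WithLp.ofLp_toLp,
        Matrix.cons_val_zero, Matrix.cons_val_one, Matrix.cons_val] <;> ring
  obtain ⟨l1, l2, l3⟩ := k4
  obtain ⟨m1, m2, m3⟩ := k5
  have hn' := hn.ne'
  ext i
  fin_cases i
  · simp only [Fin.zero_eta, dG, tv, pr, Rv, crs, PiLp.smul_apply, PiLp.sub_apply, smul_eq_mul,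
      Matrix.cons_val_zero, Matrix.cons_val_one, Matrix.cons_val]
    field_simp
    linear_combination ζ 2 * η 1 * l1 - ζ 2 * η 0 * m1
  · simp only [Fin.mk_one, dG, tv, pr, Rv, crs, PiLp.smul_apply, PiLp.sub_apply, smul_eq_mul,
      Matrix.cons_val_zero, Matrix.cons_val_one, Matrix.cons_val]
    field_simp
    linear_combination ζ 2 * η 1 * l2 - ζ 2 * η 0 * m2
  · simp only [Fin.reduceFinMk, dG, tv, pr, Rv, crs, PiLp.smul_apply, PiLp.sub_apply, smul_eq_mul,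
      Matrix.cons_val_zero, Matrix.cons_val_one, Matrix.cons_val]
    field_simp
    linear_combination ζ 2 * η 1 * l3 - ζ 2 * η 0 * m3

lemma det_Rv {q : Q4} (hq : q ≠ 0) (x y z : Fin 3 → ℝ) :
    det3 (Rv q x) (Rv q y) (Rv q z) = det3 x y z := by
  have hn := nq_pos hq
  have hdet : c1 q 0 * (c2 q 1 * c3 q 2 - c2 q 2 * c3 q 1) - c1 q 1 * (c2 q 0 * c3 q 2 - c2 q 2 * c3 q 0)
      + c1 q 2 * (c2 q 0 * c3 q 1 - c2 q 1 * c3 q 0) = nq q ^ 3 := by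
    simp only [c1, c2, c3, nq, WithLp.ofLp_toLp,
        Matrix.cons_val_zero, Matrix.cons_val_one, Matrix.cons_val]
    ring
  have hn' := hn.ne'
  simp only [det3, Rv]
  field_simp
  linear_combination (x 0 * (y 1 * z 2 - y 2 * z 1) - x 1 * (y 0 * z 2 - y 2 * z 0) +
    x 2 * (y 0 * z 1 - y 1 * z 0)) * hdet

lemma det_G {r : ℝ} (hr : 0 < r) {p a b : E3 × E3} (hp : p ∈ TS r) (ha : IsTan p a)
    (hb : IsTan p b) (ζ : Fin 3 → ℝ) :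
    det3 (G r ζ p) (dG r ζ p a) (dG r ζ p b) =
      (ζ 0 ^ 2 + ζ 1 ^ 2 + ζ 2 ^ 2) *
        (nv r p a b 0 * ζ 0 + nv r p a b 1 * ζ 1 + nv r p a b 2 * ζ 2) := by
  obtain ⟨q, hq, rfl⟩ := pr_surj hr hp
  unfold nv
  set η := eta r (pr r q) a with hη
  set θ := eta r (pr r q) b with hθ
  have h0 : G r ζ (pr r q) = Rv q ζ := funext (fun i => G_pr0 hr.ne' hq ζ i)
  rw [h0, tan_rep hr hq ha, tan_rep hr hq hb, dG_tv hr hq, dG_tv hr hq, det_Rv hq, ← hη, ← hθ]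
  simp only [det3, crs, Matrix.cons_val_zero, Matrix.cons_val_one, Matrix.cons_val]
  ring

end Pool.Agent.Helper28.Cr
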