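import Mathlib
import Pool.Agent.Helper28.CrArea

open Set Filter Topology MeasureTheory
open scoped ContDiff InnerProductSpace ENNReal

namespace Pool.Agent.Helper28.Cr

lemma patch_tan {r : ℝ} {φ : ℝ × ℝ → E3 × E3} {O : Set (ℝ × ℝ)} (hO : IsOpen O)
    (hφ : ContDiffOn ℝ 1 φ O) (hm : MapsTo φ O (TS r)) {w : ℝ × ℝ} (hw : w ∈ O) (h : ℝ × ℝ) :
    IsTan (φ w) (fderiv ℝ φ w h) := by
  have hd : DifferentiableAt ℝ φ w := ((hφ w hw).contDiffAt (hO.mem_nhds hw)).differentiableAt (by simp)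
  have hl : HasDerivAt (fun t : ℝ => w + t • h) h 0 := by
    simpa using ((hasDerivAt_id (0:ℝ)).smul_const h).const_add w
  have hc : HasDerivAt (fun t : ℝ => φ (w + t • h)) (fderiv ℝ φ w h) 0 := by
    have hd' : HasFDerivAt φ (fderiv ℝ φ w) (w + (0:ℝ) • h) := by simpa using hd.hasFDerivAt
    exact hd'.comp_hasDerivAt (0:ℝ) hl
  have hO' : ∀ᶠ t in 𝓝 (0:ℝ), w + t • h ∈ O := by
    apply hl.continuousAt.eventually
    simp only [zero_smul, add_zero]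
    exact hO.mem_nhds hw
  have h1 : HasDerivAt (fun t : ℝ => (φ (w + t • h)).1) (fderiv ℝ φ w h).1 0 := hc.fst
  have h2 : HasDerivAt (fun t : ℝ => (φ (w + t • h)).2) (fderiv ℝ φ w h).2 0 := hc.snd
  have e0 : w + (0:ℝ) • h = w := by simp
  refine ⟨?_, ?_, ?_⟩
  · have a1 := h1.inner ℝ h1
    have a2 : (fun t : ℝ => ⟪(φ (w + t • h)).1, (φ (w + t • h)).1⟫_ℝ) =ᶠ[𝓝 0] fun _ => (1:ℝ) := by
      filter_upwards [hO'] with t ht
      rw [real_inner_self_eq_norm_sq, (hm ht).1]; norm_num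
    have a3 := (a1.congr_of_eventuallyEq a2.symm).unique (hasDerivAt_const (0:ℝ) (1:ℝ))
    rw [e0] at a3
    have a4 := real_inner_comm (φ w).1 (fderiv ℝ φ w h).1
    linarith
  · have a1 := h2.inner ℝ h2
    have a2 : (fun t : ℝ => ⟪(φ (w + t • h)).2, (φ (w + t • h)).2⟫_ℝ) =ᶠ[𝓝 0] fun _ => r ^ 2 := by
      filter_upwards [hO'] with t ht
      rw [real_inner_self_eq_norm_sq, (hm ht).2.2]
    have a3 := (a1.congr_of_eventuallyEq a2.symm).unique (hasDerivAt_const (0:ℝ) (r ^ 2))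
    rw [e0] at a3
    have a4 := real_inner_comm (φ w).2 (fderiv ℝ φ w h).2
    linarith
  · have a1 := h1.inner ℝ h2
    have a2 : (fun t : ℝ => ⟪(φ (w + t • h)).1, (φ (w + t • h)).2⟫_ℝ) =ᶠ[𝓝 0] fun _ => (0:ℝ) := by
      filter_upwards [hO'] with t ht
      exact (hm ht).2.1
    have a3 := (a1.congr_of_eventuallyEq a2.symm).unique (hasDerivAt_const (0:ℝ) (0:ℝ))
    rw [e0] at a3
    linarith

lemma cd_G (r : ℝ) (ζ : Fin 3 → ℝ) : ContDiff ℝ ∞ (G r ζ) := by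
  rw [contDiff_pi]
  intro i
  fin_cases i <;> simp only [Fin.zero_eta, Fin.mk_one, Fin.reduceFinMk, G,
    Matrix.cons_val_zero, Matrix.cons_val_one, Matrix.cons_val] <;> fun_prop

lemma fderiv_G (r : ℝ) (ζ : Fin 3 → ℝ) (p a : E3 × E3) : fderiv ℝ (G r ζ) p a = dG r ζ p a := by
  have hl : HasDerivAt (fun t : ℝ => p + t • a) a 0 := by
    simpa using ((hasDerivAt_id (0:ℝ)).smul_const a).const_add p
  have hd : HasFDerivAt (G r ζ) (fderiv ℝ (G r ζ) p) (p + (0:ℝ) • a) := by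
    have := ((cd_G r ζ).differentiable (by simp)) p
    simpa using this.hasFDerivAt
  have h1 := hd.comp_hasDerivAt (0:ℝ) hl
  have h2 : (G r ζ ∘ fun t : ℝ => p + t • a) = fun t : ℝ =>
      G r ζ p + t • dG r ζ p a + t ^ 2 • (![ζ 2 * ((a.1 1 * a.2 2 - a.1 2 * a.2 1) / r),
        ζ 2 * ((a.1 2 * a.2 0 - a.1 0 * a.2 2) / r),
        ζ 2 * ((a.1 0 * a.2 1 - a.1 1 * a.2 0) / r)] : Fin 3 → ℝ) := by
    funext t
    ext i
    fin_cases i <;>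
      simp only [Fin.zero_eta, Fin.mk_one, Fin.reduceFinMk, Function.comp_apply, G, dG, Pi.add_apply,
        Pi.smul_apply, smul_eq_mul, Prod.fst_add, Prod.snd_add, Prod.smul_fst, Prod.smul_snd,
        PiLp.add_apply, PiLp.smul_apply,
        Matrix.cons_val_zero, Matrix.cons_val_one, Matrix.cons_val] <;> ring
  rw [h2] at h1
  have hsq : HasDerivAt (fun t : ℝ => t ^ 2) 0 0 := by
    simpa using hasDerivAt_pow 2 (0:ℝ)
  have hpoly : ∀ A B C : Fin 3 → ℝ, HasDerivAt (fun t : ℝ => A + t • B + t ^ 2 • C) B 0 := by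
    intro A B C
    have h1 := ((hasDerivAt_id (0:ℝ)).smul_const B).const_add A
    have h2 := h1.fun_add (hsq.smul_const C)
    simpa using h2
  exact h1.unique (hpoly _ _ _)

/-- linear identification of `ℝ³` with `(ℝ × ℝ) × ℝ` -/
def T3 : (Fin 3 → ℝ) →L[ℝ] (ℝ × ℝ) × ℝ :=
  ((ContinuousLinearMap.proj 0).prod (ContinuousLinearMap.proj 1)).prod (ContinuousLinearMap.proj 2)

lemma T3_apply (z : Fin 3 → ℝ) : T3 z = ((z 0, z 1), z 2) := rfl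

def eL : ((ℝ × ℝ) × ℝ) ≃ₗ[ℝ] (Fin 3 → ℝ) where
  toFun u := ![u.1.1, u.1.2, u.2]
  invFun v := ((v 0, v 1), v 2)
  map_add' u v := by ext i; fin_cases i <;> simp
  map_smul' c u := by ext i; fin_cases i <;> simp
  left_inv u := by simp
  right_inv v := by ext i; fin_cases i <;> simp

lemma det_cone (L : ((ℝ × ℝ) × ℝ) →L[ℝ] ((ℝ × ℝ) × ℝ)) (x y z : Fin 3 → ℝ)
    (h1 : L ((1, 0), 0) = T3 x) (h2 : L ((0, 1), 0) = T3 y) (h3 : L ((0, 0), 1) = T3 z) :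
    L.det = det3 x y z := by
  have e1 : L.det = LinearMap.det (L : ((ℝ × ℝ) × ℝ) →ₗ[ℝ] ((ℝ × ℝ) × ℝ)) := rfl
  rw [e1, ← LinearMap.det_conj (L : ((ℝ × ℝ) × ℝ) →ₗ[ℝ] ((ℝ × ℝ) × ℝ)) eL,
    ← LinearMap.det_toMatrix']
  have hcol : ∀ (i j : Fin 3), LinearMap.toMatrix' ((eL : ((ℝ × ℝ) × ℝ) →ₗ[ℝ] (Fin 3 → ℝ)) ∘ₗ
      (L : ((ℝ × ℝ) × ℝ) →ₗ[ℝ] ((ℝ × ℝ) × ℝ)) ∘ₗ (eL.symm : (Fin 3 → ℝ) →ₗ[ℝ] ((ℝ × ℝ) × ℝ))) i j
      = (![x, y, z] : Fin 3 → Fin 3 → ℝ) j i := by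
    intro i j
    rw [LinearMap.toMatrix'_apply]
    have hs0 : eL.symm (Pi.single 0 1 : Fin 3 → ℝ) = ((1, 0), 0) := by
      show ((_, _), _) = _
      simp
    have hs1 : eL.symm (Pi.single 1 1 : Fin 3 → ℝ) = ((0, 1), 0) := by
      show ((_, _), _) = _
      simp
    have hs2 : eL.symm (Pi.single 2 1 : Fin 3 → ℝ) = ((0, 0), 1) := by
      show ((_, _), _) = _
      simp
    have hT : ∀ v : Fin 3 → ℝ, eL (T3 v) = v := by
      intro v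
      rw [T3_apply]
      show ![v 0, v 1, v 2] = v
      ext i; fin_cases i <;> simp
    fin_cases j
    · show eL (L (eL.symm (Pi.single 0 1 : Fin 3 → ℝ))) i = x i
      rw [hs0, h1, hT]
    · show eL (L (eL.symm (Pi.single 1 1 : Fin 3 → ℝ))) i = y i
      rw [hs1, h2, hT]
    · show eL (L (eL.symm (Pi.single 2 1 : Fin 3 → ℝ))) i = z i
      rw [hs2, h3, hT]
  have key : LinearMap.toMatrix' ((eL : ((ℝ × ℝ) × ℝ) →ₗ[ℝ] (Fin 3 → ℝ)) ∘ₗ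
      (L : ((ℝ × ℝ) × ℝ) →ₗ[ℝ] ((ℝ × ℝ) × ℝ)) ∘ₗ (eL.symm : (Fin 3 → ℝ) →ₗ[ℝ] ((ℝ × ℝ) × ℝ)))
      = Matrix.of (fun i j => (![x, y, z] : Fin 3 → Fin 3 → ℝ) j i) := by
    ext i j
    exact hcol i j
  rw [key, Matrix.det_fin_three]
  simp only [Matrix.of_apply, det3, Matrix.cons_val_zero, Matrix.cons_val_one, Matrix.cons_val]
  ring

end Pool.Agent.Helper28.Cr
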