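import Mathlib
import Pool.Agent.Helper28.CrFlux

open Set Filter Topology MeasureTheory
open scoped ContDiff InnerProductSpace ENNReal

namespace Pool.Agent.Helper28.Cr

noncomputable def nvp (r : ℝ) (φ : ℝ × ℝ → E3 × E3) (w : ℝ × ℝ) : Fin 3 → ℝ :=
  nv r (φ w) (fderiv ℝ φ w (1, 0)) (fderiv ℝ φ w (0, 1))

def lin (n ζ : Fin 3 → ℝ) : ℝ := n 0 * ζ 0 + n 1 * ζ 1 + n 2 * ζ 2

def n2 (ζ : Fin 3 → ℝ) : ℝ := ζ 0 ^ 2 + ζ 1 ^ 2 + ζ 2 ^ 2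

lemma n2_nonneg (ζ : Fin 3 → ℝ) : 0 ≤ n2 ζ := by unfold n2; positivity

noncomputable def Psi (r : ℝ) (ζ : Fin 3 → ℝ) (φ : ℝ × ℝ → E3 × E3) (u : (ℝ × ℝ) × ℝ) :
    (ℝ × ℝ) × ℝ := u.2 • T3 (G r ζ (φ u.1))

lemma Psi_deriv {r : ℝ} (hr : 0 < r) {φ : ℝ × ℝ → E3 × E3} {O : Set (ℝ × ℝ)} (hO : IsOpen O)
    (hφ : ContDiffOn ℝ 1 φ O) (hm : MapsTo φ O (TS r)) (ζ : Fin 3 → ℝ) {u : (ℝ × ℝ) × ℝ}
    (hu : u.1 ∈ O) :
    DifferentiableAt ℝ (Psi r ζ φ) u ∧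
      (fderiv ℝ (Psi r ζ φ) u).det = u.2 ^ 2 * (n2 ζ * lin (nvp r φ u.1) ζ) := by
  have hd : DifferentiableAt ℝ φ u.1 :=
    ((hφ _ hu).contDiffAt (hO.mem_nhds hu)).differentiableAt (by simp)
  have hG : HasFDerivAt (G r ζ) (fderiv ℝ (G r ζ) (φ u.1)) (φ u.1) :=
    ((cd_G r ζ).differentiable (by simp) _).hasFDerivAt
  have h1 : HasFDerivAt (fun v : (ℝ × ℝ) × ℝ => φ v.1) ((fderiv ℝ φ u.1).comp
      (ContinuousLinearMap.fst ℝ (ℝ × ℝ) ℝ)) u :=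
    hd.hasFDerivAt.comp u hasFDerivAt_fst
  have h2 : HasFDerivAt (fun v : (ℝ × ℝ) × ℝ => T3 (G r ζ (φ v.1)))
      (T3.comp ((fderiv ℝ (G r ζ) (φ u.1)).comp ((fderiv ℝ φ u.1).comp
      (ContinuousLinearMap.fst ℝ (ℝ × ℝ) ℝ)))) u :=
    T3.hasFDerivAt.comp u (HasFDerivAt.comp (g := G r ζ) (f := fun v : (ℝ × ℝ) × ℝ => φ v.1) u hG h1)
  have h3 : HasFDerivAt (fun v : (ℝ × ℝ) × ℝ => v.2) (ContinuousLinearMap.snd ℝ (ℝ × ℝ) ℝ) u :=
    hasFDerivAt_snd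
  have h4 := h3.fun_smul h2
  refine ⟨h4.differentiableAt, ?_⟩
  have h5 : fderiv ℝ (Psi r ζ φ) u = _ := h4.fderiv
  rw [h5, det_cone _ (u.2 • dG r ζ (φ u.1) (fderiv ℝ φ u.1 (1, 0)))
    (u.2 • dG r ζ (φ u.1) (fderiv ℝ φ u.1 (0, 1))) (G r ζ (φ u.1))]
  · have h6 := det_G hr (hm hu) (patch_tan hO hφ hm hu (1, 0)) (patch_tan hO hφ hm hu (0, 1)) ζ
    unfold n2 lin nvp
    rw [← h6]
    simp only [det3, Pi.smul_apply, smul_eq_mul]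
    ring
  · simp [fderiv_G]
  · simp [fderiv_G]
  · have h0 : ((0, 0) : ℝ × ℝ) = 0 := rfl
    rw [h0]
    simp

lemma cont_eta (r : ℝ) : Continuous (fun z : (E3 × E3) × (E3 × E3) => eta r z.1 z.2) := by
  rw [continuous_pi_iff]
  intro i
  fin_cases i <;> simp only [Fin.zero_eta, Fin.mk_one, Fin.reduceFinMk, eta,
    Matrix.cons_val_zero, Matrix.cons_val_one, Matrix.cons_val] <;> fun_prop

lemma cont_crs : Continuous (fun z : (Fin 3 → ℝ) × (Fin 3 → ℝ) => crs z.1 z.2) := by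
  rw [continuous_pi_iff]
  intro i
  fin_cases i <;> simp only [Fin.zero_eta, Fin.mk_one, Fin.reduceFinMk, crs,
    Matrix.cons_val_zero, Matrix.cons_val_one, Matrix.cons_val] <;> fun_prop

lemma cont_nvp (r : ℝ) {φ : ℝ × ℝ → E3 × E3} {O : Set (ℝ × ℝ)} (hO : IsOpen O)
    (hφ : ContDiffOn ℝ 1 φ O) : ContinuousOn (nvp r φ) O := by
  have h1 : ContinuousOn φ O := hφ.continuousOn
  have h2 : ContinuousOn (fderiv ℝ φ) O := hφ.continuousOn_fderiv_of_isOpen hO (by simp)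
  have ha : ContinuousOn (fun w => fderiv ℝ φ w (1, 0)) O := h2.clm_apply continuousOn_const
  have hb : ContinuousOn (fun w => fderiv ℝ φ w (0, 1)) O := h2.clm_apply continuousOn_const
  have h3 : ContinuousOn (fun w => eta r (φ w) (fderiv ℝ φ w (1, 0))) O :=
    (cont_eta r).comp_continuousOn (f := fun w => (φ w, fderiv ℝ φ w (1, 0))) (h1.prodMk ha)
  have h4 : ContinuousOn (fun w => eta r (φ w) (fderiv ℝ φ w (0, 1))) O :=
    (cont_eta r).comp_continuousOn (f := fun w => (φ w, fderiv ℝ φ w (0, 1))) (h1.prodMk hb)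
  exact cont_crs.comp_continuousOn (f := fun w => (eta r (φ w) (fderiv ℝ φ w (1, 0)),
    eta r (φ w) (fderiv ℝ φ w (0, 1)))) (h3.prodMk h4)

/-- the flux of the family of geodesic orbits with body direction `ζ` -/
noncomputable def flux (r : ℝ) (φ : ℝ × ℝ → E3 × E3) (B : Set (ℝ × ℝ)) (ζ : Fin 3 → ℝ) : ℝ≥0∞ :=
  ∫⁻ w in B, ENNReal.ofReal |lin (nvp r φ w) ζ|

noncomputable def K3 : ℝ≥0∞ := ∫⁻ t in Ioo (0:ℝ) 1, ENNReal.ofReal (t ^ 2)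

lemma K3_ne_top : K3 ≠ ⊤ := by
  have : K3 ≤ ∫⁻ t in Ioo (0:ℝ) 1, 1 := by
    unfold K3
    apply setLIntegral_mono measurable_const
    intro t ht
    rw [← ENNReal.ofReal_one]
    apply ENNReal.ofReal_le_ofReal
    nlinarith [ht.1, ht.2]
  apply ne_top_of_le_ne_top _ this
  simp

lemma K3_ne_zero : K3 ≠ 0 := by
  unfold K3
  intro h
  rw [lintegral_eq_zero_iff (by fun_prop)] at h
  have h2 : volume (Ioo (0:ℝ) 1) = 0 := by
    have h3 : ∀ᵐ t ∂(volume.restrict (Ioo (0:ℝ) 1)), False := by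
      filter_upwards [h, ae_restrict_mem measurableSet_Ioo] with t ht hm
      have : 0 < t ^ 2 := by have := hm.1; positivity
      simp only [Pi.zero_apply, ENNReal.ofReal_eq_zero] at ht
      linarith
    rw [ae_iff] at h3
    simpa using h3
  simp at h2

lemma meas_lin {r : ℝ} {φ : ℝ × ℝ → E3 × E3} {O B : Set (ℝ × ℝ)} (hO : IsOpen O)
    (hφ : ContDiffOn ℝ 1 φ O) (hB : MeasurableSet B) (hBO : B ⊆ O) (ζ : Fin 3 → ℝ) :
    AEMeasurable (fun w => ENNReal.ofReal |lin (nvp r φ w) ζ|) (volume.restrict B) := by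
  have h1 : ContinuousOn (nvp r φ) B := (cont_nvp r hO hφ).mono hBO
  have h2 : Continuous (fun n : Fin 3 → ℝ => |lin n ζ|) := by unfold lin; fun_prop
  have h3 : ContinuousOn (fun w => |lin (nvp r φ w) ζ|) B :=
    h2.comp_continuousOn (f := nvp r φ) h1
  exact (h3.aemeasurable hB).ennreal_ofReal

lemma cone_int {r : ℝ} {φ : ℝ × ℝ → E3 × E3} {O B : Set (ℝ × ℝ)} (hO : IsOpen O)
    (hφ : ContDiffOn ℝ 1 φ O) (hB : MeasurableSet B) (hBO : B ⊆ O) (ζ : Fin 3 → ℝ) :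
    ∫⁻ u in B ×ˢ Ioo (0:ℝ) 1, ENNReal.ofReal |u.2 ^ 2 * (n2 ζ * lin (nvp r φ u.1) ζ)| =
      ENNReal.ofReal (n2 ζ) * flux r φ B ζ * K3 := by
  have h1 : ∀ u : (ℝ × ℝ) × ℝ, ENNReal.ofReal |u.2 ^ 2 * (n2 ζ * lin (nvp r φ u.1) ζ)| =
      (ENNReal.ofReal (n2 ζ) * ENNReal.ofReal |lin (nvp r φ u.1) ζ|) * ENNReal.ofReal (u.2 ^ 2) := by
    intro u
    rw [abs_mul, abs_mul, abs_of_nonneg (n2_nonneg ζ), abs_of_nonneg (sq_nonneg _),
      ← ENNReal.ofReal_mul (n2_nonneg ζ), ← ENNReal.ofReal_mul (by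
        exact mul_nonneg (n2_nonneg ζ) (abs_nonneg _))]
    congr 1; ring
  simp only [h1]
  rw [Measure.volume_eq_prod (ℝ × ℝ) ℝ, ← Measure.prod_restrict]
  rw [lintegral_prod_mul (f := fun w => ENNReal.ofReal (n2 ζ) * ENNReal.ofReal |lin (nvp r φ w) ζ|)
    (g := fun t : ℝ => ENNReal.ofReal (t ^ 2))]
  · rw [lintegral_const_mul' _ _ ENNReal.ofReal_ne_top]
    rfl
  · exact (meas_lin hO hφ hB hBO ζ).const_mul _
  · fun_prop

instance haar2 : (volume : Measure (ℝ × ℝ)).IsAddHaarMeasure := by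
  rw [Measure.volume_eq_prod]; infer_instance

instance haar3 : (volume : Measure ((ℝ × ℝ) × ℝ)).IsAddHaarMeasure := by
  rw [Measure.volume_eq_prod]; infer_instance

lemma image_le {r : ℝ} (hr : 0 < r) {φ : ℝ × ℝ → E3 × E3} {O B : Set (ℝ × ℝ)} (hO : IsOpen O)
    (hφ : ContDiffOn ℝ 1 φ O) (hm : MapsTo φ O (TS r)) (hB : MeasurableSet B) (hBO : B ⊆ O)
    (ζ : Fin 3 → ℝ) :
    volume (Psi r ζ φ '' (B ×ˢ Ioo (0:ℝ) 1)) ≤ ENNReal.ofReal (n2 ζ) * flux r φ B ζ * K3 := by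
  rw [← cone_int hO hφ hB hBO ζ]
  have h1 := addHaar_image_le_lintegral_abs_det_fderiv (volume : Measure ((ℝ × ℝ) × ℝ))
    (s := B ×ˢ Ioo (0:ℝ) 1) (f := Psi r ζ φ) (f' := fun u => fderiv ℝ (Psi r ζ φ) u)
    (hB.prod measurableSet_Ioo)
    (fun u hu => (Psi_deriv hr hO hφ hm ζ (hBO hu.1)).1.hasFDerivAt.hasFDerivWithinAt)
  apply h1.trans
  apply le_of_eq
  apply setLIntegral_congr_fun (hB.prod measurableSet_Ioo)
  intro u hu
  simp only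
  rw [(Psi_deriv hr hO hφ hm ζ (hBO hu.1)).2]

end Pool.Agent.Helper28.Cr
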