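import Mathlib
import Pool.Agent.Helper28.CrFlux2

open Set Filter Topology MeasureTheory
open scoped ContDiff InnerProductSpace ENNReal

namespace Pool.Agent.Helper28.Cr

/-- explicit form of the minimising surface -/
noncomputable def Kp (r : ℝ) (a b m : E3) : E3 × E3 :=
  ((2 * ⟪m, a⟫_ℝ) • m - a, r • (b - (2 * ⟪m, b⟫_ℝ) • m))

noncomputable def cr3 (a b : E3) : E3 :=
  !₂[a 1 * b 2 - a 2 * b 1, a 2 * b 0 - a 0 * b 2, a 0 * b 1 - a 1 * b 0]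

/-- the body vector `ζ` transported by the frame `(a, -b, -a×b)` -/
noncomputable def zv (a b : E3) (ζ : Fin 3 → ℝ) : E3 := ζ 0 • a - ζ 1 • b - ζ 2 • cr3 a b

lemma G_Kp {r : ℝ} (hr : r ≠ 0) (a b m : E3) (hm : ‖m‖ = 1) (ζ : Fin 3 → ℝ) (i : Fin 3) :
    G r ζ (Kp r a b m) i = 2 * ⟪m, zv a b ζ⟫_ℝ * m i - zv a b ζ i := by
  have h1 : m 0 ^ 2 + m 1 ^ 2 + m 2 ^ 2 = 1 := by rw [← nsq3, hm]; norm_num
  fin_cases i
  · simp only [Fin.zero_eta, G, Kp, zv, cr3, inner3, PiLp.smul_apply, PiLp.sub_apply, smul_eq_mul,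
      WithLp.ofLp_toLp, Matrix.cons_val_zero, Matrix.cons_val_one, Matrix.cons_val]
    field_simp
    linear_combination (-2 * ζ 2 * (a 2 * b 1 - a 1 * b 2)) * h1
  · simp only [Fin.mk_one, G, Kp, zv, cr3, inner3, PiLp.smul_apply, PiLp.sub_apply, smul_eq_mul,
      WithLp.ofLp_toLp, Matrix.cons_val_zero, Matrix.cons_val_one, Matrix.cons_val]
    field_simp
    linear_combination (-2 * ζ 2 * (a 0 * b 2 - a 2 * b 0)) * h1
  · simp only [Fin.reduceFinMk, G, Kp, zv, cr3, inner3, PiLp.smul_apply, PiLp.sub_apply, smul_eq_mul,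
      WithLp.ofLp_toLp, Matrix.cons_val_zero, Matrix.cons_val_one, Matrix.cons_val]
    field_simp
    linear_combination (-2 * ζ 2 * (a 1 * b 0 - a 0 * b 1)) * h1

lemma n2_G {r : ℝ} (hr : 0 < r) {p : E3 × E3} (hp : p ∈ TS r) (ζ : Fin 3 → ℝ) :
    n2 (G r ζ p) = n2 ζ := by
  obtain ⟨q, hq, rfl⟩ := pr_surj hr hp
  have hn := nq_pos hq
  unfold n2
  rw [G_pr0 hr.ne' hq, G_pr0 hr.ne' hq, G_pr0 hr.ne' hq]
  obtain ⟨o1, o2, o3, o4, o5, o6⟩ := c_orth q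
  rw [inner3] at o1 o2 o3 o4 o5 o6
  have hn' := hn.ne'
  field_simp
  linear_combination ζ 0 ^ 2 * o1 + ζ 1 ^ 2 * o2 + ζ 2 ^ 2 * o3 + 2 * ζ 0 * ζ 1 * o4 +
    2 * ζ 0 * ζ 2 * o5 + 2 * ζ 1 * ζ 2 * o6

lemma zv_surj {a b : E3} (ha : ‖a‖ = 1) (hb : ‖b‖ = 1) (hab : ⟪a, b⟫_ℝ = 0) (m : E3) :
    ∃ ζ : Fin 3 → ℝ, zv a b ζ = m := by
  have hT : ((a, b) : E3 × E3) ∈ TS 1 := ⟨ha, hab, hb⟩
  obtain ⟨q, hq, hqp⟩ := pr_surj one_pos hT
  have hn := nq_pos hq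
  have h1 : (nq q)⁻¹ • c1 q = a := congrArg Prod.fst hqp
  have h2 : (1 * (nq q)⁻¹) • c2 q = b := congrArg Prod.snd hqp
  rw [one_mul] at h2
  have h3 : (nq q)⁻¹ • c3 q = cr3 a b := by
    obtain ⟨k1, k2, k3⟩ := c_cross q
    rw [← h1, ← h2]
    have hn' := hn.ne'
    apply ext3 <;> simp only [cr3, PiLp.smul_apply, smul_eq_mul, WithLp.ofLp_toLp,
        Matrix.cons_val_zero, Matrix.cons_val_one, Matrix.cons_val] <;> field_simp
    · linear_combination (-1 : ℝ) * k1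
    · linear_combination (-1 : ℝ) * k2
    · linear_combination (-1 : ℝ) * k3
  have he := expand3 q m
  refine ⟨![(nq q)⁻¹ * ⟪c1 q, m⟫_ℝ, -((nq q)⁻¹ * ⟪c2 q, m⟫_ℝ), -((nq q)⁻¹ * ⟪c3 q, m⟫_ℝ)], ?_⟩
  unfold zv
  simp only [Matrix.cons_val_zero, Matrix.cons_val_one, Matrix.cons_val, neg_smul, sub_neg_eq_add]
  rw [← h3, ← h1, ← h2, smul_smul, smul_smul, smul_smul]
  apply smul_right_injective E3 (by positivity : (nq q ^ 2) ≠ 0)
  simp only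
  rw [he, smul_add, smul_add, smul_smul, smul_smul, smul_smul]
  congr 1
  · congr 1
    · congr 1; field_simp
    · congr 1; field_simp
  · congr 1; field_simp

/-- the determinant vanishes where `G = -z` -/
lemma lin_zero {r : ℝ} (hr : 0 < r) {a b : E3} (ha : ‖a‖ = 1) (hb : ‖b‖ = 1) (hab : ⟪a, b⟫_ℝ = 0)
    {φ : ℝ × ℝ → E3 × E3} {O : Set (ℝ × ℝ)} (hO : IsOpen O)
    (hφ : ContDiffOn ℝ 1 φ O) (hm : MapsTo φ O (TS r))
    (hK : ∀ w ∈ O, ∃ m : E3, ‖m‖ = 1 ∧ φ w = Kp r a b m) {ζ : Fin 3 → ℝ} (hζ : n2 ζ ≠ 0)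
    {w : ℝ × ℝ} (hw : w ∈ O) (hz : ∀ i, G r ζ (φ w) i = - zv a b ζ i) :
    lin (nvp r φ w) ζ = 0 := by
  obtain ⟨m, hm1, hmw⟩ := hK w hw
  obtain ⟨ζ', hζ'⟩ := zv_surj ha hb hab m
  have hmm : m 0 * m 0 + m 1 * m 1 + m 2 * m 2 = 1 := by
    rw [← inner3, real_inner_self_eq_norm_sq, hm1]; norm_num
  have hmne : ⟪m, m⟫_ℝ = 1 := by rw [real_inner_self_eq_norm_sq, hm1]; norm_num
  have hdφ : DifferentiableAt ℝ φ w := ((hφ _ hw).contDiffAt (hO.mem_nhds hw)).differentiableAt (by simp)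
  -- the derivative of the cross terms
  have key : ∀ (h : ℝ × ℝ) (i j : Fin 3), dG r ζ (φ w) (fderiv ℝ φ w h) i * m j =
      dG r ζ (φ w) (fderiv ℝ φ w h) j * m i := by
    intro h i j
    have hl : HasDerivAt (fun t : ℝ => w + t • h) h 0 := by
      simpa using ((hasDerivAt_id (0:ℝ)).smul_const h).const_add w
    have e0 : w + (0:ℝ) • h = w := by simp
    have hc : HasDerivAt (fun t : ℝ => φ (w + t • h)) (fderiv ℝ φ w h) 0 := by
      have hd' : HasFDerivAt φ (fderiv ℝ φ w) (w + (0:ℝ) • h) := by rw [e0]; exact hdφ.hasFDerivAt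
      exact hd'.comp_hasDerivAt (0:ℝ) hl
    have hGc : ∀ ξ : Fin 3 → ℝ, HasDerivAt (fun t : ℝ => G r ξ (φ (w + t • h)))
        (dG r ξ (φ w) (fderiv ℝ φ w h)) 0 := by
      intro ξ
      have h1 : HasFDerivAt (G r ξ) (fderiv ℝ (G r ξ) (φ w)) (φ (w + (0:ℝ) • h)) := by
        rw [e0]; exact ((cd_G r ξ).differentiable (by simp) _).hasFDerivAt
      have h2 := h1.comp_hasDerivAt (0:ℝ) hc
      rw [fderiv_G] at h2
      exact h2
    have hGi : ∀ (ξ : Fin 3 → ℝ) (i : Fin 3), HasDerivAt (fun t : ℝ => G r ξ (φ (w + t • h)) i +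
        zv a b ξ i) (dG r ξ (φ w) (fderiv ℝ φ w h) i) 0 := by
      intro ξ i
      exact ((hasDerivAt_pi.1 (hGc ξ)) i).add_const _
    have hprod := ((hGi ζ i).fun_mul (hGi ζ' j)).fun_sub ((hGi ζ j).fun_mul (hGi ζ' i))
    have hO' : ∀ᶠ t in 𝓝 (0:ℝ), w + t • h ∈ O := by
      have h3 : Tendsto (fun t : ℝ => w + t • h) (𝓝 0) (𝓝 w) := by
        have := hl.continuousAt.tendsto
        rwa [e0] at this
      exact h3.eventually (hO.mem_nhds hw)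
    have hzero : (fun t : ℝ => (G r ζ (φ (w + t • h)) i + zv a b ζ i) *
        (G r ζ' (φ (w + t • h)) j + zv a b ζ' j) - (G r ζ (φ (w + t • h)) j + zv a b ζ j) *
        (G r ζ' (φ (w + t • h)) i + zv a b ζ' i)) =ᶠ[𝓝 0] fun _ => (0:ℝ) := by
      filter_upwards [hO'] with t ht
      obtain ⟨m', hm', hmw'⟩ := hK _ ht
      rw [hmw', G_Kp hr.ne' a b m' hm', G_Kp hr.ne' a b m' hm', G_Kp hr.ne' a b m' hm',
        G_Kp hr.ne' a b m' hm']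
      ring
    have hun := (hprod.congr_of_eventuallyEq hzero.symm).unique (hasDerivAt_const (0:ℝ) (0:ℝ))
    rw [e0] at hun
    have g1 := hz i
    have g2 := hz j
    have g3 : G r ζ' (φ w) i + zv a b ζ' i = 2 * m i := by
      rw [hmw, G_Kp hr.ne' a b m hm1, hζ', hmne]; ring
    have g4 : G r ζ' (φ w) j + zv a b ζ' j = 2 * m j := by
      rw [hmw, G_Kp hr.ne' a b m hm1, hζ', hmne]; ring
    rw [g1, g2, g3, g4] at hun
    linarith
  have hdet := det_G hr (hm hw) (patch_tan hO hφ hm hw (1, 0)) (patch_tan hO hφ hm hw (0, 1)) ζ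
  set A := dG r ζ (φ w) (fderiv ℝ φ w (1, 0)) with hA
  set B := dG r ζ (φ w) (fderiv ℝ φ w (0, 1)) with hB
  have ka := key (1, 0)
  have kb := key (0, 1)
  rw [← hA] at ka
  rw [← hB] at kb
  have hAi : ∀ i, A i = (A 0 * m 0 + A 1 * m 1 + A 2 * m 2) * m i := by
    intro i
    linear_combination (-A i) * hmm + m 0 * ka i 0 + m 1 * ka i 1 + m 2 * ka i 2
  have hBi : ∀ i, B i = (B 0 * m 0 + B 1 * m 1 + B 2 * m 2) * m i := by
    intro i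
    linear_combination (-B i) * hmm + m 0 * kb i 0 + m 1 * kb i 1 + m 2 * kb i 2
  have hd0 : det3 (G r ζ (φ w)) A B = 0 := by
    obtain ⟨α, hα⟩ : ∃ α, ∀ i, A i = α * m i := ⟨_, hAi⟩
    obtain ⟨β, hβ⟩ : ∃ β, ∀ i, B i = β * m i := ⟨_, hBi⟩
    unfold det3
    rw [hα 0, hα 1, hα 2, hβ 0, hβ 1, hβ 2]
    ring
  rw [hd0] at hdet
  have : n2 ζ * lin (nvp r φ w) ζ = 0 := hdet.symm
  exact (mul_eq_zero.1 this).resolve_left hζ

end Pool.Agent.Helper28.Cr
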