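import Mathlib
import Pool.Agent.Helper28.CrUpper

open Set Filter Topology MeasureTheory
open scoped ContDiff InnerProductSpace ENNReal

namespace Pool.Agent.Helper28.Cr

def Bl (ζ : Fin 3 → ℝ) : Set ((ℝ × ℝ) × ℝ) := {y | y.1.1 ^ 2 + y.1.2 ^ 2 + y.2 ^ 2 < n2 ζ}

lemma G_inj {r : ℝ} (hr : 0 < r) {a b m m' : E3} (hm : ‖m‖ = 1) (hm' : ‖m'‖ = 1)
    {ζ : Fin 3 → ℝ} (h : G r ζ (Kp r a b m) = G r ζ (Kp r a b m'))
    (hne : ¬ ∀ i, G r ζ (Kp r a b m) i = - zv a b ζ i) : Kp r a b m = Kp r a b m' := by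
  have hz : ⟪m, zv a b ζ⟫_ℝ ≠ 0 := by
    intro h0
    apply hne
    intro i
    rw [G_Kp hr.ne' a b m hm, h0]; ring
  have h1 : ⟪m, zv a b ζ⟫_ℝ • m = ⟪m', zv a b ζ⟫_ℝ • m' := by
    ext i
    have := congrFun h i
    rw [G_Kp hr.ne' a b m hm, G_Kp hr.ne' a b m' hm'] at this
    simp only [PiLp.smul_apply, smul_eq_mul]
    linarith
  have h2 : m = (⟪m', zv a b ζ⟫_ℝ / ⟪m, zv a b ζ⟫_ℝ) • m' := by
    rw [div_eq_inv_mul, ← smul_smul, ← h1, smul_smul, inv_mul_cancel₀ hz, one_smul]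
  obtain ⟨c, hc⟩ : ∃ c : ℝ, m = c • m' := ⟨_, h2⟩
  have hc2 : c ^ 2 = 1 := by
    have h3 : ‖m‖ ^ 2 = c ^ 2 * ‖m'‖ ^ 2 := by
      rw [hc, norm_smul, mul_pow, Real.norm_eq_abs, sq_abs]
    rw [hm, hm'] at h3
    linarith
  rw [hc]
  unfold Kp
  rw [inner_smul_left, inner_smul_left, smul_smul, smul_smul]
  simp only [conj_trivial]
  have e1 : 2 * (c * ⟪m', a⟫_ℝ) * c = 2 * ⟪m', a⟫_ℝ := by
    calc 2 * (c * ⟪m', a⟫_ℝ) * c = c ^ 2 * (2 * ⟪m', a⟫_ℝ) := by ring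
      _ = _ := by rw [hc2, one_mul]
  have e2 : 2 * (c * ⟪m', b⟫_ℝ) * c = 2 * ⟪m', b⟫_ℝ := by
    calc 2 * (c * ⟪m', b⟫_ℝ) * c = c ^ 2 * (2 * ⟪m', b⟫_ℝ) := by ring
      _ = _ := by rw [hc2, one_mul]
  rw [e1, e2]

lemma Psi_eq {r : ℝ} (hr : 0 < r) {ζ : Fin 3 → ℝ} (hζ : n2 ζ ≠ 0) {p p' : E3 × E3}
    (hp : p ∈ TS r) (hp' : p' ∈ TS r) {s t : ℝ} (hs : 0 < s) (ht : 0 < t)
    (h : s • T3 (G r ζ p) = t • T3 (G r ζ p')) : s = t ∧ G r ζ p = G r ζ p' := by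
  have hk : ∀ k, s * G r ζ p k = t * G r ζ p' k := by
    intro k
    rw [T3_apply, T3_apply] at h
    have h1 := congrArg (fun u : (ℝ × ℝ) × ℝ => u.1.1) h
    have h2 := congrArg (fun u : (ℝ × ℝ) × ℝ => u.1.2) h
    have h3 := congrArg (fun u : (ℝ × ℝ) × ℝ => u.2) h
    simp only [Prod.smul_mk, smul_eq_mul] at h1 h2 h3
    fin_cases k
    · exact h1
    · exact h2
    · exact h3
  have h1 := n2_G hr hp ζ
  have h2 := n2_G hr hp' ζ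
  have h3 : s ^ 2 * n2 ζ = t ^ 2 * n2 ζ := by
    rw [← h1]
    nth_rewrite 2 [h1]
    rw [← h2]
    unfold n2
    linear_combination (s * G r ζ p 0 + t * G r ζ p' 0) * hk 0 +
      (s * G r ζ p 1 + t * G r ζ p' 1) * hk 1 + (s * G r ζ p 2 + t * G r ζ p' 2) * hk 2
  have h4 : s ^ 2 = t ^ 2 := mul_right_cancel₀ hζ h3
  have h5 : s = t := (sq_eq_sq₀ hs.le ht.le).1 h4
  refine ⟨h5, ?_⟩
  subst h5
  ext k
  exact mul_left_cancel₀ hs.ne' (hk k)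

theorem upper {r : ℝ} (hr : 0 < r) {a b : E3} (ha : ‖a‖ = 1) (hb : ‖b‖ = 1)
    (hab : ⟪a, b⟫_ℝ = 0) {S : Set (E3 × E3)}
    (hSK : ∀ p ∈ S, p ∈ TS r ∧ ∃ m : E3, ‖m‖ = 1 ∧ p = Kp r a b m)
    {n : ℕ} {φ : Fin n → ℝ × ℝ → E3 × E3} {B : Fin n → Set (ℝ × ℝ)}
    (hP : ∀ i, IsPatch S (φ i) (B i))
    (hdis : Pairwise (fun i j => Disjoint (φ i '' B i) (φ j '' B j)))
    {ζ : Fin 3 → ℝ} (hζ : n2 ζ ≠ 0) :
    ENNReal.ofReal (n2 ζ) * (∑ i, flux r (φ i) (B i) ζ) * K3 ≤ volume (Bl ζ) := by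
  choose hBm hinj O hO hBO hφ hmap using hP
  have hmT : ∀ i, MapsTo (φ i) (O i) (TS r) := fun i w hw => (hSK _ (hmap i hw)).1
  set z := zv a b ζ with hz
  -- good part
  set g : Fin n → ℝ × ℝ → (Fin 3 → ℝ) := fun i w => G r ζ (φ i w) with hg
  have hgc : ∀ i, ContinuousOn (g i) (O i) := fun i =>
    (cd_G r ζ).continuous.comp_continuousOn (f := φ i) (hφ i).continuousOn
  set c : Fin 3 → ℝ := fun k => - z k with hc
  set B' : Fin n → Set (ℝ × ℝ) := fun i => B i ∩ (O i ∩ g i ⁻¹' {c}ᶜ) with hB'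
  have hB'm : ∀ i, MeasurableSet (B' i) := fun i =>
    (hBm i).inter ((hgc i).isOpen_inter_preimage (hO i) isOpen_compl_singleton).measurableSet
  have hB'O : ∀ i, B' i ⊆ O i := fun i w hw => hBO i hw.1
  have hflux : ∀ i, flux r (φ i) (B i) ζ ≤ flux r (φ i) (B' i) ζ := by
    intro i
    unfold flux
    rw [← lintegral_inter_add_diff (fun w => ENNReal.ofReal |lin (nvp r (φ i) w) ζ|) (B i) (hB'm i)]
    have h1 : ∫⁻ w in B i \ B' i, ENNReal.ofReal |lin (nvp r (φ i) w) ζ| = 0 := by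
      rw [setLIntegral_congr_fun (g := fun _ => 0) ((hBm i).diff (hB'm i))]
      · simp
      · intro w hw
        have hwO : w ∈ O i := hBO i hw.1
        have hgw : g i w = c := by
          by_contra hne
          exact hw.2 ⟨hw.1, hwO, hne⟩
        have h0 := lin_zero hr ha hb hab (hO i) (hφ i) (hmT i)
          (fun w hw => (hSK _ (hmap i hw)).2) hζ hwO (fun k => congrFun hgw k)
        simp only
        rw [h0]; simp
    rw [h1, add_zero]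
    exact lintegral_mono' (Measure.restrict_mono inter_subset_right le_rfl) le_rfl
  have hinjP : ∀ i j, ∀ u ∈ B' i ×ˢ Ioo (0:ℝ) 1, ∀ v ∈ B' j ×ˢ Ioo (0:ℝ) 1,
      Psi r ζ (φ i) u = Psi r ζ (φ j) v → u.2 = v.2 ∧ φ i u.1 = φ j v.1 := by
    intro i j u hu v hv h
    have h1 := Psi_eq hr hζ (hmT i (hB'O i hu.1)) (hmT j (hB'O j hv.1)) hu.2.1 hv.2.1 h
    refine ⟨h1.1, ?_⟩
    obtain ⟨m, hm, hmu⟩ := (hSK _ (hmap i (hB'O i hu.1))).2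
    obtain ⟨m', hm', hmv⟩ := (hSK _ (hmap j (hB'O j hv.1))).2
    have h2 := h1.2
    rw [hmu, hmv] at h2
    rw [hmu, hmv]
    apply G_inj hr hm hm' h2
    rw [← hmu]
    intro hall
    exact hu.1.2.2 (funext hall)
  have himg : ∀ i, ENNReal.ofReal (n2 ζ) * flux r (φ i) (B' i) ζ * K3 =
      volume (Psi r ζ (φ i) '' (B' i ×ˢ Ioo (0:ℝ) 1)) := by
    intro i
    rw [← cone_int (hO i) (hφ i) (hB'm i) (hB'O i) ζ]
    have h1 := lintegral_abs_det_fderiv_eq_addHaar_image (volume : Measure ((ℝ × ℝ) × ℝ))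
      (s := B' i ×ˢ Ioo (0:ℝ) 1) (f := Psi r ζ (φ i)) (f' := fun u => fderiv ℝ (Psi r ζ (φ i)) u)
      ((hB'm i).prod measurableSet_Ioo)
      (fun u hu => (Psi_deriv hr (hO i) (hφ i) (hmT i) ζ (hB'O i hu.1)).1.hasFDerivAt.hasFDerivWithinAt)
      (by
        intro u hu v hv h
        obtain ⟨e1, e2⟩ := hinjP i i u hu v hv h
        exact Prod.ext (hinj i hu.1.1 hv.1.1 e2) e1)
    rw [← h1]
    apply setLIntegral_congr_fun ((hB'm i).prod measurableSet_Ioo)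
    intro u hu
    simp only
    rw [(Psi_deriv hr (hO i) (hφ i) (hmT i) ζ (hB'O i hu.1)).2]
  have himgm : ∀ i, MeasurableSet (Psi r ζ (φ i) '' (B' i ×ˢ Ioo (0:ℝ) 1)) := by
    intro i
    apply measurable_image_of_fderivWithin ((hB'm i).prod measurableSet_Ioo)
      (f' := fun u => fderiv ℝ (Psi r ζ (φ i)) u)
      (fun u hu => (Psi_deriv hr (hO i) (hφ i) (hmT i) ζ (hB'O i hu.1)).1.hasFDerivAt.hasFDerivWithinAt)
    intro u hu v hv h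
    obtain ⟨e1, e2⟩ := hinjP i i u hu v hv h
    exact Prod.ext (hinj i hu.1.1 hv.1.1 e2) e1
  have hdisP : Pairwise (Function.onFun Disjoint
      (fun i => Psi r ζ (φ i) '' (B' i ×ˢ Ioo (0:ℝ) 1))) := by
    intro i j hij
    rw [Function.onFun, Set.disjoint_left]
    rintro y ⟨u, hu, hy⟩ ⟨v, hv, hy'⟩
    obtain ⟨-, e2⟩ := hinjP i j u hu v hv (hy.trans hy'.symm)
    exact Set.disjoint_left.1 (hdis hij) ⟨u.1, hu.1.1, rfl⟩ ⟨v.1, hv.1.1, e2.symm⟩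
  have hsub : (⋃ i, Psi r ζ (φ i) '' (B' i ×ˢ Ioo (0:ℝ) 1)) ⊆ Bl ζ := by
    intro y hy
    obtain ⟨i, u, hu, rfl⟩ := mem_iUnion.1 hy
    have h1 := n2_G hr (hmT i (hB'O i hu.1)) ζ
    have hu2 := hu.2
    show (u.2 * G r ζ (φ i u.1) 0) ^ 2 + (u.2 * G r ζ (φ i u.1) 1) ^ 2 +
      (u.2 * G r ζ (φ i u.1) 2) ^ 2 < n2 ζ
    have h2 : (u.2 * G r ζ (φ i u.1) 0) ^ 2 + (u.2 * G r ζ (φ i u.1) 1) ^ 2 +
      (u.2 * G r ζ (φ i u.1) 2) ^ 2 = u.2 ^ 2 * n2 (G r ζ (φ i u.1)) := by unfold n2; ring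
    rw [h2, h1]
    have h3 : 0 < n2 ζ := lt_of_le_of_ne (n2_nonneg ζ) (Ne.symm hζ)
    have h4 : u.2 ^ 2 < 1 := by nlinarith [hu2.1, hu2.2]
    nlinarith
  calc ENNReal.ofReal (n2 ζ) * (∑ i, flux r (φ i) (B i) ζ) * K3
      ≤ ENNReal.ofReal (n2 ζ) * (∑ i, flux r (φ i) (B' i) ζ) * K3 := by
        gcongr with i _
        exact hflux i
    _ = ∑ i, ENNReal.ofReal (n2 ζ) * flux r (φ i) (B' i) ζ * K3 := by
        rw [Finset.mul_sum, Finset.sum_mul]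
    _ = ∑ i, volume (Psi r ζ (φ i) '' (B' i ×ˢ Ioo (0:ℝ) 1)) := by
        exact Finset.sum_congr rfl (fun i _ => himg i)
    _ = volume (⋃ i, Psi r ζ (φ i) '' (B' i ×ˢ Ioo (0:ℝ) 1)) := by
        rw [measure_iUnion hdisP himgm, tsum_fintype]
    _ ≤ volume (Bl ζ) := measure_mono hsub

end Pool.Agent.Helper28.Cr
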