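import Mathlib
import Pool.Agent.Helper28.CrUpper2

open Set Filter Topology MeasureTheory
open scoped ContDiff InnerProductSpace ENNReal

namespace Pool.Agent.Helper28.Cr

/-- `Σ_{rP}` in explicit form -/
lemma Kp_mem {r : ℝ} (hr : 0 < r) {a b m : E3} (ha : ‖a‖ = 1) (hb : ‖b‖ = 1)
    (hab : ⟪a, b⟫_ℝ = 0) (hm : ‖m‖ = 1) : Kp r a b m ∈ TS r := by
  have haa : ⟪a, a⟫_ℝ = 1 := by rw [real_inner_self_eq_norm_sq, ha]; norm_num
  have hbb : ⟪b, b⟫_ℝ = 1 := by rw [real_inner_self_eq_norm_sq, hb]; norm_num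
  have hmm : ⟪m, m⟫_ℝ = 1 := by rw [real_inner_self_eq_norm_sq, hm]; norm_num
  have ham : ⟪a, m⟫_ℝ = ⟪m, a⟫_ℝ := real_inner_comm _ _
  have hbm : ⟪b, m⟫_ℝ = ⟪m, b⟫_ℝ := real_inner_comm _ _
  refine ⟨?_, ?_, ?_⟩
  · have h1 : ‖(Kp r a b m).1‖ ^ 2 = 1 := by
      rw [← real_inner_self_eq_norm_sq]
      simp only [Kp, inner_sub_left, inner_sub_right, inner_smul_left, inner_smul_right, conj_trivial,
        haa, hmm, ham]
      ring
    nlinarith [norm_nonneg (Kp r a b m).1]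
  · simp only [Kp, inner_sub_left, inner_sub_right, inner_smul_left, inner_smul_right, conj_trivial,
      hmm, ham, hab]
    ring
  · have h1 : ‖(Kp r a b m).2‖ ^ 2 = r ^ 2 := by
      rw [← real_inner_self_eq_norm_sq]
      simp only [Kp, inner_sub_left, inner_sub_right, inner_smul_left, inner_smul_right, conj_trivial,
        hbb, hmm, hbm]
      ring
    exact (sq_eq_sq₀ (norm_nonneg _) hr.le).1 h1

lemma Pf_eq {a b x : E3} (ha : ‖a‖ = 1) (hab : ⟪a, b⟫_ℝ = 0) (hx : ‖x‖ = 1) (hne : x ≠ -a) :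
    ∃ m : E3, ‖m‖ = 1 ∧ x = (2 * ⟪m, a⟫_ℝ) • m - a ∧ Pf a b x = b - (2 * ⟪m, b⟫_ℝ) • m := by
  have hne' : a + x ≠ 0 := fun h => hne (eq_neg_of_add_eq_zero_right h)
  set s := ‖a + x‖ with hs
  have hs0 : 0 < s := norm_pos_iff.2 hne'
  have hs2 : s ^ 2 = 2 * (1 + ⟪x, a⟫_ℝ) := by
    rw [hs, norm_add_sq_real, ha, hx, real_inner_comm]; ring
  have haa : ⟪a, a⟫_ℝ = 1 := by rw [real_inner_self_eq_norm_sq, ha]; norm_num
  have h1 : 2 * ⟪s⁻¹ • (a + x), a⟫_ℝ = s := by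
    rw [inner_smul_left, inner_add_left, haa]
    simp only [conj_trivial]
    have : 1 + ⟪x, a⟫_ℝ = s ^ 2 / 2 := by linarith
    rw [this]; field_simp
  refine ⟨s⁻¹ • (a + x), ?_, ?_, ?_⟩
  · rw [norm_smul, norm_inv, Real.norm_eq_abs, abs_of_pos hs0, ← hs, inv_mul_cancel₀ hs0.ne']
  · rw [h1, smul_smul, mul_inv_cancel₀ hs0.ne', one_smul]; abel
  · unfold Pf
    rw [inner_smul_left, inner_add_left, hab, zero_add, smul_smul]
    simp only [conj_trivial]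
    congr 2
    have : 1 + ⟪x, a⟫_ℝ = s ^ 2 / 2 := by linarith
    rw [this]; field_simp

lemma sigP_sub {r : ℝ} (hr : 0 < r) {a b : E3} (ha : ‖a‖ = 1) (hb : ‖b‖ = 1)
    (hab : ⟪a, b⟫_ℝ = 0) : ∀ p ∈ Sig {x | x ≠ -a} (fun x => r • Pf a b x),
      p ∈ TS r ∧ ∃ m : E3, ‖m‖ = 1 ∧ p = Kp r a b m := by
  have hcont : Continuous (fun m : E3 => Kp r a b m) := by unfold Kp; fun_prop
  have hcomp : IsCompact ((fun m : E3 => Kp r a b m) '' Metric.sphere (0:E3) 1) :=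
    (isCompact_sphere _ _).image hcont
  have hsub : Sig {x | x ≠ -a} (fun x => r • Pf a b x) ⊆
      (fun m : E3 => Kp r a b m) '' Metric.sphere (0:E3) 1 := by
    apply closure_minimal _ hcomp.isClosed
    rintro p ⟨h1, h2, h3⟩
    obtain ⟨m, hm, hx, hP⟩ := Pf_eq (b := b) ha hab h2 h1
    refine ⟨m, mem_sphere_zero_iff_norm.2 hm, ?_⟩
    apply Prod.ext
    · exact hx.symm
    · rw [h3]
      show r • (b - (2 * ⟪m, b⟫_ℝ) • m) = r • Pf a b p.1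
      rw [hP]
  intro p hp
  obtain ⟨m, hm, rfl⟩ := hsub hp
  rw [mem_sphere_zero_iff_norm] at hm
  exact ⟨Kp_mem hr ha hb hab hm, m, hm, rfl⟩

lemma ray_null (ζ : Fin 3 → ℝ) :
    volume ((Submodule.span ℝ ({T3 ζ} : Set ((ℝ × ℝ) × ℝ))) : Set ((ℝ × ℝ) × ℝ)) = 0 := by
  apply Measure.addHaar_submodule
  intro h
  have h1 : Module.finrank ℝ (Submodule.span ℝ ({T3 ζ} : Set ((ℝ × ℝ) × ℝ))) ≤ 1 := by
    have h2 := finrank_span_finset_le_card (R := ℝ) ({T3 ζ} : Finset ((ℝ × ℝ) × ℝ))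
    rw [Set.finrank, Finset.coe_singleton, Finset.card_singleton] at h2
    exact h2
  rw [h, finrank_top] at h1
  simp at h1

theorem lower {r : ℝ} (hr : 0 < r) {n : ℕ} {φ : Fin n → ℝ × ℝ → E3 × E3}
    {B O : Fin n → Set (ℝ × ℝ)} (hB : ∀ i, MeasurableSet (B i)) (hO : ∀ i, IsOpen (O i))
    (hBO : ∀ i, B i ⊆ O i) (hφ : ∀ i, ContDiffOn ℝ 1 (φ i) (O i))
    (hm : ∀ i, MapsTo (φ i) (O i) (TS r)) {ζ : Fin 3 → ℝ} (hζ : n2 ζ ≠ 0)
    (hcov : ∀ y : Fin 3 → ℝ, n2 y = n2 ζ → y + ζ ≠ 0 → ∃ i, ∃ w ∈ B i, G r ζ (φ i w) = y) :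
    volume (Bl ζ) ≤ ENNReal.ofReal (n2 ζ) * (∑ i, flux r (φ i) (B i) ζ) * K3 := by
  have hpos : 0 < n2 ζ := lt_of_le_of_ne (n2_nonneg ζ) (Ne.symm hζ)
  have hsub : Bl ζ ⊆ ((Submodule.span ℝ ({T3 ζ} : Set ((ℝ × ℝ) × ℝ))) : Set ((ℝ × ℝ) × ℝ)) ∪
      ⋃ i, Psi r ζ (φ i) '' (B i ×ˢ Ioo (0:ℝ) 1) := by
    intro y hy
    set v : Fin 3 → ℝ := ![y.1.1, y.1.2, y.2] with hv
    have hyv : y = T3 v := by rw [T3_apply]; simp [hv]
    have hnv : n2 v < n2 ζ := by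
      have : n2 v = y.1.1 ^ 2 + y.1.2 ^ 2 + y.2 ^ 2 := by simp [n2, hv]
      rw [this]; exact hy
    by_cases hv0 : v = 0
    · left
      rw [hyv, hv0, map_zero]
      exact Submodule.zero_mem _
    have hvpos : 0 < n2 v := by
      rcases (n2_nonneg v).lt_or_eq with h | h
      · exact h
      · exfalso; apply hv0
        unfold n2 at h
        have a0 := sq_nonneg (v 0)
        have a1 := sq_nonneg (v 1)
        have a2 := sq_nonneg (v 2)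
        ext k
        simp only [Pi.zero_apply]
        apply pow_eq_zero_iff (n := 2) (by norm_num) |>.1
        fin_cases k
        · simp only [Fin.zero_eta]; linarith
        · simp only [Fin.mk_one]; linarith
        · simp only [Fin.reduceFinMk]; linarith
    set ρ := √(n2 v / n2 ζ) with hρ
    have hρ0 : 0 < ρ := Real.sqrt_pos.2 (by positivity)
    have hρ2 : ρ ^ 2 = n2 v / n2 ζ := Real.sq_sqrt (by positivity)
    have hρ1 : ρ < 1 := by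
      have : ρ ^ 2 < 1 := by rw [hρ2, div_lt_one hpos]; exact hnv
      nlinarith
    have hn2 : n2 (ρ⁻¹ • v) = n2 ζ := by
      have : n2 (ρ⁻¹ • v) = (ρ ^ 2)⁻¹ * n2 v := by
        simp only [n2, Pi.smul_apply, smul_eq_mul]
        field_simp
      rw [this, hρ2]; field_simp
    by_cases hne : ρ⁻¹ • v + ζ = 0
    · left
      have h1 : v = (-ρ) • ζ := by
        have h2 : ρ⁻¹ • v = -ζ := eq_neg_of_add_eq_zero_left hne
        have h3 : v = ρ • (ρ⁻¹ • v) := by rw [smul_smul, mul_inv_cancel₀ hρ0.ne', one_smul]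
        rw [h3, h2, smul_neg, neg_smul]
      rw [hyv, h1, map_smul]
      exact Submodule.smul_mem _ _ (Submodule.mem_span_singleton_self _)
    · right
      obtain ⟨i, w, hw, hGw⟩ := hcov _ hn2 hne
      refine mem_iUnion.2 ⟨i, (w, ρ), ⟨hw, hρ0, hρ1⟩, ?_⟩
      show ρ • T3 (G r ζ (φ i w)) = y
      rw [hGw, hyv, map_smul, smul_smul, mul_inv_cancel₀ hρ0.ne', one_smul]
  calc volume (Bl ζ) ≤ volume (((Submodule.span ℝ ({T3 ζ} : Set ((ℝ × ℝ) × ℝ))) : Set ((ℝ × ℝ) × ℝ)) ∪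
      ⋃ i, Psi r ζ (φ i) '' (B i ×ˢ Ioo (0:ℝ) 1)) := measure_mono hsub
    _ ≤ volume ((Submodule.span ℝ ({T3 ζ} : Set ((ℝ × ℝ) × ℝ))) : Set ((ℝ × ℝ) × ℝ)) +
        volume (⋃ i, Psi r ζ (φ i) '' (B i ×ˢ Ioo (0:ℝ) 1)) := measure_union_le _ _
    _ = volume (⋃ i, Psi r ζ (φ i) '' (B i ×ˢ Ioo (0:ℝ) 1)) := by rw [ray_null, zero_add]
    _ ≤ ∑ i, volume (Psi r ζ (φ i) '' (B i ×ˢ Ioo (0:ℝ) 1)) := by
        have := measure_iUnion_le (μ := volume) (fun i => Psi r ζ (φ i) '' (B i ×ˢ Ioo (0:ℝ) 1))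
        rwa [tsum_fintype] at this
    _ ≤ ∑ i, ENNReal.ofReal (n2 ζ) * flux r (φ i) (B i) ζ * K3 :=
        Finset.sum_le_sum (fun i _ => image_le hr (hO i) (hφ i) (hm i) (hB i) (hBO i) ζ)
    _ = ENNReal.ofReal (n2 ζ) * (∑ i, flux r (φ i) (B i) ζ) * K3 := by
        rw [Finset.mul_sum, Finset.sum_mul]

end Pool.Agent.Helper28.Cr
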