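import Mathlib
import Pool.Agent.Helper28.CrLower

open Set Filter Topology MeasureTheory
open scoped ContDiff InnerProductSpace ENNReal

namespace Pool.Agent.Helper28.Cr

lemma adapted (f : Q4 →ₗ[ℝ] ℝ × ℝ) (hf : Function.Surjective f) :
    ∃ E : Q4 ≃L[ℝ] ((ℝ × ℝ) × (ℝ × ℝ)), ∀ q, (E q).2 = f q := by
  obtain ⟨s, hs⟩ := f.exists_rightInverse_of_surjective (LinearMap.range_eq_top.2 hf)
  have hs' : ∀ y, f (s y) = y := fun y => by
    have := congrArg (fun g => g y) hs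
    simpa using this
  have hfr : Module.finrank ℝ (LinearMap.ker f) = 2 := by
    have h1 := LinearMap.finrank_range_add_finrank_ker f
    rw [LinearMap.range_eq_top.2 hf, finrank_top] at h1
    simp at h1
    omega
  have e : (ℝ × ℝ) ≃ₗ[ℝ] LinearMap.ker f := LinearEquiv.ofFinrankEq _ _ (by rw [hfr]; simp)
  set Ei : (ℝ × ℝ) × (ℝ × ℝ) →ₗ[ℝ] Q4 :=
    ((LinearMap.ker f).subtype ∘ₗ (e : (ℝ × ℝ) →ₗ[ℝ] LinearMap.ker f)).coprod s with hEi
  have hfE : ∀ u, f (Ei u) = u.2 := by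
    intro u
    have : Ei u = (e u.1 : Q4) + s u.2 := by simp [hEi, LinearMap.coprod_apply]
    rw [this, map_add, hs', LinearMap.mem_ker.1 (e u.1).2, zero_add]
  have hinj : Function.Injective Ei := by
    rw [← LinearMap.ker_eq_bot, LinearMap.ker_eq_bot']
    intro u hu
    have h1 := hfE u
    rw [hu, map_zero] at h1
    have h2 : Ei u = (e u.1 : Q4) + s u.2 := by simp [hEi, LinearMap.coprod_apply]
    rw [hu, ← h1, map_zero, add_zero] at h2
    have h3 : e u.1 = 0 := Subtype.ext h2.symm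
    have h4 : u.1 = 0 := by simpa using h3
    exact Prod.ext h4 h1.symm
  have hsurj : Function.Surjective Ei := by
    have hdim : Module.finrank ℝ ((ℝ × ℝ) × (ℝ × ℝ)) = Module.finrank ℝ Q4 := by simp
    exact (LinearMap.injective_iff_surjective_of_finrank_eq_finrank hdim).1 hinj
  set EE := (LinearEquiv.ofBijective Ei ⟨hinj, hsurj⟩).symm.toContinuousLinearEquiv with hEE
  refine ⟨EE, fun q => ?_⟩
  have h1 : Ei (EE q) = q := by
    have := (LinearEquiv.ofBijective Ei ⟨hinj, hsurj⟩).apply_symm_apply q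
    exact this
  rw [← hfE (EE q), h1]

lemma nbhd_lift {r : ℝ} (hr : 0 < r) {q₀ : Q4} (hq₀ : q₀ ≠ 0) {A : Set Q4} (hA : A ∈ 𝓝 q₀) :
    ∃ W, IsOpen W ∧ pr r q₀ ∈ W ∧ ∀ p ∈ W, p ∈ TS r → ∃ q ∈ A, pr r q = p := by
  have hn := nq_pos hq₀
  have hnqc : Continuous nq := cd_nq.continuous
  set C : Set Q4 := {q | nq q = nq q₀} ∩ ((interior A)ᶜ ∩ (fun q => -q) ⁻¹' (interior A)ᶜ) with hC
  have hCc : IsCompact C := by
    have h1 : IsCompact {q : Q4 | nq q = nq q₀} := by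
      apply Metric.isCompact_of_isClosed_isBounded
      · exact isClosed_eq hnqc continuous_const
      · rw [isBounded_iff_forall_norm_le]
        refine ⟨√(nq q₀), fun q hq => ?_⟩
        rw [pi_norm_le_iff_of_nonneg (Real.sqrt_nonneg _)]
        intro i
        rw [Real.norm_eq_abs]
        apply Real.abs_le_sqrt
        rw [← show nq q = nq q₀ from hq]
        unfold nq
        fin_cases i
        · simp only [Fin.zero_eta]; nlinarith [sq_nonneg (q 1), sq_nonneg (q 2), sq_nonneg (q 3)]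
        · simp only [Fin.mk_one]; nlinarith [sq_nonneg (q 0), sq_nonneg (q 2), sq_nonneg (q 3)]
        · simp only [Fin.reduceFinMk]; nlinarith [sq_nonneg (q 1), sq_nonneg (q 0), sq_nonneg (q 3)]
        · simp only [Fin.reduceFinMk]; nlinarith [sq_nonneg (q 1), sq_nonneg (q 2), sq_nonneg (q 0)]
    apply h1.inter_right
    exact (isOpen_interior.isClosed_compl).inter
      ((isOpen_interior.isClosed_compl).preimage continuous_neg)
  have hCne : ∀ q ∈ C, q ≠ 0 := fun q hq => ne_of_nq (by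
    rw [show nq q = nq q₀ from hq.1]; exact hn.ne')
  have himg : IsCompact (pr r '' C) := hCc.image_of_continuousOn
    ((cont_pr r).mono (fun q hq => hCne q hq))
  refine ⟨(pr r '' C)ᶜ, himg.isClosed.isOpen_compl, ?_, ?_⟩
  · rintro ⟨q, hq, hqp⟩
    obtain ⟨c, -, hc⟩ := pr_inj hr.ne' hq₀ (hCne q hq) hqp.symm
    have h1 : nq q = c ^ 2 * nq q₀ := by
      rw [hc]; simp only [nq, Pi.smul_apply, smul_eq_mul]; ring
    have h2 : nq q = nq q₀ := hq.1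
    have h3 : c ^ 2 = 1 := by
      have : c ^ 2 * nq q₀ = 1 * nq q₀ := by rw [← h1, h2, one_mul]
      exact mul_right_cancel₀ hn.ne' this
    have hq₀A : q₀ ∈ interior A := mem_interior_iff_mem_nhds.2 hA
    have h4 : c * c = 1 := by rw [← sq]; exact h3
    rcases mul_self_eq_one_iff.1 h4 with h | h
    · rw [h, one_smul] at hc
      exact hq.2.1 (by rw [hc]; exact hq₀A)
    · rw [h, neg_one_smul] at hc
      apply hq.2.2
      show -q ∈ interior A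
      rw [hc, neg_neg]; exact hq₀A
  · intro p hp hpT
    obtain ⟨q₁, hq₁, hqp⟩ := pr_surj hr hpT
    have hn1 := nq_pos hq₁
    set c := √(nq q₀ / nq q₁) with hc
    have hc0 : 0 < c := Real.sqrt_pos.2 (by positivity)
    have hc2 : c ^ 2 = nq q₀ / nq q₁ := Real.sq_sqrt (by positivity)
    have h1 : nq (c • q₁) = nq q₀ := by
      have : nq (c • q₁) = c ^ 2 * nq q₁ := by simp only [nq, Pi.smul_apply, smul_eq_mul]; ring
      rw [this, hc2]; field_simp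
    have h2 : pr r (c • q₁) = p := by rw [pr_smul r hc0.ne', hqp]
    by_cases hA1 : c • q₁ ∈ interior A
    · exact ⟨_, interior_subset hA1, h2⟩
    · by_cases hA2 : -(c • q₁) ∈ interior A
      · exact ⟨_, interior_subset hA2, by rw [pr_neg, h2]⟩
      · exact absurd ⟨c • q₁, ⟨h1, hA1, hA2⟩, h2⟩ hp

lemma cone_deriv {S : Set Q4} (hcone : ∀ q ∈ S, ∀ c : ℝ, c ≠ 0 → c • q ∈ S) (D : LD S) {q : Q4}
    (hq : q ∈ S) (hD : q ∈ D.W) : fderiv ℝ D.f q q = 0 := by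
  have hd : DifferentiableAt ℝ D.f q := (D.cda1 hD).differentiableAt (by norm_num)
  have hl : HasDerivAt (fun t : ℝ => q + t • q) q 0 := by
    simpa using ((hasDerivAt_id (0:ℝ)).smul_const q).const_add q
  have e0 : q + (0:ℝ) • q = q := by simp
  have h1 : HasDerivAt (fun t : ℝ => D.f (q + t • q)) (fderiv ℝ D.f q q) 0 := by
    have hd' : HasFDerivAt D.f (fderiv ℝ D.f q) (q + (0:ℝ) • q) := by rw [e0]; exact hd.hasFDerivAt
    exact hd'.comp_hasDerivAt (0:ℝ) hl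
  have h2 : Tendsto (fun t : ℝ => q + t • q) (𝓝 0) (𝓝 q) := by
    have := hl.continuousAt.tendsto
    rwa [e0] at this
  have h3 : (fun t : ℝ => D.f (q + t • q)) =ᶠ[𝓝 0] fun _ => (0:ℝ) := by
    have h4 : ∀ᶠ t in 𝓝 (0:ℝ), -1 < t := lt_mem_nhds (by norm_num)
    filter_upwards [h2.eventually (D.op.mem_nhds hD), h4] with t ht ht1
    have h5 : q + t • q = (1 + t) • q := by rw [add_smul, one_smul]
    have h6 : q + t • q ∈ S := by rw [h5]; exact hcone q hq _ (by linarith)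
    exact (D.ze _ ht).1 h6
  exact (h1.congr_of_eventuallyEq h3.symm).unique (hasDerivAt_const (0:ℝ) (0:ℝ))

lemma local_patch {r : ℝ} (hr : 0 < r) {S : Set (E3 × E3)} (hS : IsSurf r S) {p : E3 × E3}
    (hp : p ∈ S) : ∃ (φ : ℝ × ℝ → E3 × E3) (O : Set (ℝ × ℝ)) (W : Set (E3 × E3)), IsOpen O ∧
      ContDiffOn ℝ 1 φ O ∧ MapsTo φ O S ∧ InjOn φ O ∧ IsOpen W ∧ p ∈ W ∧ S ∩ W ⊆ φ '' O := by
  obtain ⟨q₀, hq₀, rfl⟩ := pr_surj hr (hS.1 hp)
  have hmem : q₀ ∈ hat r S := ⟨hq₀, hp⟩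
  obtain ⟨D, hD, -⟩ := hat_LD hr hS hmem
  have hn := nq_pos hq₀
  set L := fderiv ℝ D.f q₀ with hL
  have hLq : L q₀ = 0 := cone_deriv (fun q hq c hc => hat_smul hq hc) D hmem hD
  obtain ⟨u₀, hu₀⟩ : ∃ u, L u ≠ 0 := by
    by_contra hn
    push Not at hn
    exact D.re q₀ hD hmem (by ext a; simpa using hn a)
  -- the functional ℓ
  set ℓ : Q4 →ₗ[ℝ] ℝ := q₀ 0 • LinearMap.proj 0 + q₀ 1 • LinearMap.proj 1 +
    q₀ 2 • LinearMap.proj 2 + q₀ 3 • LinearMap.proj 3 with hℓ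
  have hℓa : ∀ q, ℓ q = q₀ 0 * q 0 + q₀ 1 * q 1 + q₀ 2 * q 2 + q₀ 3 * q 3 := fun q => by simp [hℓ]
  have hℓq : ℓ q₀ = nq q₀ := by rw [hℓa]; unfold nq; ring
  set f : Q4 →ₗ[ℝ] ℝ × ℝ := (L : Q4 →ₗ[ℝ] ℝ).prod ℓ with hf
  have hfs : Function.Surjective f := by
    rintro ⟨x, y⟩
    refine ⟨(x / L u₀) • u₀ + ((y - (x / L u₀) * ℓ u₀) / nq q₀) • q₀, ?_⟩
    apply Prod.ext
    · show L _ = x
      rw [map_add, map_smul, map_smul, hLq, smul_zero, add_zero, smul_eq_mul, div_mul_cancel₀ _ hu₀]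
    · show ℓ _ = y
      rw [map_add, map_smul, map_smul, hℓq, smul_eq_mul, smul_eq_mul, div_mul_cancel₀ _ hn.ne']
      ring
  obtain ⟨E, hE⟩ := adapted f hfs
  have hE1 : ∀ q, (E q).2.1 = L q := fun q => by rw [hE]; rfl
  have hE2 : ∀ q, (E q).2.2 = ℓ q := fun q => by rw [hE]; rfl
  set N₀ := nq q₀ with hN₀
  -- the slice
  set qq : (ℝ × ℝ) × ℝ → Q4 := fun u => E.symm (u.1, (u.2, N₀)) with hqq
  have hqqc : Continuous qq := by
    simp only [hqq]; fun_prop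
  set u₁ : (ℝ × ℝ) × ℝ := ((E q₀).1, 0) with hu₁
  have hqq1 : qq u₁ = q₀ := by
    simp only [hqq, hu₁]
    rw [ContinuousLinearEquiv.symm_apply_eq]
    apply Prod.ext
    · rfl
    · apply Prod.ext
      · show (0:ℝ) = (E q₀).2.1
        rw [hE1, hLq]
      · show N₀ = (E q₀).2.2
        rw [hE2, hℓq]
  have hℓqq : ∀ u, ℓ (qq u) = N₀ := by
    intro u
    rw [← hE2]; simp [hqq]
  set Φ : (ℝ × ℝ) × ℝ → (ℝ × ℝ) × ℝ := fun u => (u.1, D.f (qq u)) with hΦ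
  have hqqcd : ContDiff ℝ 1 qq := by
    simp only [hqq]
    exact E.symm.contDiff.comp (by fun_prop)
  have hΦcd : ∀ u, qq u ∈ D.W → ContDiffAt ℝ 1 Φ u := by
    intro u hu
    exact contDiffAt_fst.prodMk ((D.cda1 hu).comp u hqqcd.contDiffAt)
  have hqd : HasFDerivAt qq ((E.symm : ((ℝ × ℝ) × (ℝ × ℝ)) →L[ℝ] Q4).comp
      ((ContinuousLinearMap.fst ℝ (ℝ × ℝ) ℝ).prod
        ((ContinuousLinearMap.snd ℝ (ℝ × ℝ) ℝ).prod 0))) u₁ := by
    have h1 : HasFDerivAt (fun u : (ℝ × ℝ) × ℝ => (u.1, (u.2, N₀)))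
        ((ContinuousLinearMap.fst ℝ (ℝ × ℝ) ℝ).prod
        ((ContinuousLinearMap.snd ℝ (ℝ × ℝ) ℝ).prod 0)) u₁ :=
      hasFDerivAt_fst.prodMk (hasFDerivAt_snd.prodMk (hasFDerivAt_const _ _))
    exact (E.symm : ((ℝ × ℝ) × (ℝ × ℝ)) →L[ℝ] Q4).hasFDerivAt.comp u₁ h1
  have hFd : HasFDerivAt D.f L (qq u₁) := by
    rw [hqq1]; exact ((D.cda1 hD).differentiableAt (by norm_num)).hasFDerivAt
  have hΦd : HasFDerivAt Φ ((ContinuousLinearEquiv.refl ℝ ((ℝ × ℝ) × ℝ) :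
      ((ℝ × ℝ) × ℝ) ≃L[ℝ] ((ℝ × ℝ) × ℝ)) : ((ℝ × ℝ) × ℝ) →L[ℝ] ((ℝ × ℝ) × ℝ)) u₁ := by
    have h1 := (hasFDerivAt_fst (𝕜 := ℝ) (p := u₁)).prodMk (hFd.comp u₁ hqd)
    refine h1.congr_fderiv ?_
    apply ContinuousLinearMap.ext
    intro v
    apply Prod.ext
    · simp
    · show L (E.symm (v.1, (v.2, 0))) = v.2
      rw [← hE1]; simp
  have hDq : qq u₁ ∈ D.W := by rw [hqq1]; exact hD
  set Θ := (hΦcd u₁ hDq).toOpenPartialHomeomorph Φ hΦd one_ne_zero with hΘ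
  have hΘc : ∀ u, Θ u = Φ u := fun u => rfl
  have hsrc : u₁ ∈ Θ.source := (hΦcd u₁ hDq).mem_toOpenPartialHomeomorph_source hΦd one_ne_zero
  have hF0 : D.f q₀ = 0 := (D.ze _ hD).1 hmem
  have hΦ1 : Φ u₁ = u₁ := by
    simp only [hΦ]
    rw [hqq1, hF0]
  have htgt : u₁ ∈ Θ.target := by
    have := Θ.map_source hsrc
    rw [hΘc, hΦ1] at this
    exact this
  have hsym1 : Θ.symm u₁ = u₁ := by
    have := Θ.left_inv hsrc
    rw [hΘc, hΦ1] at this
    exact this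
  have hscd : ContDiffAt ℝ 1 Θ.symm u₁ := by
    apply Θ.contDiffAt_symm htgt
    · rw [hsym1]; exact hΦd
    · rw [hsym1]; exact hΦcd u₁ hDq
  obtain ⟨N₁, hN₁, hN₁o, hN₁m⟩ := eventually_nhds_iff.1 (hscd.eventually (by simp))
  -- the good region
  set Vv : Set ((ℝ × ℝ) × ℝ) := {u | qq u ∈ D.W} with hVv
  have hVo : IsOpen Vv := D.op.preimage hqqc
  set T' : Set ((ℝ × ℝ) × ℝ) := (Θ.target ∩ Θ.symm ⁻¹' Vv) ∩ N₁ with hT'
  have hT'o : IsOpen T' := (Θ.isOpen_inter_preimage_symm hVo).inter hN₁o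
  have hT'1 : u₁ ∈ T' := ⟨⟨htgt, by show qq (Θ.symm u₁) ∈ D.W; rw [hsym1]; exact hDq⟩, hN₁m⟩
  set O : Set (ℝ × ℝ) := {w | ((w, 0) : (ℝ × ℝ) × ℝ) ∈ T'} with hO
  have hOo : IsOpen O := hT'o.preimage (by fun_prop)
  set φ : ℝ × ℝ → E3 × E3 := fun w => pr r (qq (Θ.symm (w, 0))) with hφ
  have hqne : ∀ u, qq u ≠ 0 := by
    intro u h0
    have := hℓqq u
    rw [h0, map_zero] at this
    exact hn.ne this
  have hkey : ∀ w ∈ O, Φ (Θ.symm (w, 0)) = (w, 0) := by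
    intro w hw
    exact Θ.right_inv hw.1.1
  have hmapsO : ∀ w ∈ O, qq (Θ.symm (w, 0)) ∈ hat r S := by
    intro w hw
    have h1 := hkey w hw
    have h2 : D.f (qq (Θ.symm (w, 0))) = 0 := congrArg Prod.snd h1
    exact (D.ze _ hw.1.2).2 h2
  -- the neighbourhood
  set V2 : Set ((ℝ × ℝ) × ℝ) := (Θ.source ∩ Vv) ∩ {u | ((u.1, 0) : (ℝ × ℝ) × ℝ) ∈ T'} with hV2
  have hV2o : IsOpen V2 := (Θ.open_source.inter hVo).inter (hT'o.preimage (by fun_prop))
  have hV21 : u₁ ∈ V2 := ⟨⟨hsrc, hDq⟩, hT'1⟩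
  set uu : Q4 → (ℝ × ℝ) × ℝ := fun q => ((N₀ / ℓ q) • (E q).1, (N₀ / ℓ q) * (E q).2.1) with huu
  have hℓc : Continuous ℓ := by
    have : (fun q => ℓ q) = fun q : Q4 => q₀ 0 * q 0 + q₀ 1 * q 1 + q₀ 2 * q 2 + q₀ 3 * q 3 :=
      funext hℓa
    show Continuous (fun q => ℓ q)
    rw [this]; fun_prop
  have huuc : ContinuousAt uu q₀ := by
    have h1 : ContinuousAt (fun q => N₀ / ℓ q) q₀ :=
      continuousAt_const.div hℓc.continuousAt (by rw [hℓq]; exact hn.ne')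
    have h2 : Continuous (fun q => (E q).1) := by fun_prop
    have h3 : Continuous (fun q => (E q).2.1) := by fun_prop
    exact (h1.smul h2.continuousAt).prodMk (h1.mul h3.continuousAt)
  have huu1 : uu q₀ = u₁ := by
    simp only [huu, hu₁]
    rw [hℓq, div_self hn.ne', one_smul, hE1, hLq, mul_zero]
  have hAn : {q | ℓ q ≠ 0 ∧ uu q ∈ V2} ∈ 𝓝 q₀ := by
    have h1 : ∀ᶠ q in 𝓝 q₀, ℓ q ≠ 0 := hℓc.continuousAt.eventually
      (isOpen_ne.mem_nhds (by rw [hℓq]; exact hn.ne'))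
    have h2 : ∀ᶠ q in 𝓝 q₀, uu q ∈ V2 := huuc.eventually (by
      rw [huu1]; exact hV2o.mem_nhds hV21)
    exact h1.and h2
  obtain ⟨W, hWo, hpW, hW⟩ := nbhd_lift hr hq₀ hAn
  refine ⟨φ, O, W, hOo, ?_, ?_, ?_, hWo, hpW, ?_⟩
  · intro w hw
    have h1 : ContDiffAt ℝ 1 (fun w : ℝ × ℝ => Θ.symm (w, 0)) w :=
      ContDiffAt.comp (g := Θ.symm) (f := fun w : ℝ × ℝ => ((w, 0) : (ℝ × ℝ) × ℝ)) w (hN₁ _ hw.2)
        (by fun_prop)
    have h2 : ContDiffAt ℝ 1 (fun w : ℝ × ℝ => qq (Θ.symm (w, 0))) w :=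
      hqqcd.contDiffAt.comp w h1
    have h3 : ContDiffAt ℝ 1 (pr r) (qq (Θ.symm (w, 0))) :=
      (cd_pr r (hqne _)).of_le (by exact_mod_cast le_top)
    exact (h3.comp w h2).contDiffWithinAt
  · intro w hw
    exact (hmapsO w hw).2
  · intro w hw w' hw' h
    obtain ⟨c, -, hc⟩ := pr_inj hr.ne' (hqne _) (hqne _) h
    have h1 := hℓqq (Θ.symm (w', 0))
    rw [hc, map_smul, hℓqq, smul_eq_mul] at h1
    have h2 : c = 1 := by
      have : c * N₀ = 1 * N₀ := by rw [h1, one_mul]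
      exact mul_right_cancel₀ hn.ne' this
    rw [h2, one_smul] at hc
    have h3 : Θ.symm (w', 0) = Θ.symm (w, 0) := by
      simp only [hqq] at hc
      have h4 := E.symm.injective hc
      exact Prod.ext (Prod.ext_iff.1 h4).1 (Prod.ext_iff.1 (Prod.ext_iff.1 h4).2).1
    have h4 := hkey w hw
    have h5 := hkey w' hw'
    rw [h3, h4] at h5
    exact congrArg Prod.fst h5
  · rintro p' ⟨hp'S, hp'W⟩
    obtain ⟨q', ⟨hℓ', hq'V⟩, hq'p⟩ := hW p' hp'W (hS.1 hp'S)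
    set c := N₀ / ℓ q' with hc
    have hc0 : c ≠ 0 := div_ne_zero hn.ne' hℓ'
    have h1 : qq (uu q') = c • q' := by
      simp only [hqq, huu]
      rw [ContinuousLinearEquiv.symm_apply_eq, map_smul]
      apply Prod.ext
      · rfl
      · apply Prod.ext
        · rfl
        · show N₀ = c * (E q').2.2
          rw [hE2, hc, div_mul_cancel₀ _ hℓ']
    have h2 : pr r (qq (uu q')) = p' := by rw [h1, pr_smul r hc0, hq'p]
    have h3 : qq (uu q') ∈ hat r S := ⟨hqne _, by rw [h2]; exact hp'S⟩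
    have h4 : D.f (qq (uu q')) = 0 := (D.ze _ hq'V.1.2).1 h3
    have h5 : Φ (uu q') = ((uu q').1, 0) := by simp only [hΦ]; rw [h4]
    have h6 : Θ.symm ((uu q').1, 0) = uu q' := by
      rw [← h5, ← hΘc]; exact Θ.left_inv hq'V.1.1
    refine ⟨(uu q').1, hq'V.2, ?_⟩
    show pr r (qq (Θ.symm ((uu q').1, 0))) = p'
    rw [h6, h2]

/-- a finite partition of a closed embedded surface into parametrised pieces -/
theorem exists_family {r : ℝ} (hr : 0 < r) {S : Set (E3 × E3)} (hS : IsSurf r S)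
    (hc : IsClosed S) : ∃ (n : ℕ) (φ : Fin n → ℝ × ℝ → E3 × E3) (B O : Fin n → Set (ℝ × ℝ)),
      (∀ i, MeasurableSet (B i)) ∧ (∀ i, InjOn (φ i) (B i)) ∧ (∀ i, IsOpen (O i)) ∧
      (∀ i, B i ⊆ O i) ∧ (∀ i, ContDiffOn ℝ 1 (φ i) (O i)) ∧ (∀ i, MapsTo (φ i) (O i) S) ∧
      (Pairwise (fun i j => Disjoint (φ i '' B i) (φ j '' B j))) ∧
      (∀ p ∈ S, ∃ i, ∃ w ∈ B i, φ i w = p) := by
  have hcomp : IsCompact S := by
    have h1 : IsCompact (Metric.sphere (0:E3) 1 ×ˢ Metric.sphere (0:E3) r) :=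
      (isCompact_sphere _ _).prod (isCompact_sphere _ _)
    apply h1.of_isClosed_subset hc
    intro p hp
    have := hS.1 hp
    exact ⟨mem_sphere_zero_iff_norm.2 this.1, mem_sphere_zero_iff_norm.2 this.2.2⟩
  have hloc : ∀ p : S, ∃ (φ : ℝ × ℝ → E3 × E3) (O : Set (ℝ × ℝ)) (W : Set (E3 × E3)), IsOpen O ∧
      ContDiffOn ℝ 1 φ O ∧ MapsTo φ O S ∧ InjOn φ O ∧ IsOpen W ∧ (p : E3 × E3) ∈ W ∧
      S ∩ W ⊆ φ '' O := fun p => local_patch hr hS p.2
  choose φ O W hO hφ hm hinj hW hpW hcov using hloc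
  obtain ⟨t, ht⟩ := hcomp.elim_finite_subcover W hW (fun p hp => mem_iUnion.2 ⟨⟨p, hp⟩, hpW _⟩)
  set n := t.card with hn
  set e : Fin n → S := fun i => (t.equivFin.symm i : S) with he
  have hcov' : ∀ p ∈ S, ∃ i : Fin n, p ∈ W (e i) := by
    intro p hp
    obtain ⟨s, hs⟩ := mem_iUnion.1 (ht hp)
    obtain ⟨hst, hps⟩ := mem_iUnion.1 hs
    refine ⟨t.equivFin ⟨s, hst⟩, ?_⟩
    simp only [he, Equiv.symm_apply_apply]
    exact hps
  set B : Fin n → Set (ℝ × ℝ) := fun i => (O (e i) ∩ φ (e i) ⁻¹' W (e i)) \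
    ⋃ j : Fin n, ⋃ (_ : j < i), (O (e i) ∩ φ (e i) ⁻¹' W (e j)) with hB
  have hopen : ∀ i j, IsOpen (O (e i) ∩ φ (e i) ⁻¹' W (e j)) := fun i j =>
    (hφ (e i)).continuousOn.isOpen_inter_preimage (hO _) (hW _)
  refine ⟨n, fun i => φ (e i), B, fun i => O (e i), ?_, ?_, fun i => hO _, ?_, fun i => hφ _,
    fun i => hm _, ?_, ?_⟩
  · intro i
    apply (hopen i i).measurableSet.diff
    exact MeasurableSet.iUnion (fun j => MeasurableSet.iUnion (fun _ => (hopen i j).measurableSet))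
  · intro i
    exact (hinj (e i)).mono (fun w hw => hw.1.1)
  · intro i w hw
    exact hw.1.1
  · have hlt : ∀ i j, i < j → Disjoint (φ (e i) '' B i) (φ (e j) '' B j) := by
      intro i j hij
      rw [Set.disjoint_left]
      rintro y ⟨u, hu, rfl⟩ ⟨v, hv, hvu⟩
      apply hv.2
      refine mem_iUnion.2 ⟨i, mem_iUnion.2 ⟨hij, hv.1.1, ?_⟩⟩
      show φ (e j) v ∈ W (e i)
      rw [hvu]
      exact hu.1.2
    intro i j hij
    rcases lt_or_gt_of_ne hij with h | h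
    · exact hlt i j h
    · exact (hlt j i h).symm
  · intro p hp
    -- minimal index
    have hex : ∃ i : Fin n, p ∈ W (e i) := hcov' p hp
    classical
    have hne : (Finset.univ.filter (fun i : Fin n => p ∈ W (e i))).Nonempty := by
      obtain ⟨i, hi⟩ := hex
      exact ⟨i, by simp [hi]⟩
    set i := (Finset.univ.filter (fun i : Fin n => p ∈ W (e i))).min' hne with hi
    have hiW : p ∈ W (e i) := by
      have := Finset.min'_mem _ hne
      simpa using this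
    obtain ⟨w, hw, hwp⟩ := hcov (e i) ⟨hp, hiW⟩
    refine ⟨i, w, ⟨⟨hw, by show φ (e i) w ∈ W (e i); rw [hwp]; exact hiW⟩, ?_⟩, hwp⟩
    intro hU
    obtain ⟨j, hj⟩ := mem_iUnion.1 hU
    obtain ⟨hji, hj2⟩ := mem_iUnion.1 hj
    have hjW : p ∈ W (e j) := by
      have h1 : φ (e i) w ∈ W (e j) := hj2.2
      rwa [hwp] at h1
    have := Finset.min'_le (Finset.univ.filter (fun i : Fin n => p ∈ W (e i))) j (by simp [hjW])
    exact absurd hji (not_lt.2 this)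

end Pool.Agent.Helper28.Cr
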