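import Mathlib
import Pool.Agent.Helper28.CrCover

open Set Filter Topology MeasureTheory
open scoped ContDiff InnerProductSpace ENNReal

namespace Pool.Agent.Helper28.Cr

noncomputable def C0 : ℝ≥0∞ := ∫⁻ u in Metric.ball (0:E3) 1, ENNReal.ofReal |u 0|

lemma C0_ne_top : C0 ≠ ⊤ := by
  have h1 : C0 ≤ ∫⁻ _u in Metric.ball (0:E3) 1, 1 := by
    unfold C0
    apply setLIntegral_mono measurable_const
    intro u hu
    rw [← ENNReal.ofReal_one]
    apply ENNReal.ofReal_le_ofReal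
    rw [mem_ball_zero_iff] at hu
    have h2 := nsq3 u
    have h3 : |u 0| ^ 2 ≤ 1 := by
      rw [sq_abs]
      nlinarith [sq_nonneg (u 1), sq_nonneg (u 2), norm_nonneg u]
    nlinarith [abs_nonneg (u 0)]
  apply ne_top_of_le_ne_top _ h1
  simp only [lintegral_const, one_mul, Measure.restrict_apply MeasurableSet.univ, univ_inter]
  exact measure_ball_lt_top.ne

lemma C0_ne_zero : C0 ≠ 0 := by
  unfold C0
  intro h
  rw [lintegral_eq_zero_iff (by fun_prop)] at h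
  have hopen : IsOpen (Metric.ball (0:E3) 1 ∩ {u : E3 | u 0 ≠ 0}) :=
    Metric.isOpen_ball.inter (isOpen_ne_fun (by fun_prop) continuous_const)
  have hne : (Metric.ball (0:E3) 1 ∩ {u : E3 | u 0 ≠ 0}).Nonempty := by
    refine ⟨!₂[1 / 2, 0, 0], ?_, ?_⟩
    · rw [mem_ball_zero_iff]
      have : ‖(!₂[1 / 2, 0, 0] : E3)‖ ^ 2 = 1 / 4 := by rw [nsq3]; simp; norm_num
      nlinarith [norm_nonneg (!₂[1 / 2, 0, 0] : E3)]
    · show (!₂[1 / 2, 0, 0] : E3) 0 ≠ 0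
      simp
  have hpos : 0 < volume (Metric.ball (0:E3) 1 ∩ {u : E3 | u 0 ≠ 0}) := hopen.measure_pos _ hne
  have h2 : volume (Metric.ball (0:E3) 1 ∩ {u : E3 | u 0 ≠ 0}) = 0 := by
    rw [Filter.EventuallyEq, ae_restrict_iff' measurableSet_ball] at h
    rw [ae_iff] at h
    apply measure_mono_null _ h
    rintro u ⟨hu1, hu2⟩
    simp only [Pi.zero_apply, ENNReal.ofReal_eq_zero, mem_ofPred_eq, Classical.not_imp, not_le]
    exact ⟨hu1, abs_pos.2 hu2⟩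
  exact hpos.ne' h2

lemma crofton (m : E3) :
    ∫⁻ u in Metric.ball (0:E3) 1, ENNReal.ofReal |⟪m, u⟫_ℝ| = C0 * ENNReal.ofReal ‖m‖ := by
  by_cases hm : m = 0
  · subst hm; simp
  have hm0 : 0 < ‖m‖ := norm_pos_iff.2 hm
  set e : E3 := !₂[1, 0, 0] with he
  have hen : ‖e‖ = 1 := by
    have : ‖e‖ ^ 2 = 1 := by rw [nsq3, he]; simp
    nlinarith [norm_nonneg e]
  set mh : E3 := ‖m‖⁻¹ • m with hmh
  have hmhn : ‖mh‖ = 1 := by
    rw [hmh, norm_smul, norm_inv, norm_norm, inv_mul_cancel₀ hm0.ne']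
  have hmeq : m = ‖m‖ • mh := by rw [hmh, smul_smul, mul_inv_cancel₀ hm0.ne', one_smul]
  set A : E3 ≃ₗᵢ[ℝ] E3 := (ℝ ∙ (e - mh))ᗮ.reflection with hA
  have hAe : A e = mh := Submodule.reflection_sub (by rw [hen, hmhn])
  have hmp : MeasurePreserving A volume volume := A.measurePreserving
  have hemb : MeasurableEmbedding A := A.toHomeomorph.measurableEmbedding
  have h1 := hmp.setLIntegral_comp_preimage_emb hemb (fun u => ENNReal.ofReal |⟪m, u⟫_ℝ|)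
    (Metric.ball (0:E3) 1)
  rw [← h1]
  have h2 : A ⁻¹' Metric.ball (0:E3) 1 = Metric.ball (0:E3) 1 := by
    ext u
    simp [mem_ball_zero_iff]
  rw [h2]
  have h3 : ∀ u : E3, ENNReal.ofReal |⟪m, A u⟫_ℝ| = ENNReal.ofReal |u 0| * ENNReal.ofReal ‖m‖ := by
    intro u
    have h4 : ⟪m, A u⟫_ℝ = ‖m‖ * u 0 := by
      calc ⟪m, A u⟫_ℝ = ⟪‖m‖ • mh, A u⟫_ℝ := by rw [← hmeq]
        _ = ‖m‖ * ⟪mh, A u⟫_ℝ := by rw [inner_smul_left]; simp
        _ = ‖m‖ * ⟪A e, A u⟫_ℝ := by rw [hAe]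
        _ = ‖m‖ * ⟪e, u⟫_ℝ := by rw [LinearIsometryEquiv.inner_map_map]
        _ = ‖m‖ * u 0 := by rw [inner3, he]; simp
    rw [h4, abs_mul, abs_of_pos hm0, mul_comm, ENNReal.ofReal_mul (abs_nonneg _)]
  simp only [h3]
  rw [lintegral_mul_const' _ _ ENNReal.ofReal_ne_top]
  rfl

noncomputable def zeta (r : ℝ) (u : E3) : Fin 3 → ℝ := ![u 0, r * u 1, r * u 2]

lemma jac_crofton {r : ℝ} (hr : 0 < r) {φ : ℝ × ℝ → E3 × E3} {O : Set (ℝ × ℝ)} (hO : IsOpen O)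
    (hφ : ContDiffOn ℝ 1 φ O) (hm : MapsTo φ O (TS r)) {w : ℝ × ℝ} (hw : w ∈ O) :
    C0 * ENNReal.ofReal (jac φ w) =
      ∫⁻ u in Metric.ball (0:E3) 1, ENNReal.ofReal |lin (nvp r φ w) (zeta r u)| := by
  set n := nvp r φ w with hn
  set m : E3 := !₂[n 0, r * n 1, r * n 2] with hmm
  have h1 : jac φ w = ‖m‖ := by
    unfold jac gr
    rw [gram hr (hm hw) (patch_tan hO hφ hm hw (1, 0)) (patch_tan hO hφ hm hw (0, 1))]
    have h2 : ‖m‖ ^ 2 = n 0 ^ 2 + (r * n 1) ^ 2 + (r * n 2) ^ 2 := by rw [nsq3, hmm]; simp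
    rw [← Real.sqrt_sq (norm_nonneg m), h2]
    rfl
  rw [h1, ← crofton m]
  apply lintegral_congr
  intro u
  congr 2
  rw [inner3, hmm]
  unfold lin zeta
  simp only [WithLp.ofLp_toLp, Matrix.cons_val_zero, Matrix.cons_val_one, Matrix.cons_val]
  ring

lemma meas_joint {r : ℝ} {φ : ℝ × ℝ → E3 × E3} {O B : Set (ℝ × ℝ)} (hO : IsOpen O)
    (hφ : ContDiffOn ℝ 1 φ O) (hB : MeasurableSet B) (hBO : B ⊆ O) :
    AEMeasurable (fun z : (ℝ × ℝ) × E3 => ENNReal.ofReal |lin (nvp r φ z.1) (zeta r z.2)|)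
      ((volume.restrict B).prod (volume.restrict (Metric.ball (0:E3) 1))) := by
  rw [Measure.prod_restrict]
  have h1 : ContinuousOn (fun z : (ℝ × ℝ) × E3 => nvp r φ z.1) (B ×ˢ Metric.ball (0:E3) 1) :=
    ((cont_nvp r hO hφ).mono hBO).comp continuousOn_fst (fun z hz => hz.1)
  have h2 : Continuous (fun z : (Fin 3 → ℝ) × E3 => |lin z.1 (zeta r z.2)|) := by
    unfold lin zeta
    simp only [Matrix.cons_val_zero, Matrix.cons_val_one, Matrix.cons_val]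
    fun_prop
  have h3 : ContinuousOn (fun z : (ℝ × ℝ) × E3 => |lin (nvp r φ z.1) (zeta r z.2)|)
      (B ×ˢ Metric.ball (0:E3) 1) :=
    h2.comp_continuousOn (f := fun z : (ℝ × ℝ) × E3 => (nvp r φ z.1, z.2))
      (h1.prodMk continuousOn_snd)
  exact (h3.aemeasurable (hB.prod measurableSet_ball)).ennreal_ofReal

lemma area_flux {r : ℝ} (hr : 0 < r) {φ : ℝ × ℝ → E3 × E3} {O B : Set (ℝ × ℝ)} (hO : IsOpen O)
    (hφ : ContDiffOn ℝ 1 φ O) (hm : MapsTo φ O (TS r)) (hB : MeasurableSet B) (hBO : B ⊆ O) :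
    C0 * ∫⁻ w in B, ENNReal.ofReal (jac φ w) =
      ∫⁻ u in Metric.ball (0:E3) 1, flux r φ B (zeta r u) := by
  rw [← lintegral_const_mul' _ _ C0_ne_top]
  rw [setLIntegral_congr_fun hB (fun w hw => jac_crofton hr hO hφ hm (hBO hw))]
  exact lintegral_lintegral_swap (meas_joint hO hφ hB hBO)

lemma meas_flux {r : ℝ} {φ : ℝ × ℝ → E3 × E3} {O B : Set (ℝ × ℝ)} (hO : IsOpen O)
    (hφ : ContDiffOn ℝ 1 φ O) (hB : MeasurableSet B) (hBO : B ⊆ O) :
    AEMeasurable (fun u : E3 => flux r φ B (zeta r u)) (volume.restrict (Metric.ball (0:E3) 1)) := by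
  have h1 := (meas_joint (r := r) hO hφ hB hBO).prod_swap
  exact h1.lintegral_prod_right'

end Pool.Agent.Helper28.Cr
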