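import Mathlib
import Pool.Agent.Helper28.CrCroft

open Set Filter Topology MeasureTheory
open scoped ContDiff InnerProductSpace ENNReal

namespace Pool.Agent.Helper28.Cr

noncomputable def MM (r : ℝ) (u : E3) : ℝ≥0∞ :=
  volume (Bl (zeta r u)) / (ENNReal.ofReal (n2 (zeta r u)) * K3)

lemma n2_zeta (r : ℝ) (u : E3) : n2 (zeta r u) = u 0 ^ 2 + r ^ 2 * (u 1 ^ 2 + u 2 ^ 2) := by
  simp only [n2, zeta, Matrix.cons_val_zero, Matrix.cons_val_one, Matrix.cons_val]; ring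

lemma n2_zeta_ne {r : ℝ} (hr : 0 < r) {u : E3} (hu : u ≠ 0) : n2 (zeta r u) ≠ 0 := by
  intro h
  rw [n2_zeta] at h
  apply hu
  have a0 := sq_nonneg (u 0)
  have a1 := sq_nonneg (u 1)
  have a2 := sq_nonneg (u 2)
  have hr2 : 0 < r ^ 2 := by positivity
  have b1 : u 0 ^ 2 = 0 := by nlinarith [mul_nonneg hr2.le (add_nonneg a1 a2)]
  have b2 : r ^ 2 * (u 1 ^ 2 + u 2 ^ 2) = 0 := by linarith
  have b3 : u 1 ^ 2 + u 2 ^ 2 = 0 := (mul_eq_zero.1 b2).resolve_left hr2.ne'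
  apply ext3
  · simpa using b1
  · have : u 1 ^ 2 = 0 := by linarith
    simpa using this
  · have : u 2 ^ 2 = 0 := by linarith
    simpa using this

lemma zeta_zero (r : ℝ) : zeta r 0 = 0 := by
  ext i; fin_cases i <;> simp [zeta]

lemma flux_zero (r : ℝ) (φ : ℝ × ℝ → E3 × E3) (B : Set (ℝ × ℝ)) : flux r φ B 0 = 0 := by
  unfold flux
  simp [lin]

lemma MM_zero (r : ℝ) : MM r 0 = 0 := by
  unfold MM
  have : Bl (zeta r 0) = ∅ := by
    rw [zeta_zero]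
    apply eq_empty_of_forall_notMem
    intro y hy
    have h1 : y.1.1 ^ 2 + y.1.2 ^ 2 + y.2 ^ 2 < n2 0 := hy
    have h2 : n2 0 = 0 := by simp [n2]
    rw [h2] at h1
    nlinarith [sq_nonneg y.1.1, sq_nonneg y.1.2, sq_nonneg y.2]
  rw [this]; simp

lemma den_ne_zero {ζ : Fin 3 → ℝ} (h : n2 ζ ≠ 0) : ENNReal.ofReal (n2 ζ) * K3 ≠ 0 := by
  have hpos : 0 < n2 ζ := lt_of_le_of_ne (n2_nonneg ζ) (Ne.symm h)
  exact mul_ne_zero (by simpa using hpos) K3_ne_zero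

lemma den_ne_top (ζ : Fin 3 → ℝ) : ENNReal.ofReal (n2 ζ) * K3 ≠ ⊤ :=
  ENNReal.mul_ne_top ENNReal.ofReal_ne_top K3_ne_top

/-- a finite family of parametrised pieces -/
structure Fam (S : Set (E3 × E3)) where
  n : ℕ
  φ : Fin n → ℝ × ℝ → E3 × E3
  B : Fin n → Set (ℝ × ℝ)
  O : Fin n → Set (ℝ × ℝ)
  hB : ∀ i, MeasurableSet (B i)
  hinj : ∀ i, InjOn (φ i) (B i)
  hO : ∀ i, IsOpen (O i)
  hBO : ∀ i, B i ⊆ O i
  hφ : ∀ i, ContDiffOn ℝ 1 (φ i) (O i)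
  hm : ∀ i, MapsTo (φ i) (O i) S
  hd : Pairwise (fun i j => Disjoint (φ i '' B i) (φ j '' B j))

noncomputable def Fam.Y {S : Set (E3 × E3)} (F : Fam S) (r : ℝ) (u : E3) : ℝ≥0∞ :=
  ∑ i, flux r (F.φ i) (F.B i) (zeta r u)

noncomputable def Fam.A {S : Set (E3 × E3)} (F : Fam S) : ℝ≥0∞ :=
  ∑ i, ∫⁻ w in F.B i, ENNReal.ofReal (jac (F.φ i) w)

lemma Fam.area_eq {r : ℝ} (hr : 0 < r) {S : Set (E3 × E3)} (hS : S ⊆ TS r) (F : Fam S) :
    C0 * F.A = ∫⁻ u in Metric.ball (0:E3) 1, F.Y r u := by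
  unfold Fam.A Fam.Y
  rw [Finset.mul_sum, lintegral_finsetSum' _ (fun i _ => meas_flux (F.hO i) (F.hφ i) (F.hB i) (F.hBO i))]
  apply Finset.sum_congr rfl
  intro i _
  exact area_flux hr (F.hO i) (F.hφ i) (fun w hw => hS (F.hm i hw)) (F.hB i) (F.hBO i)

lemma Fam.measY {r : ℝ} {S : Set (E3 × E3)} (F : Fam S) :
    AEMeasurable (fun u => F.Y r u) (volume.restrict (Metric.ball (0:E3) 1)) := by
  unfold Fam.Y
  exact Finset.aemeasurable_fun_sum _ (fun i _ => meas_flux (F.hO i) (F.hφ i) (F.hB i) (F.hBO i))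

lemma Fam.le_area {S : Set (E3 × E3)} (F : Fam S) : F.A ≤ area S := by
  unfold Fam.A area
  have hP : ∀ i, IsPatch S (F.φ i) (F.B i) := fun i =>
    ⟨F.hB i, F.hinj i, F.O i, F.hO i, F.hBO i, F.hφ i, F.hm i⟩
  refine le_iSup_of_le F.n ?_
  refine le_iSup_of_le F.φ ?_
  refine le_iSup_of_le F.B ?_
  exact le_iSup_of_le (⟨hP, F.hd⟩ : IsFam S F.φ F.B) le_rfl

theorem area_P_le {r : ℝ} (hr : 0 < r) {a b : E3} (ha : ‖a‖ = 1) (hb : ‖b‖ = 1)
    (hab : ⟪a, b⟫_ℝ = 0) :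
    area (SigP r a b) ≤
      (∫⁻ u in Metric.ball (0:E3) 1, MM r u) / C0 := by
  unfold area
  refine iSup_le fun n => iSup_le fun φ => iSup_le fun B => iSup_le fun hF => ?_
  obtain ⟨hP, hd⟩ := hF
  have hsub := sigP_sub hr ha hb hab
  have hP' := hP
  choose hBm hinj O hO hBO hφ hmap using hP'
  set F : Fam (Sig {x | x ≠ -a} (fun x => r • Pf a b x)) :=
    ⟨n, φ, B, O, hBm, hinj, hO, hBO, hφ, hmap, hd⟩ with hF
  rw [ENNReal.le_div_iff_mul_le (Or.inl C0_ne_zero) (Or.inl C0_ne_top), mul_comm]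
  show C0 * F.A ≤ _
  rw [F.area_eq hr (fun p hp => (hsub p hp).1)]
  apply lintegral_mono
  intro u
  by_cases hu : u = 0
  · subst hu
    simp only [MM_zero]
    unfold Fam.Y
    rw [zeta_zero]
    simp [flux_zero]
  · have hζ := n2_zeta_ne hr hu
    have h1 := upper hr ha hb hab hsub hP hd hζ
    simp only
    unfold MM
    rw [ENNReal.le_div_iff_mul_le (Or.inl (den_ne_zero hζ)) (Or.inl (den_ne_top _))]
    calc F.Y r u * (ENNReal.ofReal (n2 (zeta r u)) * K3)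
        = ENNReal.ofReal (n2 (zeta r u)) * (∑ i, flux r (φ i) (B i) (zeta r u)) * K3 := by
          unfold Fam.Y; ring
      _ ≤ _ := h1

lemma MM_le {r : ℝ} (hr : 0 < r) {u : E3} (hu : u ∈ Metric.ball (0:E3) 1) :
    MM r u ≤ ENNReal.ofReal (8 * (1 + r)) / K3 := by
  by_cases hu0 : u = 0
  · rw [hu0, MM_zero]; simp
  have hζ := n2_zeta_ne hr hu0
  set ζ := zeta r u with hζd
  have hpos : 0 < n2 ζ := lt_of_le_of_ne (n2_nonneg ζ) (Ne.symm hζ)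
  set R := √(n2 ζ) with hR
  have hR0 : 0 < R := Real.sqrt_pos.2 hpos
  have hR2 : R ^ 2 = n2 ζ := Real.sq_sqrt hpos.le
  have hsub : Bl ζ ⊆ (Icc (-R) R ×ˢ Icc (-R) R) ×ˢ Icc (-R) R := by
    intro y hy
    have hy' : y.1.1 ^ 2 + y.1.2 ^ 2 + y.2 ^ 2 < R ^ 2 := by rw [hR2]; exact hy
    have a0 := sq_nonneg y.1.1
    have a1 := sq_nonneg y.1.2
    have a2 := sq_nonneg y.2
    refine ⟨⟨abs_le.1 ?_, abs_le.1 ?_⟩, abs_le.1 ?_⟩
    · exact abs_le_of_sq_le_sq (by linarith) hR0.le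
    · exact abs_le_of_sq_le_sq (by linarith) hR0.le
    · exact abs_le_of_sq_le_sq (by linarith) hR0.le
  have hvol : volume (Bl ζ) ≤ ENNReal.ofReal (8 * R ^ 3) := by
    refine (measure_mono hsub).trans ?_
    rw [Measure.volume_eq_prod, Measure.prod_prod, Measure.volume_eq_prod, Measure.prod_prod,
      Real.volume_Icc, ← ENNReal.ofReal_mul (by linarith), ← ENNReal.ofReal_mul (by nlinarith)]
    apply ENNReal.ofReal_le_ofReal
    nlinarith
  have hR1 : R ≤ 1 + r := by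
    have h1 : n2 ζ ≤ (1 + r) ^ 2 := by
      rw [hζd, n2_zeta]
      have h2 := nsq3 u
      rw [mem_ball_zero_iff] at hu
      have h3 : ‖u‖ ^ 2 ≤ 1 := by nlinarith [norm_nonneg u]
      have a0 := sq_nonneg (u 0)
      have a1 := sq_nonneg (u 1)
      have a2 := sq_nonneg (u 2)
      have h4 : r ^ 2 * (u 1 ^ 2 + u 2 ^ 2) ≤ r ^ 2 * 1 := by
        apply mul_le_mul_of_nonneg_left _ (sq_nonneg r); linarith
      nlinarith
    rw [hR]
    exact Real.sqrt_le_iff.2 ⟨by linarith, h1⟩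
  unfold MM
  rw [← hζd]
  calc volume (Bl ζ) / (ENNReal.ofReal (n2 ζ) * K3)
      ≤ ENNReal.ofReal (8 * R ^ 3) / (ENNReal.ofReal (n2 ζ) * K3) := by gcongr
    _ = ENNReal.ofReal (8 * R) / K3 := by
        have h1 : ENNReal.ofReal (8 * R ^ 3) = ENNReal.ofReal (n2 ζ) * ENNReal.ofReal (8 * R) := by
          rw [← ENNReal.ofReal_mul hpos.le, ← hR2]; congr 1; ring
        rw [h1, ENNReal.mul_div_mul_left _ _ (by simpa using hpos) ENNReal.ofReal_ne_top]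
    _ ≤ ENNReal.ofReal (8 * (1 + r)) / K3 := by
        gcongr

lemma MM_int {r : ℝ} (hr : 0 < r) : ∫⁻ u in Metric.ball (0:E3) 1, MM r u ≠ ⊤ := by
  have h1 : ∫⁻ u in Metric.ball (0:E3) 1, MM r u ≤
      ∫⁻ _u in Metric.ball (0:E3) 1, ENNReal.ofReal (8 * (1 + r)) / K3 :=
    setLIntegral_mono measurable_const (fun u hu => MM_le hr hu)
  apply ne_top_of_le_ne_top _ h1
  rw [lintegral_const]
  apply ENNReal.mul_ne_top
  · exact ENNReal.div_ne_top ENNReal.ofReal_ne_top K3_ne_zero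
  · simp only [Measure.restrict_apply MeasurableSet.univ, univ_inter]
    exact measure_ball_lt_top.ne

/-- the covering family of `Σ_V` -/
lemma fam_lower {r : ℝ} (hr : 0 < r) {S : Set (E3 × E3)} (hST : S ⊆ TS r) (F : Fam S)
    (hmeet : ∀ ζ y : Fin 3 → ℝ, n2 y = n2 ζ → y + ζ ≠ 0 → ∃ i, ∃ w ∈ F.B i, G r ζ (F.φ i w) = y)
    (u : E3) : MM r u ≤ F.Y r u := by
  by_cases hu : u = 0
  · rw [hu, MM_zero]; simp
  have hζ := n2_zeta_ne hr hu
  have h1 := lower hr F.hB F.hO F.hBO F.hφ (fun i w hw => hST (F.hm i hw)) hζ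
    (fun y h1 h2 => hmeet _ y h1 h2)
  unfold MM
  apply ENNReal.div_le_of_le_mul
  calc volume (Bl (zeta r u)) ≤ _ := h1
    _ = F.Y r u * (ENNReal.ofReal (n2 (zeta r u)) * K3) := by unfold Fam.Y; ring

end Pool.Agent.Helper28.Cr
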