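import Mathlib
import Pool.Agent.Helper28.CrIneq

open Set Filter Topology MeasureTheory
open scoped ContDiff InnerProductSpace ENNReal

namespace Pool.Agent.Helper28.Cr

lemma stab {X : Type*} [TopologicalSpace X] {S : Set Q4} (D : LD S) {q d : Q4} (hqS : q ∈ S)
    (hD : q ∈ D.W) (hd : fderiv ℝ D.f q d ≠ 0) {α β : X → Q4} {z₀ : X} (hα : ContinuousAt α z₀)
    (hβ : ContinuousAt β z₀) (hα0 : α z₀ = q) (hβ0 : β z₀ = d) {A : Set Q4} (hA : A ∈ 𝓝 q) :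
    ∀ᶠ z in 𝓝 z₀, ∃ σ : ℝ, α z + σ • β z ∈ S ∧ α z + σ • β z ∈ A := by
  have hF0 : D.f q = 0 := (D.ze q hD).1 hqS
  -- a small δ with a sign change
  have hsign : ∃ δ₀ : ℝ, 0 < δ₀ ∧ ∀ σ : ℝ, 0 < σ → σ < δ₀ → D.f (q + σ • d) * D.f (q + (-σ) • d) < 0 := by
    rcases lt_or_gt_of_ne hd with h | h
    · have hneg : 0 < fderiv ℝ (fun y => -(D.f y)) q d := by
        rw [fderiv_fun_neg]
        show 0 < -(fderiv ℝ D.f q d)
        linarith
      obtain ⟨c, hc, δ, hδ, H⟩ := mv ((D.cda1 hD).neg) hneg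
      refine ⟨δ, hδ, fun σ h0 h1 => ?_⟩
      have e1 := H q (by simpa using hδ) σ (by rw [abs_of_pos h0]; exact h1)
      have e2 := H q (by simpa using hδ) (-σ) (by rw [abs_neg, abs_of_pos h0]; exact h1)
      simp only [hF0, neg_zero, sub_zero] at e1 e2
      have k1 : D.f (q + σ • d) < 0 := by nlinarith [mul_pos hc (pow_pos h0 2)]
      have k2 : 0 < D.f (q + (-σ) • d) := by nlinarith [mul_pos hc (pow_pos h0 2)]
      exact mul_neg_of_neg_of_pos k1 k2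
    · obtain ⟨c, hc, δ, hδ, H⟩ := mv (D.cda1 hD) h
      refine ⟨δ, hδ, fun σ h0 h1 => ?_⟩
      have e1 := H q (by simpa using hδ) σ (by rw [abs_of_pos h0]; exact h1)
      have e2 := H q (by simpa using hδ) (-σ) (by rw [abs_neg, abs_of_pos h0]; exact h1)
      simp only [hF0, sub_zero] at e1 e2
      have k1 : 0 < D.f (q + σ • d) := by nlinarith [mul_pos hc (pow_pos h0 2)]
      have k2 : D.f (q + (-σ) • d) < 0 := by nlinarith [mul_pos hc (pow_pos h0 2)]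
      exact mul_neg_of_pos_of_neg k1 k2
  obtain ⟨δ₀, hδ₀, hs⟩ := hsign
  obtain ⟨ρ, hρ, hball⟩ := Metric.mem_nhds_iff.1 (Filter.inter_mem hA (D.op.mem_nhds hD))
  have hd0 : 0 ≤ ‖d‖ := norm_nonneg _
  set σ : ℝ := min (δ₀ / 2) (ρ / (4 * (1 + ‖d‖))) with hσ
  have hσ0 : 0 < σ := lt_min (by positivity) (by positivity)
  have hσ1 : σ < δ₀ := lt_of_le_of_lt (min_le_left _ _) (by linarith)
  have hσ2 : σ * ‖d‖ < ρ / 2 := by
    have h1 : σ ≤ ρ / (4 * (1 + ‖d‖)) := min_le_right _ _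
    have h2 : σ * ‖d‖ ≤ ρ / (4 * (1 + ‖d‖)) * ‖d‖ := mul_le_mul_of_nonneg_right h1 hd0
    have h3 : ρ / (4 * (1 + ‖d‖)) * ‖d‖ ≤ ρ / 4 := by
      rw [div_mul_eq_mul_div, div_le_div_iff₀ (by positivity) (by positivity)]
      nlinarith
    linarith
  have hneg := hs σ hσ0 hσ1
  have hmem : ∀ τ : ℝ, |τ| ≤ σ → q + τ • d ∈ D.W := by
    intro τ hτ
    apply (hball _).2
    rw [Metric.mem_ball, dist_eq_norm, add_sub_cancel_left, norm_smul, Real.norm_eq_abs]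
    have := mul_le_mul_of_nonneg_right hτ hd0
    linarith
  have hcomb : ∀ τ : ℝ, ContinuousAt (fun z => α z + τ • β z) z₀ := fun τ =>
    hα.add (hβ.const_smul τ)
  have hval : ∀ τ : ℝ, α z₀ + τ • β z₀ = q + τ • d := fun τ => by rw [hα0, hβ0]
  have hFc : ∀ τ : ℝ, |τ| ≤ σ → ContinuousAt (fun z => D.f (α z + τ • β z)) z₀ := by
    intro τ hτ
    have h1 : ContinuousAt D.f (α z₀ + τ • β z₀) := by
      rw [hval]; exact (D.cda (hmem τ hτ)).continuousAt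
    exact ContinuousAt.comp (f := fun z => α z + τ • β z) (g := D.f) h1 (hcomb τ)
  have e1 : ∀ᶠ z in 𝓝 z₀, D.f (α z + σ • β z) * D.f (α z + (-σ) • β z) < 0 := by
    have h1 := (hFc σ (by rw [abs_of_pos hσ0])).mul (hFc (-σ) (by rw [abs_neg, abs_of_pos hσ0]))
    apply h1.eventually (gt_mem_nhds _)
    show D.f (α z₀ + σ • β z₀) * D.f (α z₀ + (-σ) • β z₀) < 0
    rw [hval, hval]; exact hneg
  have e2 : ∀ᶠ z in 𝓝 z₀, dist (α z) q < ρ / 2 := by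
    have h1 : Tendsto α (𝓝 z₀) (𝓝 q) := by rw [← hα0]; exact hα
    exact h1.eventually (Metric.ball_mem_nhds _ (by positivity))
  have e3 : ∀ᶠ z in 𝓝 z₀, σ * ‖β z‖ < ρ / 2 := by
    have h1 : ContinuousAt (fun z => σ * ‖β z‖) z₀ := continuousAt_const.mul hβ.norm
    apply h1.eventually (gt_mem_nhds _)
    show σ * ‖β z₀‖ < ρ / 2
    rw [hβ0]; exact hσ2
  filter_upwards [e1, e2, e3] with z h1 h2 h3
  have hin : ∀ τ ∈ Icc (-σ) σ, α z + τ • β z ∈ A ∩ D.W := by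
    intro τ hτ
    apply hball
    rw [Metric.mem_ball]
    have hτ' : |τ| ≤ σ := abs_le.2 hτ
    calc dist (α z + τ • β z) q ≤ dist (α z + τ • β z) (α z) + dist (α z) q := dist_triangle _ _ _
      _ = |τ| * ‖β z‖ + dist (α z) q := by
          rw [dist_eq_norm (α z + τ • β z), add_sub_cancel_left, norm_smul, Real.norm_eq_abs]
      _ ≤ σ * ‖β z‖ + dist (α z) q := by gcongr
      _ < ρ := by linarith
  have hcon : ContinuousOn (fun τ : ℝ => D.f (α z + τ • β z)) (Icc (-σ) σ) := by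
    intro τ hτ
    have h4 : ContinuousAt D.f (α z + τ • β z) := (D.cda (hin τ hτ).2).continuousAt
    have h5 : ContinuousAt (fun τ : ℝ => α z + τ • β z) τ := by fun_prop
    exact (ContinuousAt.comp (f := fun τ : ℝ => α z + τ • β z) (g := D.f) h4 h5).continuousWithinAt
  have hle : -σ ≤ σ := by linarith
  have hroot : ∃ τ ∈ Icc (-σ) σ, D.f (α z + τ • β z) = 0 := by
    rcases mul_neg_iff.1 h1 with ⟨p1, p2⟩ | ⟨p1, p2⟩
    · obtain ⟨τ, hτ, h0⟩ := intermediate_value_Icc hle hcon ⟨p2.le, p1.le⟩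
      exact ⟨τ, hτ, h0⟩
    · obtain ⟨τ, hτ, h0⟩ := intermediate_value_Icc' hle hcon ⟨p1.le, p2.le⟩
      exact ⟨τ, hτ, h0⟩
  obtain ⟨τ, hτ, h0⟩ := hroot
  exact ⟨τ, (D.ze _ (hin τ hτ).2).2 h0, (hin τ hτ).1⟩

/-- body and space directions of the line through `p` and `q` -/
noncomputable def xi0 (ε : ℝ) (p q : Q4) : Fin 3 → ℝ :=
  ![ε * (p 0 * q 1 - p 1 * q 0 - p 2 * q 3 + p 3 * q 2),
    ε * (p 0 * q 2 + p 1 * q 3 - p 2 * q 0 - p 3 * q 1),
    ε * (p 0 * q 3 - p 1 * q 2 + p 2 * q 1 - p 3 * q 0)]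

noncomputable def y0 (ε : ℝ) (p q : Q4) : Fin 3 → ℝ :=
  ![ε * (-(q 0 * p 1) + q 1 * p 0 - q 2 * p 3 + q 3 * p 2),
    ε * (-(q 0 * p 2) + q 1 * p 3 + q 2 * p 0 - q 3 * p 1),
    ε * (-(q 0 * p 3) - q 1 * p 2 + q 2 * p 1 + q 3 * p 0)]

lemma rel_left (ε : ℝ) (p q : Q4) : Rel (xi0 ε p q) (y0 ε p q) p := by
  apply rel_of_coord <;>
    simp only [xi0, y0, Matrix.cons_val_zero, Matrix.cons_val_one, Matrix.cons_val] <;> ring

lemma rel_right (ε : ℝ) (p q : Q4) : Rel (xi0 ε p q) (y0 ε p q) q := by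
  apply rel_of_coord <;>
    simp only [xi0, y0, Matrix.cons_val_zero, Matrix.cons_val_one, Matrix.cons_val] <;> ring

lemma n2_y0 (ε : ℝ) (p q : Q4) : n2 (y0 ε p q) = n2 (xi0 ε p q) := by
  simp only [n2, xi0, y0, Matrix.cons_val_zero, Matrix.cons_val_one, Matrix.cons_val]; ring

lemma xi0_ne {ε : ℝ} (hε : ε ≠ 0) {p q : Q4} (h : Ind p q) : n2 (xi0 ε p q) ≠ 0 := by
  intro h0
  have hid : n2 (xi0 ε p q) = ε ^ 2 * (nq p * nq q -
      (p 0 * q 0 + p 1 * q 1 + p 2 * q 2 + p 3 * q 3) ^ 2) := by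
    simp only [n2, xi0, nq, Matrix.cons_val_zero, Matrix.cons_val_one, Matrix.cons_val]; ring
  set s := p 0 * q 0 + p 1 * q 1 + p 2 * q 2 + p 3 * q 3 with hs
  have h1 : nq p * nq q - s ^ 2 = 0 := by
    rw [hid] at h0
    exact (mul_eq_zero.1 h0).resolve_left (by positivity)
  have h2 : nq ((-s) • p + (nq p) • q) = 0 := by
    have : nq ((-s) • p + (nq p) • q) = nq p * (nq p * nq q - s ^ 2) := by
      simp only [hs, nq, Pi.add_apply, Pi.smul_apply, smul_eq_mul]; ring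
    rw [this, h1, mul_zero]
  have h3 : (-s) • p + (nq p) • q = 0 := by
    by_contra hne
    exact (nq_pos hne).ne' h2
  have h4 := (h _ _ h3).2
  exact (nq_pos h.ne_left).ne' h4

/-- projection onto the plane of the relation -/
noncomputable def prj (c : ℝ) (q : Q4) (z : (Fin 3 → ℝ) × (Fin 3 → ℝ)) : Q4 :=
  c • (n2 z.1 • q - qm (qm (im z.2) q) (im z.1))

lemma prj_cont (c : ℝ) (q : Q4) : Continuous (prj c q) := by
  unfold prj
  rw [continuous_pi_iff]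
  intro i
  fin_cases i <;>
    simp only [Fin.zero_eta, Fin.mk_one, Fin.reduceFinMk, qm, im, n2, Pi.smul_apply, Pi.sub_apply,
      smul_eq_mul, Matrix.cons_val_zero, Matrix.cons_val_one, Matrix.cons_val] <;> fun_prop

lemma prj_rel (c : ℝ) (q : Q4) {z : (Fin 3 → ℝ) × (Fin 3 → ℝ)} (h : n2 z.1 = n2 z.2) :
    Rel z.1 z.2 (prj c q z) := by
  unfold n2 at h
  apply rel_of_coord <;>
    simp only [prj, qm, im, n2, Pi.smul_apply, Pi.sub_apply,
      smul_eq_mul, Matrix.cons_val_zero, Matrix.cons_val_one, Matrix.cons_val]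
  · linear_combination c * (-(q 1 * z.1 0) - q 2 * z.1 1 - q 3 * z.1 2) * h
  · linear_combination c * (q 0 * z.1 0 + q 2 * z.1 2 - q 3 * z.1 1) * h
  · linear_combination c * (q 0 * z.1 1 - q 1 * z.1 2 + q 3 * z.1 0) * h
  · linear_combination c * (q 0 * z.1 2 + q 1 * z.1 1 - q 2 * z.1 0) * h

lemma prj_at {ξ y : Fin 3 → ℝ} {q : Q4} (h : Rel ξ y q) (hξ : n2 ξ ≠ 0) :
    prj (2 * n2 ξ)⁻¹ q (ξ, y) = q := by
  have h' : qm (im y) q = qm q (im ξ) := h.symm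
  unfold prj
  simp only
  rw [h']
  have h2 : qm (qm q (im ξ)) (im ξ) = -(n2 ξ • q) := by
    apply ext4 <;>
      simp only [qm, im, n2, Pi.smul_apply, Pi.neg_apply,
        smul_eq_mul, Matrix.cons_val_zero, Matrix.cons_val_one, Matrix.cons_val] <;> ring
  rw [h2, sub_neg_eq_add, ← add_smul, smul_smul]
  have : (2 * n2 ξ)⁻¹ * (n2 ξ + n2 ξ) = 1 := by
    rw [← two_mul]
    exact inv_mul_cancel₀ (by positivity)
  rw [this, one_smul]

lemma near_meet {S : Set Q4} {p q : Q4} (hpS : p ∈ S) (D : LD S) (hD : p ∈ D.W)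
    (hd : fderiv ℝ D.f p q ≠ 0) {ξ y : Fin 3 → ℝ} (hp : Rel ξ y p) (hq : Rel ξ y q)
    (hξ : n2 ξ ≠ 0) {A : Set Q4} (hA : A ∈ 𝓝 p) :
    ∀ᶠ z : (Fin 3 → ℝ) × (Fin 3 → ℝ) in 𝓝 (ξ, y), n2 z.1 = n2 z.2 →
      ∃ x ∈ S, x ∈ A ∧ Rel z.1 z.2 x := by
  have h1 := stab D hpS hD hd (α := prj (2 * n2 ξ)⁻¹ p) (β := prj (2 * n2 ξ)⁻¹ q) (z₀ := (ξ, y))
    (prj_cont _ _).continuousAt (prj_cont _ _).continuousAt (prj_at hp hξ) (prj_at hq hξ) hA
  filter_upwards [h1] with z hz hn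
  obtain ⟨σ, hσS, hσA⟩ := hz
  refine ⟨_, hσS, hσA, ?_⟩
  have := (prj_rel (2 * n2 ξ)⁻¹ p hn).comb (prj_rel (2 * n2 ξ)⁻¹ q hn) 1 σ
  rwa [one_smul] at this

end Pool.Agent.Helper28.Cr
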