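import Mathlib
import Pool.Agent.Helper28.CrEq1

open Set Filter Topology MeasureTheory
open scoped ContDiff InnerProductSpace ENNReal

namespace Pool.Agent.Helper28.Cr

lemma cont_GG (r : ℝ) : Continuous (fun z : (Fin 3 → ℝ) × (E3 × E3) => (z.1, G r z.1 z.2)) := by
  apply continuous_fst.prodMk
  rw [continuous_pi_iff]
  intro i
  fin_cases i <;> simp only [Fin.zero_eta, Fin.mk_one, Fin.reduceFinMk, G,
    Matrix.cons_val_zero, Matrix.cons_val_one, Matrix.cons_val] <;> fun_prop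

lemma cont_zeta (r : ℝ) : Continuous (zeta r) := by
  rw [continuous_pi_iff]
  intro i
  fin_cases i <;> simp only [Fin.zero_eta, Fin.mk_one, Fin.reduceFinMk, zeta,
    Matrix.cons_val_zero, Matrix.cons_val_one, Matrix.cons_val] <;> fun_prop

lemma cont_n2 : Continuous n2 := by unfold n2; fun_prop

lemma eL_T3 (v : Fin 3 → ℝ) : eL (T3 v) = v := by
  rw [T3_apply]
  show ![v 0, v 1, v 2] = v
  ext i; fin_cases i <;> simp

lemma T3_eL (y : (ℝ × ℝ) × ℝ) : T3 (eL y) = y := by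
  rw [T3_apply]; simp [eL]

lemma cont_eL : Continuous (fun y : (ℝ × ℝ) × ℝ => eL y) := by
  show Continuous (fun y : (ℝ × ℝ) × ℝ => (![y.1.1, y.1.2, y.2] : Fin 3 → ℝ))
  rw [continuous_pi_iff]
  intro i
  fin_cases i <;> simp only [Fin.zero_eta, Fin.mk_one, Fin.reduceFinMk,
    Matrix.cons_val_zero, Matrix.cons_val_one, Matrix.cons_val] <;> fun_prop

lemma n2_smul (c : ℝ) (v : Fin 3 → ℝ) : n2 (c • v) = c ^ 2 * n2 v := by
  simp only [n2, Pi.smul_apply, smul_eq_mul]; ring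

theorem strictY {r : ℝ} (hr : 0 < r) {S : Set (E3 × E3)} (hST : S ⊆ TS r) (F : Fam S)
    (hcov : ∀ p ∈ S, ∃ i, ∃ w ∈ F.B i, F.φ i w = p)
    (hmeet : ∀ ζ y : Fin 3 → ℝ, n2 y = n2 ζ → y + ζ ≠ 0 → ∃ p ∈ S, G r ζ p = y)
    {p q : Q4} (hp : p ∈ hat r S) (hq : q ∈ hat r S) (Dp : LD (hat r S)) (hDp : p ∈ Dp.W)
    (Dq : LD (hat r S)) (hDq : q ∈ Dq.W) (h1 : fderiv ℝ Dp.f p q ≠ 0)
    (h2 : fderiv ℝ Dq.f q p ≠ 0) (hpq : Ind p q) {ε : ℝ} (hε : ε ≠ 0) {u₀ : E3}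
    (hu₀ : zeta r u₀ = xi0 ε p q) : ∀ᶠ u in 𝓝 u₀, MM r u < F.Y r u := by
  set ξ₀ := xi0 ε p q with hξ₀
  set η₀ := y0 ε p q with hη₀
  have hn0 : n2 ξ₀ ≠ 0 := xi0_ne hε hpq
  have hn0' : n2 η₀ = n2 ξ₀ := n2_y0 ε p q
  have hpos0 : 0 < n2 ξ₀ := lt_of_le_of_ne (n2_nonneg _) (Ne.symm hn0)
  have hposη : 0 < n2 η₀ := by rw [hn0']; exact hpos0
  have hRp : Rel ξ₀ η₀ p := rel_left ε p q
  have hRq : Rel ξ₀ η₀ q := rel_right ε p q
  -- separation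
  have hne : pr r p ≠ pr r q := by
    intro h
    obtain ⟨c, -, hc⟩ := pr_inj hr.ne' hp.1 hq.1 h
    have := (hpq c (-1) (by rw [hc]; simp)).2
    norm_num at this
  obtain ⟨N0', N1', hN0o, hN1o, hpN0, hqN1, hdisj⟩ := t2_separation hne
  have hA1 : pr r ⁻¹' N1' ∈ 𝓝 q := (cd_pr r hq.1).continuousAt.preimage_mem_nhds (hN1o.mem_nhds hqN1)
  have hZ1 := near_meet hq Dq hDq h2 hRq hRp hn0 hA1
  have hGp : G r ξ₀ (pr r p) = η₀ := G_pr hr.ne' hp.1 hRp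
  have hZ1' : ∀ᶠ z : (Fin 3 → ℝ) × (E3 × E3) in 𝓝 (ξ₀, pr r p), n2 z.1 = n2 (G r z.1 z.2) →
      ∃ x ∈ hat r S, x ∈ pr r ⁻¹' N1' ∧ Rel z.1 (G r z.1 z.2) x := by
    have h3 : Tendsto (fun z : (Fin 3 → ℝ) × (E3 × E3) => (z.1, G r z.1 z.2)) (𝓝 (ξ₀, pr r p))
        (𝓝 (ξ₀, η₀)) := by
      have := (cont_GG r).tendsto (ξ₀, pr r p)
      simpa only [hGp] using this
    exact h3.eventually hZ1
  obtain ⟨U1, V1, hU1o, hU1, hV1o, hV1, hUV1⟩ := mem_nhds_prod_iff'.1 hZ1'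
  set N0 : Set (E3 × E3) := V1 ∩ N0' with hN0
  have hN0open : IsOpen N0 := hV1o.inter hN0o
  have hpN : pr r p ∈ N0 := ⟨hV1, hpN0⟩
  have hA0 : pr r ⁻¹' N0 ∈ 𝓝 p := (cd_pr r hp.1).continuousAt.preimage_mem_nhds
    (hN0open.mem_nhds hpN)
  have hZ0 := near_meet hp Dp hDp h1 hRp hRq hn0 hA0
  obtain ⟨U0, V0, hU0o, hU0, hV0o, hV0, hUV0⟩ := mem_nhds_prod_iff'.1 hZ0
  -- eventual conditions on u
  have c1 : ∀ᶠ u in 𝓝 u₀, zeta r u ∈ U1 := (cont_zeta r).continuousAt.eventually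
    (by rw [hu₀]; exact hU1o.mem_nhds hU1)
  have c2 : ∀ᶠ u in 𝓝 u₀, zeta r u ∈ U0 := (cont_zeta r).continuousAt.eventually
    (by rw [hu₀]; exact hU0o.mem_nhds hU0)
  have c3 : ∀ᶠ u in 𝓝 u₀, 0 < n2 (zeta r u) := by
    apply (cont_n2.comp (cont_zeta r)).continuousAt.eventually (lt_mem_nhds _)
    show 0 < n2 (zeta r u₀)
    rw [hu₀]; exact hpos0
  have c4 : ∀ᶠ u in 𝓝 u₀, (√(n2 (zeta r u) / n2 η₀)) • η₀ ∈ V0 := by
    have h3 : Continuous (fun u => (√(n2 (zeta r u) / n2 η₀)) • η₀) := by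
      have h4 : Continuous (fun u => √(n2 (zeta r u) / n2 η₀)) :=
        Real.continuous_sqrt.comp ((cont_n2.comp (cont_zeta r)).div_const _)
      exact h4.fun_smul continuous_const
    have h5 : Tendsto (fun u => (√(n2 (zeta r u) / n2 η₀)) • η₀) (𝓝 u₀) (𝓝 η₀) := by
      have h6 : (√(n2 (zeta r u₀) / n2 η₀)) • η₀ = η₀ := by
        rw [hu₀, hn0', div_self hn0, Real.sqrt_one, one_smul]
      have := h3.tendsto u₀
      rw [h6] at this
      exact this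
    exact h5.eventually (hV0o.mem_nhds hV0)
  filter_upwards [c1, c2, c3, c4] with u hu1 hu2 hu3 hu4
  set ξ := zeta r u with hξ
  have hξne : n2 ξ ≠ 0 := hu3.ne'
  have hmT : ∀ i, MapsTo (F.φ i) (F.O i) (TS r) := fun i w hw => hST (F.hm i hw)
  -- splitting
  set X : Fin F.n → Set (ℝ × ℝ) := fun i => F.O i ∩ F.φ i ⁻¹' N0 with hX
  have hXm : ∀ i, MeasurableSet (X i) := fun i =>
    ((F.hφ i).continuousOn.isOpen_inter_preimage (F.hO i) hN0open).measurableSet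
  have hsplit : ∀ i, flux r (F.φ i) (F.B i) ξ =
      flux r (F.φ i) (F.B i ∩ X i) ξ + flux r (F.φ i) (F.B i \ X i) ξ := by
    intro i
    unfold flux
    exact (lintegral_inter_add_sdiff _ _ (hXm i)).symm
  have hY : F.Y r u = (∑ i, flux r (F.φ i) (F.B i ∩ X i) ξ) +
      ∑ i, flux r (F.φ i) (F.B i \ X i) ξ := by
    unfold Fam.Y
    rw [← Finset.sum_add_distrib]
    exact Finset.sum_congr rfl (fun i _ => hsplit i)
  -- (α)
  have hα : MM r u ≤ ∑ i, flux r (F.φ i) (F.B i \ X i) ξ := by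
    have h3 := lower hr (φ := F.φ) (B := fun i => F.B i \ X i) (O := F.O)
      (fun i => (F.hB i).diff (hXm i)) F.hO (fun i w hw => F.hBO i hw.1) F.hφ hmT hξne
      (by
        intro y hy hyne
        have hkey : ∃ x ∈ S, x ∉ N0 ∧ G r ξ x = y := by
          obtain ⟨x, hxS, hxy⟩ := hmeet ξ y hy hyne
          by_cases hxN : x ∈ N0
          · have h4 : (ξ, x) ∈ U1 ×ˢ V1 := ⟨hu1, hxN.1⟩
            have h5 := hUV1 h4
            have h6 : n2 ξ = n2 (G r ξ x) := by rw [hxy, hy]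
            obtain ⟨x', hx'S, hx'A, hx'R⟩ := h5 h6
            refine ⟨pr r x', hx'S.2, ?_, ?_⟩
            · intro h7
              exact Set.disjoint_left.1 hdisj h7.2 hx'A
            · simp only at hx'R
              rw [hxy] at hx'R
              exact G_pr hr.ne' hx'S.1 hx'R
          · exact ⟨x, hxS, hxN, hxy⟩
        obtain ⟨x, hxS, hxN, hxy⟩ := hkey
        obtain ⟨i, w, hw, hwx⟩ := hcov x hxS
        refine ⟨i, w, ⟨hw, fun h7 => hxN ?_⟩, by rw [hwx]; exact hxy⟩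
        have h8 : F.φ i w ∈ N0 := h7.2
        rwa [hwx] at h8)
    unfold MM
    rw [← hξ]
    apply ENNReal.div_le_of_le_mul
    calc volume (Bl ξ) ≤ _ := h3
      _ = (∑ i, flux r (F.φ i) (F.B i \ X i) ξ) * (ENNReal.ofReal (n2 ξ) * K3) := by ring
  -- (β)
  have hβ : (∑ i, flux r (F.φ i) (F.B i ∩ X i) ξ) ≠ 0 := by
    intro h0
    have h0' : ∀ i, flux r (F.φ i) (F.B i ∩ X i) ξ = 0 := by
      intro i
      exact (Finset.sum_eq_zero_iff.1 h0) i (Finset.mem_univ i)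
    have hv : ∀ i, volume (Psi r ξ (F.φ i) '' ((F.B i ∩ X i) ×ˢ Ioo (0:ℝ) 1)) = 0 := by
      intro i
      have h3 := image_le hr (F.hO i) (F.hφ i) (hmT i) ((F.hB i).inter (hXm i))
        (fun w hw => F.hBO i hw.1) ξ
      rw [h0' i, mul_zero, zero_mul] at h3
      exact le_antisymm h3 (zero_le)
    have hU : volume (⋃ i, Psi r ξ (F.φ i) '' ((F.B i ∩ X i) ×ˢ Ioo (0:ℝ) 1)) = 0 :=
      measure_iUnion_null hv
    set Ω : Set ((ℝ × ℝ) × ℝ) := {y | 0 < n2 (eL y) ∧ n2 (eL y) < n2 ξ} ∩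
      (fun y => (√(n2 ξ / n2 (eL y))) • eL y) ⁻¹' V0 with hΩ
    have hnc : Continuous (fun y : (ℝ × ℝ) × ℝ => n2 (eL y)) := cont_n2.comp cont_eL
    have hΩo : IsOpen Ω := by
      apply ContinuousOn.isOpen_inter_preimage _ _ hV0o
      · have h4 : ContinuousOn (fun y : (ℝ × ℝ) × ℝ => √(n2 ξ / n2 (eL y)))
            {y | 0 < n2 (eL y) ∧ n2 (eL y) < n2 ξ} := by
          apply Real.continuous_sqrt.comp_continuousOn
          exact continuousOn_const.div hnc.continuousOn (fun y hy => hy.1.ne')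
        exact h4.fun_smul cont_eL.continuousOn
      · exact (isOpen_lt continuous_const hnc).inter (isOpen_lt hnc continuous_const)
    have hΩne : Ω.Nonempty := by
      set s := √(n2 ξ / n2 η₀) with hs
      have hs2 : s ^ 2 = n2 ξ / n2 η₀ := Real.sq_sqrt (by positivity)
      have hnv : n2 ((s / 2) • η₀) = n2 ξ / 4 := by
        rw [n2_smul, div_pow, hs2]; field_simp; norm_num
      refine ⟨T3 ((s / 2) • η₀), ⟨?_, ?_⟩, ?_⟩
      · rw [eL_T3, hnv]; positivity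
      · rw [eL_T3, hnv]; linarith
      · show (√(n2 ξ / n2 (eL (T3 ((s / 2) • η₀))))) • eL (T3 ((s / 2) • η₀)) ∈ V0
        rw [eL_T3, hnv, smul_smul]
        have h4 : n2 ξ / (n2 ξ / 4) = 2 ^ 2 := by field_simp; norm_num
        rw [h4, Real.sqrt_sq (by norm_num)]
        have h5 : 2 * (s / 2) = s := by ring
        rw [h5]
        exact hu4
    have hsub : Ω ⊆ ⋃ i, Psi r ξ (F.φ i) '' ((F.B i ∩ X i) ×ˢ Ioo (0:ℝ) 1) := by
      rintro y ⟨⟨hy1, hy2⟩, hy3⟩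
      set v := eL y with hv
      set ρ := √(n2 v / n2 ξ) with hρ
      have hρ0 : 0 < ρ := Real.sqrt_pos.2 (by positivity)
      have hρ2 : ρ ^ 2 = n2 v / n2 ξ := Real.sq_sqrt (by positivity)
      have hρ1 : ρ < 1 := by
        have : ρ ^ 2 < 1 := by rw [hρ2, div_lt_one hu3]; exact hy2
        nlinarith
      have hinv : √(n2 ξ / n2 v) = ρ⁻¹ := by
        rw [hρ, ← Real.sqrt_inv, inv_div]
      have hy3' : ρ⁻¹ • v ∈ V0 := by
        have h4 : (√(n2 ξ / n2 v)) • v ∈ V0 := hy3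
        rwa [hinv] at h4
      have hn2 : n2 ξ = n2 (ρ⁻¹ • v) := by
        rw [n2_smul, inv_pow, hρ2]; field_simp
      obtain ⟨x, hxS, hxA, hxR⟩ := hUV0 (show (ξ, ρ⁻¹ • v) ∈ U0 ×ˢ V0 from ⟨hu2, hy3'⟩) hn2
      obtain ⟨i, w, hw, hwx⟩ := hcov (pr r x) hxS.2
      refine mem_iUnion.2 ⟨i, (w, ρ), ⟨⟨hw, F.hBO i hw, ?_⟩, hρ0, hρ1⟩, ?_⟩
      · show F.φ i w ∈ N0
        rw [hwx]; exact hxA
      · show ρ • T3 (G r ξ (F.φ i w)) = y
        rw [hwx, G_pr hr.ne' hxS.1 hxR, map_smul, smul_smul, mul_inv_cancel₀ hρ0.ne', one_smul, hv,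
          T3_eL]
    have hpos : 0 < volume Ω := hΩo.measure_pos _ hΩne
    exact hpos.ne' (measure_mono_null hsub hU)
  have hfin : MM r u ≠ ⊤ := by
    unfold MM
    apply ENNReal.div_ne_top _ (den_ne_zero hξne)
    have hsubB : Bl ξ ⊆ (Icc (-(1 + n2 ξ)) (1 + n2 ξ) ×ˢ Icc (-(1 + n2 ξ)) (1 + n2 ξ)) ×ˢ
        Icc (-(1 + n2 ξ)) (1 + n2 ξ) := by
      intro y hy
      have hy' : y.1.1 ^ 2 + y.1.2 ^ 2 + y.2 ^ 2 < n2 ξ := hy
      have a0 := sq_nonneg y.1.1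
      have a1 := sq_nonneg y.1.2
      have a2 := sq_nonneg y.2
      refine ⟨⟨abs_le.1 ?_, abs_le.1 ?_⟩, abs_le.1 ?_⟩ <;>
        exact abs_le_of_sq_le_sq (by nlinarith) (by linarith)
    apply ne_top_of_le_ne_top _ (measure_mono hsubB)
    have : IsCompact ((Icc (-(1 + n2 ξ)) (1 + n2 ξ) ×ˢ Icc (-(1 + n2 ξ)) (1 + n2 ξ)) ×ˢ
        Icc (-(1 + n2 ξ)) (1 + n2 ξ)) := (isCompact_Icc.prod isCompact_Icc).prod isCompact_Icc
    exact this.measure_lt_top.ne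
  rw [hY]
  calc MM r u < MM r u + ∑ i, flux r (F.φ i) (F.B i ∩ X i) ξ := ENNReal.lt_add_right hfin hβ
    _ ≤ (∑ i, flux r (F.φ i) (F.B i \ X i) ξ) + ∑ i, flux r (F.φ i) (F.B i ∩ X i) ξ := by
        gcongr
    _ = _ := add_comm _ _

end Pool.Agent.Helper28.Cr
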