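import Mathlib
import Pool.Agent.Helper28.CrEq2

open Set Filter Topology MeasureTheory
open scoped ContDiff InnerProductSpace ENNReal

namespace Pool.Agent.Helper28.Cr

/-- translation invariance near a point -/
lemma local_translate {S : Set Q4} {q p : Q4} (hq : q ∈ S) (D : LD S) (hD : q ∈ D.W)
    (hflat : ∀ᶠ x in 𝓝 q, x ∈ S → x ∈ D.W → fderiv ℝ D.f x p = 0) :
    ∀ᶠ s in 𝓝[>] (0:ℝ), q + s • p ∈ S := by
  have hf0 : D.f q = 0 := (D.ze q hD).1 hq
  obtain ⟨ν, hν⟩ : ∃ ν, 0 < fderiv ℝ D.f q ν := by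
    by_contra hn
    push Not at hn
    apply D.re q hD hq
    ext a
    have h1 := hn a
    have h2 := hn (-a)
    rw [map_neg] at h2
    simp only [_root_.zero_apply]
    linarith
  obtain ⟨C, hC, hroot⟩ := root (D.cda1 hD) hf0 hν
  -- Lipschitz bound for the directional derivative
  have hcd : ContDiffAt ℝ 1 (fun x => fderiv ℝ D.f x p) q := by
    have h1 : ContDiffAt ℝ 1 (fderiv ℝ D.f) q := (D.cda hD).fderiv_right (m := 1) (by
      have : ((1:WithTop ℕ∞) + 1) = ((2 : ℕ∞) : WithTop ℕ∞) := by norm_num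
      rw [this]; exact_mod_cast le_top)
    exact h1.clm_apply contDiffAt_const
  obtain ⟨K, T, hT, hLip⟩ := hcd.exists_lipschitzOnWith
  have hnear : ∀ᶠ x in 𝓝 q, x ∈ T ∧ x ∈ D.W ∧ (x ∈ S → x ∈ D.W → fderiv ℝ D.f x p = 0) := by
    filter_upwards [hT, D.op.mem_nhds hD, hflat] with x h1 h2 h3 using ⟨h1, h2, h3⟩
  obtain ⟨ρ, hρ, hball⟩ := Metric.eventually_nhds_iff.1 hnear
  have hν0 : 0 ≤ ‖ν‖ := norm_nonneg _
  -- bound near q
  have hbound : ∀ᶠ x in 𝓝 q, |fderiv ℝ D.f x p| ≤ (K * ‖ν‖ * C) * |D.f x| := by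
    have h4 : ∀ᶠ x in 𝓝 q, C * |D.f x| < ρ / (2 * (1 + ‖ν‖)) := by
      have hcont : ContinuousAt (fun x => C * |D.f x|) q :=
        continuousAt_const.mul (D.cda hD).continuousAt.abs
      apply hcont.eventually (gt_mem_nhds _)
      simp only [hf0, abs_zero, mul_zero]
      positivity
    have h5 : ∀ᶠ x in 𝓝 q, dist x q < ρ / 2 := Metric.ball_mem_nhds q (by positivity)
    filter_upwards [hroot, h4, h5] with x hx h4 h5
    obtain ⟨σ, hσ, h0⟩ := hx
    have hdist : dist (x + σ • ν) x = |σ| * ‖ν‖ := by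
      rw [dist_eq_norm, add_sub_cancel_left, norm_smul, Real.norm_eq_abs]
    have hin : dist (x + σ • ν) q < ρ := by
      calc dist (x + σ • ν) q ≤ dist (x + σ • ν) x + dist x q := dist_triangle _ _ _
        _ = |σ| * ‖ν‖ + dist x q := by rw [hdist]
        _ ≤ ρ / (2 * (1 + ‖ν‖)) * ‖ν‖ + dist x q := by
            gcongr
            exact hσ.trans h4.le
        _ < ρ / 2 + ρ / 2 := by
            have : ρ / (2 * (1 + ‖ν‖)) * ‖ν‖ ≤ ρ / 2 := by
              rw [div_mul_eq_mul_div, div_le_div_iff₀ (by positivity) (by positivity)]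
              nlinarith
            linarith
        _ = ρ := by ring
    obtain ⟨hT1, hW1, hfl⟩ := hball hin
    obtain ⟨hT2, hW2, -⟩ := hball (show dist x q < ρ by linarith)
    have hS1 : x + σ • ν ∈ S := (D.ze _ hW1).2 h0
    have hz := hfl hS1 hW1
    have hL := hLip.dist_le_mul x hT2 (x + σ • ν) hT1
    rw [hz, Real.dist_eq, sub_zero, dist_comm, hdist] at hL
    calc |fderiv ℝ D.f x p| ≤ K * (|σ| * ‖ν‖) := hL
      _ ≤ K * (C * |D.f x| * ‖ν‖) := by gcongr
      _ = _ := by ring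
  -- along the line
  have hline : Tendsto (fun s : ℝ => q + s • p) (𝓝 0) (𝓝 q) := by
    have : Tendsto (fun s : ℝ => q + s • p) (𝓝 0) (𝓝 (q + (0:ℝ) • p)) :=
      Continuous.tendsto (by fun_prop) 0
    rwa [zero_smul, add_zero] at this
  have hev : ∀ᶠ s in 𝓝 (0:ℝ), q + s • p ∈ D.W ∧
      |fderiv ℝ D.f (q + s • p) p| ≤ (K * ‖ν‖ * C) * |D.f (q + s • p)| :=
    (hline.eventually (D.op.mem_nhds hD)).and (hline.eventually hbound)
  obtain ⟨δ, hδ, hevδ⟩ := Metric.eventually_nhds_iff.1 hev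
  have hzero : ∀ s ∈ Icc (0:ℝ) (δ / 2), D.f (q + s • p) = 0 := by
    apply eq_zero_of_abs_deriv_le_mul_abs_self_of_eq_zero_right (f := fun s => D.f (q + s • p))
      (f' := fun s => fderiv ℝ D.f (q + s • p) p) (K := (K * ‖ν‖ * C))
    · intro s hs
      have hs' : dist s 0 < δ := by rw [Real.dist_eq, sub_zero, abs_of_nonneg hs.1]; linarith [hs.2]
      have h1 : ContinuousAt D.f (q + s • p) := (D.cda (hevδ hs').1).continuousAt
      have h2 : ContinuousAt (fun s : ℝ => q + s • p) s := by fun_prop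
      exact (ContinuousAt.comp (f := fun s : ℝ => q + s • p) (g := D.f) h1 h2).continuousWithinAt
    · intro s hs
      have hs' : dist s 0 < δ := by rw [Real.dist_eq, sub_zero, abs_of_nonneg hs.1]; linarith [hs.2]
      have h1 : DifferentiableAt ℝ D.f (q + s • p) :=
        (D.cda1 (hevδ hs').1).differentiableAt (by norm_num)
      have h2 : HasDerivAt (fun s : ℝ => q + s • p) p s := by
        simpa using ((hasDerivAt_id s).smul_const p).const_add q
      exact (h1.hasFDerivAt.comp_hasDerivAt s h2).hasDerivWithinAt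
    · simp [hf0]
    · intro s hs
      have hs' : dist s 0 < δ := by rw [Real.dist_eq, sub_zero, abs_of_nonneg hs.1]; linarith [hs.2]
      rw [Real.norm_eq_abs, Real.norm_eq_abs]
      exact (hevδ hs').2
  have h6 : ∀ᶠ s in 𝓝[>] (0:ℝ), s < δ / 2 := by
    have : ∀ᶠ s in 𝓝 (0:ℝ), s < δ / 2 := gt_mem_nhds (by positivity)
    exact this.filter_mono nhdsWithin_le_nhds
  filter_upwards [h6, self_mem_nhdsWithin] with s hs1 hs2
  have hs0 : 0 < s := hs2
  have hs' : dist s 0 < δ := by rw [Real.dist_eq, sub_zero, abs_of_pos hs0]; linarith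
  exact (D.ze _ (hevδ hs').1).2 (hzero s ⟨hs0.le, hs1.le⟩)

/-- continuation along a segment staying away from the origin -/
lemma continue_line {S : Set Q4} (hcl : ∀ q, q ≠ 0 → q ∉ S → ∀ᶠ y in 𝓝 q, y ∉ S) {q p : Q4}
    (hq : q ∈ S) {T : ℝ} (hne : ∀ t : ℝ, q + t • p ≠ 0)
    (hstep : ∀ t ∈ Ico (0:ℝ) T, q + t • p ∈ S → ∀ᶠ s in 𝓝[>] (0:ℝ), (q + t • p) + s • p ∈ S) :
    ∀ t ∈ Icc (0:ℝ) T, q + t • p ∈ S := by
  have hclosed : IsClosed {t : ℝ | q + t • p ∈ S} := by
    rw [← isOpen_compl_iff, isOpen_iff_eventually]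
    intro t ht
    have h1 := hcl _ (hne t) ht
    have h2 : ContinuousAt (fun t : ℝ => q + t • p) t := by fun_prop
    exact h2.eventually h1
  have h1 := IsClosed.Icc_subset_of_forall_mem_nhdsWithin (a := (0:ℝ)) (b := T)
    (s := {t : ℝ | q + t • p ∈ S}) (hclosed.inter isClosed_Icc)
    (by show q + (0:ℝ) • p ∈ S; rw [zero_smul, add_zero]; exact hq)
    (by
      rintro t ⟨ht, htI⟩
      have h2 := hstep t htI ht
      have h3 : Tendsto (fun s : ℝ => s - t) (𝓝[>] t) (𝓝[>] 0) := by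
        apply tendsto_nhdsWithin_of_tendsto_nhds_of_eventually_within
        · have : Tendsto (fun s : ℝ => s - t) (𝓝 t) (𝓝 (t - t)) := Continuous.tendsto (by fun_prop) t
          rw [sub_self] at this
          exact this.mono_left nhdsWithin_le_nhds
        · filter_upwards [self_mem_nhdsWithin] with s hs
          exact sub_pos.2 (mem_Ioi.1 hs)
      filter_upwards [h3.eventually h2] with s hs
      show q + s • p ∈ S
      have e : q + t • p + (s - t) • p = q + s • p := by rw [sub_smul]; abel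
      rwa [e] at hs)
  exact fun t ht => h1 ht

lemma two_functionals {L L' : Q4 →L[ℝ] ℝ} (h : L ≠ 0) (h' : L' ≠ 0) : ∃ ν, 0 < L ν ∧ L' ν ≠ 0 := by
  obtain ⟨a, ha⟩ : ∃ a, 0 < L a := by
    by_contra hn
    push Not at hn
    apply h
    ext a
    have h1 := hn a
    have h2 := hn (-a)
    rw [map_neg] at h2
    simp only [_root_.zero_apply]
    linarith
  obtain ⟨b, hb⟩ : ∃ b, L' b ≠ 0 := by
    by_contra hn
    push Not at hn
    exact h' (by ext a; simpa using hn a)
  by_cases hc : L' a = 0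
  · refine ⟨a + (L a / (2 * (1 + |L b|))) • b, ?_, ?_⟩
    · rw [map_add, map_smul, smul_eq_mul]
      have h0 : 0 ≤ |L b| := abs_nonneg _
      have h1 : -(L a / 2) ≤ L a / (2 * (1 + |L b|)) * L b := by
        rw [div_mul_eq_mul_div, le_div_iff₀ (by positivity)]
        nlinarith [neg_abs_le (L b)]
      linarith
    · rw [map_add, map_smul, hc, zero_add, smul_eq_mul]
      have h0 : 0 ≤ |L b| := abs_nonneg _
      exact mul_ne_zero (by positivity) hb
  · exact ⟨a, ha, hc⟩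

theorem cone_flat {S : Set Q4} (hnz : ∀ q ∈ S, q ≠ 0)
    (hcone : ∀ q ∈ S, ∀ c : ℝ, c ≠ 0 → c • q ∈ S)
    (hcl : ∀ q, q ≠ 0 → q ∉ S → ∀ᶠ y in 𝓝 q, y ∉ S) (hloc : ∀ q ∈ S, ∃ D : LD S, q ∈ D.W)
    (hE1 : ∀ p ∈ S, ∀ q ∈ S, Ind p q → ∀ Dp : LD S, p ∈ Dp.W → ∀ Dq : LD S, q ∈ Dq.W →
      fderiv ℝ Dp.f p q = 0 ∨ fderiv ℝ Dq.f q p = 0) (hne : S.Nonempty) :
    ∃ L : Q4 →L[ℝ] ℝ, L ≠ 0 ∧ ∀ q, q ∈ S ↔ q ≠ 0 ∧ L q = 0 := by
  -- non-parallel from the derivative
  have hind : ∀ p ∈ S, ∀ D : LD S, p ∈ D.W → ∀ q, fderiv ℝ D.f p q ≠ 0 → Ind p q := by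
    intro p hp D hD q hq
    apply ind_of_notMem (hnz p hp)
    intro hm
    rw [Submodule.mem_span_singleton] at hm
    obtain ⟨a, rfl⟩ := hm
    apply hq
    rw [map_smul, cone_deriv hcone D hp hD, smul_zero]
  have hE2 : ∀ p ∈ S, ∀ q ∈ S, ∀ D : LD S, p ∈ D.W → fderiv ℝ D.f p q = 0 := by
    intro p hp q hq D hD
    by_contra hc
    have hpq := hind p hp D hD q hc
    have hpp : fderiv ℝ D.f p p = 0 := cone_deriv hcone D hp hD
    have hne' : ∀ t : ℝ, q + t • p ≠ 0 := by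
      intro t h0
      have := (hpq t 1 (by rw [one_smul, add_comm]; exact h0)).2
      norm_num at this
    have hall : ∀ t : ℝ, 0 ≤ t → q + t • p ∈ S := by
      intro t ht
      apply continue_line hcl hq (T := t) hne' _ t ⟨ht, le_refl _⟩
      intro t' _ hmem
      obtain ⟨D', hD'⟩ := hloc _ hmem
      apply local_translate hmem D' hD'
      have h1 : ∀ᶠ x in 𝓝 (q + t' • p), fderiv ℝ D.f p x ≠ 0 := by
        have h2 : ContinuousAt (fun x => fderiv ℝ D.f p x) (q + t' • p) :=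
          (fderiv ℝ D.f p).continuous.continuousAt
        apply h2.eventually (isOpen_ne.mem_nhds _)
        show fderiv ℝ D.f p (q + t' • p) ≠ 0
        rw [map_add, map_smul, hpp, smul_zero, add_zero]
        exact hc
      filter_upwards [h1] with x hx hxS hxW
      exact (hE1 p hp x hxS (hind p hp D hD x hx) D hD D' hxW).resolve_left hx
    -- the limit
    apply hc
    have hd : DifferentiableAt ℝ D.f p := (D.cda1 hD).differentiableAt (by norm_num)
    have hl : HasDerivAt (fun t : ℝ => p + t • q) q 0 := by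
      simpa using ((hasDerivAt_id (0:ℝ)).smul_const q).const_add p
    have e0 : p + (0:ℝ) • q = p := by simp
    have h1 : HasDerivAt (fun t : ℝ => D.f (p + t • q)) (fderiv ℝ D.f p q) 0 := by
      have hd' : HasFDerivAt D.f (fderiv ℝ D.f p) (p + (0:ℝ) • q) := by rw [e0]; exact hd.hasFDerivAt
      exact hd'.comp_hasDerivAt (0:ℝ) hl
    have h2 : Tendsto (fun t : ℝ => p + t • q) (𝓝 0) (𝓝 p) := by
      have := hl.continuousAt.tendsto
      rwa [e0] at this
    have h3 : ∀ᶠ t in 𝓝[>] (0:ℝ), D.f (p + t • q) = 0 := by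
      have h4 : ∀ᶠ t in 𝓝[>] (0:ℝ), p + t • q ∈ D.W :=
        (h2.eventually (D.op.mem_nhds hD)).filter_mono nhdsWithin_le_nhds
      filter_upwards [h4, self_mem_nhdsWithin] with t ht ht0
      have ht0' : (0:ℝ) < t := ht0
      have h5 : p + t • q = t • (q + t⁻¹ • p) := by
        rw [smul_add, smul_smul, mul_inv_cancel₀ ht0'.ne', one_smul, add_comm]
      have h6 : p + t • q ∈ S := by
        rw [h5]; exact hcone _ (hall _ (by positivity)) _ ht0'.ne'
      exact (D.ze _ ht).1 h6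
    have h7 : HasDerivWithinAt (fun t : ℝ => D.f (p + t • q)) (fderiv ℝ D.f p q) (Ioi 0) 0 :=
      h1.hasDerivWithinAt
    have h8 : HasDerivWithinAt (fun t : ℝ => D.f (p + t • q)) 0 (Ioi 0) 0 := by
      have h9 : HasDerivWithinAt (fun _ : ℝ => (0:ℝ)) 0 (Ioi 0) 0 := hasDerivWithinAt_const _ _ _
      apply h9.congr_of_eventuallyEq h3
      simp only [zero_smul, add_zero]
      exact (D.ze _ hD).1 hp
    exact (uniqueDiffWithinAt_Ioi 0).eq_deriv _ h7 h8
  obtain ⟨p₀, hp₀⟩ := hne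
  obtain ⟨D₀, hD₀⟩ := hloc p₀ hp₀
  set L := fderiv ℝ D₀.f p₀ with hL
  have hL0 : L ≠ 0 := D₀.re p₀ hD₀ hp₀
  have hSL : ∀ q ∈ S, L q = 0 := fun q hq => hE2 p₀ hp₀ q hq D₀ hD₀
  refine ⟨L, hL0, fun x => ⟨fun hx => ⟨hnz x hx, hSL x hx⟩, ?_⟩⟩
  rintro ⟨hx0, hxL⟩
  by_cases hpar : x ∈ Submodule.span ℝ ({p₀} : Set Q4)
  · rw [Submodule.mem_span_singleton] at hpar
    obtain ⟨a, rfl⟩ := hpar
    have ha : a ≠ 0 := by rintro rfl; simp at hx0
    exact hcone p₀ hp₀ a ha
  have hind' : Ind p₀ x := ind_of_notMem (hnz p₀ hp₀) hpar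
  have hne' : ∀ t : ℝ, p₀ + t • (x - p₀) ≠ 0 := by
    intro t h0
    have h1 : (1 - t) • p₀ + t • x = 0 := by
      rw [← h0, smul_sub, sub_smul, one_smul]; abel
    have := hind' _ _ h1
    have h2 := this.1
    have h3 := this.2
    rw [h3] at h2
    norm_num at h2
  have hfin : p₀ + (1:ℝ) • (x - p₀) ∈ S := by
    apply continue_line hcl hp₀ (T := 1) hne' _ 1 ⟨by norm_num, le_refl _⟩
    intro t _ hmem
    obtain ⟨D, hD⟩ := hloc _ hmem
    set z := p₀ + t • (x - p₀) with hz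
    have hzL : L z = 0 := hSL z hmem
    have hpL : L p₀ = 0 := hSL p₀ hp₀
    have hxpL : L (x - p₀) = 0 := by rw [map_sub, hxL, hpL, sub_zero]
    obtain ⟨ν, hν1, hν2⟩ := two_functionals (D.re z hD hmem) hL0
    obtain ⟨C, hC, hroot⟩ := root (D.cda1 hD) ((D.ze z hD).1 hmem) hν1
    have hline : Tendsto (fun s : ℝ => z + s • (x - p₀)) (𝓝[>] 0) (𝓝 z) := by
      have : Tendsto (fun s : ℝ => z + s • (x - p₀)) (𝓝 0) (𝓝 (z + (0:ℝ) • (x - p₀))) :=
        Continuous.tendsto (by fun_prop) 0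
      rw [zero_smul, add_zero] at this
      exact this.mono_left nhdsWithin_le_nhds
    obtain ⟨ρ, hρ, hball⟩ := Metric.mem_nhds_iff.1 (D.op.mem_nhds hD)
    have hν0 : 0 ≤ ‖ν‖ := norm_nonneg _
    have h4 : ∀ᶠ y in 𝓝 z, C * |D.f y| < ρ / (2 * (1 + ‖ν‖)) := by
      have hcont : ContinuousAt (fun y => C * |D.f y|) z :=
        continuousAt_const.mul (D.cda hD).continuousAt.abs
      apply hcont.eventually (gt_mem_nhds _)
      simp only [(D.ze z hD).1 hmem, abs_zero, mul_zero]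
      positivity
    have h5 : ∀ᶠ y in 𝓝 z, dist y z < ρ / 2 := Metric.ball_mem_nhds z (by positivity)
    have hcomb : ∀ᶠ y in 𝓝 z, L y = 0 → y ∈ S := by
      filter_upwards [hroot, h4, h5] with y hy h4 h5 hyL
      obtain ⟨σ, hσ, h0⟩ := hy
      have hin : y + σ • ν ∈ D.W := by
        apply hball
        rw [Metric.mem_ball]
        calc dist (y + σ • ν) z ≤ dist (y + σ • ν) y + dist y z := dist_triangle _ _ _
          _ = |σ| * ‖ν‖ + dist y z := by
              rw [dist_eq_norm (y + σ • ν), add_sub_cancel_left, norm_smul, Real.norm_eq_abs]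
          _ ≤ ρ / (2 * (1 + ‖ν‖)) * ‖ν‖ + dist y z := by
              gcongr
              exact hσ.trans h4.le
          _ < ρ / 2 + ρ / 2 := by
              have : ρ / (2 * (1 + ‖ν‖)) * ‖ν‖ ≤ ρ / 2 := by
                rw [div_mul_eq_mul_div, div_le_div_iff₀ (by positivity) (by positivity)]
                nlinarith
              linarith
          _ = ρ := by ring
      have hS1 : y + σ • ν ∈ S := (D.ze _ hin).2 h0
      have h6 := hSL _ hS1
      rw [map_add, map_smul, hyL, zero_add, smul_eq_mul] at h6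
      have h7 : σ = 0 := (mul_eq_zero.1 h6).resolve_right hν2
      rw [h7, zero_smul, add_zero] at hS1
      exact hS1
    filter_upwards [hline.eventually hcomb] with s hs
    apply hs
    rw [map_add, map_smul, hzL, hxpL, smul_zero, add_zero]
  rwa [one_smul, add_sub_cancel] at hfin

end Pool.Agent.Helper28.Cr
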