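import Mathlib
import Pool.Agent.Helper28.CrEq3

open Set Filter Topology MeasureTheory
open scoped ContDiff InnerProductSpace ENNReal

namespace Pool.Agent.Helper28.Cr

section flat

lemma flat_id (p q : Q4) (hs : p 0 * q 0 + p 1 * q 1 + p 2 * q 2 + p 3 * q 3 = 0) (i : Fin 3) :
    2 * (y0 1 p q 0 * c1 p 0 + y0 1 p q 1 * c1 p 1 + y0 1 p q 2 * c1 p 2) * y0 1 p q i -
      nq p * nq q * c1 p i = nq p ^ 2 * c1 q i ∧
    2 * (y0 1 p q 0 * c2 p 0 + y0 1 p q 1 * c2 p 1 + y0 1 p q 2 * c2 p 2) * y0 1 p q i -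
      nq p * nq q * c2 p i = nq p ^ 2 * c2 q i := by
  set s := p 0 * q 0 + p 1 * q 1 + p 2 * q 2 + p 3 * q 3 with hsd
  have key : ∀ C D : Fin 3 → ℝ, True := fun _ _ => trivial
  fin_cases i
  · constructor
    · have e : 2 * (y0 1 p q 0 * c1 p 0 + y0 1 p q 1 * c1 p 1 + y0 1 p q 2 * c1 p 2) * y0 1 p q 0 -
          nq p * nq q * c1 p 0 - nq p ^ 2 * c1 q 0 =
          -s * (2 * s * c1 p 0 + 2 * (y0 1 p q 1 * c1 p 2 - y0 1 p q 2 * c1 p 1)) := by
        simp only [hsd, y0, c1, nq, WithLp.ofLp_toLp, Matrix.cons_val_zero, Matrix.cons_val_one,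
          Matrix.cons_val]
        ring
      rw [hs] at e
      simp only [Fin.zero_eta]
      linarith
    · have e : 2 * (y0 1 p q 0 * c2 p 0 + y0 1 p q 1 * c2 p 1 + y0 1 p q 2 * c2 p 2) * y0 1 p q 0 -
          nq p * nq q * c2 p 0 - nq p ^ 2 * c2 q 0 =
          -s * (2 * s * c2 p 0 + 2 * (y0 1 p q 1 * c2 p 2 - y0 1 p q 2 * c2 p 1)) := by
        simp only [hsd, y0, c2, nq, WithLp.ofLp_toLp, Matrix.cons_val_zero, Matrix.cons_val_one,
          Matrix.cons_val]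
        ring
      rw [hs] at e
      simp only [Fin.zero_eta]
      linarith
  · constructor
    · have e : 2 * (y0 1 p q 0 * c1 p 0 + y0 1 p q 1 * c1 p 1 + y0 1 p q 2 * c1 p 2) * y0 1 p q 1 -
          nq p * nq q * c1 p 1 - nq p ^ 2 * c1 q 1 =
          -s * (2 * s * c1 p 1 + 2 * (y0 1 p q 2 * c1 p 0 - y0 1 p q 0 * c1 p 2)) := by
        simp only [hsd, y0, c1, nq, WithLp.ofLp_toLp, Matrix.cons_val_zero, Matrix.cons_val_one,
          Matrix.cons_val]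
        ring
      rw [hs] at e
      simp only [Fin.mk_one]
      linarith
    · have e : 2 * (y0 1 p q 0 * c2 p 0 + y0 1 p q 1 * c2 p 1 + y0 1 p q 2 * c2 p 2) * y0 1 p q 1 -
          nq p * nq q * c2 p 1 - nq p ^ 2 * c2 q 1 =
          -s * (2 * s * c2 p 1 + 2 * (y0 1 p q 2 * c2 p 0 - y0 1 p q 0 * c2 p 2)) := by
        simp only [hsd, y0, c2, nq, WithLp.ofLp_toLp, Matrix.cons_val_zero, Matrix.cons_val_one,
          Matrix.cons_val]
        ring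
      rw [hs] at e
      simp only [Fin.mk_one]
      linarith
  · constructor
    · have e : 2 * (y0 1 p q 0 * c1 p 0 + y0 1 p q 1 * c1 p 1 + y0 1 p q 2 * c1 p 2) * y0 1 p q 2 -
          nq p * nq q * c1 p 2 - nq p ^ 2 * c1 q 2 =
          -s * (2 * s * c1 p 2 + 2 * (y0 1 p q 0 * c1 p 1 - y0 1 p q 1 * c1 p 0)) := by
        simp only [hsd, y0, c1, nq, WithLp.ofLp_toLp, Matrix.cons_val_zero, Matrix.cons_val_one,
          Matrix.cons_val]
        ring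
      rw [hs] at e
      simp only [Fin.reduceFinMk]
      linarith
    · have e : 2 * (y0 1 p q 0 * c2 p 0 + y0 1 p q 1 * c2 p 1 + y0 1 p q 2 * c2 p 2) * y0 1 p q 2 -
          nq p * nq q * c2 p 2 - nq p ^ 2 * c2 q 2 =
          -s * (2 * s * c2 p 2 + 2 * (y0 1 p q 0 * c2 p 1 - y0 1 p q 1 * c2 p 0)) := by
        simp only [hsd, y0, c2, nq, WithLp.ofLp_toLp, Matrix.cons_val_zero, Matrix.cons_val_one,
          Matrix.cons_val]
        ring
      rw [hs] at e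
      simp only [Fin.reduceFinMk]
      linarith

lemma flat_form {r : ℝ} {p q : Q4} (hp : p ≠ 0) (hq : q ≠ 0)
    (hs : p 0 * q 0 + p 1 * q 1 + p 2 * q 2 + p 3 * q 3 = 0) :
    ∃ m : E3, ‖m‖ = 1 ∧ pr r q = Kp r ((nq p)⁻¹ • c1 p) (-((nq p)⁻¹ • c2 p)) m := by
  have hnp := nq_pos hp
  have hnq := nq_pos hq
  have hnp' := hnp.ne'
  have hnq' := hnq.ne'
  set κ := (√(nq p * nq q))⁻¹ with hκ
  have hκ2 : κ * κ = (nq p * nq q)⁻¹ := by
    rw [hκ, ← mul_inv, Real.mul_self_sqrt (by positivity)]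
  have hκ0 : 0 < κ := inv_pos.2 (Real.sqrt_pos.2 (by positivity))
  set m' : E3 := !₂[y0 1 p q 0, y0 1 p q 1, y0 1 p q 2] with hm'
  have hm'0 : m' 0 = y0 1 p q 0 := by simp [hm']
  have hm'1 : m' 1 = y0 1 p q 1 := by simp [hm']
  have hm'2 : m' 2 = y0 1 p q 2 := by simp [hm']
  have hnorm : ‖m'‖ ^ 2 = nq p * nq q := by
    rw [nsq3, hm'0, hm'1, hm'2]
    have e : y0 1 p q 0 ^ 2 + y0 1 p q 1 ^ 2 + y0 1 p q 2 ^ 2 = nq p * nq q -
        (p 0 * q 0 + p 1 * q 1 + p 2 * q 2 + p 3 * q 3) ^ 2 := by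
      simp only [y0, nq, Matrix.cons_val_zero, Matrix.cons_val_one, Matrix.cons_val]
      ring
    rw [e, hs]; ring
  have id1 : ∀ i, 2 * ⟪m', c1 p⟫_ℝ * m' i - nq p * nq q * c1 p i = nq p ^ 2 * c1 q i := by
    intro i
    rw [inner3, hm'0, hm'1, hm'2]
    have := (flat_id p q hs i).1
    fin_cases i
    · simpa [hm'] using this
    · simpa [hm'] using this
    · simpa [hm'] using this
  have id2 : ∀ i, 2 * ⟪m', c2 p⟫_ℝ * m' i - nq p * nq q * c2 p i = nq p ^ 2 * c2 q i := by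
    intro i
    rw [inner3, hm'0, hm'1, hm'2]
    have := (flat_id p q hs i).2
    fin_cases i
    · simpa [hm'] using this
    · simpa [hm'] using this
    · simpa [hm'] using this
  refine ⟨κ • m', ?_, ?_⟩
  · have : ‖κ • m'‖ ^ 2 = 1 := by
      rw [norm_smul, mul_pow, hnorm, Real.norm_eq_abs, sq_abs, sq, hκ2]
      field_simp
    nlinarith [norm_nonneg (κ • m')]
  · unfold pr Kp
    apply Prod.ext
    · ext i
      simp only [PiLp.sub_apply, PiLp.smul_apply, smul_eq_mul, inner_smul_left, inner_smul_right,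
        conj_trivial]
      have e1 : 2 * ((nq p)⁻¹ * (κ * ⟪m', c1 p⟫_ℝ)) * (κ * m' i) =
          (κ * κ) * ((nq p)⁻¹ * (2 * ⟪m', c1 p⟫_ℝ * m' i)) := by ring
      have e2 := id1 i
      have e3 : 2 * ⟪m', c1 p⟫_ℝ * m' i = nq p ^ 2 * c1 q i + nq p * nq q * c1 p i := by linarith
      rw [e1, hκ2, e3]
      field_simp
      ring
    · ext i
      simp only [PiLp.sub_apply, PiLp.smul_apply, PiLp.neg_apply, smul_eq_mul, inner_smul_left,
        inner_smul_right, inner_neg_right, conj_trivial]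
      have e1 : 2 * -((nq p)⁻¹ * (κ * ⟪m', c2 p⟫_ℝ)) * (κ * m' i) =
          -((κ * κ) * ((nq p)⁻¹ * (2 * ⟪m', c2 p⟫_ℝ * m' i))) := by ring
      have e2 := id2 i
      have e3 : 2 * ⟪m', c2 p⟫_ℝ * m' i = nq p ^ 2 * c2 q i + nq p * nq q * c2 p i := by linarith
      rw [e1, hκ2, e3]
      field_simp
      ring

lemma Pf_of_Kp {r : ℝ} {a b m x v : E3} (ha : ‖a‖ = 1) (hab : ⟪a, b⟫_ℝ = 0) (hm : ‖m‖ = 1)
    (h : (x, v) = Kp r a b m) (hne : x ≠ -a) : v = r • Pf a b x := by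
  have h1 : x = (2 * ⟪m, a⟫_ℝ) • m - a := congrArg Prod.fst h
  have h2 : v = r • (b - (2 * ⟪m, b⟫_ℝ) • m) := congrArg Prod.snd h
  have haa : ⟪a, a⟫_ℝ = 1 := by rw [real_inner_self_eq_norm_sq, ha]; norm_num
  have hma : ⟪m, a⟫_ℝ ≠ 0 := by
    intro h0
    apply hne
    rw [h1, h0]; simp
  have hxb : ⟪x, b⟫_ℝ = 2 * ⟪m, a⟫_ℝ * ⟪m, b⟫_ℝ := by
    rw [h1, inner_sub_left, inner_smul_left, hab, conj_trivial]; ring
  have hxa : 1 + ⟪x, a⟫_ℝ = 2 * ⟪m, a⟫_ℝ ^ 2 := by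
    rw [h1, inner_sub_left, inner_smul_left, haa, conj_trivial]; ring
  have hax : a + x = (2 * ⟪m, a⟫_ℝ) • m := by rw [h1]; abel
  rw [h2]
  unfold Pf
  rw [hxb, hxa, hax, smul_smul]
  congr 3
  field_simp

end flat

end Pool.Agent.Helper28.Cr
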