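import Mathlib
import Pool.Agent.Helper28.CrEnd

open Set Filter Topology MeasureTheory
open scoped ContDiff InnerProductSpace ENNReal

namespace Pool.Agent.Helper28.Cr

lemma meet_all {r : ℝ} (hr : 0 < r) {U : Set E3} {V : E3 → E3} (hU : IsOpen U)
    (hd : Metric.sphere (0:E3) 1 ⊆ closure (U ∩ Metric.sphere (0:E3) 1))
    (hV : ContDiffOn ℝ ∞ V U) (hT : ∀ x ∈ U, ‖x‖ = 1 → ⟪x, V x⟫_ℝ = 0 ∧ ‖V x‖ = r)
    (hS : IsSurf r (Sig U V)) : ∀ ζ y : Fin 3 → ℝ, n2 y = n2 ζ → y + ζ ≠ 0 →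
      ∃ p ∈ Sig U V, G r ζ p = y := by
  intro ζ y h1 h2
  obtain ⟨q, hq, hR⟩ := sphere_cover hr hU hd hV hT hS h1 h2
  exact ⟨pr r q, hq.2, G_pr hr.ne' hq.1 hR⟩

theorem area_ge {r : ℝ} (hr : 0 < r) {U : Set E3} {V : E3 → E3} (hU : IsOpen U)
    (hd : Metric.sphere (0:E3) 1 ⊆ closure (U ∩ Metric.sphere (0:E3) 1))
    (hV : ContDiffOn ℝ ∞ V U) (hT : ∀ x ∈ U, ‖x‖ = 1 → ⟪x, V x⟫_ℝ = 0 ∧ ‖V x‖ = r)
    (hS : IsSurf r (Sig U V)) :
    (∫⁻ u in Metric.ball (0:E3) 1, MM r u) / C0 ≤ area (Sig U V) := by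
  obtain ⟨n, φ, B, O, hB, hinj, hO, hBO, hφ, hm, hdj, hcov⟩ := exists_family hr hS isClosed_closure
  set F : Fam (Sig U V) := ⟨n, φ, B, O, hB, hinj, hO, hBO, hφ, hm, hdj⟩ with hF
  have hmeet := meet_all hr hU hd hV hT hS
  have h1 : ∫⁻ u in Metric.ball (0:E3) 1, MM r u ≤ C0 * F.A := by
    rw [F.area_eq hr hS.1]
    apply lintegral_mono
    intro u
    apply fam_lower hr hS.1 F
    intro ζ y h1 h2
    obtain ⟨p, hp, hG⟩ := hmeet ζ y h1 h2
    obtain ⟨i, w, hw, hwp⟩ := hcov p hp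
    exact ⟨i, w, hw, by show G r ζ (φ i w) = y; rw [hwp]; exact hG⟩
  calc (∫⁻ u in Metric.ball (0:E3) 1, MM r u) / C0 ≤ (C0 * F.A) / C0 := by gcongr
    _ = F.A := by
        rw [ENNReal.mul_div_right_comm, ENNReal.div_self C0_ne_zero C0_ne_top, one_mul]
    _ ≤ area (Sig U V) := F.le_area

theorem eq_flat {r : ℝ} (hr : 0 < r) {U : Set E3} {V : E3 → E3} (hU : IsOpen U)
    (hd : Metric.sphere (0:E3) 1 ⊆ closure (U ∩ Metric.sphere (0:E3) 1))
    (hV : ContDiffOn ℝ ∞ V U) (hT : ∀ x ∈ U, ‖x‖ = 1 → ⟪x, V x⟫_ℝ = 0 ∧ ‖V x‖ = r)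
    (hS : IsSurf r (Sig U V))
    (hle : area (Sig U V) ≤ (∫⁻ u in Metric.ball (0:E3) 1, MM r u) / C0) :
    ∀ p ∈ hat r (Sig U V), ∀ q ∈ hat r (Sig U V), Ind p q →
      ∀ Dp : LD (hat r (Sig U V)), p ∈ Dp.W → ∀ Dq : LD (hat r (Sig U V)), q ∈ Dq.W →
      fderiv ℝ Dp.f p q = 0 ∨ fderiv ℝ Dq.f q p = 0 := by
  intro p hp q hq hpq Dp hDp Dq hDq
  by_contra hcon
  push Not at hcon
  obtain ⟨n, φ, B, O, hB, hinj, hO, hBO, hφ, hm, hdj, hcov⟩ := exists_family hr hS isClosed_closure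
  set F : Fam (Sig U V) := ⟨n, φ, B, O, hB, hinj, hO, hBO, hφ, hm, hdj⟩ with hF
  have hmeet := meet_all hr hU hd hV hT hS
  -- a.e. equality
  have hpt : ∀ u, MM r u ≤ F.Y r u := by
    intro u
    apply fam_lower hr hS.1 F
    intro ζ y h1 h2
    obtain ⟨p, hp, hG⟩ := hmeet ζ y h1 h2
    obtain ⟨i, w, hw, hwp⟩ := hcov p hp
    exact ⟨i, w, hw, by show G r ζ (φ i w) = y; rw [hwp]; exact hG⟩
  have hint : ∫⁻ u in Metric.ball (0:E3) 1, F.Y r u ≤ ∫⁻ u in Metric.ball (0:E3) 1, MM r u := by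
    rw [← F.area_eq hr hS.1]
    calc C0 * F.A ≤ C0 * area (Sig U V) := by gcongr; exact F.le_area
      _ ≤ C0 * ((∫⁻ u in Metric.ball (0:E3) 1, MM r u) / C0) := by gcongr
      _ = _ := ENNReal.mul_div_cancel C0_ne_zero C0_ne_top
  have hae := ae_eq_of_ae_le_of_lintegral_le (μ := volume.restrict (Metric.ball (0:E3) 1))
    (Eventually.of_forall hpt) (MM_int hr) F.measY hint
  -- the special direction
  set w₀ : E3 := !₂[xi0 1 p q 0, xi0 1 p q 1 / r, xi0 1 p q 2 / r] with hw₀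
  set ε : ℝ := 1 / (2 * (‖w₀‖ + 1)) with hε
  have hw0 : 0 ≤ ‖w₀‖ := norm_nonneg _
  have hε0 : 0 < ε := by positivity
  have hz : zeta r (ε • w₀) = xi0 ε p q := by
    ext i
    fin_cases i
    · simp [zeta, hw₀, xi0]
    · simp [zeta, hw₀, xi0]; field_simp
    · simp [zeta, hw₀, xi0]; field_simp
  have hball : ε • w₀ ∈ Metric.ball (0:E3) 1 := by
    rw [mem_ball_zero_iff, norm_smul, Real.norm_eq_abs, abs_of_pos hε0, hε]
    rw [div_mul_eq_mul_div, div_lt_one (by positivity)]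
    linarith
  have hstr := strictY hr hS.1 F (fun p hp => hcov p hp) hmeet hp hq Dp hDp Dq hDq hcon.1 hcon.2 hpq
    hε0.ne' hz
  obtain ⟨W, hW, hWo, hWm⟩ := eventually_nhds_iff.1 hstr
  have hopen : IsOpen (W ∩ Metric.ball (0:E3) 1) := hWo.inter Metric.isOpen_ball
  have hpos : 0 < volume (W ∩ Metric.ball (0:E3) 1) := hopen.measure_pos _ ⟨_, hWm, hball⟩
  have hnull : volume (W ∩ Metric.ball (0:E3) 1) = 0 := by
    rw [Filter.EventuallyEq, ae_restrict_iff' measurableSet_ball, ae_iff] at hae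
    apply measure_mono_null _ hae
    rintro u ⟨hu1, hu2⟩
    simp only [mem_ofPred_eq, Classical.not_imp]
    exact ⟨hu2, (hW u hu1).ne⟩
  exact hpos.ne' hnull

lemma c_norms {p : Q4} (hp : p ≠ 0) : ‖(nq p)⁻¹ • c1 p‖ = 1 ∧ ‖-((nq p)⁻¹ • c2 p)‖ = 1 ∧
    ⟪(nq p)⁻¹ • c1 p, -((nq p)⁻¹ • c2 p)⟫_ℝ = 0 := by
  have hn := nq_pos hp
  obtain ⟨o1, o2, o3, o4, o5, o6⟩ := c_orth p
  refine ⟨?_, ?_, ?_⟩
  · have : ‖(nq p)⁻¹ • c1 p‖ ^ 2 = 1 := by
      rw [← real_inner_self_eq_norm_sq, inner_smul_left, inner_smul_right, o1]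
      simp only [conj_trivial]; field_simp
    nlinarith [norm_nonneg ((nq p)⁻¹ • c1 p)]
  · rw [norm_neg]
    have : ‖(nq p)⁻¹ • c2 p‖ ^ 2 = 1 := by
      rw [← real_inner_self_eq_norm_sq, inner_smul_left, inner_smul_right, o2]
      simp only [conj_trivial]; field_simp
    nlinarith [norm_nonneg ((nq p)⁻¹ • c2 p)]
  · rw [inner_neg_right, inner_smul_left, inner_smul_right, o4]; simp

/-- the characterisation of the equality case -/
theorem eq_case {r : ℝ} (hr : 0 < r) {U : Set E3} {V : E3 → E3} (hU : IsOpen U)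
    (hd : Metric.sphere (0:E3) 1 ⊆ closure (U ∩ Metric.sphere (0:E3) 1))
    (hV : ContDiffOn ℝ ∞ V U) (hT : ∀ x ∈ U, ‖x‖ = 1 → ⟪x, V x⟫_ℝ = 0 ∧ ‖V x‖ = r)
    (hS : IsSurf r (Sig U V))
    (hle : area (Sig U V) ≤ (∫⁻ u in Metric.ball (0:E3) 1, MM r u) / C0) :
    ∃ a b : E3, ‖a‖ = 1 ∧ ‖b‖ = 1 ∧ ⟪a, b⟫_ℝ = 0 ∧
      ∀ x ∈ U, ‖x‖ = 1 → x ≠ -a ∧ V x = r • Pf a b x := by
  have hE1 := eq_flat hr hU hd hV hT hS hle
  have hne : (hat r (Sig U V)).Nonempty := by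
    obtain ⟨t, ht⟩ := hat_meets hr hU hd hV hT hS (p := ![1, 0, 0, 0]) (q := ![0, 1, 0, 0]) (by
      intro s t hst
      have e0 := congrFun hst 0
      have e1 := congrFun hst 1
      simp at e0 e1
      exact ⟨e0, e1⟩)
    exact ⟨_, ht⟩
  obtain ⟨L, hL0, hL⟩ := cone_flat (S := hat r (Sig U V)) (fun q hq => hq.1)
    (fun q hq c hc => hat_smul hq hc) (fun q hq h => hat_closed isClosed_closure hq h)
    (fun q hq => by
      obtain ⟨D, hD, -⟩ := hat_LD hr hS hq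
      exact ⟨D, hD⟩) hE1 hne
  set p : Q4 := fun i => L (Pi.single i 1) with hp
  have hLp : ∀ q : Q4, L q = p 0 * q 0 + p 1 * q 1 + p 2 * q 2 + p 3 * q 3 := by
    intro q
    have h1 : q = q 0 • (Pi.single 0 1 : Q4) + q 1 • (Pi.single 1 1 : Q4) +
        q 2 • (Pi.single 2 1 : Q4) + q 3 • (Pi.single 3 1 : Q4) := by
      ext i; fin_cases i <;> simp
    have h2 : L q = q 0 * p 0 + q 1 * p 1 + q 2 * p 2 + q 3 * p 3 := by
      conv_lhs => rw [h1]
      simp only [map_add, map_smul, smul_eq_mul, hp]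
    rw [h2]; ring
  have hp0 : p ≠ 0 := by
    intro h0
    apply hL0
    apply ContinuousLinearMap.ext
    intro q
    rw [hLp, h0]; simp
  have hn := nq_pos hp0
  obtain ⟨n1, n2', n3⟩ := c_norms hp0
  set a : E3 := (nq p)⁻¹ • c1 p with ha
  set b : E3 := -((nq p)⁻¹ • c2 p) with hb
  refine ⟨a, b, n1, n2', n3, fun x hxU hx => ?_⟩
  have hxT := hT x hxU hx
  have hTS : ((x, V x) : E3 × E3) ∈ TS r := ⟨hx, hxT.1, hxT.2⟩
  obtain ⟨q, hq, hpr⟩ := pr_surj hr hTS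
  have hmem : q ∈ hat r (Sig U V) := ⟨hq, by rw [hpr]; exact mem_sig hxU hx⟩
  have hLq : L q = 0 := ((hL q).1 hmem).2
  rw [hLp] at hLq
  obtain ⟨m, hm, hKp⟩ := flat_form (r := r) hp0 hq hLq
  rw [hpr] at hKp
  have hne' : x ≠ -a := by
    intro hxa
    -- two different vectors over `-a`
    have hq2 : qm p (im ![0, 1, 0]) ∈ hat r (Sig U V) := by
      rw [hL]
      constructor
      · apply ne_of_nq
        have : nq (qm p (im ![0, 1, 0])) = nq p := by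
          simp only [nq, qm, im, Matrix.cons_val_zero, Matrix.cons_val_one, Matrix.cons_val]; ring
        rw [this]; exact hn.ne'
      · rw [hLp]
        simp only [qm, im, Matrix.cons_val_zero, Matrix.cons_val_one, Matrix.cons_val]; ring
    have hq3 : qm p (im ![0, 0, 1]) ∈ hat r (Sig U V) := by
      rw [hL]
      constructor
      · apply ne_of_nq
        have : nq (qm p (im ![0, 0, 1])) = nq p := by
          simp only [nq, qm, im, Matrix.cons_val_zero, Matrix.cons_val_one, Matrix.cons_val]; ring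
        rw [this]; exact hn.ne'
      · rw [hLp]
        simp only [qm, im, Matrix.cons_val_zero, Matrix.cons_val_one, Matrix.cons_val]; ring
    have f2 : pr r (qm p (im ![0, 1, 0])) = (-a, (r * (nq p)⁻¹) • c2 p) := by
      have e0 : nq (qm p (im ![0, 1, 0])) = nq p := by
        simp only [nq, qm, im, Matrix.cons_val_zero, Matrix.cons_val_one, Matrix.cons_val]; ring
      have e1 : c1 (qm p (im ![0, 1, 0])) = -(c1 p) := by
        apply ext3 <;> simp only [c1, qm, im, PiLp.neg_apply, WithLp.ofLp_toLp,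
          Matrix.cons_val_zero, Matrix.cons_val_one, Matrix.cons_val] <;> ring
      have e2 : c2 (qm p (im ![0, 1, 0])) = c2 p := by
        apply ext3 <;> simp only [c2, qm, im, PiLp.neg_apply, WithLp.ofLp_toLp,
          Matrix.cons_val_zero, Matrix.cons_val_one, Matrix.cons_val] <;> ring
      unfold pr
      rw [e0, e1, e2, smul_neg]
    have f3 : pr r (qm p (im ![0, 0, 1])) = (-a, -((r * (nq p)⁻¹) • c2 p)) := by
      have e0 : nq (qm p (im ![0, 0, 1])) = nq p := by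
        simp only [nq, qm, im, Matrix.cons_val_zero, Matrix.cons_val_one, Matrix.cons_val]; ring
      have e1 : c1 (qm p (im ![0, 0, 1])) = -(c1 p) := by
        apply ext3 <;> simp only [c1, qm, im, PiLp.neg_apply, WithLp.ofLp_toLp,
          Matrix.cons_val_zero, Matrix.cons_val_one, Matrix.cons_val] <;> ring
      have e2 : c2 (qm p (im ![0, 0, 1])) = -(c2 p) := by
        apply ext3 <;> simp only [c2, qm, im, PiLp.neg_apply, WithLp.ofLp_toLp,
          Matrix.cons_val_zero, Matrix.cons_val_one, Matrix.cons_val] <;> ring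
      unfold pr
      rw [e0, e1, e2, smul_neg, smul_neg]
    have g2 := sig_fibre hU hV hq2.2 (by rw [f2]; show -a ∈ U; rw [← hxa]; exact hxU)
    have g3 := sig_fibre hU hV hq3.2 (by rw [f3]; show -a ∈ U; rw [← hxa]; exact hxU)
    rw [f2] at g2
    rw [f3] at g3
    have g4 : (r * (nq p)⁻¹) • c2 p = -((r * (nq p)⁻¹) • c2 p) := by
      simp only at g2 g3
      rw [g2]
      nth_rewrite 1 [← g3]
      rw [g2]
    have g5 : (r * (nq p)⁻¹) • c2 p = 0 := by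
      have h2 : (2:ℝ) • ((r * (nq p)⁻¹) • c2 p) = 0 := by
        rw [two_smul]
        nth_rewrite 1 [g4]
        simp
      exact (smul_eq_zero.1 h2).resolve_left (by norm_num)
    have g6 : (nq p)⁻¹ • c2 p = 0 := by
      rw [mul_smul] at g5
      exact (smul_eq_zero.1 g5).resolve_left hr.ne'
    rw [hb, g6] at n2'
    simp at n2'
  exact ⟨hne', Pf_of_Kp n1 n3 hm hKp hne'⟩

end Pool.Agent.Helper28.Cr
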