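import Pool.Agent.Helper28.Polar

set_option linter.unusedSectionVars false
open MeasureTheory Metric Set
open scoped ENNReal NNReal

namespace Pool.Agent.Helper28

variable {E : Type*} [NormedAddCommGroup E] [InnerProductSpace ℝ E]
  [FiniteDimensional ℝ E] [MeasurableSpace E] [BorelSpace E]

/-- radial extension -/
noncomputable def rext (W : E → E) (x : E) : E := ‖x‖ • W (‖x‖⁻¹ • x)

theorem hat_norm (x : E) (hx : x ≠ 0) : ‖‖x‖⁻¹ • x‖ = 1 := by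
  rw [norm_smul, norm_inv, norm_norm, inv_mul_cancel₀ (norm_ne_zero_iff.2 hx)]

theorem rext_lip (W : E → E) (L C : ℝ) (hL0 : 0 ≤ L)
    (hL : ∀ x y : E, ‖x‖ = 1 → ‖y‖ = 1 → ‖W x - W y‖ ≤ L * ‖x - y‖)
    (hC : ∀ x : E, ‖x‖ = 1 → ‖W x‖ ≤ C) (x y : E) :
    ‖rext W x - rext W y‖ ≤ (2 * L + C) * ‖x - y‖ := by
  by_cases hx : x = 0
  · subst hx
    by_cases hy : y = 0
    · subst hy; simp
    · have h1 : rext W (0 : E) = 0 := by simp [rext]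
      rw [h1, zero_sub, zero_sub, norm_neg, norm_neg, rext, norm_smul, norm_norm]
      have := hC _ (hat_norm y hy)
      nlinarith [norm_nonneg y, mul_nonneg hL0 (norm_nonneg y)]
  by_cases hy : y = 0
  · subst hy
    have h1 : rext W (0 : E) = 0 := by simp [rext]
    rw [h1, sub_zero, sub_zero, rext, norm_smul, norm_norm]
    have := hC _ (hat_norm x hx)
    nlinarith [norm_nonneg x, mul_nonneg hL0 (norm_nonneg x)]
  have hnx : 0 < ‖x‖ := norm_pos_iff.2 hx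
  have hny : 0 < ‖y‖ := norm_pos_iff.2 hy
  set u := ‖x‖⁻¹ • x with hu
  set v := ‖y‖⁻¹ • y with hv
  have e1 : rext W x - rext W y = ‖x‖ • (W u - W v) + (‖x‖ - ‖y‖) • W v := by
    rw [rext, rext, smul_sub, sub_smul]; abel
  have hxu : ‖x‖ • u = x := by rw [hu, smul_smul, mul_inv_cancel₀ hnx.ne', one_smul]
  have hyv : ‖y‖ • v = y := by rw [hv, smul_smul, mul_inv_cancel₀ hny.ne', one_smul]
  have hun : ‖u‖ = 1 := hat_norm x hx
  have hvn : ‖v‖ = 1 := hat_norm y hy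
  have habs : |‖x‖ - ‖y‖| ≤ ‖x - y‖ := abs_norm_sub_norm_le x y
  have e2 : ‖x‖ * ‖u - v‖ ≤ 2 * ‖x - y‖ := by
    have : ‖x‖ • (u - v) = (x - y) - (‖x‖ - ‖y‖) • v := by
      rw [smul_sub, sub_smul, hxu, hyv]; abel
    calc ‖x‖ * ‖u - v‖ = ‖‖x‖ • (u - v)‖ := by rw [norm_smul, norm_norm]
      _ = ‖(x - y) - (‖x‖ - ‖y‖) • v‖ := by rw [this]
      _ ≤ ‖x - y‖ + ‖(‖x‖ - ‖y‖) • v‖ := norm_sub_le _ _
      _ = ‖x - y‖ + |‖x‖ - ‖y‖| := by rw [norm_smul, hvn, mul_one, Real.norm_eq_abs]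
      _ ≤ 2 * ‖x - y‖ := by linarith
  rw [e1]
  calc ‖‖x‖ • (W u - W v) + (‖x‖ - ‖y‖) • W v‖
      ≤ ‖‖x‖ • (W u - W v)‖ + ‖(‖x‖ - ‖y‖) • W v‖ := norm_add_le _ _
    _ = ‖x‖ * ‖W u - W v‖ + |‖x‖ - ‖y‖| * ‖W v‖ := by
        rw [norm_smul, norm_smul, norm_norm, Real.norm_eq_abs]
    _ ≤ ‖x‖ * (L * ‖u - v‖) + ‖x - y‖ * C := by
        have h1 := hL u v hun hvn
        have h2 := hC v hvn
        have h3 : ‖x‖ * ‖W u - W v‖ ≤ ‖x‖ * (L * ‖u - v‖) :=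
          mul_le_mul_of_nonneg_left h1 hnx.le
        have h4 : |‖x‖ - ‖y‖| * ‖W v‖ ≤ ‖x - y‖ * C :=
          mul_le_mul habs h2 (norm_nonneg _) (norm_nonneg _)
        linarith
    _ ≤ (2 * L + C) * ‖x - y‖ := by
        nlinarith

/-- The derivative of `x + rext W x` at points of the ray through `z`. -/
noncomputable def dH (W : E → E) (z : E) : E →L[ℝ] E :=
  1 + (innerSL ℝ z).smulRight (W z) + (fderiv ℝ W z) ∘L (1 - (innerSL ℝ z).smulRight z)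

theorem norm_deriv (x : E) (hx : x ≠ 0) :
    HasFDerivAt (fun y : E => ‖y‖) (innerSL ℝ (‖x‖⁻¹ • x)) x := by
  have hn : ‖x‖ ≠ 0 := norm_ne_zero_iff.2 hx
  have h1 := (hasStrictFDerivAt_norm_sq x).hasFDerivAt.sqrt (by positivity)
  have h2 : (fun y : E => Real.sqrt (‖y‖ ^ 2)) = fun y => ‖y‖ := by
    funext y; exact Real.sqrt_sq (norm_nonneg _)
  rw [h2] at h1
  refine h1.congr_fderiv ?_
  ext v
  rw [Real.sqrt_sq (norm_nonneg _)]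
  simp
  field_simp

theorem rext_deriv (W : E → E) (hW : ContDiff ℝ 1 W) (x : E) (hx : x ≠ 0) :
    HasFDerivAt (fun y : E => y + rext W y) (dH W (‖x‖⁻¹ • x)) x := by
  have hn : ‖x‖ ≠ 0 := norm_ne_zero_iff.2 hx
  have h1 := norm_deriv x hx
  have h2 : HasFDerivAt (fun y : E => ‖y‖⁻¹) (-(‖x‖ ^ 2)⁻¹ • (innerSL ℝ) (‖x‖⁻¹ • x)) x :=
    (hasDerivAt_inv hn).comp_hasFDerivAt x h1
  have h3 : HasFDerivAt (fun y : E => ‖y‖⁻¹ • y)
      (‖x‖⁻¹ • ContinuousLinearMap.id ℝ E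
        + (-(‖x‖ ^ 2)⁻¹ • (innerSL ℝ) (‖x‖⁻¹ • x)).smulRight x) x :=
    h2.smul (hasFDerivAt_id x)
  have hWd : HasFDerivAt W (fderiv ℝ W (‖x‖⁻¹ • x)) ((fun y : E => ‖y‖⁻¹ • y) x) :=
    (hW.differentiable (by norm_num) (‖x‖⁻¹ • x)).hasFDerivAt
  have h4 : HasFDerivAt (fun y : E => W (‖y‖⁻¹ • y)) ((fderiv ℝ W (‖x‖⁻¹ • x)).comp
      (‖x‖⁻¹ • ContinuousLinearMap.id ℝ E
        + (-(‖x‖ ^ 2)⁻¹ • (innerSL ℝ) (‖x‖⁻¹ • x)).smulRight x)) x :=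
    HasFDerivAt.comp (f := fun y : E => ‖y‖⁻¹ • y) (g := W) x hWd h3
  have h5 : HasFDerivAt (fun y : E => y + rext W y)
      (ContinuousLinearMap.id ℝ E + (‖x‖ • ((fderiv ℝ W (‖x‖⁻¹ • x)).comp
      (‖x‖⁻¹ • ContinuousLinearMap.id ℝ E
        + (-(‖x‖ ^ 2)⁻¹ • (innerSL ℝ) (‖x‖⁻¹ • x)).smulRight x))
        + ((innerSL ℝ) (‖x‖⁻¹ • x)).smulRight (W (‖x‖⁻¹ • x)))) x :=
    (hasFDerivAt_id x).add (h1.smul h4)
  refine h5.congr_fderiv ?_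
  set T := fderiv ℝ W (‖x‖⁻¹ • x) with hT
  set w := W (‖x‖⁻¹ • x) with hw
  ext v
  simp only [dH, add_apply, smul_apply,
    ContinuousLinearMap.comp_apply, ContinuousLinearMap.smulRight_apply,
    sub_apply, one_apply_eq_self, ContinuousLinearMap.id_apply,
    innerSL_apply_apply]
  rw [← hT, ← hw]
  simp only [map_add, map_sub, map_smul, smul_add, smul_smul]
  rw [mul_inv_cancel₀ hn, one_smul]
  have e1 : ‖x‖ * (-(‖x‖ ^ 2)⁻¹ • inner ℝ (‖x‖⁻¹ • x) v)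
      = - (inner ℝ (‖x‖⁻¹ • x) v * ‖x‖⁻¹) := by
    simp only [smul_eq_mul]
    field_simp
  rw [e1, neg_smul]
  abel

end Pool.Agent.Helper28
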