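import Pool.Agent.Helper28.Degree

set_option linter.unusedSectionVars false
open MeasureTheory Metric Set
open scoped ENNReal NNReal

namespace Pool.Agent.Helper28

variable {E : Type*} [NormedAddCommGroup E] [InnerProductSpace ℝ E]
  [FiniteDimensional ℝ E] [MeasurableSpace E] [BorelSpace E]

theorem det_pos_of_near_one (T : E →L[ℝ] E) (hT : ‖T‖ < 1) : 0 < (1 + T).det := by
  by_contra hneg
  push Not at hneg
  have hcont : Continuous (fun t : ℝ => (1 + t • T).det) := by
    have h1 : Continuous (fun t : ℝ => (1 + t • T : E →L[ℝ] E)) := by fun_prop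
    exact ContinuousLinearMap.continuous_det.comp h1
  have h0 : (1 + (0 : ℝ) • T).det = 1 := by
    rw [zero_smul, add_zero]
    exact LinearMap.det_id
  have h1 : (1 + (1 : ℝ) • T).det ≤ 0 := by rwa [one_smul]
  have hmem : (0 : ℝ) ∈ Icc ((1 + (1 : ℝ) • T).det) ((1 + (0 : ℝ) • T).det) := by
    rw [h0]; exact ⟨h1, zero_le_one⟩
  obtain ⟨t, ht, ht0⟩ := intermediate_value_Icc' (zero_le_one) hcont.continuousOn hmem
  have hker := LinearMap.bot_lt_ker_of_det_eq_zero (f := ((1 + t • T : E →L[ℝ] E) : E →ₗ[ℝ] E)) ht0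
  obtain ⟨v, hv, hv0⟩ := Submodule.exists_mem_ne_zero_of_ne_bot (bot_lt_iff_ne_bot.1 hker)
  have hv1 : v + t • T v = 0 := by simpa using hv
  have hv2 : v = -(t • T v) := eq_neg_of_add_eq_zero_left hv1
  have hn : ‖v‖ ≤ ‖T‖ * ‖v‖ := by
    calc ‖v‖ = ‖t • T v‖ := by conv_lhs => rw [hv2, norm_neg]
      _ = |t| * ‖T v‖ := by rw [norm_smul, Real.norm_eq_abs]
      _ ≤ 1 * (‖T‖ * ‖v‖) := by
          refine mul_le_mul ?_ (T.le_opNorm v) (norm_nonneg _) zero_le_one
          rw [abs_of_nonneg ht.1]; exact ht.2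
      _ = ‖T‖ * ‖v‖ := one_mul _
  have hvp : 0 < ‖v‖ := norm_pos_iff.2 hv0
  nlinarith

theorem dH_cont (W : E → E) (hW : ContDiff ℝ 1 W) : Continuous (dH W) := by
  have h1 := hW.continuous_fderiv (by norm_num)
  have h2 := hW.continuous
  unfold dH
  have h3 : Continuous (fun z : E => (innerSL ℝ z).smulRight (W z)) := by
    fun_prop
  have h4 : Continuous (fun z : E => (innerSL ℝ z).smulRight z) := by
    fun_prop
  exact (continuous_const.add h3).add (h1.clm_comp (continuous_const.sub h4))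

theorem degree_lintegral {n : ℕ} (hn : Module.finrank ℝ E = n + 1) (W : E → E)
    (hW : ContDiff ℝ 1 W) (L C : ℝ) (hL0 : 0 ≤ L) (hC0 : 0 ≤ C)
    (hL : ∀ x y : E, ‖x‖ = 1 → ‖y‖ = 1 → ‖W x - W y‖ ≤ L * ‖x - y‖)
    (hC : ∀ x : E, ‖x‖ = 1 → ‖W x‖ ≤ C) (hsm : 2 * L + C < 1) :
    ∫⁻ z : sphere (0 : E) 1, ENNReal.ofReal |(dH W z).det|
        * ENNReal.ofReal ((‖(z : E) + W z‖)⁻¹ ^ (n + 1) / (n + 1))
        ∂(volume : Measure E).toSphere
      = volume (ball (0 : E) 1) := by
  have hlip := rext_lip W L C hL0 hL hC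
  set H : E → E := fun x => x + rext W x with hH
  have hinj : Function.Injective H := by
    intro x y hxy
    have h1 : x - y = -(rext W x - rext W y) := by
      have : x + rext W x = y + rext W y := hxy
      have h2 : x - y = rext W y - rext W x := by
        rw [sub_eq_sub_iff_add_eq_add, this, add_comm]
      rw [h2]; abel
    have h2 := hlip x y
    rw [← norm_neg, ← h1] at h2
    have h3 : ‖x - y‖ = 0 := by
      nlinarith [norm_nonneg (x - y)]
    exact sub_eq_zero.1 (norm_eq_zero.1 h3)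
  have hsurj : Function.Surjective H := by
    have happ : ApproximatesLinearOn H
        ((ContinuousLinearEquiv.refl ℝ E : E ≃L[ℝ] E) : E →L[ℝ] E) univ
        (⟨2 * L + C, by positivity⟩ : ℝ≥0) := by
      intro x _ y _
      have : H x - H y - ((ContinuousLinearEquiv.refl ℝ E : E ≃L[ℝ] E) : E →L[ℝ] E) (x - y)
          = rext W x - rext W y := by
        simp only [hH, ContinuousLinearEquiv.coe_refl, ContinuousLinearMap.id_apply]
        abel
      rw [this]
      exact hlip x y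
    refine happ.surjective ?_
    rcases subsingleton_or_nontrivial E with hs | hs
    · exact Or.inl hs
    · right
      have h1 : ‖(((ContinuousLinearEquiv.refl ℝ E : E ≃L[ℝ] E)).symm : E →L[ℝ] E)‖₊ = 1 := by
        rw [← NNReal.coe_inj]
        simp
      rw [h1, inv_one]
      exact_mod_cast hsm
  have hH0 : H 0 = 0 := by simp [hH, rext]
  have hHs : ∀ x : E, x ≠ 0 → H x = ‖x‖ • (‖x‖⁻¹ • x + W (‖x‖⁻¹ • x)) := by
    intro x hx
    rw [smul_add, smul_smul, mul_inv_cancel₀ (norm_ne_zero_iff.2 hx), one_smul]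
    rfl
  have hHn : ∀ x : E, x ≠ 0 → ‖H x‖ = ‖x‖ * ‖‖x‖⁻¹ • x + W (‖x‖⁻¹ • x)‖ := by
    intro x hx
    rw [hHs x hx, norm_smul, norm_norm]
  set ρ : E → ℝ := fun z => ‖z + W z‖ with hρ
  have hρpos : ∀ x ∈ sphere (0 : E) 1, 0 < ρ x := by
    intro x hx
    have hx1 : ‖x‖ = 1 := by simpa using hx
    have h1 := hC x hx1
    have h2 := norm_sub_norm_le x (-W x)
    rw [sub_neg_eq_add, norm_neg, hx1] at h2
    simp only [hρ]
    linarith
  have hρm : Measurable ρ := (measurable_id.add hW.continuous.measurable).norm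
  have hφm : Measurable (fun z : E => ENNReal.ofReal |(dH W z).det|) := by
    have h1 : Continuous (fun z : E => |(dH W z).det|) :=
      (ContinuousLinearMap.continuous_det.comp (dH_cont W hW)).abs
    exact h1.measurable.ennreal_ofReal
  have hpol := polar hn (fun z : E => ENNReal.ofReal |(dH W z).det|) hφm ρ hρm hρpos
  set s : Set E := {x : E | x ≠ 0 ∧ ‖x‖ * ρ (‖x‖⁻¹ • x) < 1} with hs
  have hsm' : MeasurableSet s := by
    have hm1 : Measurable (fun x : E => ‖x‖⁻¹ • x) := by fun_prop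
    have h1 : MeasurableSet {x : E | ‖x‖ * ρ (‖x‖⁻¹ • x) < 1} :=
      measurableSet_lt (measurable_norm.mul (hρm.comp hm1)) measurable_const
    have h2 : s = ({0}ᶜ : Set E) ∩ {x : E | ‖x‖ * ρ (‖x‖⁻¹ • x) < 1} := by
      ext x; simp [hs]
    rw [h2]
    exact (measurableSet_singleton 0).compl.inter h1
  have hcov := lintegral_abs_det_fderiv_eq_addHaar_image (volume : Measure E) hsm'
    (f := H) (f' := fun x => dH W (‖x‖⁻¹ • x))
    (fun x hx => (rext_deriv W hW x hx.1).hasFDerivWithinAt) hinj.injOn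
  have himg : H '' s = ball (0 : E) 1 \ {0} := by
    ext y
    simp only [mem_image, mem_sdiff, mem_ball_zero_iff, mem_singleton_iff]
    constructor
    · rintro ⟨x, ⟨hx0, hx1⟩, rfl⟩
      refine ⟨?_, ?_⟩
      · rw [hHn x hx0]; exact hx1
      · intro h0
        exact hx0 (hinj (h0.trans hH0.symm))
    · rintro ⟨hy1, hy0⟩
      obtain ⟨x, rfl⟩ := hsurj y
      have hx0 : x ≠ 0 := by
        rintro rfl
        exact hy0 hH0
      refine ⟨x, ⟨hx0, ?_⟩, rfl⟩
      rw [hHn x hx0] at hy1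
      exact hy1
  rw [himg] at hcov
  rw [← hpol, hcov]
  rcases subsingleton_or_nontrivial E with hs1 | hs1
  · exfalso
    have := Module.finrank_zero_of_subsingleton (R := ℝ) (M := E)
    omega
  · exact measure_sdiff_null (measure_singleton 0)

theorem dH_det_pos (W : E → E)
    (hW : ContDiff ℝ 1 W) (L C : ℝ) (hL0 : 0 ≤ L) (hC0 : 0 ≤ C)
    (hL : ∀ x y : E, ‖x‖ = 1 → ‖y‖ = 1 → ‖W x - W y‖ ≤ L * ‖x - y‖)
    (hC : ∀ x : E, ‖x‖ = 1 → ‖W x‖ ≤ C) (hsm : 2 * L + C < 1) (z : E) (hz : ‖z‖ = 1) :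
    0 < (dH W z).det := by
  have hz0 : z ≠ 0 := by
    intro h; rw [h, norm_zero] at hz; exact zero_ne_one hz
  have h1 := rext_deriv W hW z hz0
  rw [hz, inv_one, one_smul] at h1
  have h2 : HasFDerivAt (rext W) (dH W z - 1) z := by
    have h3 := h1.sub (hasFDerivAt_id z)
    have h4 : (fun y : E => y + rext W y) - id = rext W := by
      funext y; simp
    rw [h4] at h3
    exact h3
  have hlip : LipschitzWith (⟨2 * L + C, by positivity⟩ : ℝ≥0) (rext W) :=
    LipschitzWith.of_dist_le_mul fun x y => by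
      rw [dist_eq_norm, dist_eq_norm]
      exact rext_lip W L C hL0 hL hC x y
  have h5 := h2.le_of_lipschitz hlip
  have h6 : ‖dH W z - 1‖ < 1 := lt_of_le_of_lt h5 hsm
  have h7 := det_pos_of_near_one _ h6
  rwa [add_sub_cancel] at h7

theorem degree_real {n : ℕ} (hn : Module.finrank ℝ E = n + 1) (W : E → E)
    (hW : ContDiff ℝ 1 W) (L C : ℝ) (hL0 : 0 ≤ L) (hC0 : 0 ≤ C)
    (hL : ∀ x y : E, ‖x‖ = 1 → ‖y‖ = 1 → ‖W x - W y‖ ≤ L * ‖x - y‖)
    (hC : ∀ x : E, ‖x‖ = 1 → ‖W x‖ ≤ C) (hsm : 2 * L + C < 1) :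
    ∫ z : sphere (0 : E) 1, (dH W z).det * (‖(z : E) + W z‖)⁻¹ ^ (n + 1)
        ∂(volume : Measure E).toSphere
      = (volume : Measure E).toSphere.real univ := by
  have h1 := degree_lintegral hn W hW L C hL0 hC0 hL hC hsm
  have hdp := dH_det_pos W hW L C hL0 hC0 hL hC hsm
  have hne : ∀ z : sphere (0 : E) 1, ‖(z : E) + W z‖ ≠ 0 := by
    intro z
    have h3 := hC z (by simp)
    have h2 := norm_sub_norm_le (z : E) (-W z)
    rw [sub_neg_eq_add, norm_neg] at h2
    have h4 : ‖(z : E)‖ = 1 := by simp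
    rw [h4] at h2
    have : 0 < ‖(z : E) + W z‖ := by linarith
    exact this.ne'
  have hcont : Continuous (fun z : sphere (0 : E) 1 =>
      (dH W z).det * (‖(z : E) + W z‖)⁻¹ ^ (n + 1)) := by
    have c1 : Continuous (fun z : sphere (0 : E) 1 => (dH W z).det) :=
      ContinuousLinearMap.continuous_det.comp ((dH_cont W hW).comp continuous_subtype_val)
    have c2 : Continuous (fun z : sphere (0 : E) 1 => ‖(z : E) + W z‖) :=
      (continuous_subtype_val.add (hW.continuous.comp continuous_subtype_val)).norm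
    exact c1.mul ((c2.inv₀ hne).pow _)
  have hint : Integrable (fun z : sphere (0 : E) 1 =>
      (dH W z).det * (‖(z : E) + W z‖)⁻¹ ^ (n + 1)) (volume : Measure E).toSphere :=
    hcont.integrable_of_hasCompactSupport (HasCompactSupport.of_compactSpace _)
  have h2 : ∀ z : sphere (0 : E) 1, ENNReal.ofReal |(dH W z).det|
        * ENNReal.ofReal ((‖(z : E) + W z‖)⁻¹ ^ (n + 1) / (n + 1))
      = ENNReal.ofReal ((dH W z).det * (‖(z : E) + W z‖)⁻¹ ^ (n + 1) / (n + 1)) := by
    intro z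
    have hp := hdp z (by simp)
    rw [abs_of_pos hp, ← ENNReal.ofReal_mul hp.le, mul_div_assoc]
  rw [lintegral_congr h2, ← ofReal_integral_eq_lintegral_ofReal (hint.div_const _)
    (Filter.Eventually.of_forall fun z => ?_)] at h1
  · have h3 := congrArg ENNReal.toReal h1
    rw [ENNReal.toReal_ofReal, integral_div] at h3
    · rw [Measure.toSphere_real_apply_univ, hn, Measure.real, ← h3]
      push_cast
      field_simp
    · refine integral_nonneg fun z => ?_
      have hp := hdp z (by simp)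
      positivity
  · have hp := hdp z (by simp)
    positivity

end Pool.Agent.Helper28
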