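import Pool.Agent.Helper28.Haar

set_option linter.unusedSectionVars false
open MeasureTheory Metric

namespace Pool.Agent.Helper28

attribute [local instance] compactSpace_UG secondCountable_UG measUG borelUG

theorem cont_param {X Y : Type*} [TopologicalSpace X] [TopologicalSpace Y] [CompactSpace Y]
    [FirstCountableTopology X] [LocallyCompactSpace X]
    [MeasurableSpace Y] [OpensMeasurableSpace Y] (μ : Measure Y) [IsFiniteMeasure μ]
    (f : X → Y → ℝ) (hf : Continuous (Function.uncurry f)) :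
    Continuous (fun x => ∫ y, f x y ∂μ) := by
  have h := continuous_parametric_integral_of_continuous (μ := μ) (f := f) hf
    (s := Set.univ) isCompact_univ
  simpa using h

section Int
variable {E : Type*} [NormedAddCommGroup E] [InnerProductSpace ℝ E] [CompleteSpace E]
  [FiniteDimensional ℝ E] [MeasurableSpace E] [BorelSpace E]

theorem decomp_circle {n : ℕ} (hn : Module.finrank ℝ E = n + 2) (a y : E) (ha : ‖a‖ = 1)
    (hy : ‖y‖ = 1) : ∃ u : E, ‖u‖ = 1 ∧ inner ℝ a u = 0 ∧
      y = Real.cos (Real.arccos (inner ℝ a y)) • a + Real.sin (Real.arccos (inner ℝ a y)) • u := by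
  have hle := abs_real_inner_le_norm a y
  rw [ha, hy, one_mul, abs_le] at hle
  rw [Real.cos_arccos hle.1 hle.2, Real.sin_arccos]
  set c := inner ℝ a y with hc
  set w := y - c • a with hw
  have haw : inner ℝ a w = 0 := by
    rw [hw, inner_sub_right, real_inner_smul_right, real_inner_self_eq_norm_sq, ha]
    simp [hc]
  have hwn : ‖w‖ ^ 2 = 1 - c ^ 2 := by
    rw [hw, norm_sub_sq_real, norm_smul, hy, ha, real_inner_smul_right, real_inner_comm, ← hc,
      Real.norm_eq_abs, mul_one, sq_abs]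
    ring
  have hsq : Real.sqrt (1 - c ^ 2) = ‖w‖ := by rw [← hwn, Real.sqrt_sq (norm_nonneg _)]
  rw [hsq]
  by_cases h0 : w = 0
  · obtain ⟨b, hb⟩ := exists_onb1 (n := n + 1) hn a ha
    refine ⟨b 1, b.norm_eq_one 1, ?_, ?_⟩
    · rw [← hb]
      exact b.inner_eq_zero (by simp)
    · have : y = c • a := by rw [hw, sub_eq_zero] at h0; exact h0
      rw [h0]; simp [← this]
  · have hn0 : ‖w‖ ≠ 0 := norm_ne_zero_iff.2 h0
    refine ⟨‖w‖⁻¹ • w, ?_, ?_, ?_⟩
    · rw [norm_smul, norm_inv, norm_norm, inv_mul_cancel₀ hn0]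
    · rw [real_inner_smul_right, haw, mul_zero]
    · rw [smul_smul, mul_inv_cancel₀ hn0, one_smul, hw]
      abel

theorem integral_arccos (a : E) (σ : Measure (sphere (0 : E) 1))
    (hσ : σ = (volume : Measure E).toSphere) :
    ∫ y : sphere (0 : E) 1, Real.arccos (inner ℝ a (y : E)) ∂σ
      = Real.pi / 2 * σ.real Set.univ := by
  subst hσ
  have hfin : IsFiniteMeasure (volume : Measure E).toSphere := inferInstance
  have h1 := integral_sphMap (LinearIsometryEquiv.neg ℝ (E := E))
    (fun y => Real.arccos (inner ℝ a y))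
  simp only [LinearIsometryEquiv.coe_neg, inner_neg_right, Real.arccos_neg] at h1
  have hcont : Continuous (fun y : sphere (0 : E) 1 => Real.arccos (inner ℝ a (y : E))) := by
    fun_prop
  have hint : Integrable (fun y : sphere (0 : E) 1 => Real.arccos (inner ℝ a (y : E)))
      (volume : Measure E).toSphere :=
    hcont.integrable_of_hasCompactSupport (HasCompactSupport.of_compactSpace _)
  rw [integral_sub (integrable_const _) hint, integral_const, smul_eq_mul] at h1
  linarith

/-- Hilbert–Schmidt invariance -/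
theorem hs_inv {ι : Type*} [Fintype ι] (T : E →L[ℝ] E) (b c : OrthonormalBasis ι ℝ E) :
    ∑ i, ‖T (b i)‖ ^ 2 = ∑ i, ‖T (c i)‖ ^ 2 := by
  have key : ∀ d : OrthonormalBasis ι ℝ E, ∑ i, ‖T (d i)‖ ^ 2
      = LinearMap.trace ℝ E ((ContinuousLinearMap.adjoint T ∘L T : E →L[ℝ] E) : E →ₗ[ℝ] E) := by
    intro d
    rw [LinearMap.trace_eq_sum_inner _ d]
    refine Finset.sum_congr rfl fun i _ => ?_
    rw [ContinuousLinearMap.coe_coe, ContinuousLinearMap.comp_apply,
      ContinuousLinearMap.adjoint_inner_right, real_inner_self_eq_norm_sq]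
  rw [key b, key c]

theorem act_cont (y : E) : Continuous (fun Q : unitary (E →L[ℝ] E) => act Q y) := by
  have h : Continuous (fun Q : unitary (E →L[ℝ] E) =>
      ((Q⁻¹ : unitary (E →L[ℝ] E)) : E →L[ℝ] E)) :=
    continuous_subtype_val.comp continuous_inv
  exact h.clm_apply continuous_const

/-- The Hilbert–Schmidt size of the derivative along the sphere. -/
noncomputable def hsz {n : ℕ} (c : OrthonormalBasis (Fin (n + 2)) ℝ E) (V : E → E) (x : E) : ℝ :=
  Real.sqrt (∑ i, ‖fderiv ℝ V x (c i - inner ℝ x (c i) • x)‖ ^ 2)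

theorem hsz_cont {n : ℕ} (c : OrthonormalBasis (Fin (n + 2)) ℝ E) (V : E → E)
    (hV : ContDiff ℝ 1 V) : Continuous (hsz c V) := by
  have h1 := hV.continuous_fderiv (by norm_num)
  unfold hsz
  fun_prop

theorem hsz_frame {n : ℕ} (c : OrthonormalBasis (Fin (n + 2)) ℝ E) (V : E → E) (x : E)
    (d : OrthonormalBasis (Fin (n + 2)) ℝ E) (hd : d 0 = x) :
    hsz c V x = Real.sqrt (∑ i : Fin (n + 1), ‖fderiv ℝ V x (d i.succ)‖ ^ 2) := by
  unfold hsz
  congr 1
  set T : E →L[ℝ] E := fderiv ℝ V x ∘L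
    (1 - (innerSL ℝ x).smulRight x) with hT
  have e : ∀ y, T y = fderiv ℝ V x (y - inner ℝ x y • x) := by
    intro y
    simp [hT]
  have h := hs_inv T c d
  simp only [e] at h
  rw [h, Fin.sum_univ_succ]
  have hx : ‖x‖ = 1 := by rw [← hd]; exact d.norm_eq_one 0
  have h0 : d 0 - inner ℝ x (d 0) • x = 0 := by
    rw [hd, real_inner_self_eq_norm_sq, hx]; simp
  rw [h0, map_zero, norm_zero]
  simp only [ne_eq, OfNat.ofNat_ne_zero, not_false_eq_true, zero_pow, zero_add]
  refine Finset.sum_congr rfl fun i _ => ?_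
  have h1 : inner ℝ x (d i.succ) = 0 := by
    rw [← hd]
    exact d.inner_eq_zero (Fin.succ_ne_zero i).symm
  rw [h1, zero_smul, sub_zero]

theorem H5 {n : ℕ} (hn : Module.finrank ℝ E = n + 2) (c : OrthonormalBasis (Fin (n + 2)) ℝ E)
    (V : E → E) (hV : ContDiff ℝ 1 V) (b : OrthonormalBasis (Fin (n + 2)) ℝ E) :
    ((n : ℝ) + 1) * Fau V (b 0) (b 1) ≤ Real.sqrt (n + 1) *
      ∫ Q, hsz c V (act Q (b 0)) ∂(Measure.haar : Measure (unitary (E →L[ℝ] E))) := by
  set μ := (Measure.haar : Measure (unitary (E →L[ℝ] E))) with hμ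
  have h1 : ∀ i : Fin (n + 1), Fau V (b 0) (b i.succ) = Fau V (b 0) (b 1) := fun i =>
    Fau_const hn V _ _ _ _ (b.norm_eq_one _) (b.norm_eq_one _)
      (b.inner_eq_zero (Fin.succ_ne_zero i).symm) (b.norm_eq_one _) (b.norm_eq_one _)
      (b.inner_eq_zero (by simp))
  have hint : ∀ i : Fin (n + 1), Integrable (fun Q =>
      ‖fderiv ℝ V (act Q (b 0)) (act Q (b i.succ))‖) μ := by
    intro i
    have : Continuous (fun Q : unitary (E →L[ℝ] E) =>
      ‖fderiv ℝ V (act Q (b 0)) (act Q (b i.succ))‖) :=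
      (contDV V hV).comp ((act_cont (b 0)).prodMk (act_cont (b i.succ)))
    exact this.integrable_of_hasCompactSupport (HasCompactSupport.of_compactSpace _)
  have h2 : ((n : ℝ) + 1) * Fau V (b 0) (b 1)
      = ∫ Q, ∑ i : Fin (n + 1), ‖fderiv ℝ V (act Q (b 0)) (act Q (b i.succ))‖ ∂μ := by
    rw [integral_finsetSum _ fun i _ => hint i]
    have : ∀ i : Fin (n + 1), ∫ Q, ‖fderiv ℝ V (act Q (b 0)) (act Q (b i.succ))‖ ∂μ
        = Fau V (b 0) (b 1) := fun i => h1 i
    simp [this]
  rw [h2, ← integral_const_mul]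
  refine integral_mono (integrable_finsetSum _ fun i _ => hint i) ?_ fun Q => ?_
  · have : Continuous (fun Q : unitary (E →L[ℝ] E) =>
      Real.sqrt (n + 1) * hsz c V (act Q (b 0))) :=
      continuous_const.mul ((hsz_cont c V hV).comp (act_cont (b 0)))
    exact this.integrable_of_hasCompactSupport (HasCompactSupport.of_compactSpace _)
  · have hfr : hsz c V (act Q (b 0))
        = Real.sqrt (∑ i : Fin (n + 1), ‖fderiv ℝ V (act Q (b 0)) (act Q (b i.succ))‖ ^ 2) := by
      have := hsz_frame c V (act Q (b 0)) (b.map (Unitary.linearIsometryEquiv Q⁻¹)) rfl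
      exact this
    show ∑ i : Fin (n + 1), ‖fderiv ℝ V (act Q (b 0)) (act Q (b i.succ))‖
      ≤ Real.sqrt (n + 1) * hsz c V (act Q (b 0))
    rw [hfr, ← Real.sqrt_mul (by positivity)]
    refine Real.le_sqrt_of_sq_le ?_
    have := sq_sum_le_card_mul_sum_sq (s := (Finset.univ : Finset (Fin (n + 1))))
      (f := fun i => ‖fderiv ℝ V (act Q (b 0)) (act Q (b i.succ))‖)
    simpa using this

theorem poincare {n : ℕ} (hn : Module.finrank ℝ E = n + 2)
    (c : OrthonormalBasis (Fin (n + 2)) ℝ E) (V : E → E) (hV : ContDiff ℝ 1 V)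
    (hV1 : ∀ x ∈ sphere (0 : E) 1, ‖V x‖ = 1) :
    (volume : Measure E).toSphere.real Set.univ
        - ‖∫ x : sphere (0 : E) 1, V x ∂(volume : Measure E).toSphere‖
      ≤ Real.pi / 2 / Real.sqrt (n + 1)
        * ∫ x : sphere (0 : E) 1, hsz c V x ∂(volume : Measure E).toSphere := by
  set μ := (Measure.haar : Measure (unitary (E →L[ℝ] E))) with hμ
  set σ := (volume : Measure E).toSphere with hσ
  set m := μ.real Set.univ with hm
  set vol := σ.real Set.univ with hvol
  have hmpos : 0 < m := by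
    rw [hm, Measure.real]
    refine ENNReal.toReal_pos ?_ (measure_ne_top _ _)
    exact isOpen_univ.measure_ne_zero μ Set.univ_nonempty
  set F1 := Fau V (c 0) (c 1) with hF1
  have h1 : ∀ y : sphere (0 : E) 1,
      ∫ Q, ‖V (act Q (y : E)) - V (act Q (c 0))‖ ∂μ
        ≤ Real.arccos (inner ℝ (c 0) (y : E)) * F1 := by
    intro y
    obtain ⟨u, hu, hau, hy⟩ := decomp_circle hn (c 0) y (c.norm_eq_one 0) (by simp)
    have := H3 hn V hV (c 0) u (c.norm_eq_one 0) hu hau (Real.arccos (inner ℝ (c 0) (y : E)))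
      (Real.arccos_nonneg _)
    rw [← hy] at this
    refine this.trans (le_of_eq ?_)
    rw [hF1]
    congr 1
    exact Fau_const hn V _ _ _ _ (c.norm_eq_one _) hu hau (c.norm_eq_one _) (c.norm_eq_one _)
      (c.inner_eq_zero (by simp))
  have hcc : Continuous (Function.uncurry
      (fun (y : sphere (0 : E) 1) (Q : unitary (E →L[ℝ] E)) =>
        ‖V (act Q (y : E)) - V (act Q (c 0))‖)) := by
    have e1 : Continuous (fun p : sphere (0 : E) 1 × unitary (E →L[ℝ] E) => (p.2, (p.1 : E))) :=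
      continuous_snd.prodMk (continuous_subtype_val.comp continuous_fst)
    have e2 := act_continuous.comp e1
    have e3 : Continuous (fun p : sphere (0 : E) 1 × unitary (E →L[ℝ] E) => (p.2, c 0)) := by
      fun_prop
    have e4 := act_continuous.comp e3
    exact ((hV.continuous.comp e2).sub (hV.continuous.comp e4)).norm
  have hcc' : Continuous (Function.uncurry
      (fun (Q : unitary (E →L[ℝ] E)) (y : sphere (0 : E) 1) =>
        ‖V (act Q (y : E)) - V (act Q (c 0))‖)) := by
    have e1 : Continuous (fun p : unitary (E →L[ℝ] E) × sphere (0 : E) 1 => (p.1, (p.2 : E))) :=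
      continuous_fst.prodMk (continuous_subtype_val.comp continuous_snd)
    have e2 := act_continuous.comp e1
    have e3 : Continuous (fun p : unitary (E →L[ℝ] E) × sphere (0 : E) 1 => (p.1, c 0)) := by
      fun_prop
    have e4 := act_continuous.comp e3
    exact ((hV.continuous.comp e2).sub (hV.continuous.comp e4)).norm
  have hswap := integral_integral_swap_of_hasCompactSupport
    (f := fun (y : sphere (0 : E) 1) (Q : unitary (E →L[ℝ] E)) =>
      ‖V (act Q (y : E)) - V (act Q (c 0))‖)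
    (μ := σ) (ν := μ) hcc (HasCompactSupport.of_compactSpace _)
  have hup : ∫ y : sphere (0 : E) 1, (∫ Q, ‖V (act Q (y : E)) - V (act Q (c 0))‖ ∂μ) ∂σ
      ≤ Real.pi / 2 * vol * F1 := by
    rw [hvol, ← integral_arccos (c 0) σ hσ, ← integral_mul_const]
    refine integral_mono ?_ ?_ h1
    · have hc2 : Continuous (fun y : sphere (0 : E) 1 =>
          ∫ Q, ‖V (act Q (y : E)) - V (act Q (c 0))‖ ∂μ) :=
        cont_param μ (fun (y : sphere (0 : E) 1) (Q : unitary (E →L[ℝ] E)) =>
          ‖V (act Q (y : E)) - V (act Q (c 0))‖) hcc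
      exact hc2.integrable_of_hasCompactSupport (HasCompactSupport.of_compactSpace _)
    · have : Continuous (fun y : sphere (0 : E) 1 =>
          Real.arccos (inner ℝ (c 0) (y : E)) * F1) := by fun_prop
      exact this.integrable_of_hasCompactSupport (HasCompactSupport.of_compactSpace _)
  have hVint : Integrable (fun y : sphere (0 : E) 1 => V y) σ := by
    have : Continuous (fun y : sphere (0 : E) 1 => V y) :=
      hV.continuous.comp continuous_subtype_val
    exact this.integrable_of_hasCompactSupport (HasCompactSupport.of_compactSpace _)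
  have hlow : ∀ Q : unitary (E →L[ℝ] E),
      vol - ‖∫ x : sphere (0 : E) 1, V x ∂σ‖
        ≤ ∫ y : sphere (0 : E) 1, ‖V (act Q (y : E)) - V (act Q (c 0))‖ ∂σ := by
    intro Q
    set w := V (act Q (c 0)) with hw
    have hwn : ‖w‖ = 1 := hV1 _ (by simp [act_norm])
    have e1 : ∫ y : sphere (0 : E) 1, ‖V (act Q (y : E)) - w‖ ∂σ
        = ∫ y : sphere (0 : E) 1, ‖V y - w‖ ∂σ :=
      integral_sphMap (Unitary.linearIsometryEquiv Q⁻¹) (fun z => ‖V z - w‖)
    rw [e1]
    have e2 : ‖∫ y : sphere (0 : E) 1, (V y - w) ∂σ‖ ≤ ∫ y : sphere (0 : E) 1, ‖V y - w‖ ∂σ :=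
      norm_integral_le_integral_norm _
    rw [integral_sub hVint (integrable_const _), integral_const] at e2
    have e3 : ‖σ.real Set.univ • w‖ = vol := by
      rw [norm_smul, hwn, mul_one, Real.norm_of_nonneg measureReal_nonneg]
    have e4 := norm_sub_norm_le (σ.real Set.univ • w) (∫ y : sphere (0 : E) 1, V y ∂σ)
    rw [e3, norm_sub_rev] at e4
    exact e4.trans e2
  have hlow2 : m * (vol - ‖∫ x : sphere (0 : E) 1, V x ∂σ‖)
      ≤ ∫ Q, (∫ y : sphere (0 : E) 1, ‖V (act Q (y : E)) - V (act Q (c 0))‖ ∂σ) ∂μ := by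
    have : m * (vol - ‖∫ x : sphere (0 : E) 1, V x ∂σ‖)
      = ∫ Q : unitary (E →L[ℝ] E), (vol - ‖∫ x : sphere (0 : E) 1, V x ∂σ‖) ∂μ := by
      rw [integral_const, smul_eq_mul]
    rw [this]
    refine integral_mono (integrable_const _) ?_ hlow
    have hc2 : Continuous (fun Q : unitary (E →L[ℝ] E) =>
          ∫ y : sphere (0 : E) 1, ‖V (act Q (y : E)) - V (act Q (c 0))‖ ∂σ) :=
      cont_param σ (fun (Q : unitary (E →L[ℝ] E)) (y : sphere (0 : E) 1) =>
          ‖V (act Q (y : E)) - V (act Q (c 0))‖) hcc'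
    exact hc2.integrable_of_hasCompactSupport (HasCompactSupport.of_compactSpace _)
  have h5 := H5 hn c V hV c
  have h6 := haar_sphere (n := n + 1) hn (hsz c V) (hsz_cont c V hV) (c 0) (c.norm_eq_one 0)
  rw [← hμ, ← hσ, ← hm, ← hvol] at h6
  rw [← hμ, ← hF1] at h5
  have hs : 0 < Real.sqrt ((n : ℝ) + 1) := Real.sqrt_pos.2 (by positivity)
  have hss : Real.sqrt ((n : ℝ) + 1) * Real.sqrt ((n : ℝ) + 1) = n + 1 :=
    Real.mul_self_sqrt (by positivity)
  set I := ∫ Q, hsz c V (act Q (c 0)) ∂μ with hI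
  set Z := ∫ x : sphere (0 : E) 1, hsz c V x ∂σ with hZ
  set S := Real.sqrt ((n : ℝ) + 1) with hS
  have hF : F1 * S ≤ I := by
    have : S * (F1 * S) ≤ S * I := by
      calc S * (F1 * S) = (S * S) * F1 := by ring
        _ = (n + 1) * F1 := by rw [hss]
        _ ≤ S * I := h5
    exact le_of_mul_le_mul_left this hs
  have hvn : 0 ≤ vol := measureReal_nonneg
  have hfin : m * (vol - ‖∫ x : sphere (0 : E) 1, V x ∂σ‖) ≤ m * (Real.pi / 2 / S * Z) := by
    calc m * (vol - ‖∫ x : sphere (0 : E) 1, V x ∂σ‖) ≤ Real.pi / 2 * vol * F1 := by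
          rw [← hswap] at hlow2; exact hlow2.trans hup
      _ = Real.pi / 2 / S * vol * (F1 * S) := by field_simp
      _ ≤ Real.pi / 2 / S * vol * I := by
          refine mul_le_mul_of_nonneg_left hF ?_
          have := Real.pi_pos
          positivity
      _ = Real.pi / 2 / S * (I * vol) := by ring
      _ = Real.pi / 2 / S * (m * Z) := by rw [h6]
      _ = m * (Real.pi / 2 / S * Z) := by ring
  exact le_of_mul_le_mul_left hfin hmpos

end Int

end Pool.Agent.Helper28
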