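import Pool.Agent.Helper28.Coef4
import Pool.Agent.Helper28.Haar2

set_option linter.unusedSectionVars false
open MeasureTheory Metric Matrix

namespace Pool.Agent.Helper28

variable {V : E8 → E8}

noncomputable abbrev c8 : OrthonormalBasis (Fin (6 + 2)) ℝ E8 := EuclideanSpace.basisFun (Fin 8) ℝ

theorem UT.hs_sq (h : UT V) (x : E8) (hx : ‖x‖ = 1) :
    hsz c8 V x ^ 2 = 1 + ((mt (Gop V x))ᵀ * mt (Gop V x)).trace := by
  unfold hsz
  rw [Real.sq_sqrt (Finset.sum_nonneg fun i _ => sq_nonneg _)]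
  have hb : ∀ i : Fin 8, c8 i = EuclideanSpace.single i (1 : ℝ) := fun i => by
    simp [c8]
  have h1 : ∀ i : Fin 8, ‖fderiv ℝ V x (c8 i - inner ℝ x (c8 i) • x)‖ ^ 2
      = ((mt (Gop V x))ᵀ * mt (Gop V x)) i i + (V x).ofLp i * (V x).ofLp i := by
    intro i
    have h2 := (h.tan2 x _ hx (inner_Pj x (EuclideanSpace.single i 1) hx)).2
    have h3 : inner ℝ (Pj x (EuclideanSpace.single i 1)) (V x) = (V x).ofLp i := by
      rw [Pj_apply, inner_sub_left, real_inner_smul_left, h.tan x hx, mul_zero, sub_zero,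
        EuclideanSpace.inner_single_left]
      simp
    rw [h3] at h2
    have h4 : fderiv ℝ V x (Pj x (EuclideanSpace.single i 1))
        = Gop V x (EuclideanSpace.single i 1) - (V x).ofLp i • x := by
      simp only [Gop, ContinuousLinearMap.comp_apply]
      rw [Pj_apply x (fderiv ℝ V x (Pj x (EuclideanSpace.single i 1))), h2, neg_smul]
      abel
    have h5 : inner ℝ (Gop V x (EuclideanSpace.single i 1)) x = 0 := by
      rw [real_inner_comm]
      simp only [Gop, ContinuousLinearMap.comp_apply]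
      exact inner_Pj x _ hx
    rw [hb, ← Pj_apply, h4, norm_sub_sq_real, real_inner_smul_right, h5, norm_smul, hx,
      Real.norm_eq_abs, mul_one, sq_abs]
    have h6 : ‖Gop V x (EuclideanSpace.single i 1)‖ ^ 2
        = ((mt (Gop V x))ᵀ * mt (Gop V x)) i i := by
      rw [EuclideanSpace.real_norm_sq_eq, Matrix.mul_apply]
      refine Finset.sum_congr rfl fun k _ => ?_
      rw [Matrix.transpose_apply, mt_apply, sq]
    rw [h6]; ring
  have h7 : ∑ i : Fin (6 + 2), ‖fderiv ℝ V x (c8 i - inner ℝ x (c8 i) • x)‖ ^ 2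
      = ∑ i : Fin 8, (((mt (Gop V x))ᵀ * mt (Gop V x)) i i + (V x).ofLp i * (V x).ofLp i) :=
    Finset.sum_congr rfl fun i _ => h1 i
  rw [h7, Finset.sum_add_distrib, add_comm]
  congr 1
  exact (h.adm x hx).VV

theorem UT.fv_lower (h : UT V) (x : E8) (hx : ‖x‖ = 1) :
    (15 + (77 / 51) * hsz c8 V x) / 16 ≤ (53 / 51) * fv V (1 / 4) x := by
  have hz := h.hs_sq x hx
  have hz0 : 0 ≤ hsz c8 V x := Real.sqrt_nonneg _
  have hf0 : 0 ≤ fv V (1 / 4) x := Real.sqrt_nonneg _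
  set G := mt (Gop V x) with hG
  have hP : (((1 / 4 : ℝ) ^ 2) • (Gᵀ * G)).PosSemidef := by
    have h1 := Matrix.posSemidef_conjTranspose_mul_self G
    rw [conjTranspose_eq_transpose_of_trivial] at h1
    exact h1.smul (by norm_num)
  have h1 := det_one_add_ge _ hP
  rw [Matrix.trace_smul, smul_eq_mul] at h1
  have hf2 : fv V (1 / 4) x ^ 2 = (1 + ((1 / 4 : ℝ) ^ 2) • (Gᵀ * G)).det := by
    unfold fv
    rw [Real.sq_sqrt]
    have : 0 ≤ (Gᵀ * G).trace := by
      have h2 := Matrix.posSemidef_conjTranspose_mul_self G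
      rw [conjTranspose_eq_transpose_of_trivial] at h2
      exact h2.trace_nonneg
    have h3 : (0 : ℝ) ≤ 1 + (1 / 4) ^ 2 * (Gᵀ * G).trace := by positivity
    exact h3.trans h1
  rw [← hf2] at h1
  have h4 : (15 + (hsz c8 V x) ^ 2) / 16 ≤ fv V (1 / 4) x ^ 2 := by
    rw [hz]
    refine le_trans (le_of_eq ?_) h1
    ring
  have h5 : ((15 + (77 / 51) * hsz c8 V x) / 16) ^ 2 ≤ ((53 / 51) * fv V (1 / 4) x) ^ 2 := by
    nlinarith [sq_nonneg (hsz c8 V x - 77 / 51)]
  exact (sq_le_sq₀ (by positivity) (by positivity)).1 h5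

theorem UT.norm_int (h : UT V) (B : ℝ) (hB0 : 0 ≤ B)
    (hB : ∀ w : Fin 8 → ℝ, w ⬝ᵥ w ≤ 1 → |∫ x : sphere (0 : E8) 1, u2 V w x ∂σ8| ≤ B) :
    ‖∫ x : sphere (0 : E8) 1, V x ∂σ8‖ ≤ B := by
  set I := ∫ x : sphere (0 : E8) 1, V x ∂σ8 with hI
  by_cases h0 : I = 0
  · rw [h0, norm_zero]; exact hB0
  have hn : ‖I‖ ≠ 0 := norm_ne_zero_iff.2 h0
  have hVi : Integrable (fun x : sphere (0 : E8) 1 => V x) σ8 := by
    have : Continuous (fun x : sphere (0 : E8) 1 => V x) :=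
      h.cdV.continuous.comp continuous_subtype_val
    exact this.integrable_of_hasCompactSupport (HasCompactSupport.of_compactSpace _)
  set e : E8 := ‖I‖⁻¹ • I with he
  have hen : ‖e‖ = 1 := by rw [he, norm_smul, norm_inv, norm_norm, inv_mul_cancel₀ hn]
  have hw : e.ofLp ⬝ᵥ e.ofLp ≤ 1 := by
    rw [← inner_dot, real_inner_self_eq_norm_sq, hen]; norm_num
  have h1 := hB e.ofLp hw
  have h2 : ∫ x : sphere (0 : E8) 1, u2 V e.ofLp x ∂σ8 = ‖I‖ := by
    rw [u2_inner]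
    have h3 := integral_inner (𝕜 := ℝ) hVi e
    rw [← hI] at h3
    have h4 : inner ℝ e I = ‖I‖ := by
      rw [he, real_inner_smul_left, real_inner_self_eq_norm_sq]
      field_simp
    rw [← h4, ← h3]
  rw [h2] at h1
  exact (le_abs_self _).trans h1

theorem vol8_pos : 0 < (σ8).real Set.univ := by
  rw [Measure.real]
  refine ENNReal.toReal_pos ?_ (measure_ne_top _ _)
  have : σ8 ≠ 0 := Measure.toSphere_ne_zero _
  exact fun h => this (Measure.measure_univ_eq_zero.1 h)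

theorem UT.lower (h : UT V) :
    ¬ (∫ x : sphere (0 : E8) 1, fv V (1 / 4) x ∂σ8
      ≤ ((4 / 5) * (1 + (1 / 4 : ℝ) ^ 6) + (1 / 5) * (1 + (1 / 4 : ℝ) ^ 2) ^ 3 + 1 / 10 ^ 28)
        * σ8.real Set.univ) := by
  intro hF
  set F := ∫ x : sphere (0 : E8) 1, fv V (1 / 4) x ∂σ8 with hFd
  set vol := σ8.real Set.univ with hvol
  set Z := ∫ x : sphere (0 : E8) 1, hsz c8 V x ∂σ8 with hZ
  have hvp : 0 < vol := vol8_pos
  have hF0 : 0 ≤ F := integral_nonneg fun x => Real.sqrt_nonneg _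
  -- mean value
  have hB : ∀ w : Fin 8 → ℝ, w ⬝ᵥ w ≤ 1 → |∫ x : sphere (0 : E8) 1, u2 V w x ∂σ8|
      ≤ (1 / 100) * vol := by
    intro w hw
    have h1 := h.K0_bound (1 / 4) (1 / 10 ^ 14) (by norm_num) (by norm_num) w hw
    refine h1.trans ?_
    rw [← hFd, ← hvol]
    have hC : Cst (1 / 4) 3 = 316081440000 := by
      unfold Cst; norm_num
    rw [hC]
    norm_num at hF ⊢
    linarith
  have hI := h.norm_int _ (by positivity) hB
  have hP := poincare (n := 6) (E := E8) (by simp) c8 V h.cdV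
    (fun x hx => h.unit x (by simpa using hx))
  rw [← hZ, ← hvol] at hP
  have hZF : (15 * vol + (77 / 51) * Z) / 16 ≤ (53 / 51) * F := by
    have h1 : ∫ x : sphere (0 : E8) 1, (15 + (77 / 51) * hsz c8 V x) / 16 ∂σ8
        ≤ ∫ x : sphere (0 : E8) 1, (53 / 51) * fv V (1 / 4) x ∂σ8 := by
      have hc := hsz_cont c8 V h.cdV
      have hc2 := h.cont_fv (1 / 4)
      refine integral_mono (int_of_cont (fun x => (15 + (77 / 51) * hsz c8 V x) / 16)
        (by fun_prop)) (int_of_cont (fun x => (53 / 51) * fv V (1 / 4) x) (by fun_prop))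
        (fun x => h.fv_lower x (by simp))
    rw [integral_const_mul, integral_div, integral_add (integrable_const _)
      ((int_of_cont _ (hsz_cont c8 V h.cdV)).const_mul _), integral_const_mul, integral_const,
      smul_eq_mul, ← hZ, ← hFd, ← hvol] at h1
    linarith
  have hs7 : (2.645 : ℝ) ≤ Real.sqrt ((6 : ℕ) + 1) := by
    refine Real.le_sqrt_of_sq_le ?_
    norm_num
  have hpi : Real.pi ≤ 3.1416 := by
    have := Real.pi_lt_d4
    linarith
  have hcst : Real.pi / 2 / Real.sqrt ((6 : ℕ) + 1) ≤ 0.5939 := by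
    rw [div_le_iff₀ (lt_of_lt_of_le (by norm_num) hs7)]
    have : Real.pi / 2 ≤ 0.5939 * 2.645 := by
      norm_num
      norm_num at hpi
      linarith
    exact this.trans (mul_le_mul_of_nonneg_left hs7 (by norm_num))
  have hZ0 : 0 ≤ Z := integral_nonneg fun x => Real.sqrt_nonneg _
  have hfin : vol - (1 / 100) * vol ≤ 0.5939 * Z := by
    have h1 : vol - ‖∫ x : sphere (0 : E8) 1, V x ∂σ8‖ ≤ 0.5939 * Z :=
      hP.trans (mul_le_mul_of_nonneg_right hcst hZ0)
    linarith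
  norm_num at hF hZF hfin
  linarith

theorem final8 (X : E8 → E8) (hX : ContDiff ℝ ((⊤ : ℕ∞) : WithTop ℕ∞) X)
    (hX2 : ∀ x ∈ sphere (0 : E8) 1, inner ℝ x (X x) = 0 ∧ ‖X x‖ = 1 / 4)
    (B : sphere (0 : E8) 1 → (E8 →L[ℝ] E8))
    (hB : ∀ x : sphere (0 : E8) 1,
      B x = (1 - (innerSL ℝ (x : E8)).smulRight (x : E8))
            ∘L fderiv ℝ X (x : E8)
            ∘L (1 - (innerSL ℝ (x : E8)).smulRight (x : E8)))
    (v : ℝ)
    (hv : v = ∫ x : sphere (0 : E8) 1,
      Real.sqrt (LinearMap.det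
        (((1 + ContinuousLinearMap.adjoint (B x) ∘L B x : E8 →L[ℝ] E8)) : E8 →ₗ[ℝ] E8))
      ∂((volume : Measure E8).toSphere))
    (hlt : v ≤ ((4 / 5) * (1 + (1 / 4 : ℝ) ^ 6) + (1 / 5) * (1 + (1 / 4 : ℝ) ^ 2) ^ 3
        + 1 / 10 ^ 28) * σ8.real Set.univ) : False := by
  have hU : UT (fun x => (4 : ℝ) • X x) := by
    refine ⟨hX.const_smul (4 : ℝ), fun x hx => ?_, fun x hx => ?_⟩
    · rw [norm_smul, (hX2 x (by simpa using hx)).2]
      norm_num
    · rw [real_inner_smul_right, (hX2 x (by simpa using hx)).1, mul_zero]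
  refine hU.lower (le_trans (le_of_eq ?_) hlt)
  rw [hv]
  refine integral_congr_ae (Filter.Eventually.of_forall fun x => ?_)
  have hXd : HasFDerivAt X (fderiv ℝ X (x : E8)) (x : E8) :=
    (hX.differentiable (by simp) (x : E8)).hasFDerivAt
  have hfd : fderiv ℝ (fun x => (4 : ℝ) • X x) (x : E8) = (4 : ℝ) • fderiv ℝ X (x : E8) :=
    (hXd.const_smul (4 : ℝ)).fderiv
  have hG : Gop (fun x => (4 : ℝ) • X x) (x : E8) = (4 : ℝ) • B x := by
    rw [hB, Gop, hfd]
    ext1 w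
    simp only [Pj, ContinuousLinearMap.comp_apply, _root_.smul_apply, map_smul]
  have hdet : LinearMap.det
        (((1 + ContinuousLinearMap.adjoint (B x) ∘L B x : E8 →L[ℝ] E8)) : E8 →ₗ[ℝ] E8)
      = (1 + (mt (B x))ᵀ * mt (B x)).det := by
    have h1 := mt_det (1 + ContinuousLinearMap.adjoint (B x) ∘L B x)
    rw [mt_add, mt_one, mt_mul, mt_adj] at h1
    exact h1.symm
  show fv (fun x => (4 : ℝ) • X x) (1 / 4) x = Real.sqrt (LinearMap.det
        (((1 + ContinuousLinearMap.adjoint (B x) ∘L B x : E8 →L[ℝ] E8)) : E8 →ₗ[ℝ] E8))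
  rw [hdet]
  unfold fv
  rw [hG, mt_smul, transpose_smul, Matrix.smul_mul, Matrix.mul_smul, smul_smul, smul_smul]
  norm_num

end Pool.Agent.Helper28
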