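import Mathlib

set_option linter.unusedSectionVars false
open MeasureTheory Metric
open scoped Pointwise

namespace Pool.Agent.Helper28

section DI
variable {E : Type*} [NormedAddCommGroup E] [NormedSpace ℝ E] [MeasurableSpace E] [BorelSpace E]
  [FiniteDimensional ℝ E]

theorem hasDerivAt_sphere (μ : Measure (sphere (0 : E) 1)) [IsFiniteMeasure μ]
    (F : ℝ → E → ℝ) (hF : ContDiff ℝ 1 (fun p : ℝ × E => F p.1 p.2)) (t0 : ℝ) :
    HasDerivAt (fun t => ∫ x : sphere (0 : E) 1, F t x ∂μ)
      (∫ x : sphere (0 : E) 1, deriv (fun t => F t x) t0 ∂μ) t0 := by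
  set G : ℝ × E → ℝ := fun p => F p.1 p.2 with hG
  have hGd : Differentiable ℝ G := hF.differentiable (by norm_num)
  have hD : ∀ (t : ℝ) (x : E), HasDerivAt (fun s => F s x) (fderiv ℝ G (t, x) (1, 0)) t := by
    intro t x
    have h1 : HasFDerivAt G (fderiv ℝ G (t, x)) (t, x) := (hGd (t, x)).hasFDerivAt
    have h2 : HasDerivAt (fun s : ℝ => (s, x)) ((1 : ℝ), (0 : E)) t :=
      (hasDerivAt_id t).prodMk (hasDerivAt_const t x)
    exact h1.comp_hasDerivAt t h2
  have hcont : Continuous (fun p : ℝ × E => fderiv ℝ G p (1, 0)) :=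
    (hF.continuous_fderiv (by norm_num)).clm_apply continuous_const
  have hcomp : IsCompact (closedBall t0 1 ×ˢ sphere (0 : E) 1) :=
    (isCompact_closedBall t0 1).prod (isCompact_sphere 0 1)
  obtain ⟨C, hC⟩ := hcomp.exists_bound_of_continuousOn hcont.continuousOn
  have key := hasDerivAt_integral_of_dominated_loc_of_deriv_le (μ := μ)
    (F := fun t (x : sphere (0 : E) 1) => F t x)
    (F' := fun t (x : sphere (0 : E) 1) => fderiv ℝ G (t, (x : E)) (1, 0))
    (x₀ := t0) (s := closedBall t0 1) (bound := fun _ => C)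
    (closedBall_mem_nhds t0 one_pos) ?_ ?_ ?_ ?_ (integrable_const C) ?_
  · have e : (∫ x : sphere (0 : E) 1, deriv (fun t => F t x) t0 ∂μ)
        = ∫ x : sphere (0 : E) 1, fderiv ℝ G (t0, (x : E)) (1, 0) ∂μ :=
      integral_congr_ae (Filter.Eventually.of_forall fun x => (hD t0 x).deriv)
    rw [e]
    exact key.2
  · refine Filter.Eventually.of_forall fun t => ?_
    have : Continuous (fun x : sphere (0 : E) 1 => F t x) :=
      hF.continuous.comp (continuous_const.prodMk continuous_subtype_val)
    exact this.aestronglyMeasurable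
  · have : Continuous (fun x : sphere (0 : E) 1 => F t0 x) :=
      hF.continuous.comp (continuous_const.prodMk continuous_subtype_val)
    exact this.integrable_of_hasCompactSupport (HasCompactSupport.of_compactSpace _)
  · have : Continuous (fun x : sphere (0 : E) 1 => fderiv ℝ G (t0, (x : E)) (1, 0)) :=
      hcont.comp (continuous_const.prodMk continuous_subtype_val)
    exact this.aestronglyMeasurable
  · refine Filter.Eventually.of_forall fun x t ht => ?_
    exact hC (t, (x : E)) ⟨ht, x.2⟩
  · refine Filter.Eventually.of_forall fun x t _ => ?_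
    exact hD t x

end DI

section Rot
variable {E : Type*} [NormedAddCommGroup E] [InnerProductSpace ℝ E] [MeasurableSpace E]
  [BorelSpace E] [FiniteDimensional ℝ E]

/-- The self-map of the unit sphere induced by a linear isometry. -/
def sphMap (L : E ≃ₗᵢ[ℝ] E) (x : sphere (0 : E) 1) : sphere (0 : E) 1 :=
  ⟨L x, by simp⟩

theorem sphMap_continuous (L : E ≃ₗᵢ[ℝ] E) : Continuous (sphMap L) :=
  Continuous.subtype_mk (L.continuous.comp continuous_subtype_val) _

theorem sphMap_measurePreserving (L : E ≃ₗᵢ[ℝ] E) :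
    MeasurePreserving (sphMap L) (volume : Measure E).toSphere (volume : Measure E).toSphere := by
  refine ⟨(sphMap_continuous L).measurable, ?_⟩
  ext s hs
  rw [Measure.map_apply (sphMap_continuous L).measurable hs,
    Measure.toSphere_apply' _ ((sphMap_continuous L).measurable hs),
    Measure.toSphere_apply' _ hs]
  congr 1
  have hset : (Set.Ioo (0 : ℝ) 1 • ((↑) '' (sphMap L ⁻¹' s) : Set E))
      = L ⁻¹' (Set.Ioo (0 : ℝ) 1 • ((↑) '' s : Set E)) := by
    ext y
    simp only [Set.mem_smul, Set.mem_image, Set.mem_preimage]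
    constructor
    · rintro ⟨c, hc, z, ⟨w, hw, rfl⟩, rfl⟩
      exact ⟨c, hc, L w, ⟨sphMap L w, hw, rfl⟩, by simp⟩
    · rintro ⟨c, hc, z, ⟨w, hw, rfl⟩, h⟩
      refine ⟨c, hc, L.symm w, ⟨⟨L.symm w, by simp⟩, ?_, rfl⟩, ?_⟩
      · have : sphMap L ⟨L.symm w, by simp⟩ = w := by
          apply Subtype.ext; simp [sphMap]
        rw [this]; exact hw
      · apply L.injective
        rw [← h]; simp
  rw [hset]
  exact L.measurePreserving.measure_preimage_equiv (f := L.toHomeomorph.toMeasurableEquiv) _

theorem integral_sphMap (L : E ≃ₗᵢ[ℝ] E) {F : Type*} [NormedAddCommGroup F] [NormedSpace ℝ F]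
    (h : E → F) :
    ∫ x : sphere (0 : E) 1, h (L x) ∂(volume : Measure E).toSphere
      = ∫ x : sphere (0 : E) 1, h x ∂(volume : Measure E).toSphere := by
  have hme : MeasurableEmbedding (sphMap L) := by
    have hc : Function.Injective (sphMap L) := by
      intro a b hab
      have := congrArg Subtype.val hab
      exact Subtype.ext (L.injective this)
    exact (sphMap_continuous L).isClosedEmbedding hc |>.measurableEmbedding
  exact (sphMap_measurePreserving L).integral_comp hme (fun x : sphere (0 : E) 1 => h x)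

/-- The rotation `cos t + sin t A` for a skew isometry `A`. -/
noncomputable def rotL (A : E →L[ℝ] E) (hA : ∀ x, inner ℝ (A x) x = 0) (hA2 : ∀ x, ‖A x‖ = ‖x‖)
    (t : ℝ) : E ≃ₗᵢ[ℝ] E :=
  LinearIsometry.toLinearIsometryEquiv
    { toLinearMap := Real.cos t • LinearMap.id + Real.sin t • (A : E →ₗ[ℝ] E)
      norm_map' := by
        intro x
        have h1 : ‖Real.cos t • x + Real.sin t • A x‖ ^ 2 = ‖x‖ ^ 2 := by
          rw [norm_add_sq_real, norm_smul, norm_smul, inner_smul_left, inner_smul_right,
            real_inner_comm, hA, hA2]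
          have := Real.sin_sq_add_cos_sq t
          simp only [mul_zero, add_zero, mul_pow, Real.norm_eq_abs, sq_abs]
          nlinarith [this]
        have h2 : ‖Real.cos t • x + Real.sin t • A x‖ = ‖x‖ :=
          (sq_eq_sq₀ (norm_nonneg _) (norm_nonneg _)).1 h1
        simpa using h2 } rfl

theorem rotL_apply (A : E →L[ℝ] E) (hA : ∀ x, inner ℝ (A x) x = 0) (hA2 : ∀ x, ‖A x‖ = ‖x‖)
    (t : ℝ) (x : E) : rotL A hA hA2 t x = Real.cos t • x + Real.sin t • A x := rfl

theorem integral_fderiv_skew (A : E →L[ℝ] E) (hA : ∀ x, inner ℝ (A x) x = 0)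
    (hA2 : ∀ x, ‖A x‖ = ‖x‖) (h : E → ℝ) (hh : ContDiff ℝ 1 h) :
    ∫ x : sphere (0 : E) 1, fderiv ℝ h x (A x) ∂(volume : Measure E).toSphere = 0 := by
  set F : ℝ → E → ℝ := fun t x => h (Real.cos t • x + Real.sin t • A x) with hF
  have hFs : ContDiff ℝ 1 (fun p : ℝ × E => F p.1 p.2) := by
    simp only [hF]
    refine hh.comp ?_
    refine ContDiff.add ?_ ?_
    · exact (Real.contDiff_cos.comp contDiff_fst).smul contDiff_snd
    · exact (Real.contDiff_sin.comp contDiff_fst).smul (A.contDiff.comp contDiff_snd)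
  have hd := hasDerivAt_sphere (volume : Measure E).toSphere F hFs 0
  have hconst : (fun t => ∫ x : sphere (0 : E) 1, F t x ∂(volume : Measure E).toSphere)
      = fun _ => ∫ x : sphere (0 : E) 1, h x ∂(volume : Measure E).toSphere := by
    funext t
    have := integral_sphMap (rotL A hA hA2 t) h
    simpa [rotL_apply, hF] using this
  rw [hconst] at hd
  have h0 := hd.unique (hasDerivAt_const (0 : ℝ) _)
  rw [← h0]
  refine integral_congr_ae (Filter.Eventually.of_forall fun x => ?_)
  have hx : HasDerivAt (fun t : ℝ => Real.cos t • (x : E) + Real.sin t • A x) (A x) 0 := by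
    have h1 : HasDerivAt (fun t : ℝ => Real.cos t • (x : E) + Real.sin t • A x)
        (-Real.sin 0 • (x : E) + Real.cos 0 • A x) 0 :=
      ((Real.hasDerivAt_cos 0).smul_const (x : E)).add
        ((Real.hasDerivAt_sin 0).smul_const (A (x : E)))
    simpa using h1
  have h2 : HasFDerivAt h (fderiv ℝ h (x : E)) (Real.cos 0 • (x : E) + Real.sin 0 • A x) := by
    simpa using (hh.differentiable (by norm_num) (x : E)).hasFDerivAt
  exact (h2.comp_hasDerivAt (0 : ℝ) hx).deriv.symm

end Rot

end Pool.Agent.Helper28
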