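import Pool.Agent.Helper28.LA1
import Pool.Agent.Helper28.Degree2
import Pool.Agent.Helper28.SphereCalc

set_option linter.unusedSectionVars false
open MeasureTheory Metric Matrix

namespace Pool.Agent.Helper28

abbrev E8 := EuclideanSpace ℝ (Fin 8)

/-- matrix of an operator in the standard basis -/
noncomputable def mt (T : E8 →L[ℝ] E8) : Matrix (Fin 8) (Fin 8) ℝ :=
  LinearMap.toMatrix (EuclideanSpace.basisFun (Fin 8) ℝ).toBasis
    (EuclideanSpace.basisFun (Fin 8) ℝ).toBasis (T : E8 →ₗ[ℝ] E8)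

theorem mt_apply (T : E8 →L[ℝ] E8) (i j : Fin 8) :
    mt T i j = (T (EuclideanSpace.single j 1)).ofLp i := by
  simp [mt, LinearMap.toMatrix_apply]

theorem mt_one : mt 1 = 1 := by
  ext i j
  rw [mt_apply]
  simp [Matrix.one_apply]

theorem mt_add (S T : E8 →L[ℝ] E8) : mt (S + T) = mt S + mt T := by
  ext i j; simp [mt_apply]

theorem mt_sub (S T : E8 →L[ℝ] E8) : mt (S - T) = mt S - mt T := by
  ext i j; simp [mt_apply]

theorem mt_smul (c : ℝ) (T : E8 →L[ℝ] E8) : mt (c • T) = c • mt T := by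
  ext i j; simp [mt_apply]

theorem mt_det (T : E8 →L[ℝ] E8) : (mt T).det = T.det := by
  rw [mt, LinearMap.det_toMatrix]

theorem mt_mul (S T : E8 →L[ℝ] E8) : mt (S ∘L T) = mt S * mt T := by
  rw [mt, mt, mt, ← LinearMap.toMatrix_comp]; rfl

theorem mt_mulVec (T : E8 →L[ℝ] E8) (v : E8) : mt T *ᵥ v.ofLp = (T v).ofLp := by
  have h := LinearMap.toMatrix_mulVec_repr (EuclideanSpace.basisFun (Fin 8) ℝ).toBasis
    (EuclideanSpace.basisFun (Fin 8) ℝ).toBasis (T : E8 →ₗ[ℝ] E8) v
  exact h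

theorem mt_smulRight (f : E8 →L[ℝ] ℝ) (v : E8) :
    mt (f.smulRight v) = Matrix.vecMulVec v.ofLp (fun j => f (EuclideanSpace.single j 1)) := by
  ext i j
  rw [mt_apply, Matrix.vecMulVec_apply]
  simp [mul_comm]

theorem mt_adj (T : E8 →L[ℝ] E8) : mt (ContinuousLinearMap.adjoint T) = (mt T)ᵀ := by
  ext i j
  rw [Matrix.transpose_apply, mt_apply, mt_apply]
  have h1 := ContinuousLinearMap.adjoint_inner_right T (EuclideanSpace.single i (1 : ℝ))
    (EuclideanSpace.single j (1 : ℝ))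
  rw [EuclideanSpace.inner_single_left, EuclideanSpace.inner_single_right] at h1
  simpa using h1

theorem inner_dot (x y : E8) : inner ℝ x y = x.ofLp ⬝ᵥ y.ofLp := by
  rw [PiLp.inner_apply, dotProduct]
  refine Finset.sum_congr rfl fun i _ => ?_
  simp [mul_comm]

theorem vecMul_eq_zero (T : E8 →L[ℝ] E8) (x : E8) (h : ∀ v, inner ℝ x (T v) = 0) :
    x.ofLp ᵥ* mt T = 0 := by
  funext j
  have h1 := h (EuclideanSpace.single j 1)
  rw [inner_dot] at h1
  rw [Matrix.vecMul, dotProduct, Pi.zero_apply, ← h1, dotProduct]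
  refine Finset.sum_congr rfl fun i _ => ?_
  rw [mt_apply]

/-- projection off `x` -/
noncomputable def Pj (x : E8) : E8 →L[ℝ] E8 := 1 - (innerSL ℝ x).smulRight x

theorem Pj_apply (x v : E8) : Pj x v = v - inner ℝ x v • x := by
  simp [Pj]

/-- covariant derivative operator -/
noncomputable def Gop (V : E8 → E8) (x : E8) : E8 →L[ℝ] E8 := Pj x ∘L fderiv ℝ V x ∘L Pj x

/-- the operator in the derivative of the radial extension -/
noncomputable def Mop (V : E8 → E8) (x : E8) : E8 →L[ℝ] E8 :=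
  (innerSL ℝ x).smulRight (V x) + fderiv ℝ V x ∘L Pj x

/-- unit tangent fields -/
structure UT (V : E8 → E8) : Prop where
  smooth : ContDiff ℝ ((⊤ : ℕ∞) : WithTop ℕ∞) V
  unit : ∀ x : E8, ‖x‖ = 1 → ‖V x‖ = 1
  tan : ∀ x : E8, ‖x‖ = 1 → inner ℝ x (V x) = 0

section
variable {V : E8 → E8}

theorem UT.diff (h : UT V) : Differentiable ℝ V := h.smooth.differentiable (by simp)

theorem curve_norm (x w : E8) (hx : ‖x‖ = 1) (hw : ‖w‖ = 1) (hxw : inner ℝ x w = 0) (t : ℝ) :
    ‖Real.cos t • x + Real.sin t • w‖ = 1 := by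
  have hcs := Real.sin_sq_add_cos_sq t
  have : ‖Real.cos t • x + Real.sin t • w‖ ^ 2 = 1 := by
    rw [norm_add_sq_real, norm_smul, norm_smul, inner_smul_left, inner_smul_right, hxw, hx, hw]
    simp only [mul_zero, add_zero, mul_one, Real.norm_eq_abs, sq_abs]
    linarith
  nlinarith [norm_nonneg (Real.cos t • x + Real.sin t • w)]

theorem curve_deriv (x w : E8) :
    HasDerivAt (fun t : ℝ => Real.cos t • x + Real.sin t • w) w 0 := by
  have h1 : HasDerivAt (fun t : ℝ => Real.cos t • x + Real.sin t • w)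
      ((-Real.sin 0) • x + Real.cos 0 • w) 0 :=
    ((Real.hasDerivAt_cos 0).smul_const x).add ((Real.hasDerivAt_sin 0).smul_const w)
  simpa using h1

theorem UT.curveV (h : UT V) (x w : E8) :
    HasDerivAt (fun t : ℝ => V (Real.cos t • x + Real.sin t • w)) (fderiv ℝ V x w) 0 := by
  have h2 : HasFDerivAt V (fderiv ℝ V x) (Real.cos 0 • x + Real.sin 0 • w) := by
    simpa using (h.diff x).hasFDerivAt
  exact h2.comp_hasDerivAt (0 : ℝ) (curve_deriv x w)

theorem UT.tan1 (h : UT V) (x w : E8) (hx : ‖x‖ = 1) (hw : ‖w‖ = 1) (hxw : inner ℝ x w = 0) :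
    inner ℝ (V x) (fderiv ℝ V x w) = 0 ∧ inner ℝ x (fderiv ℝ V x w) = - inner ℝ w (V x) := by
  have hc := curve_deriv x w
  have hV := h.curveV x w
  have h0 : Real.cos 0 • x + Real.sin 0 • w = x := by simp
  constructor
  · have h1 := hV.inner ℝ hV
    have h2 : (fun t : ℝ => inner ℝ (V (Real.cos t • x + Real.sin t • w))
        (V (Real.cos t • x + Real.sin t • w))) = fun _ => (1 : ℝ) := by
      funext t
      rw [real_inner_self_eq_norm_sq, h.unit _ (curve_norm x w hx hw hxw t)]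
      norm_num
    rw [h2] at h1
    have h3 := h1.unique (hasDerivAt_const (0 : ℝ) (1 : ℝ))
    rw [h0, real_inner_comm (V x) (fderiv ℝ V x w)] at h3
    linarith
  · have h1 := hc.inner ℝ hV
    have h2 : (fun t : ℝ => inner ℝ (Real.cos t • x + Real.sin t • w)
        (V (Real.cos t • x + Real.sin t • w))) = fun _ => (0 : ℝ) := by
      funext t
      rw [h.tan _ (curve_norm x w hx hw hxw t)]
    rw [h2] at h1
    have h3 := h1.unique (hasDerivAt_const (0 : ℝ) (0 : ℝ))
    rw [h0] at h3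
    linarith

theorem UT.tan2 (h : UT V) (x w : E8) (hx : ‖x‖ = 1) (hxw : inner ℝ x w = 0) :
    inner ℝ (V x) (fderiv ℝ V x w) = 0 ∧ inner ℝ x (fderiv ℝ V x w) = - inner ℝ w (V x) := by
  by_cases hw : w = 0
  · subst hw; simp
  · have hn : ‖w‖ ≠ 0 := norm_ne_zero_iff.2 hw
    have h1 := h.tan1 x (‖w‖⁻¹ • w) hx
      (by rw [norm_smul, norm_inv, norm_norm, inv_mul_cancel₀ hn])
      (by rw [real_inner_smul_right, hxw, mul_zero])
    rw [map_smul, real_inner_smul_right, real_inner_smul_right, real_inner_smul_left] at h1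
    obtain ⟨h2, h3⟩ := h1
    have hi : ‖w‖⁻¹ ≠ 0 := inv_ne_zero hn
    refine ⟨by simpa [hi] using h2, ?_⟩
    have : ‖w‖⁻¹ * (inner ℝ x (fderiv ℝ V x w) + inner ℝ w (V x)) = 0 := by linarith
    have h4 := (mul_eq_zero.1 this).resolve_left hi
    linarith

theorem inner_Pj (x v : E8) (hx : ‖x‖ = 1) : inner ℝ x (Pj x v) = 0 := by
  rw [Pj_apply, inner_sub_right, real_inner_smul_right, real_inner_self_eq_norm_sq, hx]
  ring

theorem Pj_self (x : E8) (hx : ‖x‖ = 1) : Pj x x = 0 := by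
  rw [Pj_apply, real_inner_self_eq_norm_sq, hx]; simp

theorem UT.adm (h : UT V) (x : E8) (hx : ‖x‖ = 1) : Adm x (V x) (mt (Gop V x)) where
  hx := hx
  hV := h.unit x hx
  hxV := h.tan x hx
  Gx := by
    rw [mt_mulVec]
    simp [Gop, Pj_self x hx]
  xG := by
    refine vecMul_eq_zero _ _ fun v => ?_
    simp only [Gop, ContinuousLinearMap.comp_apply]
    exact inner_Pj x _ hx
  VG := by
    refine vecMul_eq_zero _ _ fun v => ?_
    simp only [Gop, ContinuousLinearMap.comp_apply]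
    rw [Pj_apply x (fderiv ℝ V x (Pj x v)), inner_sub_right, real_inner_smul_right,
      real_inner_comm x (V x), h.tan x hx, mul_zero, sub_zero]
    exact (h.tan2 x _ hx (inner_Pj x v hx)).1

theorem UT.Mop_eq (h : UT V) (x : E8) (hx : ‖x‖ = 1) :
    mt (Mop V x) = mt (Gop V x) + Matrix.vecMulVec (V x).ofLp x.ofLp
      - Matrix.vecMulVec x.ofLp (V x).ofLp := by
  have h1 : Mop V x = Gop V x + (innerSL ℝ x).smulRight (V x)
      - (innerSL ℝ (V x)).smulRight x := by
    ext1 v
    have h2 := (h.tan2 x _ hx (inner_Pj x v hx)).2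
    have h3 : inner ℝ (Pj x v) (V x) = inner ℝ (V x) v := by
      rw [Pj_apply, inner_sub_left, real_inner_smul_left, h.tan x hx, mul_zero, sub_zero,
        real_inner_comm]
    rw [h3] at h2
    simp only [Mop, Gop, _root_.add_apply, _root_.sub_apply, ContinuousLinearMap.comp_apply,
      ContinuousLinearMap.smulRight_apply, innerSL_apply_apply]
    rw [Pj_apply x (fderiv ℝ V x (Pj x v)), h2, neg_smul]
    abel
  rw [h1, mt_sub, mt_add, mt_smulRight, mt_smulRight]
  congr 2
  · congr 1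
    funext j
    simp [EuclideanSpace.inner_single_right]
  · funext j
    simp [EuclideanSpace.inner_single_right]

end

end Pool.Agent.Helper28
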