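import Pool.Agent.Helper28.Geo

set_option linter.unusedSectionVars false
open MeasureTheory Metric Matrix

namespace Pool.Agent.Helper28

theorem cd_det {F : Type*} [NormedAddCommGroup F] [NormedSpace ℝ F] {n : WithTop ℕ∞} {k : ℕ}
    (A : F → Matrix (Fin k) (Fin k) ℝ) (hA : ∀ i j, ContDiff ℝ n (fun p => A p i j)) :
    ContDiff ℝ n (fun p => (A p).det) := by
  simp only [Matrix.det_apply]
  refine ContDiff.sum fun σ _ => ?_
  refine ContDiff.const_smul _ ?_
  exact contDiff_prod fun i _ => hA _ _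

theorem cd_coord {F : Type*} [NormedAddCommGroup F] [NormedSpace ℝ F] {n : WithTop ℕ∞}
    (f : F → E8) (hf : ContDiff ℝ n f) (i : Fin 8) : ContDiff ℝ n (fun p => (f p).ofLp i) :=
  (contDiff_euclidean.1 hf) i

variable {V : E8 → E8}

theorem UT.cdV (h : UT V) : ContDiff ℝ 1 V := h.smooth.of_le (by exact_mod_cast le_top)
theorem UT.cdV2 (h : UT V) : ContDiff ℝ 2 V := by
  have h2 : ((2 : ℕ∞) : WithTop ℕ∞) ≤ ((⊤ : ℕ∞) : WithTop ℕ∞) := by exact_mod_cast le_top
  exact h.smooth.of_le h2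

theorem cd_fderiv_app {G : Type*} [NormedAddCommGroup G] [NormedSpace ℝ G]
    (f : E8 → G) (hf : ContDiff ℝ 2 f) (v : E8 → E8) (hv : ContDiff ℝ 1 v) :
    ContDiff ℝ 1 (fun x => fderiv ℝ f x (v x)) :=
  (hf.fderiv_right (m := 1) (by norm_num)).clm_apply hv

theorem cd_Pj (v : E8) : ContDiff ℝ 1 (fun x : E8 => Pj x v) := by
  simp only [Pj_apply]
  exact contDiff_const.sub ((contDiff_id.inner ℝ contDiff_const).smul contDiff_id)

theorem UT.cdM (h : UT V) (i j : Fin 8) : ContDiff ℝ 1 (fun x => mt (Mop V x) i j) := by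
  simp only [mt_apply]
  refine cd_coord _ ?_ i
  simp only [Mop, _root_.add_apply, ContinuousLinearMap.comp_apply,
      ContinuousLinearMap.smulRight_apply, innerSL_apply_apply]
  refine ContDiff.add ?_ ?_
  · exact (contDiff_id.inner ℝ contDiff_const).smul h.cdV
  · exact cd_fderiv_app V h.cdV2 _ (cd_Pj _)

/-- gradient vector -/
noncomputable def gv (u : E8 → ℝ) (x : E8) : Fin 8 → ℝ :=
  fun j => fderiv ℝ u x (Pj x (EuclideanSpace.single j 1))

theorem cd_gv (u : E8 → ℝ) (hu : ContDiff ℝ 2 u) (j : Fin 8) :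
    ContDiff ℝ 1 (fun x => gv u x j) :=
  cd_fderiv_app u hu _ (cd_Pj _)

/-- matrix of the derivative -/
noncomputable def AF (V : E8 → E8) (u : E8 → ℝ) (s ε : ℝ) (x : E8) :
    Matrix (Fin 8) (Fin 8) ℝ :=
  1 + (s + ε * u x) • mt (Mop V x) + ε • Matrix.vecMulVec (V x).ofLp (gv u x)

/-- integrand -/
noncomputable def FF (V : E8 → E8) (u : E8 → ℝ) (s ε : ℝ) (x : E8) : ℝ :=
  ((1 + (s + ε * u x) ^ 2) ^ 4)⁻¹ * (AF V u s ε x).det

theorem UT.cdF (h : UT V) (u : E8 → ℝ) (hu : ContDiff ℝ 2 u) (s : ℝ) :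
    ContDiff ℝ 1 (fun p : ℝ × E8 => FF V u s p.1 p.2) := by
  have hu1 : ContDiff ℝ 1 (fun p : ℝ × E8 => u p.2) :=
    (hu.of_le (by norm_num)).comp contDiff_snd
  have hσ : ContDiff ℝ 1 (fun p : ℝ × E8 => s + p.1 * u p.2) :=
    contDiff_const.add (contDiff_fst.mul hu1)
  unfold FF
  refine ContDiff.mul ?_ ?_
  · refine ContDiff.inv ((contDiff_const.add (hσ.pow 2)).pow 4) fun p => ?_
    positivity
  · refine cd_det _ fun i j => ?_
    simp only [AF, Matrix.add_apply, Matrix.smul_apply, Matrix.vecMulVec_apply, smul_eq_mul]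
    refine (contDiff_const.add ?_).add ?_
    · exact hσ.mul ((h.cdM i j).comp contDiff_snd)
    · exact contDiff_fst.mul (((cd_coord V h.cdV i).comp contDiff_snd).mul
        ((cd_gv u hu j).comp contDiff_snd))

theorem UT.dH_det (h : UT V) (u : E8 → ℝ) (hu : ContDiff ℝ 2 u) (s ε : ℝ) (z : E8) :
    (dH (fun x => (s + ε * u x) • V x) z).det = (AF V u s ε z).det := by
  rw [← mt_det]
  congr 1
  have hud : HasFDerivAt u (fderiv ℝ u z) z := (hu.differentiable (by norm_num) z).hasFDerivAt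
  have h1 : HasFDerivAt (fun x => s + ε * u x) (ε • fderiv ℝ u z) z :=
    (hud.const_mul ε).const_add s
  have h2 : HasFDerivAt (fun x => (s + ε * u x) • V x)
      ((s + ε * u z) • fderiv ℝ V z + (ε • fderiv ℝ u z).smulRight (V z)) z :=
    h1.smul (h.diff z).hasFDerivAt
  have h3 : dH (fun x => (s + ε * u x) • V x) z
      = 1 + (s + ε * u z) • Mop V z + ε • ((fderiv ℝ u z ∘L Pj z).smulRight (V z)) := by
    ext1 v
    simp only [dH, h2.fderiv, Mop, Pj, _root_.add_apply, _root_.smul_apply,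
      ContinuousLinearMap.comp_apply, ContinuousLinearMap.smulRight_apply, smul_add,
      innerSL_apply_apply, smul_smul]
    rw [mul_comm (inner ℝ z v)]
    simp only [smul_eq_mul]
    abel
  rw [h3, mt_add, mt_add, mt_one, mt_smul, mt_smul, mt_smulRight]
  rfl

theorem lip_ball (W : E8 → E8) (hW : ContDiff ℝ 1 W) :
    ∃ K : ℝ, 0 ≤ K ∧ (∀ x y : E8, ‖x‖ = 1 → ‖y‖ = 1 → ‖W x - W y‖ ≤ K * ‖x - y‖) ∧
      ∀ x : E8, ‖x‖ = 1 → ‖W x‖ ≤ K := by
  obtain ⟨K1, hK1⟩ := (isCompact_closedBall (0 : E8) 1).exists_bound_of_continuousOn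
    (hW.continuous_fderiv (by norm_num)).continuousOn
  obtain ⟨K2, hK2⟩ := (isCompact_closedBall (0 : E8) 1).exists_bound_of_continuousOn
    hW.continuous.continuousOn
  refine ⟨max K1 (max K2 0), by simp, fun x y hx hy => ?_, fun x hx => ?_⟩
  · have h1 := (convex_closedBall (0 : E8) 1).norm_image_sub_le_of_norm_fderiv_le
      (f := W) (C := K1) (𝕜 := ℝ) (x := y) (y := x)
      (fun x _ => hW.differentiable (by norm_num) x) hK1
      (by simp [hy]) (by simp [hx])
    refine h1.trans (mul_le_mul_of_nonneg_right (le_max_left _ _) (norm_nonneg _))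
  · exact (hK2 x (by simp [hx])).trans ((le_max_left _ _).trans (le_max_right _ _))

theorem UT.key_int (h : UT V) (u : E8 → ℝ) (hu : ContDiff ℝ 2 u) :
    ∃ η : ℝ, 0 < η ∧ ∀ s ε : ℝ, |s| ≤ η → |ε| ≤ η →
      ∫ x : sphere (0 : E8) 1, FF V u s ε x ∂(volume : Measure E8).toSphere
        = (volume : Measure E8).toSphere.real Set.univ := by
  obtain ⟨K1, hK1, hL1, hC1⟩ := lip_ball V h.cdV
  have huV : ContDiff ℝ 1 (fun x => u x • V x) := (hu.of_le (by norm_num)).smul h.cdV
  obtain ⟨K2, hK2, hL2, hC2⟩ := lip_ball (fun x => u x • V x) huV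
  refine ⟨(1 + 4 * (K1 + K2))⁻¹, by positivity, fun s ε hs hε => ?_⟩
  set η := (1 + 4 * (K1 + K2))⁻¹ with hη
  have hη1 : η * (1 + 4 * (K1 + K2)) = 1 := inv_mul_cancel₀ (by positivity)
  have hη0 : 0 < η := by positivity
  set W : E8 → E8 := fun x => (s + ε * u x) • V x with hW
  have hWs : ∀ x, W x = s • V x + ε • (u x • V x) := by
    intro x; simp only [hW]; rw [add_smul, smul_smul]
  have hWc : ContDiff ℝ 1 W :=
    (contDiff_const.add (contDiff_const.mul (hu.of_le (by norm_num)))).smul h.cdV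
  have hsK : |s| * K1 ≤ η * K1 := mul_le_mul_of_nonneg_right hs hK1
  have hεK : |ε| * K2 ≤ η * K2 := mul_le_mul_of_nonneg_right hε hK2
  have hd := degree_real (n := 7) (E := E8) (by simp) W hWc (|s| * K1 + |ε| * K2)
    (|s| * K1 + |ε| * K2) (by positivity) (by positivity) ?_ ?_ ?_
  · rw [← hd]
    refine integral_congr_ae (Filter.Eventually.of_forall fun z => ?_)
    have hz : ‖(z : E8)‖ = 1 := by simp
    show FF V u s ε z = (dH W z).det * ‖(z : E8) + W z‖⁻¹ ^ 8
    rw [h.dH_det u hu s ε z, FF]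
    have hn : ‖(z : E8) + W z‖ ^ 2 = 1 + (s + ε * u z) ^ 2 := by
      simp only [hW]
      rw [norm_add_sq_real, norm_smul, real_inner_smul_right, h.tan z hz, h.unit z hz, hz]
      simp
    have hn8 : ‖(z : E8) + W z‖⁻¹ ^ 8 = ((1 + (s + ε * u z) ^ 2) ^ 4)⁻¹ := by
      rw [inv_pow, ← hn]; ring
    rw [hn8, mul_comm]
  · intro x y hx hy
    rw [hWs, hWs]
    have e : s • V x + ε • (u x • V x) - (s • V y + ε • (u y • V y))
        = s • (V x - V y) + ε • (u x • V x - u y • V y) := by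
      rw [smul_sub, smul_sub]; abel
    rw [e]
    refine (norm_add_le _ _).trans ?_
    rw [norm_smul, norm_smul, Real.norm_eq_abs, Real.norm_eq_abs]
    have h1 := mul_le_mul_of_nonneg_left (hL1 x y hx hy) (abs_nonneg s)
    have h2 := mul_le_mul_of_nonneg_left (hL2 x y hx hy) (abs_nonneg ε)
    linarith
  · intro x hx
    rw [hWs]
    refine (norm_add_le _ _).trans ?_
    rw [norm_smul, norm_smul, Real.norm_eq_abs, Real.norm_eq_abs]
    have h1 := mul_le_mul_of_nonneg_left (hC1 x hx) (abs_nonneg s)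
    have h2 := mul_le_mul_of_nonneg_left (hC2 x hx) (abs_nonneg ε)
    linarith
  · nlinarith

end Pool.Agent.Helper28
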