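import Pool.Agent.Helper28.SphereCalc

set_option linter.unusedSectionVars false
open MeasureTheory Metric

namespace Pool.Agent.Helper28

section UG
variable {E : Type*} [NormedAddCommGroup E] [InnerProductSpace ℝ E] [CompleteSpace E]
  [FiniteDimensional ℝ E]

theorem compactSpace_UG : CompactSpace (unitary (E →L[ℝ] E)) := by
  have : ProperSpace (E →L[ℝ] E) := FiniteDimensional.proper_real _
  have h : IsCompact ((unitary (E →L[ℝ] E) : Submonoid (E →L[ℝ] E)) : Set (E →L[ℝ] E)) := by
    refine Metric.isCompact_of_isClosed_isBounded isClosed_unitary ?_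
    refine (Metric.isBounded_closedBall (x := (0 : E →L[ℝ] E)) (r := 1)).subset ?_
    intro u hu
    rw [mem_closedBall_zero_iff]
    refine ContinuousLinearMap.opNorm_le_bound _ zero_le_one fun x => ?_
    rw [one_mul]
    exact (ContinuousLinearMap.norm_map_of_mem_unitary hu x).le
  exact isCompact_iff_compactSpace.mp h

theorem secondCountable_UG : SecondCountableTopology (unitary (E →L[ℝ] E)) := by
  have : ProperSpace (E →L[ℝ] E) := FiniteDimensional.proper_real _
  have : SecondCountableTopology (E →L[ℝ] E) := inferInstance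
  infer_instance

end UG

attribute [local instance] compactSpace_UG secondCountable_UG

/-- The Borel structure on the orthogonal group. -/
@[reducible] noncomputable def measUG (E : Type*) [NormedAddCommGroup E] [InnerProductSpace ℝ E]
    [CompleteSpace E] : MeasurableSpace (unitary (E →L[ℝ] E)) := borel _

attribute [local instance] measUG

theorem borelUG (E : Type*) [NormedAddCommGroup E] [InnerProductSpace ℝ E]
    [CompleteSpace E] : BorelSpace (unitary (E →L[ℝ] E)) := ⟨rfl⟩

attribute [local instance] borelUG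

section Int
variable {E : Type*} [NormedAddCommGroup E] [InnerProductSpace ℝ E] [CompleteSpace E]
  [FiniteDimensional ℝ E] [MeasurableSpace E] [BorelSpace E]

/-- inverse action -/
noncomputable def act (Q : unitary (E →L[ℝ] E)) (x : E) : E :=
  ((Q⁻¹ : unitary (E →L[ℝ] E)) : E →L[ℝ] E) x

theorem act_norm (Q : unitary (E →L[ℝ] E)) (x : E) : ‖act Q x‖ = ‖x‖ := Unitary.norm_map _ _

theorem act_inner (Q : unitary (E →L[ℝ] E)) (x y : E) :
    inner ℝ (act Q x) (act Q y) = inner ℝ x y := Unitary.inner_map_map _ _ _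

theorem act_continuous : Continuous (fun p : unitary (E →L[ℝ] E) × E => act p.1 p.2) := by
  unfold act
  exact (continuous_subtype_val.comp (continuous_inv.comp continuous_fst)).clm_apply continuous_snd

theorem act_mul (g Q : unitary (E →L[ℝ] E)) (x : E) :
    act (g⁻¹ * Q) x = act Q (((g : unitary (E →L[ℝ] E)) : E →L[ℝ] E) x) := by
  simp [act, mul_inv_rev]

theorem act_lin (Q : unitary (E →L[ℝ] E)) (a b : ℝ) (x y : E) :
    act Q (a • x + b • y) = a • act Q x + b • act Q y := by
  simp [act]

theorem exists_onb2 {n : ℕ} (hn : Module.finrank ℝ E = n + 2) (a u : E) (ha : ‖a‖ = 1)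
    (hu : ‖u‖ = 1) (hau : inner ℝ a u = 0) :
    ∃ b : OrthonormalBasis (Fin (n + 2)) ℝ E, b 0 = a ∧ b 1 = u := by
  have hv : Orthonormal ℝ (({0, 1} : Set (Fin (n + 2))).domRestrict
      (fun i => if i = 0 then a else u)) := by
    rw [orthonormal_iff_ite]
    rintro ⟨i, hi⟩ ⟨j, hj⟩
    simp only [Set.mem_insert_iff, Set.mem_singleton_iff] at hi hj
    rcases hi with rfl | rfl <;> rcases hj with rfl | rfl <;>
      simp [Set.domRestrict, ha, hu, hau, real_inner_comm a u ▸ hau]
  obtain ⟨b, hb⟩ := hv.exists_orthonormalBasis_extension_of_card_eq (by simp [hn])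
  exact ⟨b, by simpa using hb 0 (by simp), by simpa using hb 1 (by simp)⟩

theorem exists_onb1 {n : ℕ} (hn : Module.finrank ℝ E = n + 1) (a : E) (ha : ‖a‖ = 1) :
    ∃ b : OrthonormalBasis (Fin (n + 1)) ℝ E, b 0 = a := by
  have hv : Orthonormal ℝ (({0} : Set (Fin (n + 1))).domRestrict (fun _ => a)) := by
    rw [orthonormal_iff_ite]
    rintro ⟨i, hi⟩ ⟨j, hj⟩
    simp only [Set.mem_singleton_iff] at hi hj
    subst hi; subst hj
    simp [Set.domRestrict, ha]
  obtain ⟨b, hb⟩ := hv.exists_orthonormalBasis_extension_of_card_eq (by simp [hn])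
  exact ⟨b, by simpa using hb 0 (by simp)⟩

/-- transitivity on frames -/
theorem exists_UG {n : ℕ} (b c : OrthonormalBasis (Fin n) ℝ E) :
    ∃ g : unitary (E →L[ℝ] E), ∀ i, ((g : unitary (E →L[ℝ] E)) : E →L[ℝ] E) (b i) = c i := by
  refine ⟨Unitary.linearIsometryEquiv.symm (b.equiv c (Equiv.refl _)), fun i => ?_⟩
  rw [Unitary.coe_symm_linearIsometryEquiv_apply]
  simp

theorem haar_shift (g : unitary (E →L[ℝ] E)) (f : unitary (E →L[ℝ] E) → ℝ) :
    ∫ Q, f (g⁻¹ * Q) ∂(Measure.haar : Measure (unitary (E →L[ℝ] E)))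
      = ∫ Q, f Q ∂(Measure.haar : Measure (unitary (E →L[ℝ] E))) :=
  integral_mul_left_eq_self f g⁻¹

instance finHaar : IsFiniteMeasure (Measure.haar : Measure (unitary (E →L[ℝ] E))) := inferInstance

theorem haar_const {n : ℕ} (hn : Module.finrank ℝ E = n + 1) (h : E → ℝ) (x y : E)
    (hx : ‖x‖ = 1) (hy : ‖y‖ = 1) :
    ∫ Q, h (act Q x) ∂(Measure.haar : Measure (unitary (E →L[ℝ] E)))
      = ∫ Q, h (act Q y) ∂(Measure.haar : Measure (unitary (E →L[ℝ] E))) := by
  obtain ⟨b, hb⟩ := exists_onb1 hn x hx
  obtain ⟨c, hc⟩ := exists_onb1 hn y hy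
  obtain ⟨g, hg⟩ := exists_UG c b
  have h0 := hg 0
  rw [hb, hc] at h0
  rw [← haar_shift g (fun Q => h (act Q y))]
  simp only [act_mul, h0]

theorem haar_sphere {n : ℕ} (hn : Module.finrank ℝ E = n + 1) (h : E → ℝ) (hc : Continuous h)
    (x0 : E) (hx0 : ‖x0‖ = 1) :
    (∫ Q, h (act Q x0) ∂(Measure.haar : Measure (unitary (E →L[ℝ] E))))
        * ((volume : Measure E).toSphere.real Set.univ)
      = ((Measure.haar : Measure (unitary (E →L[ℝ] E))).real Set.univ)
        * ∫ x : sphere (0 : E) 1, h x ∂(volume : Measure E).toSphere := by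
  have hcc : Continuous (Function.uncurry
      (fun (x : sphere (0 : E) 1) (Q : unitary (E →L[ℝ] E)) => h (act Q (x : E)))) := by
    have e1 : Continuous (fun p : sphere (0 : E) 1 × unitary (E →L[ℝ] E) => (p.2, (p.1 : E))) :=
      continuous_snd.prodMk (continuous_subtype_val.comp continuous_fst)
    have e2 := act_continuous.comp e1
    exact hc.comp e2
  have h1 := integral_integral_swap_of_hasCompactSupport
    (f := fun (x : sphere (0 : E) 1) (Q : unitary (E →L[ℝ] E)) => h (act Q (x : E)))
    (μ := (volume : Measure E).toSphere) (ν := (Measure.haar : Measure (unitary (E →L[ℝ] E))))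
    hcc (HasCompactSupport.of_compactSpace _)
  have h2 : ∀ x : sphere (0 : E) 1,
      (∫ Q, h (act Q x) ∂(Measure.haar : Measure (unitary (E →L[ℝ] E))))
        = ∫ Q, h (act Q x0) ∂(Measure.haar : Measure (unitary (E →L[ℝ] E))) := fun x =>
    haar_const hn h x x0 (by simp) hx0
  have h3 : ∀ Q : unitary (E →L[ℝ] E),
      (∫ x : sphere (0 : E) 1, h (act Q x) ∂(volume : Measure E).toSphere)
        = ∫ x : sphere (0 : E) 1, h x ∂(volume : Measure E).toSphere := fun Q =>
    integral_sphMap (Unitary.linearIsometryEquiv Q⁻¹) h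
  simp only [h2, h3, integral_const, smul_eq_mul] at h1
  rw [← h1, mul_comm]

/-- derivative along a rotated great circle -/
theorem path_bound (V : E → E) (hV : ContDiff ℝ 1 V) (Q : unitary (E →L[ℝ] E)) (a u : E)
    (θ : ℝ) (hθ : 0 ≤ θ) :
    ‖V (act Q (Real.cos θ • a + Real.sin θ • u)) - V (act Q a)‖
      ≤ ∫ t in (0 : ℝ)..θ, ‖fderiv ℝ V (act Q (Real.cos t • a + Real.sin t • u))
          (act Q ((-Real.sin t) • a + Real.cos t • u))‖ := by
  have hd : ∀ t : ℝ, HasDerivAt (fun t => V (act Q (Real.cos t • a + Real.sin t • u)))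
      (fderiv ℝ V (act Q (Real.cos t • a + Real.sin t • u))
          (act Q ((-Real.sin t) • a + Real.cos t • u))) t := by
    intro t
    have h1 : HasDerivAt (fun t : ℝ => Real.cos t • act Q a + Real.sin t • act Q u)
        ((-Real.sin t) • act Q a + Real.cos t • act Q u) t :=
      ((Real.hasDerivAt_cos t).smul_const _).add ((Real.hasDerivAt_sin t).smul_const _)
    have h2 : HasDerivAt (fun t : ℝ => act Q (Real.cos t • a + Real.sin t • u))
        (act Q ((-Real.sin t) • a + Real.cos t • u)) t := by
      simpa only [act_lin] using h1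
    exact (hV.differentiable (by norm_num) _).hasFDerivAt.comp_hasDerivAt t h2
  have hcont : Continuous (fun t : ℝ => fderiv ℝ V (act Q (Real.cos t • a + Real.sin t • u))
          (act Q ((-Real.sin t) • a + Real.cos t • u))) := by
    have hc1 : Continuous (fun t : ℝ => act Q (Real.cos t • a + Real.sin t • u)) := by
      unfold act
      fun_prop
    have hc2 : Continuous (fun t : ℝ => act Q ((-Real.sin t) • a + Real.cos t • u)) := by
      unfold act
      fun_prop
    exact ((hV.continuous_fderiv (by norm_num)).comp hc1).clm_apply hc2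
  have h3 := intervalIntegral.integral_eq_sub_of_hasDerivAt (a := 0) (b := θ)
    (fun t _ => hd t) (hcont.intervalIntegrable _ _)
  have h4 : V (act Q (Real.cos 0 • a + Real.sin 0 • u)) = V (act Q a) := by simp
  rw [← h4, ← h3]
  exact intervalIntegral.norm_integral_le_integral_norm hθ

/-- mean size of the derivative in a direction of a random orthonormal pair -/
noncomputable def Fau (V : E → E) (a u : E) : ℝ :=
  ∫ Q, ‖fderiv ℝ V (act Q a) (act Q u)‖ ∂(Measure.haar : Measure (unitary (E →L[ℝ] E)))

theorem Fau_const {n : ℕ} (hn : Module.finrank ℝ E = n + 2) (V : E → E) (a u a' u' : E)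
    (ha : ‖a‖ = 1) (hu : ‖u‖ = 1) (hau : inner ℝ a u = 0)
    (ha' : ‖a'‖ = 1) (hu' : ‖u'‖ = 1) (hau' : inner ℝ a' u' = 0) :
    Fau V a u = Fau V a' u' := by
  obtain ⟨b, hb, hb1⟩ := exists_onb2 hn a u ha hu hau
  obtain ⟨c, hc, hc1⟩ := exists_onb2 hn a' u' ha' hu' hau'
  obtain ⟨g, hg⟩ := exists_UG b c
  have h0 := hg 0
  have h1 := hg 1
  rw [hb, hc] at h0
  rw [hb1, hc1] at h1
  unfold Fau
  rw [← haar_shift g (fun Q => ‖fderiv ℝ V (act Q a) (act Q u)‖)]
  simp only [act_mul, h0, h1]

theorem contDV (V : E → E) (hV : ContDiff ℝ 1 V) :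
    Continuous (fun p : E × E => ‖fderiv ℝ V p.1 p.2‖) := by
  have h1 := hV.continuous_fderiv (by norm_num)
  fun_prop

theorem H3 {n : ℕ} (hn : Module.finrank ℝ E = n + 2) (V : E → E) (hV : ContDiff ℝ 1 V) (a u : E)
    (ha : ‖a‖ = 1) (hu : ‖u‖ = 1) (hau : inner ℝ a u = 0) (θ : ℝ) (hθ : 0 ≤ θ) :
    ∫ Q, ‖V (act Q (Real.cos θ • a + Real.sin θ • u)) - V (act Q a)‖
        ∂(Measure.haar : Measure (unitary (E →L[ℝ] E)))
      ≤ θ * Fau V a u := by
  set μ := (Measure.haar : Measure (unitary (E →L[ℝ] E))) with hμ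
  set f : ℝ → unitary (E →L[ℝ] E) → ℝ := fun t Q =>
    ‖fderiv ℝ V (act Q (Real.cos t • a + Real.sin t • u))
          (act Q ((-Real.sin t) • a + Real.cos t • u))‖ with hf
  have hfc : Continuous (Function.uncurry f) := by
    have e1 : Continuous (fun p : ℝ × unitary (E →L[ℝ] E) =>
        (p.2, Real.cos p.1 • a + Real.sin p.1 • u)) := by fun_prop
    have e2 : Continuous (fun p : ℝ × unitary (E →L[ℝ] E) =>
        (p.2, (-Real.sin p.1) • a + Real.cos p.1 • u)) := by fun_prop
    have e3 := act_continuous.comp e1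
    have e4 := act_continuous.comp e2
    exact (contDV V hV).comp (e3.prodMk e4)
  obtain ⟨C, hC⟩ := ((isCompact_closedBall (0 : E) 2).prod
    (isCompact_closedBall (0 : E) 2)).exists_bound_of_continuousOn (contDV V hV).continuousOn
  have hfin : IsFiniteMeasure ((volume : Measure ℝ).restrict (Set.uIoc 0 θ)) := by
    rw [Set.uIoc_of_le hθ]
    infer_instance
  have hint : Integrable (Function.uncurry f)
      (((volume : Measure ℝ).restrict (Set.uIoc 0 θ)).prod μ) := by
    refine Integrable.of_bound hfc.aestronglyMeasurable C ?_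
    refine Filter.Eventually.of_forall ?_
    rintro ⟨t, Q⟩
    refine hC (act Q (Real.cos t • a + Real.sin t • u),
      act Q ((-Real.sin t) • a + Real.cos t • u)) ⟨?_, ?_⟩
    · simp only [mem_closedBall_zero_iff, act_norm]
      refine (norm_add_le _ _).trans ?_
      rw [norm_smul, norm_smul, ha, hu, Real.norm_eq_abs, Real.norm_eq_abs]
      have := Real.abs_cos_le_one t
      have := Real.abs_sin_le_one t
      linarith
    · simp only [mem_closedBall_zero_iff, act_norm]
      refine (norm_add_le _ _).trans ?_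
      rw [norm_smul, norm_smul, ha, hu, Real.norm_eq_abs, Real.norm_eq_abs, abs_neg]
      have := Real.abs_cos_le_one t
      have := Real.abs_sin_le_one t
      linarith
  have hswap := intervalIntegral_integral_swap hint
  have hcst : ∀ t, ∫ Q, f t Q ∂μ = Fau V a u := by
    intro t
    have hcs := Real.sin_sq_add_cos_sq t
    refine Fau_const hn V _ _ a u ?_ ?_ ?_ ha hu hau
    · have : ‖Real.cos t • a + Real.sin t • u‖ ^ 2 = 1 := by
        rw [norm_add_sq_real, norm_smul, norm_smul, inner_smul_left, inner_smul_right, hau, ha, hu]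
        simp only [mul_zero, add_zero, mul_one, Real.norm_eq_abs, sq_abs]
        linarith
      nlinarith [norm_nonneg (Real.cos t • a + Real.sin t • u)]
    · have : ‖(-Real.sin t) • a + Real.cos t • u‖ ^ 2 = 1 := by
        rw [norm_add_sq_real, norm_smul, norm_smul, inner_smul_left, inner_smul_right, hau, ha, hu]
        simp only [mul_zero, add_zero, mul_one, Real.norm_eq_abs, sq_abs, neg_sq]
        linarith
      nlinarith [norm_nonneg ((-Real.sin t) • a + Real.cos t • u)]
    · have hua : inner ℝ u a = 0 := by rw [real_inner_comm, hau]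
      simp only [inner_add_left, inner_add_right, real_inner_smul_left, real_inner_smul_right, hau,
        hua, real_inner_self_eq_norm_sq, ha, hu]
      ring
  have h1 : ∫ Q, ‖V (act Q (Real.cos θ • a + Real.sin θ • u)) - V (act Q a)‖ ∂μ
      ≤ ∫ Q, (∫ t in (0 : ℝ)..θ, f t Q) ∂μ := by
    refine integral_mono ?_ ?_ (fun Q => path_bound V hV Q a u θ hθ)
    · have hcc : Continuous (fun Q : unitary (E →L[ℝ] E) =>
          ‖V (act Q (Real.cos θ • a + Real.sin θ • u)) - V (act Q a)‖) := by
        have e1 : Continuous (fun Q : unitary (E →L[ℝ] E) =>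
          (Q, Real.cos θ • a + Real.sin θ • u)) := by fun_prop
        have e2 : Continuous (fun Q : unitary (E →L[ℝ] E) => (Q, a)) := by fun_prop
        have e3 := act_continuous.comp e1
        have e4 := act_continuous.comp e2
        exact ((hV.continuous.comp e3).sub (hV.continuous.comp e4)).norm
      exact hcc.integrable_of_hasCompactSupport (HasCompactSupport.of_compactSpace _)
    · have := hint.swap.integral_prod_left
      simpa [intervalIntegral.integral_of_le hθ, Set.uIoc_of_le hθ] using this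
  rw [← hswap] at h1
  simp only [hcst, intervalIntegral.integral_const, sub_zero, smul_eq_mul] at h1
  exact h1

end Int

end Pool.Agent.Helper28
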