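import Pool.Agent.Helper28.Adapt

set_option linter.unusedSectionVars false
open Matrix

namespace Pool.Agent.Helper28

theorem det_add_vec_unit (A : Matrix (Fin 8) (Fin 8) ℝ) (hA : IsUnit A.det) (u v : Fin 8 → ℝ) :
    (A + Matrix.vecMulVec u v).det = A.det + v ⬝ᵥ (A.adjugate *ᵥ u) := by
  have h := Matrix.det_add_replicateCol_mul_replicateRow (ι := Unit) hA u v
  rw [← Matrix.vecMulVec_eq] at h
  rw [h]
  have h1 : (1 + replicateRow Unit v * A⁻¹ * replicateCol Unit u).det = 1 + v ⬝ᵥ (A⁻¹ *ᵥ u) := by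
    rw [det_unique, Matrix.add_apply, Matrix.one_apply_eq, Matrix.mul_assoc]
    congr 1
  rw [h1, mul_add, mul_one]
  congr 1
  have h2 : A.adjugate = A.det • A⁻¹ := by
    rw [Matrix.inv_def, smul_smul, Ring.mul_inverse_cancel _ hA, one_smul]
  rw [h2, Matrix.smul_mulVec, dotProduct_smul, smul_eq_mul]

theorem det_add_vec (A : Matrix (Fin 8) (Fin 8) ℝ) (u v : Fin 8 → ℝ) :
    (A + Matrix.vecMulVec u v).det = A.det + v ⬝ᵥ (A.adjugate *ᵥ u) := by
  have hd : Dense {t : ℝ | (t • (1 : Matrix (Fin 8) (Fin 8) ℝ) + A).det ≠ 0} := by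
    have hfin : {t : ℝ | (t • (1 : Matrix (Fin 8) (Fin 8) ℝ) + A).det = 0}.Finite := by
      have hp : ((-A).charpoly) ≠ 0 := (Matrix.charpoly_monic _).ne_zero
      refine (Polynomial.finite_setOfPred_isRoot hp).subset ?_
      intro t ht
      rw [Set.mem_ofPred_eq] at ht ⊢
      rw [Polynomial.IsRoot, Matrix.eval_charpoly]
      rw [← ht]
      congr 1
      ext i j
      simp [Matrix.scalar_apply, Matrix.smul_apply, Matrix.one_apply, Matrix.diagonal_apply]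
    have h2 := hfin.countable.dense_compl ℝ
    exact h2
  have hc1 : Continuous (fun t : ℝ =>
      (t • (1 : Matrix (Fin 8) (Fin 8) ℝ) + A + Matrix.vecMulVec u v).det) := by
    fun_prop
  have hc2 : Continuous (fun t : ℝ => (t • (1 : Matrix (Fin 8) (Fin 8) ℝ) + A).det
      + v ⬝ᵥ ((t • (1 : Matrix (Fin 8) (Fin 8) ℝ) + A).adjugate *ᵥ u)) := by
    fun_prop
  have heq := Continuous.ext_on hd hc1 hc2 (fun t ht =>
    det_add_vec_unit _ (isUnit_iff_ne_zero.2 ht) u v)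
  have := congrFun heq 0
  simpa using this

section
variable {x V : EuclideanSpace ℝ (Fin 8)} {G : Matrix (Fin 8) (Fin 8) ℝ}

theorem Adm.xx (h : Adm x V G) : x.ofLp ⬝ᵥ x.ofLp = 1 := by
  have h1 := h.hx
  have h2 := EuclideanSpace.real_norm_sq_eq x
  rw [h1] at h2
  simp only [dotProduct, ← sq]
  linarith

theorem Adm.VV (h : Adm x V G) : V.ofLp ⬝ᵥ V.ofLp = 1 := by
  have h1 := h.hV
  have h2 := EuclideanSpace.real_norm_sq_eq V
  rw [h1] at h2
  simp only [dotProduct, ← sq]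
  linarith

theorem Adm.Vx (h : Adm x V G) : V.ofLp ⬝ᵥ x.ofLp = 0 := by
  have h1 := h.hxV
  rw [PiLp.inner_apply] at h1
  simp only [RCLike.inner_apply, conj_trivial] at h1
  simpa [dotProduct] using h1

theorem Adm.xV (h : Adm x V G) : x.ofLp ⬝ᵥ V.ofLp = 0 := by
  rw [dotProduct_comm]; exact h.Vx

/-- the vector `adj (1 + s G) (G V)` -/
noncomputable def Rv (V : EuclideanSpace ℝ (Fin 8)) (G : Matrix (Fin 8) (Fin 8) ℝ) (s : ℝ) :
    Fin 8 → ℝ := (1 + s • G).adjugate *ᵥ (G *ᵥ V.ofLp)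

theorem Adm.adjV (_ : Adm x V G) (s : ℝ) :
    (1 + s • G).adjugate *ᵥ V.ofLp = (1 + s • G).det • V.ofLp - s • Rv V G s := by
  have h1 : (1 + s • G).adjugate *ᵥ ((1 + s • G) *ᵥ V.ofLp) = (1 + s • G).det • V.ofLp := by
    rw [Matrix.mulVec_mulVec, Matrix.adjugate_mul, Matrix.smul_mulVec, Matrix.one_mulVec]
  rw [Matrix.add_mulVec, Matrix.one_mulVec, Matrix.smul_mulVec, Matrix.mulVec_add,
    Matrix.mulVec_smul] at h1
  rw [← h1, Rv]
  abel

theorem Adm.adjx (h : Adm x V G) (s : ℝ) :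
    (1 + s • G).adjugate *ᵥ x.ofLp = (1 + s • G).det • x.ofLp := by
  have h1 : (1 + s • G).adjugate *ᵥ ((1 + s • G) *ᵥ x.ofLp) = (1 + s • G).det • x.ofLp := by
    rw [Matrix.mulVec_mulVec, Matrix.adjugate_mul, Matrix.smul_mulVec, Matrix.one_mulVec]
  rw [Matrix.add_mulVec, Matrix.one_mulVec, Matrix.smul_mulVec, h.Gx, smul_zero, add_zero] at h1
  exact h1

theorem left_adj (u : Fin 8 → ℝ) (hu : u ᵥ* G = 0) (s : ℝ) :
    u ᵥ* (1 + s • G).adjugate = (1 + s • G).det • u := by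
  have h1 : (u ᵥ* (1 + s • G)) ᵥ* (1 + s • G).adjugate = (1 + s • G).det • u := by
    rw [Matrix.vecMul_vecMul, Matrix.mul_adjugate, Matrix.vecMul_smul, Matrix.vecMul_one]
  rw [Matrix.vecMul_add, Matrix.vecMul_one, Matrix.vecMul_smul, hu, smul_zero, add_zero] at h1
  exact h1

theorem Adm.xR (h : Adm x V G) (s : ℝ) : x.ofLp ⬝ᵥ Rv V G s = 0 := by
  rw [Rv, Matrix.dotProduct_mulVec, left_adj _ h.xG, Matrix.dotProduct_mulVec,
    Matrix.smul_vecMul, h.xG, smul_zero, zero_dotProduct]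

theorem Adm.VR (h : Adm x V G) (s : ℝ) : V.ofLp ⬝ᵥ Rv V G s = 0 := by
  rw [Rv, Matrix.dotProduct_mulVec, left_adj _ h.VG, Matrix.dotProduct_mulVec,
    Matrix.smul_vecMul, h.VG, smul_zero, zero_dotProduct]

theorem Adm.GR (_ : Adm x V G) (s : ℝ) :
    s • (G *ᵥ Rv V G s) = (1 + s • G).det • (G *ᵥ V.ofLp) - Rv V G s := by
  have h1 : (1 + s • G) *ᵥ Rv V G s = (1 + s • G).det • (G *ᵥ V.ofLp) := by
    rw [Rv, Matrix.mulVec_mulVec, Matrix.mul_adjugate, Matrix.smul_mulVec, Matrix.one_mulVec]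
  rw [Matrix.add_mulVec, Matrix.one_mulVec, Matrix.smul_mulVec] at h1
  rw [← h1]; abel

theorem Adm.detJ (h : Adm x V G) (s : ℝ) :
    (1 + s • (Matrix.vecMulVec V.ofLp x.ofLp - Matrix.vecMulVec x.ofLp V.ofLp)).det
      = 1 + s ^ 2 := by
  set U : Matrix (Fin 8) (Fin 2) ℝ := Matrix.of fun i j => if j = 0 then s * V.ofLp i
    else - (s * x.ofLp i) with hU
  set W : Matrix (Fin 2) (Fin 8) ℝ := Matrix.of fun i j => if i = 0 then x.ofLp j
    else V.ofLp j with hW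
  have h1 : s • (Matrix.vecMulVec V.ofLp x.ofLp - Matrix.vecMulVec x.ofLp V.ofLp) = U * W := by
    ext i j
    rw [Matrix.mul_apply, Fin.sum_univ_two]
    simp [hU, hW, Matrix.vecMulVec_apply]
    ring
  rw [h1, Matrix.det_one_add_mul_comm, Matrix.det_fin_two]
  have a00 : (W * U) 0 0 = s * (x.ofLp ⬝ᵥ V.ofLp) := by
    rw [Matrix.mul_apply, dotProduct, Finset.mul_sum]
    refine Finset.sum_congr rfl fun i _ => ?_
    simp [hU, hW]; ring
  have a01 : (W * U) 0 1 = - (s * (x.ofLp ⬝ᵥ x.ofLp)) := by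
    rw [Matrix.mul_apply, dotProduct, Finset.mul_sum, ← Finset.sum_neg_distrib]
    refine Finset.sum_congr rfl fun i _ => ?_
    simp [hU, hW]; ring
  have a10 : (W * U) 1 0 = s * (V.ofLp ⬝ᵥ V.ofLp) := by
    rw [Matrix.mul_apply, dotProduct, Finset.mul_sum]
    refine Finset.sum_congr rfl fun i _ => ?_
    simp [hU, hW]; ring
  have a11 : (W * U) 1 1 = - (s * (V.ofLp ⬝ᵥ x.ofLp)) := by
    rw [Matrix.mul_apply, dotProduct, Finset.mul_sum, ← Finset.sum_neg_distrib]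
    refine Finset.sum_congr rfl fun i _ => ?_
    simp [hU, hW]; ring
  simp only [Matrix.add_apply, Matrix.one_apply_eq, a00, a01, a10, a11, h.xV, h.Vx, h.xx, h.VV]
  rw [Matrix.one_apply_ne (by decide), Matrix.one_apply_ne (by decide)]
  ring

theorem Adm.la1 (h : Adm x V G) (s ε : ℝ) (g : Fin 8 → ℝ) :
    (1 + s • (G + Matrix.vecMulVec V.ofLp x.ofLp - Matrix.vecMulVec x.ofLp V.ofLp)
        + ε • Matrix.vecMulVec V.ofLp g).det
      = (1 + s ^ 2) * (1 + s • G).det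
        + ε * ((1 + s • G).det * (g ⬝ᵥ V.ofLp) - s * (g ⬝ᵥ Rv V G s)
          + s * ((1 + s • G).det * (g ⬝ᵥ x.ofLp))) := by
  set J := Matrix.vecMulVec V.ofLp x.ofLp - Matrix.vecMulVec x.ofLp V.ofLp with hJ
  have hJG : J * G = 0 := by
    rw [hJ, sub_mul, Matrix.vecMulVec_mul, Matrix.vecMulVec_mul, h.xG, h.VG]
    simp
  have hfac : 1 + s • (G + Matrix.vecMulVec V.ofLp x.ofLp - Matrix.vecMulVec x.ofLp V.ofLp)
      = (1 + s • J) * (1 + s • G) := by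
    rw [mul_add, mul_one, add_mul, one_mul, Matrix.smul_mul, Matrix.mul_smul, hJG, hJ, smul_zero,
      smul_zero, add_zero, add_sub_assoc, smul_add]
    abel
  have hJV : J *ᵥ V.ofLp = - x.ofLp := by
    rw [hJ, Matrix.sub_mulVec, Matrix.vecMulVec_mulVec, Matrix.vecMulVec_mulVec, h.xV, h.VV]
    simp
  have hJx : J *ᵥ x.ofLp = V.ofLp := by
    rw [hJ, Matrix.sub_mulVec, Matrix.vecMulVec_mulVec, Matrix.vecMulVec_mulVec, h.xx, h.Vx]
    simp
  have hadjJ : (1 + s • J).adjugate *ᵥ V.ofLp = V.ofLp + s • x.ofLp := by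
    have h1 : (1 + s • J) *ᵥ (V.ofLp + s • x.ofLp) = (1 + s ^ 2) • V.ofLp := by
      rw [Matrix.add_mulVec, Matrix.one_mulVec, Matrix.smul_mulVec, Matrix.mulVec_add,
        Matrix.mulVec_smul, hJV, hJx, smul_add, smul_neg, smul_smul, add_smul, one_smul, sq]
      abel
    have h2 : (1 + s • J).adjugate *ᵥ ((1 + s • J) *ᵥ (V.ofLp + s • x.ofLp))
        = (1 + s ^ 2) • (V.ofLp + s • x.ofLp) := by
      rw [Matrix.mulVec_mulVec, Matrix.adjugate_mul, Matrix.smul_mulVec, Matrix.one_mulVec,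
        h.detJ]
    rw [h1, Matrix.mulVec_smul] at h2
    have h3 : (1 + s ^ 2 : ℝ) ≠ 0 := by positivity
    have h4 := congrArg (fun v => (1 + s ^ 2 : ℝ)⁻¹ • v) h2
    simp only [smul_smul, inv_mul_cancel₀ h3, one_smul] at h4
    exact h4
  have hv : ε • Matrix.vecMulVec V.ofLp g = Matrix.vecMulVec V.ofLp (ε • g) := by
    rw [Matrix.vecMulVec_smul]
  rw [hfac, hv, det_add_vec, det_mul, h.detJ, Matrix.adjugate_mul_distrib,
    ← Matrix.mulVec_mulVec, hadjJ, Matrix.mulVec_add, Matrix.mulVec_smul, h.adjV, h.adjx]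
  rw [smul_dotProduct, dotProduct_add, dotProduct_sub, dotProduct_smul, dotProduct_smul,
    dotProduct_smul, dotProduct_smul]
  simp only [smul_eq_mul]

/-- first choice of the test direction -/
theorem Adm.q1 (h : Adm x V G) (s : ℝ) (e : Fin 8 → ℝ) :
    (1 + s • G).det * ((e - (e ⬝ᵥ x.ofLp) • x.ofLp) ⬝ᵥ V.ofLp)
      - s * ((e - (e ⬝ᵥ x.ofLp) • x.ofLp) ⬝ᵥ Rv V G s)
      + s * ((1 + s • G).det * ((e - (e ⬝ᵥ x.ofLp) • x.ofLp) ⬝ᵥ x.ofLp))
      = (1 + s • G).det * (e ⬝ᵥ V.ofLp) - s * (e ⬝ᵥ Rv V G s) := by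
  simp only [sub_dotProduct, smul_dotProduct, smul_eq_mul, h.xx, h.xR, h.xV]
  ring

/-- second choice of the test direction -/
theorem Adm.q2 (h : Adm x V G) (s : ℝ) (e : Fin 8 → ℝ) :
    (1 + s • G).det * ((e ᵥ* G - (e ⬝ᵥ x.ofLp) • V.ofLp) ⬝ᵥ V.ofLp)
      - s * ((e ᵥ* G - (e ⬝ᵥ x.ofLp) • V.ofLp) ⬝ᵥ Rv V G s)
      + s * ((1 + s • G).det * ((e ᵥ* G - (e ⬝ᵥ x.ofLp) • V.ofLp) ⬝ᵥ x.ofLp))
      = e ⬝ᵥ Rv V G s - (e ⬝ᵥ x.ofLp) * (1 + s • G).det := by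
  have h1 : s * ((e ᵥ* G) ⬝ᵥ Rv V G s)
      = (1 + s • G).det * (e ⬝ᵥ (G *ᵥ V.ofLp)) - e ⬝ᵥ Rv V G s := by
    have := congrArg (fun v => e ⬝ᵥ v) (h.GR s)
    simp only [dotProduct_smul, dotProduct_sub, smul_eq_mul] at this
    rw [← Matrix.dotProduct_mulVec]
    exact this
  have h2 : (e ᵥ* G) ⬝ᵥ V.ofLp = e ⬝ᵥ (G *ᵥ V.ofLp) := by rw [Matrix.dotProduct_mulVec]
  have h3 : (e ᵥ* G) ⬝ᵥ x.ofLp = 0 := by
    rw [← Matrix.dotProduct_mulVec, h.Gx, dotProduct_zero]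
  simp only [sub_dotProduct, smul_dotProduct, smul_eq_mul, h.VV, h.VR, h.Vx, h2, h3]
  linear_combination -h1

end

end Pool.Agent.Helper28
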