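import Mathlib

set_option linter.unusedSectionVars false
open MeasureTheory Metric Set
open scoped ENNReal

namespace Pool.Agent.Helper28

variable {E : Type*} [NormedAddCommGroup E] [InnerProductSpace ℝ E]
  [FiniteDimensional ℝ E] [MeasurableSpace E] [BorelSpace E]

theorem polar_lintegral {n : ℕ} (hn : Module.finrank ℝ E = n + 1) (g : E → ℝ≥0∞)
    (hg : Measurable g) :
    ∫⁻ x in ({0}ᶜ : Set E), g x ∂volume
      = ∫⁻ z : sphere (0 : E) 1, ∫⁻ t : Ioi (0 : ℝ), g ((t : ℝ) • (z : E))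
          ∂(Measure.volumeIoiPow n) ∂(volume : Measure E).toSphere := by
  have h0 : MeasurableSet ({0}ᶜ : Set E) := (measurableSet_singleton 0).compl
  rw [← lintegral_subtype_comap h0]
  have hmp := (volume : Measure E).measurePreserving_homeomorphUnitSphereProd
  rw [hn, Nat.add_sub_cancel] at hmp
  have h1 : ∀ x : ({0}ᶜ : Set E), g (x : E)
      = (fun p : sphere (0 : E) 1 × Ioi (0 : ℝ) => g ((p.2 : ℝ) • (p.1 : E)))
          (homeomorphUnitSphereProd E x) := by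
    intro x
    have hx : ‖(x : E)‖ ≠ 0 := norm_ne_zero_iff.2 x.2
    simp only [homeomorphUnitSphereProd_apply_fst_coe, homeomorphUnitSphereProd_apply_snd_coe]
    rw [smul_smul, mul_inv_cancel₀ hx, one_smul]
  rw [lintegral_congr h1]
  rw [hmp.lintegral_comp_emb (Homeomorph.measurableEmbedding _)
    (fun p : sphere (0 : E) 1 × Ioi (0 : ℝ) => g ((p.2 : ℝ) • (p.1 : E)))]
  rw [lintegral_prod]
  exact (hg.comp (by fun_prop)).aemeasurable

theorem polar {n : ℕ} (hn : Module.finrank ℝ E = n + 1) (φ : E → ℝ≥0∞) (hφ : Measurable φ)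
    (ρ : E → ℝ) (hρ : Measurable ρ) (hpos : ∀ x ∈ sphere (0 : E) 1, 0 < ρ x) :
    ∫⁻ x in {x : E | x ≠ 0 ∧ ‖x‖ * ρ (‖x‖⁻¹ • x) < 1}, φ (‖x‖⁻¹ • x) ∂volume
      = ∫⁻ z : sphere (0 : E) 1, φ z * ENNReal.ofReal ((ρ z)⁻¹ ^ (n + 1) / (n + 1))
          ∂(volume : Measure E).toSphere := by
  have hm1 : Measurable (fun x : E => ‖x‖⁻¹ • x) := by fun_prop
  set s2 : Set E := {x : E | ‖x‖ * ρ (‖x‖⁻¹ • x) < 1} with hs2
  have hs2m : MeasurableSet s2 :=
    measurableSet_lt (measurable_norm.mul (hρ.comp hm1)) measurable_const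
  have hset : {x : E | x ≠ 0 ∧ ‖x‖ * ρ (‖x‖⁻¹ • x) < 1} = ({0}ᶜ : Set E) ∩ s2 := by
    ext x; simp [hs2]
  rw [hset, inter_comm, ← Measure.restrict_restrict hs2m, ← lintegral_indicator hs2m]
  rw [polar_lintegral hn (s2.indicator (fun x => φ (‖x‖⁻¹ • x))) ((hφ.comp hm1).indicator hs2m)]
  refine lintegral_congr fun z => ?_
  have hz : ‖(z : E)‖ = 1 := by simp
  have hρz := hpos z z.2
  have h2 : ∀ t : Ioi (0 : ℝ), (s2.indicator (fun x => φ (‖x‖⁻¹ • x))) ((t : ℝ) • (z : E))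
      = (Iio (⟨(ρ z)⁻¹, inv_pos.2 hρz⟩ : Ioi (0 : ℝ))).indicator (fun _ => φ z) t := by
    intro t
    have ht : (0 : ℝ) < t := t.2
    have hnt : ‖(t : ℝ) • (z : E)‖ = t := by
      rw [norm_smul, hz, mul_one, Real.norm_of_nonneg ht.le]
    have hdir : ‖(t : ℝ) • (z : E)‖⁻¹ • ((t : ℝ) • (z : E)) = z := by
      rw [hnt, smul_smul, inv_mul_cancel₀ ht.ne', one_smul]
    have hmem : ((t : ℝ) • (z : E)) ∈ s2 ↔ t ∈ Iio (⟨(ρ z)⁻¹, inv_pos.2 hρz⟩ : Ioi (0 : ℝ)) := by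
      rw [hs2, mem_ofPred_eq, hdir, hnt, mem_Iio, ← Subtype.coe_lt_coe, lt_inv_comm₀ ht hρz,
        ← one_div, lt_div_iff₀ ht, mul_comm]
    by_cases hh : ((t : ℝ) • (z : E)) ∈ s2
    · rw [indicator_of_mem hh, indicator_of_mem (hmem.1 hh), hdir]
    · rw [indicator_of_notMem hh, indicator_of_notMem (fun h => hh (hmem.2 h))]
  simp_rw [h2]
  rw [lintegral_indicator measurableSet_Iio, lintegral_const, Measure.restrict_apply_univ,
    Measure.volumeIoiPow_apply_Iio]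

end Pool.Agent.Helper28
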