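import Mathlib
import Pool.Agent.Helper28.SphereCalc

open MeasureTheory Metric

namespace Pool.Agent.Helper28

abbrev E4 := EuclideanSpace ℝ (Fin 4)

/-- left multiplication by i, j, k on the quaternions -/
noncomputable def A1 : E4 →L[ℝ] E4 := LinearMap.toContinuousLinearMap
  { toFun := fun x => !₂[-x 1, x 0, -x 3, x 2]
    map_add' := by intro x y; ext i; fin_cases i <;> simp <;> ring
    map_smul' := by intro c x; ext i; fin_cases i <;> simp }

noncomputable def A2 : E4 →L[ℝ] E4 := LinearMap.toContinuousLinearMap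
  { toFun := fun x => !₂[-x 2, x 3, x 0, -x 1]
    map_add' := by intro x y; ext i; fin_cases i <;> simp <;> ring
    map_smul' := by intro c x; ext i; fin_cases i <;> simp }

noncomputable def A3 : E4 →L[ℝ] E4 := LinearMap.toContinuousLinearMap
  { toFun := fun x => !₂[-x 3, -x 2, x 1, x 0]
    map_add' := by intro x y; ext i; fin_cases i <;> simp <;> ring
    map_smul' := by intro c x; ext i; fin_cases i <;> simp }

theorem A1_apply (x : E4) : A1 x = !₂[-x 1, x 0, -x 3, x 2] := rfl
theorem A2_apply (x : E4) : A2 x = !₂[-x 2, x 3, x 0, -x 1] := rfl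
theorem A3_apply (x : E4) : A3 x = !₂[-x 3, -x 2, x 1, x 0] := rfl

theorem inner4 (x y : E4) : inner ℝ x y = x 0 * y 0 + x 1 * y 1 + x 2 * y 2 + x 3 * y 3 := by
  simp [PiLp.inner_apply, Fin.sum_univ_four]
  ring

theorem normsq4 (x : E4) : ‖x‖ ^ 2 = x 0 ^ 2 + x 1 ^ 2 + x 2 ^ 2 + x 3 ^ 2 := by
  rw [← real_inner_self_eq_norm_sq, inner4]; ring

theorem norm_eq_of_sq {x y : E4} (h : ‖x‖ ^ 2 = ‖y‖ ^ 2) : ‖x‖ = ‖y‖ :=
  (sq_eq_sq₀ (norm_nonneg _) (norm_nonneg _)).1 h

theorem A1_skew (x : E4) : inner ℝ (A1 x) x = 0 := by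
  rw [inner4, A1_apply]; simp; ring
theorem A2_skew (x : E4) : inner ℝ (A2 x) x = 0 := by
  rw [inner4, A2_apply]; simp; ring
theorem A3_skew (x : E4) : inner ℝ (A3 x) x = 0 := by
  rw [inner4, A3_apply]; simp; ring
theorem A1_norm (x : E4) : ‖A1 x‖ = ‖x‖ := by
  apply norm_eq_of_sq; rw [normsq4, normsq4, A1_apply]; simp; ring
theorem A2_norm (x : E4) : ‖A2 x‖ = ‖x‖ := by
  apply norm_eq_of_sq; rw [normsq4, normsq4, A2_apply]; simp; ring
theorem A3_norm (x : E4) : ‖A3 x‖ = ‖x‖ := by
  apply norm_eq_of_sq; rw [normsq4, normsq4, A3_apply]; simp; ring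

/-- the frame x, ix, jx, kx -/
noncomputable def frm (x : E4) : Fin 4 → E4 := ![x, A1 x, A2 x, A3 x]

theorem frm_orthonormal (x : E4) (hx : ‖x‖ = 1) : Orthonormal ℝ (frm x) := by
  have h1 : x 0 ^ 2 + x 1 ^ 2 + x 2 ^ 2 + x 3 ^ 2 = 1 := by rw [← normsq4, hx]; norm_num
  rw [orthonormal_iff_ite]
  intro i j
  rw [inner4]
  fin_cases i <;> fin_cases j <;>
    simp [frm, A1_apply, A2_apply, A3_apply] <;> nlinarith [h1]

noncomputable def frmBasis (x : E4) (hx : ‖x‖ = 1) : OrthonormalBasis (Fin 4) ℝ E4 :=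
  OrthonormalBasis.mk (frm_orthonormal x hx) (by
    have h := (frm_orthonormal x hx).linearIndependent
    have := h.span_eq_top_of_card_eq_finrank (by simp)
    exact this.ge)

theorem frmBasis_apply (x : E4) (hx : ‖x‖ = 1) (i : Fin 4) : frmBasis x hx i = frm x i := by
  simp [frmBasis]

noncomputable def projT (x : E4) : E4 →L[ℝ] E4 :=
  ContinuousLinearMap.id ℝ E4 - (innerSL ℝ x).smulRight x

theorem projT_apply (x v : E4) : projT x v = v - (inner ℝ x v) • x := by
  simp [projT]

theorem inner_projT (x : E4) (hx : ‖x‖ = 1) (u v : E4) :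
    inner ℝ (projT x u) (projT x v)
      = inner ℝ u (A1 x) * inner ℝ (A1 x) v + inner ℝ u (A2 x) * inner ℝ (A2 x) v
        + inner ℝ u (A3 x) * inner ℝ (A3 x) v := by
  have hp := (frmBasis x hx).sum_inner_mul_inner u v
  rw [Fin.sum_univ_four] at hp
  simp only [frmBasis_apply, frm, Matrix.cons_val_zero, Matrix.cons_val_one, Matrix.cons_val] at hp
  rw [projT_apply, projT_apply, inner_sub_left, inner_sub_right, inner_sub_right,
    inner_smul_left, inner_smul_right, inner_smul_left, inner_smul_right,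
    real_inner_self_eq_norm_sq, hx, real_inner_comm u x]
  simp only [conj_trivial]
  linarith

/-- the matrix of the covariant derivative in the frame -/
noncomputable def mMat (x : E4) (D : E4 →L[ℝ] E4) : Matrix (Fin 3) (Fin 3) ℝ :=
  fun a b => inner ℝ (![A1 x, A2 x, A3 x] a) (D (![A1 x, A2 x, A3 x] b))

theorem det_formula (x : E4) (hx : ‖x‖ = 1) (D : E4 →L[ℝ] E4) :
    LinearMap.det (((ContinuousLinearMap.id ℝ E4 +
      (ContinuousLinearMap.adjoint (projT x ∘L D ∘L projT x)) ∘L (projT x ∘L D ∘L projT x)) :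
        E4 →L[ℝ] E4) : E4 →ₗ[ℝ] E4)
      = (1 + (mMat x D).transpose * mMat x D).det := by
  set B : E4 →L[ℝ] E4 := projT x ∘L D ∘L projT x with hB
  set T : E4 →L[ℝ] E4 := ContinuousLinearMap.id ℝ E4 + (ContinuousLinearMap.adjoint B) ∘L B with hT
  have hbx : projT x x = 0 := by rw [projT_apply, real_inner_self_eq_norm_sq, hx]; simp
  have hpa : ∀ i : Fin 3, projT x (![A1 x, A2 x, A3 x] i) = ![A1 x, A2 x, A3 x] i := by
    intro i
    rw [projT_apply]
    have : inner ℝ x (![A1 x, A2 x, A3 x] i) = 0 := by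
      rw [real_inner_comm]
      fin_cases i
      · exact A1_skew x
      · exact A2_skew x
      · exact A3_skew x
    rw [this]; simp
  have hT2 : ∀ u v : E4, inner ℝ u (T v) = inner ℝ u v + inner ℝ (B u) (B v) := by
    intro u v
    simp only [hT, add_apply, ContinuousLinearMap.coe_id', id_eq,
      ContinuousLinearMap.comp_apply, inner_add_right]
    rw [ContinuousLinearMap.adjoint_inner_right]
  have hB0 : B x = 0 := by simp [hB, hbx]
  have hBi : ∀ i : Fin 3, B (![A1 x, A2 x, A3 x] i) = projT x (D (![A1 x, A2 x, A3 x] i)) := by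
    intro i; simp only [hB, ContinuousLinearMap.comp_apply, hpa]
  rw [← LinearMap.det_toMatrix (frmBasis x hx).toBasis]
  have hentry : LinearMap.toMatrix (frmBasis x hx).toBasis (frmBasis x hx).toBasis (T : E4 →ₗ[ℝ] E4)
      = Matrix.of (fun i j => inner ℝ (frm x i) (T (frm x j))) := by
    ext i j
    rw [LinearMap.toMatrix_apply]
    simp [OrthonormalBasis.coe_toBasis_repr_apply, OrthonormalBasis.repr_apply_apply, frmBasis_apply]
  rw [hentry, Matrix.det_succ_row_zero]
  have hrow : ∀ j : Fin 4, (Matrix.of (fun i j => inner ℝ (frm x i) (T (frm x j)))) 0 j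
      = if j = 0 then (1 : ℝ) else 0 := by
    intro j
    have h0 := (orthonormal_iff_ite.1 (frm_orthonormal x hx)) 0 j
    simp only [Matrix.of_apply, hT2]
    have : B (frm x 0) = 0 := by simpa [frm] using hB0
    rw [this, inner_zero_left, add_zero, h0]
    simp [eq_comm]
  rw [Fin.sum_univ_four]
  simp only [hrow]
  have e1 : ((if (1 : Fin 4) = 0 then (1 : ℝ) else 0)) = 0 := by simp
  have e2 : ((if (2 : Fin 4) = 0 then (1 : ℝ) else 0)) = 0 := by simp
  have e3 : ((if (3 : Fin 4) = 0 then (1 : ℝ) else 0)) = 0 := by simp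
  rw [e1, e2, e3]
  simp only [if_true, Fin.val_zero, pow_zero, mul_one, one_mul, mul_zero, zero_mul, add_zero]
  congr 1
  ext a b
  have h0 := (orthonormal_iff_ite.1 (frm_orthonormal x hx)) a.succ b.succ
  have hf : ∀ i : Fin 3, frm x i.succ = ![A1 x, A2 x, A3 x] i := by
    intro i; fin_cases i <;> rfl
  simp only [Matrix.submatrix_apply, Matrix.of_apply, Matrix.add_apply, Matrix.mul_apply,
    Matrix.transpose_apply, Fin.zero_succAbove]
  rw [hT2, h0, hf, hf, hBi, hBi, inner_projT x hx, Fin.sum_univ_three]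
  congr 1
  · simp [Matrix.one_apply]
  · simp only [mMat]
    simp [real_inner_comm]

end Pool.Agent.Helper28
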