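import Mathlib
import Pool.Agent.Helper28.S3Frame

open MeasureTheory Metric

namespace Pool.Agent.Helper28

noncomputable def pr (i : Fin 4) : E4 →L[ℝ] ℝ := EuclideanSpace.proj i

theorem pr_apply (i : Fin 4) (x : E4) : pr i x = x i := rfl

noncomputable def z1 (x : E4) : ℝ := pr 0 x ^ 2 + pr 1 x ^ 2 - pr 2 x ^ 2 - pr 3 x ^ 2
noncomputable def z2 (x : E4) : ℝ := -2 * (pr 0 x * pr 3 x + pr 1 x * pr 2 x)
noncomputable def z3 (x : E4) : ℝ := 2 * (pr 0 x * pr 2 x - pr 1 x * pr 3 x)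

theorem z_sq (x : E4) (hx : ‖x‖ = 1) : z1 x ^ 2 + z2 x ^ 2 + z3 x ^ 2 = 1 := by
  have h1 : x 0 ^ 2 + x 1 ^ 2 + x 2 ^ 2 + x 3 ^ 2 = 1 := by rw [← normsq4, hx]; norm_num
  simp only [z1, z2, z3, pr_apply]
  linear_combination (x 0 ^ 2 + x 1 ^ 2 + x 2 ^ 2 + x 3 ^ 2 + 1) * h1

theorem z1_contDiff {n : WithTop ℕ∞} : ContDiff ℝ n z1 := by
  unfold z1; fun_prop
theorem z2_contDiff {n : WithTop ℕ∞} : ContDiff ℝ n z2 := by
  unfold z2; fun_prop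
theorem z3_contDiff {n : WithTop ℕ∞} : ContDiff ℝ n z3 := by
  unfold z3; fun_prop

theorem fderiv_pr_mul (i j : Fin 4) (x : E4) :
    HasFDerivAt (fun x => pr i x * pr j x) (pr i x • pr j + pr j x • pr i) x :=
  (pr i).hasFDerivAt.mul (pr j).hasFDerivAt

theorem fderiv_z1 (x v : E4) :
    fderiv ℝ z1 x v = 2 * (x 0 * v 0 + x 1 * v 1 - x 2 * v 2 - x 3 * v 3) := by
  have e : z1 = fun x => pr 0 x * pr 0 x + pr 1 x * pr 1 x - pr 2 x * pr 2 x - pr 3 x * pr 3 x := by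
    funext x; simp only [z1]; ring
  have h := (((fderiv_pr_mul 0 0 x).add (fderiv_pr_mul 1 1 x)).sub
    (fderiv_pr_mul 2 2 x)).sub (fderiv_pr_mul 3 3 x)
  rw [e]
  refine (congrArg (fun L : E4 →L[ℝ] ℝ => L v) h.fderiv).trans ?_
  simp [pr_apply]
  ring

theorem fderiv_z2 (x v : E4) :
    fderiv ℝ z2 x v = -2 * (x 0 * v 3 + x 3 * v 0 + x 1 * v 2 + x 2 * v 1) := by
  have h := ((fderiv_pr_mul 0 3 x).add (fderiv_pr_mul 1 2 x)).const_mul (-2 : ℝ)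
  have e : z2 = fun x => -2 * (pr 0 x * pr 3 x + pr 1 x * pr 2 x) := rfl
  rw [e]
  refine (congrArg (fun L : E4 →L[ℝ] ℝ => L v) h.fderiv).trans ?_
  simp [pr_apply]
  ring

theorem fderiv_z3 (x v : E4) :
    fderiv ℝ z3 x v = 2 * (x 0 * v 2 + x 2 * v 0 - x 1 * v 3 - x 3 * v 1) := by
  have h := ((fderiv_pr_mul 0 2 x).sub (fderiv_pr_mul 1 3 x)).const_mul (2 : ℝ)
  have e : z3 = fun x => 2 * (pr 0 x * pr 2 x - pr 1 x * pr 3 x) := rfl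
  rw [e]
  refine (congrArg (fun L : E4 →L[ℝ] ℝ => L v) h.fderiv).trans ?_
  simp [pr_apply]
  ring

theorem D1z1 (x : E4) : fderiv ℝ z1 x (A1 x) = 0 := by
  rw [fderiv_z1, A1_apply]; simp; ring
theorem D1z2 (x : E4) : fderiv ℝ z2 x (A1 x) = -2 * z3 x := by
  rw [fderiv_z2, A1_apply]; simp [z3, pr_apply]; ring
theorem D1z3 (x : E4) : fderiv ℝ z3 x (A1 x) = 2 * z2 x := by
  rw [fderiv_z3, A1_apply]; simp [z2, pr_apply]; ring
theorem D2z1 (x : E4) : fderiv ℝ z1 x (A2 x) = -2 * z3 x := by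
  rw [fderiv_z1, A2_apply]; simp [z3, pr_apply]; ring
theorem D2z2 (x : E4) : fderiv ℝ z2 x (A2 x) = 0 := by
  rw [fderiv_z2, A2_apply]; simp; ring
theorem D2z3 (x : E4) : fderiv ℝ z3 x (A2 x) = 2 * z1 x := by
  rw [fderiv_z3, A2_apply]; simp [z1, pr_apply]; ring
theorem D3z1 (x : E4) : fderiv ℝ z1 x (A3 x) = 2 * z2 x := by
  rw [fderiv_z1, A3_apply]; simp [z2, pr_apply]; ring
theorem D3z2 (x : E4) : fderiv ℝ z2 x (A3 x) = -2 * z1 x := by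
  rw [fderiv_z2, A3_apply]; simp [z1, pr_apply]; ring
theorem D3z3 (x : E4) : fderiv ℝ z3 x (A3 x) = 0 := by
  rw [fderiv_z3, A3_apply]; simp; ring

/-- the unit field -/
noncomputable def Vf (x : E4) : E4 := z1 x • A1 x + z2 x • A2 x + z3 x • A3 x

theorem Vf_contDiff {n : WithTop ℕ∞} : ContDiff ℝ n Vf := by
  unfold Vf
  exact ((z1_contDiff.smul A1.contDiff).add (z2_contDiff.smul A2.contDiff)).add
    (z3_contDiff.smul A3.contDiff)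

theorem inner_x_Vf (x : E4) : inner ℝ x (Vf x) = 0 := by
  have h1 := A1_skew x; have h2 := A2_skew x; have h3 := A3_skew x
  rw [real_inner_comm] at h1 h2 h3
  simp [Vf, inner_add_right, inner_smul_right, h1, h2, h3]

theorem inner_A_A (x : E4) (hx : ‖x‖ = 1) : inner ℝ (A1 x) (A1 x) = 1 ∧ inner ℝ (A1 x) (A2 x) = 0 ∧
    inner ℝ (A1 x) (A3 x) = 0 ∧ inner ℝ (A2 x) (A1 x) = 0 ∧ inner ℝ (A2 x) (A2 x) = 1 ∧
    inner ℝ (A2 x) (A3 x) = 0 ∧ inner ℝ (A3 x) (A1 x) = 0 ∧ inner ℝ (A3 x) (A2 x) = 0 ∧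
    inner ℝ (A3 x) (A3 x) = 1 := by
  have h1 : x 0 ^ 2 + x 1 ^ 2 + x 2 ^ 2 + x 3 ^ 2 = 1 := by rw [← normsq4, hx]; norm_num
  refine ⟨?_, ?_, ?_, ?_, ?_, ?_, ?_, ?_, ?_⟩ <;>
    rw [inner4] <;> simp [A1_apply, A2_apply, A3_apply] <;> nlinarith [h1]

theorem norm_Vf (x : E4) (hx : ‖x‖ = 1) : ‖Vf x‖ = 1 := by
  have h : ‖Vf x‖ ^ 2 = 1 := by
    obtain ⟨h11, h12, h13, h21, h22, h23, h31, h32, h33⟩ := inner_A_A x hx
    rw [← real_inner_self_eq_norm_sq]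
    simp only [Vf, inner_add_right, inner_add_left, inner_smul_right, real_inner_smul_left,
      h11, h12, h13, h21, h22, h23, h31, h32, h33]
    have := z_sq x hx
    linarith
  have h0 := norm_nonneg (Vf x)
  nlinarith [h, h0]

end Pool.Agent.Helper28
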