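import Mathlib
import Pool.Agent.Helper28.S3Field

open MeasureTheory Metric

namespace Pool.Agent.Helper28

section var
variable (Φ : ℝ → E4 → E4)

noncomputable def Ph (p : ℝ × E4) : E4 := Φ p.1 p.2

noncomputable def eta (x : E4) : E4 := fderiv ℝ (Ph Φ) (0, x) (1, 0)

variable {Φ} (hΦ : ContDiff ℝ ((⊤ : ℕ∞) : WithTop ℕ∞) (Ph Φ))
include hΦ

theorem Ph_diff : Differentiable ℝ (Ph Φ) := hΦ.differentiable (by simp)

theorem fderiv_slice (t : ℝ) (x v : E4) :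
    fderiv ℝ (Φ t) x v = fderiv ℝ (Ph Φ) (t, x) (0, v) := by
  have h1 : HasFDerivAt (Ph Φ) (fderiv ℝ (Ph Φ) (t, x)) (t, x) := (Ph_diff hΦ (t, x)).hasFDerivAt
  have h2 : HasFDerivAt (fun y : E4 => (t, y)) (ContinuousLinearMap.inr ℝ ℝ E4) x :=
    hasFDerivAt_prodMk_right t x
  have h3 : HasFDerivAt (Φ t) ((fderiv ℝ (Ph Φ) (t, x)).comp (ContinuousLinearMap.inr ℝ ℝ E4)) x :=
    h1.comp x h2
  rw [h3.fderiv]
  simp

theorem hasDerivAt_slice (t : ℝ) (x : E4) :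
    HasDerivAt (fun s => Φ s x) (fderiv ℝ (Ph Φ) (t, x) (1, 0)) t := by
  have h1 : HasFDerivAt (Ph Φ) (fderiv ℝ (Ph Φ) (t, x)) (t, x) := (Ph_diff hΦ (t, x)).hasFDerivAt
  have h2 : HasDerivAt (fun s : ℝ => (s, x)) ((1 : ℝ), (0 : E4)) t :=
    (hasDerivAt_id t).prodMk (hasDerivAt_const t x)
  exact h1.comp_hasDerivAt t h2

theorem fd_contDiff : ContDiff ℝ ((⊤ : ℕ∞) : WithTop ℕ∞) (fderiv ℝ (Ph Φ)) :=
  hΦ.fderiv_right (by simp)

theorem eta_contDiff : ContDiff ℝ ((⊤ : ℕ∞) : WithTop ℕ∞) (eta Φ) := by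
  unfold eta
  exact ((fd_contDiff hΦ).comp (contDiff_const.prodMk contDiff_id)).clm_apply contDiff_const

theorem mm_contDiff (A B : E4 →L[ℝ] E4) :
    ContDiff ℝ ((⊤ : ℕ∞) : WithTop ℕ∞)
      (fun p : ℝ × E4 => inner ℝ (A p.2) (fderiv ℝ (Φ p.1) p.2 (B p.2))) := by
  have e : (fun p : ℝ × E4 => inner ℝ (A p.2) (fderiv ℝ (Φ p.1) p.2 (B p.2)))
      = fun p : ℝ × E4 => inner ℝ (A p.2) (fderiv ℝ (Ph Φ) p ((0 : ℝ), B p.2)) := by
    funext p
    rw [fderiv_slice hΦ]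
  rw [e]
  refine ContDiff.inner ℝ (A.contDiff.comp contDiff_snd) ?_
  exact (fd_contDiff hΦ).clm_apply (contDiff_const.prodMk (B.contDiff.comp contDiff_snd))

theorem yy_contDiff (A : E4 →L[ℝ] E4) :
    ContDiff ℝ ((⊤ : ℕ∞) : WithTop ℕ∞) (fun y : E4 => inner ℝ (A y) (eta Φ y)) :=
  ContDiff.inner ℝ A.contDiff (eta_contDiff hΦ)

theorem mm_hasDerivAt (A B : E4 →L[ℝ] E4) (x : E4) :
    HasDerivAt (fun t => inner ℝ (A x) (fderiv ℝ (Φ t) x (B x)))
      (fderiv ℝ (fun y => inner ℝ (A y) (eta Φ y)) x (B x) - inner ℝ (A (B x)) (eta Φ x)) 0 := by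
  set H := fderiv ℝ (fderiv ℝ (Ph Φ)) (0, x) with hH
  have hfd : HasFDerivAt (fderiv ℝ (Ph Φ)) H (0, x) :=
    ((fd_contDiff hΦ).differentiable (by simp) (0, x)).hasFDerivAt
  have hsymm : ∀ u v, H u v = H v u := by
    intro u v
    have h := (hΦ.contDiffAt (x := ((0 : ℝ), x))).isSymmSndFDerivAt (by
      rw [minSmoothness_of_isRCLikeNormedField]
      exact WithTop.coe_le_coe.2 (le_top : (2 : ℕ∞) ≤ ⊤))
    exact h u v
  -- derivative in t
  have h2 : HasDerivAt (fun s : ℝ => (s, x)) ((1 : ℝ), (0 : E4)) 0 :=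
    (hasDerivAt_id (0 : ℝ)).prodMk (hasDerivAt_const (0 : ℝ) x)
  have h3 : HasDerivAt (fun s : ℝ => fderiv ℝ (Ph Φ) (s, x)) (H (1, 0)) 0 :=
    hfd.comp_hasDerivAt (0 : ℝ) h2
  have h4 : HasDerivAt (fun s : ℝ => fderiv ℝ (Ph Φ) (s, x) ((0 : ℝ), B x))
      (H (1, 0) ((0 : ℝ), B x)) 0 := by
    have := h3.clm_apply (hasDerivAt_const (0 : ℝ) ((0 : ℝ), B x))
    simpa using this
  have h5 : HasDerivAt (fun s : ℝ => inner ℝ (A x) (fderiv ℝ (Ph Φ) (s, x) ((0 : ℝ), B x)))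
      (inner ℝ (A x) (H (1, 0) ((0 : ℝ), B x))) 0 := by
    have := (hasDerivAt_const (0 : ℝ) (A x)).inner ℝ h4
    simpa using this
  -- derivative of y
  have h6 : HasFDerivAt (fun y : E4 => ((0 : ℝ), y)) (ContinuousLinearMap.inr ℝ ℝ E4) x :=
    hasFDerivAt_prodMk_right (0 : ℝ) x
  have h7 : HasFDerivAt (fun y : E4 => fderiv ℝ (Ph Φ) (0, y))
      (H.comp (ContinuousLinearMap.inr ℝ ℝ E4)) x := hfd.comp x h6
  have h8 : HasFDerivAt (eta Φ)
      ((ContinuousLinearMap.apply ℝ E4 ((1 : ℝ), (0 : E4))).comp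
        (H.comp (ContinuousLinearMap.inr ℝ ℝ E4))) x := by
    exact ((ContinuousLinearMap.apply ℝ E4 ((1 : ℝ), (0 : E4))).hasFDerivAt).comp x h7
  have h9 := A.hasFDerivAt (x := x) |>.inner ℝ h8
  have h10 : fderiv ℝ (fun y => inner ℝ (A y) (eta Φ y)) x (B x)
      = inner ℝ (A x) (H (0, B x) (1, 0)) + inner ℝ (A (B x)) (eta Φ x) := by
    refine (congrArg (fun L : E4 →L[ℝ] ℝ => L (B x)) h9.fderiv).trans ?_
    simp
  rw [h10, add_sub_cancel_right, hsymm]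
  have e : (fun t => inner ℝ (A x) (fderiv ℝ (Φ t) x (B x)))
      = fun s : ℝ => inner ℝ (A x) (fderiv ℝ (Ph Φ) (s, x) ((0 : ℝ), B x)) := by
    funext t
    rw [fderiv_slice hΦ]
  rw [e]
  exact h5

end var

/-- two differentiable maps that agree on the sphere have the same derivative along a skew field -/
theorem fderiv_eq_of_sphere {F : Type*} [NormedAddCommGroup F] [NormedSpace ℝ F]
    (A : E4 →L[ℝ] E4) (hA : ∀ x, inner ℝ (A x) x = 0) (hA2 : ∀ x, ‖A x‖ = ‖x‖)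
    (f g : E4 → F) (hf : Differentiable ℝ f) (hg : Differentiable ℝ g)
    (h : ∀ y ∈ sphere (0 : E4) 1, f y = g y) (x : E4) (hx : ‖x‖ = 1) :
    fderiv ℝ f x (A x) = fderiv ℝ g x (A x) := by
  have hx' : HasDerivAt (fun t : ℝ => Real.cos t • x + Real.sin t • A x) (A x) 0 := by
    have h1 : HasDerivAt (fun t : ℝ => Real.cos t • x + Real.sin t • A x)
        (-Real.sin 0 • x + Real.cos 0 • A x) 0 :=
      ((Real.hasDerivAt_cos 0).smul_const x).add ((Real.hasDerivAt_sin 0).smul_const (A x))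
    simpa using h1
  have hmem : ∀ t : ℝ, Real.cos t • x + Real.sin t • A x ∈ sphere (0 : E4) 1 := by
    intro t
    have := (rotL A hA hA2 t).norm_map x
    rw [rotL_apply] at this
    simp [this, hx]
  have key : ∀ k : E4 → F, Differentiable ℝ k →
      HasDerivAt (fun t : ℝ => k (Real.cos t • x + Real.sin t • A x)) (fderiv ℝ k x (A x)) 0 := by
    intro k hk
    have h2 : HasFDerivAt k (fderiv ℝ k x) (Real.cos 0 • x + Real.sin 0 • A x) := by
      simpa using (hk x).hasFDerivAt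
    exact h2.comp_hasDerivAt (0 : ℝ) hx'
  have e : (fun t : ℝ => f (Real.cos t • x + Real.sin t • A x))
      = fun t : ℝ => g (Real.cos t • x + Real.sin t • A x) := by
    funext t; exact h _ (hmem t)
  have h1 := key f hf
  rw [e] at h1
  exact h1.unique (key g hg)

end Pool.Agent.Helper28
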