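import Mathlib
import Pool.Agent.Helper28.S3Var

open MeasureTheory Metric

namespace Pool.Agent.Helper28

def gramG (m : Fin 3 → Fin 3 → ℝ) (i j : Fin 3) : ℝ :=
  (if i = j then 1 else 0) + (m 0 i * m 0 j + m 1 i * m 1 j + m 2 i * m 2 j)

def gramD (m m' : Fin 3 → Fin 3 → ℝ) (i j : Fin 3) : ℝ :=
  0 + ((m' 0 i * m 0 j + m 0 i * m' 0 j) + (m' 1 i * m 1 j + m 1 i * m' 1 j)
    + (m' 2 i * m 2 j + m 2 i * m' 2 j))

def det3 (G : Fin 3 → Fin 3 → ℝ) : ℝ :=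
  G 0 0 * G 1 1 * G 2 2 - G 0 0 * G 1 2 * G 2 1 - G 0 1 * G 1 0 * G 2 2
    + G 0 1 * G 1 2 * G 2 0 + G 0 2 * G 1 0 * G 2 1 - G 0 2 * G 1 1 * G 2 0

def tri (a a' b b' c c' : ℝ) : ℝ := (a' * b + a * b') * c + a * b * c'

def det3D (G G' : Fin 3 → Fin 3 → ℝ) : ℝ :=
  tri (G 0 0) (G' 0 0) (G 1 1) (G' 1 1) (G 2 2) (G' 2 2)
  - tri (G 0 0) (G' 0 0) (G 1 2) (G' 1 2) (G 2 1) (G' 2 1)
  - tri (G 0 1) (G' 0 1) (G 1 0) (G' 1 0) (G 2 2) (G' 2 2)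
  + tri (G 0 1) (G' 0 1) (G 1 2) (G' 1 2) (G 2 0) (G' 2 0)
  + tri (G 0 2) (G' 0 2) (G 1 0) (G' 1 0) (G 2 1) (G' 2 1)
  - tri (G 0 2) (G' 0 2) (G 1 1) (G' 1 1) (G 2 0) (G' 2 0)

theorem det_eq_det3 (M : Matrix (Fin 3) (Fin 3) ℝ) :
    (1 + M.transpose * M).det = det3 (gramG M) := by
  rw [Matrix.det_fin_three]
  simp [det3, gramG, Matrix.mul_apply, Fin.sum_univ_three]

theorem gramG_deriv (m : Fin 3 → Fin 3 → ℝ → ℝ) (m' : Fin 3 → Fin 3 → ℝ)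
    (h : ∀ a b, HasDerivAt (m a b) (m' a b) 0) (i j : Fin 3) :
    HasDerivAt (fun t => gramG (fun a b => m a b t) i j)
      (gramD (fun a b => m a b 0) m' i j) 0 := by
  unfold gramG gramD
  exact (hasDerivAt_const _ _).add
    ((((h 0 i).mul (h 0 j)).add ((h 1 i).mul (h 1 j))).add ((h 2 i).mul (h 2 j)))

theorem det3_deriv (G : ℝ → Fin 3 → Fin 3 → ℝ) (G' : Fin 3 → Fin 3 → ℝ)
    (h : ∀ i j, HasDerivAt (fun t => G t i j) (G' i j) 0) :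
    HasDerivAt (fun t => det3 (G t)) (det3D (G 0) G') 0 := by
  unfold det3 det3D tri
  exact ((((((((h 0 0).mul (h 1 1)).mul (h 2 2)).sub (((h 0 0).mul (h 1 2)).mul (h 2 1))).sub
    (((h 0 1).mul (h 1 0)).mul (h 2 2))).add (((h 0 1).mul (h 1 2)).mul (h 2 0))).add
    (((h 0 2).mul (h 1 0)).mul (h 2 1))).sub (((h 0 2).mul (h 1 1)).mul (h 2 0)))

theorem det3_pos (M : Matrix (Fin 3) (Fin 3) ℝ) : 0 < det3 (gramG M) := by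
  rw [← det_eq_det3]
  have h1 : (1 : Matrix (Fin 3) (Fin 3) ℝ).PosDef := Matrix.PosDef.one
  have h2 : (M.transpose * M).PosSemidef := by
    have := Matrix.posSemidef_conjTranspose_mul_self M
    simpa using this
  exact (h1.add_posSemidef h2).det_pos

/-- matrix of the covariant derivative of the field, times sqrt 3 -/
def Mz (z1 z2 z3 : ℝ) : Fin 3 → Fin 3 → ℝ :=
  ![![0, -3 * z3, 3 * z2], ![-z3, 0, -3 * z1], ![z2, 3 * z1, 0]]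

/-- the coefficient matrix `k` -/
def Kz (z1 z2 z3 : ℝ) : Fin 3 → Fin 3 → ℝ :=
  ![![0, -(1 + 2 * z1 ^ 2) * z3, (1 + 2 * z1 ^ 2) * z2],
    ![-z3, -2 * z1 * z2 * z3, -z1 * (1 + 2 * z1 ^ 2 + 2 * z3 ^ 2)],
    ![z2, z1 * (1 + 2 * z1 ^ 2 + 2 * z2 ^ 2), 2 * z1 * z2 * z3]]

theorem gram_at_zero (r z1 z2 z3 : ℝ) (hr : r ^ 2 = 1 / 3) (hz : z1 ^ 2 + z2 ^ 2 + z3 ^ 2 = 1)
    (m : Fin 3 → Fin 3 → ℝ) (hm : ∀ a b, m a b = r * Mz z1 z2 z3 a b) :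
    gramG m = ![![(4 - z1 ^ 2) / 3, z1 * z2, z1 * z3], ![z1 * z2, 4 - 3 * z2 ^ 2, -3 * z2 * z3],
      ![z1 * z3, -3 * z2 * z3, 4 - 3 * z3 ^ 2]] := by
  funext i j
  fin_cases i <;> fin_cases j <;> simp [gramG, hm, Mz]
  · linear_combination (z2 ^ 2 + z3 ^ 2) * hr + (1 / 3) * hz
  · linear_combination (3 * z1 * z2) * hr
  · linear_combination (3 * z1 * z3) * hr
  · linear_combination (3 * z1 * z2) * hr
  · linear_combination (9 * z3 ^ 2 + 9 * z1 ^ 2) * hr + 3 * hz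
  · linear_combination (9 * z2 * z3) * hr
  · linear_combination (3 * z1 * z3) * hr
  · linear_combination (9 * z2 * z3) * hr
  · linear_combination (9 * z2 ^ 2 + 9 * z1 ^ 2) * hr + 3 * hz

theorem det3_at_zero (z1 z2 z3 : ℝ) (hz : z1 ^ 2 + z2 ^ 2 + z3 ^ 2 = 1) :
    det3 ![![(4 - z1 ^ 2) / 3, z1 * z2, z1 * z3], ![z1 * z2, 4 - 3 * z2 ^ 2, -3 * z2 * z3],
      ![z1 * z3, -3 * z2 * z3, 4 - 3 * z3 ^ 2]] = 16 / 3 * (1 + 2 * z1 ^ 2) := by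
  simp [det3]
  linear_combination (-16) * hz

theorem det3D_at_zero (r z1 z2 z3 : ℝ) (hz : z1 ^ 2 + z2 ^ 2 + z3 ^ 2 = 1)
    (m d : Fin 3 → Fin 3 → ℝ) (hm : ∀ a b, m a b = r * Mz z1 z2 z3 a b) :
    det3D ![![(4 - z1 ^ 2) / 3, z1 * z2, z1 * z3], ![z1 * z2, 4 - 3 * z2 ^ 2, -3 * z2 * z3],
      ![z1 * z3, -3 * z2 * z3, 4 - 3 * z3 ^ 2]] (gramD m d)
    = 8 * r * ∑ a, ∑ b, Kz z1 z2 z3 a b * d a b := by
  simp [det3D, gramD, tri, hm, Mz, Kz, Fin.sum_univ_three]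
  linear_combination r * (24 * d 0 1 * z3 - 24 * d 0 2 * z2 + 24 * d 1 0 * z3 + 24 * d 1 2 * z1
    - 24 * d 2 0 * z2 - 24 * d 2 1 * z1) * hz

end Pool.Agent.Helper28
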