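import Mathlib
import Pool.Agent.Helper28.S3Main

open MeasureTheory Metric

namespace Pool.Agent.Helper28

noncomputable def Af : Fin 3 → (E4 →L[ℝ] E4) := ![A1, A2, A3]

theorem Af_vec (x : E4) (a : Fin 3) : ![A1 x, A2 x, A3 x] a = Af a x := by
  fin_cases a <;> rfl

theorem A11 (x : E4) : A1 (A1 x) = -x := by
  ext i; fin_cases i <;> simp [A1_apply]
theorem A12 (x : E4) : A1 (A2 x) = A3 x := by
  ext i; fin_cases i <;> simp [A1_apply, A2_apply, A3_apply]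
theorem A13 (x : E4) : A1 (A3 x) = -A2 x := by
  ext i; fin_cases i <;> simp [A1_apply, A2_apply, A3_apply]
theorem A21 (x : E4) : A2 (A1 x) = -A3 x := by
  ext i; fin_cases i <;> simp [A1_apply, A2_apply, A3_apply]
theorem A22 (x : E4) : A2 (A2 x) = -x := by
  ext i; fin_cases i <;> simp [A2_apply]
theorem A23 (x : E4) : A2 (A3 x) = A1 x := by
  ext i; fin_cases i <;> simp [A1_apply, A2_apply, A3_apply]
theorem A31 (x : E4) : A3 (A1 x) = A2 x := by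
  ext i; fin_cases i <;> simp [A1_apply, A2_apply, A3_apply]
theorem A32 (x : E4) : A3 (A2 x) = -A1 x := by
  ext i; fin_cases i <;> simp [A1_apply, A2_apply, A3_apply]
theorem A33 (x : E4) : A3 (A3 x) = -x := by
  ext i; fin_cases i <;> simp [A3_apply]

theorem z1_diff : Differentiable ℝ z1 := z1_contDiff.differentiable (n := 1) (by simp)
theorem z2_diff : Differentiable ℝ z2 := z2_contDiff.differentiable (n := 1) (by simp)
theorem z3_diff : Differentiable ℝ z3 := z3_contDiff.differentiable (n := 1) (by simp)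

theorem fderiv_Vf (x v : E4) : fderiv ℝ Vf x v
    = (fderiv ℝ z1 x v • A1 x + z1 x • A1 v) + (fderiv ℝ z2 x v • A2 x + z2 x • A2 v)
      + (fderiv ℝ z3 x v • A3 x + z3 x • A3 v) := by
  have h1 := (z1_diff x).hasFDerivAt.smul (A1.hasFDerivAt (x := x))
  have h2 := (z2_diff x).hasFDerivAt.smul (A2.hasFDerivAt (x := x))
  have h3 := (z3_diff x).hasFDerivAt.smul (A3.hasFDerivAt (x := x))
  have h := (h1.add h2).add h3
  refine (congrArg (fun L : E4 →L[ℝ] E4 => L v) h.fderiv).trans ?_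
  simp
  abel

theorem M_at_zero (x : E4) (hx : ‖x‖ = 1) (a b : Fin 3) :
    inner ℝ (Af a x) (fderiv ℝ Vf x (Af b x)) = Mz (z1 x) (z2 x) (z3 x) a b := by
  obtain ⟨h11, h12, h13, h21, h22, h23, h31, h32, h33⟩ := inner_A_A x hx
  have s1 := A1_skew x; have s2 := A2_skew x; have s3 := A3_skew x
  fin_cases a <;> fin_cases b <;>
    simp only [Af, Mz, fderiv_Vf, Fin.zero_eta, Fin.mk_one, Fin.reduceFinMk, Matrix.cons_val_zero,
      Matrix.cons_val_one, Matrix.cons_val,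
      D1z1, D1z2, D1z3, D2z1, D2z2, D2z3, D3z1, D3z2, D3z3,
      A11, A12, A13, A21, A22, A23, A31, A32, A33, inner_add_right, inner_smul_right,
      inner_neg_right, smul_neg, h11, h12, h13, h21, h22, h23, h31, h32, h33, s1, s2, s3] <;> ring

/-- derivative of `Kz` -/
def dKz (z1 z2 z3 e1 e2 e3 : ℝ) : Fin 3 → Fin 3 → ℝ :=
  ![![0, -(4 * z1 * e1) * z3 - (1 + 2 * z1 ^ 2) * e3, (4 * z1 * e1) * z2 + (1 + 2 * z1 ^ 2) * e2],
    ![-e3, -2 * (e1 * z2 * z3 + z1 * e2 * z3 + z1 * z2 * e3),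
      -e1 * (1 + 2 * z1 ^ 2 + 2 * z3 ^ 2) - z1 * (4 * z1 * e1 + 4 * z3 * e3)],
    ![e2, e1 * (1 + 2 * z1 ^ 2 + 2 * z2 ^ 2) + z1 * (4 * z1 * e1 + 4 * z2 * e2),
      2 * (e1 * z2 * z3 + z1 * e2 * z3 + z1 * z2 * e3)]]

theorem hd_congr {f g : ℝ → ℝ} {a b x : ℝ} (h : HasDerivAt f a x) (hf : ∀ s, g s = f s)
    (hab : b = a) : HasDerivAt g b x := by
  rw [hab, show g = f from funext hf]; exact h

theorem Kz_deriv (Z1 Z2 Z3 : ℝ → ℝ) (e1 e2 e3 : ℝ) (h1 : HasDerivAt Z1 e1 0)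
    (h2 : HasDerivAt Z2 e2 0) (h3 : HasDerivAt Z3 e3 0) (a b : Fin 3) :
    HasDerivAt (fun s => Kz (Z1 s) (Z2 s) (Z3 s) a b) (dKz (Z1 0) (Z2 0) (Z3 0) e1 e2 e3 a b) 0 := by
  have hs : HasDerivAt (fun s => 1 + 2 * Z1 s ^ 2) (4 * Z1 0 * e1) 0 :=
    hd_congr ((hasDerivAt_const (0 : ℝ) (1 : ℝ)).add ((h1.pow 2).const_mul 2))
      (fun s => by simp) (by simp; ring)
  have h123 : HasDerivAt (fun s => Z1 s * Z2 s * Z3 s)
      (e1 * Z2 0 * Z3 0 + Z1 0 * e2 * Z3 0 + Z1 0 * Z2 0 * e3) 0 :=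
    hd_congr ((h1.mul h2).mul h3) (fun s => by simp) (by simp; ring)
  have hA : HasDerivAt (fun s => Z1 s * (1 + 2 * Z1 s ^ 2 + 2 * Z2 s ^ 2))
      (e1 * (1 + 2 * Z1 0 ^ 2 + 2 * Z2 0 ^ 2) + Z1 0 * (4 * Z1 0 * e1 + 4 * Z2 0 * e2)) 0 :=
    hd_congr (h1.mul (hs.add ((h2.pow 2).const_mul 2))) (fun s => by simp)
      (by simp only [Nat.cast_ofNat, Nat.add_one_sub_one, pow_one, Pi.add_apply, Pi.pow_apply]; ring)
  have hB : HasDerivAt (fun s => Z1 s * (1 + 2 * Z1 s ^ 2 + 2 * Z3 s ^ 2))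
      (e1 * (1 + 2 * Z1 0 ^ 2 + 2 * Z3 0 ^ 2) + Z1 0 * (4 * Z1 0 * e1 + 4 * Z3 0 * e3)) 0 :=
    hd_congr (h1.mul (hs.add ((h3.pow 2).const_mul 2))) (fun s => by simp)
      (by simp only [Nat.cast_ofNat, Nat.add_one_sub_one, pow_one, Pi.add_apply, Pi.pow_apply]; ring)
  fin_cases a <;> fin_cases b
  · exact hasDerivAt_const _ _
  · exact hd_congr (hs.mul h3).neg (fun s => by simp [Kz]; ring) (by simp [dKz]; ring)
  · exact hd_congr (hs.mul h2) (fun s => by simp [Kz]) (by simp [dKz])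
  · exact hd_congr h3.neg (fun s => by simp [Kz]) (by simp [dKz])
  · exact hd_congr (h123.const_mul (-2)) (fun s => by simp [Kz]; ring) (by simp [dKz])
  · exact hd_congr hB.neg (fun s => by simp [Kz]) (by simp [dKz]; ring)
  · exact hd_congr h2 (fun s => by simp [Kz]) (by simp [dKz])
  · exact hd_congr hA (fun s => by simp [Kz]) (by simp [dKz])
  · exact hd_congr (h123.const_mul 2) (fun s => by simp [Kz]; ring) (by simp [dKz])

theorem lem2 (z1 z2 z3 : ℝ) (y : Fin 3 → ℝ) (hz : z1 ^ 2 + z2 ^ 2 + z3 ^ 2 = 1)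
    (hy : z1 * y 0 + z2 * y 1 + z3 * y 2 = 0) :
    (1 + 2 * z1 ^ 2) * ((∑ a, dKz z1 z2 z3 0 (-2 * z3) (2 * z2) a 0 * y a)
        + (∑ a, dKz z1 z2 z3 (-2 * z3) 0 (2 * z1) a 1 * y a)
        + (∑ a, dKz z1 z2 z3 (2 * z2) (-2 * z1) 0 a 2 * y a)
        + (Kz z1 z2 z3 0 1 * y 2 - Kz z1 z2 z3 0 2 * y 1 - Kz z1 z2 z3 1 0 * y 2
          + Kz z1 z2 z3 1 2 * y 0 + Kz z1 z2 z3 2 0 * y 1 - Kz z1 z2 z3 2 1 * y 0))
      - 2 * z1 * ((-2 * z3) * (∑ a, Kz z1 z2 z3 a 1 * y a)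
          + (2 * z2) * (∑ a, Kz z1 z2 z3 a 2 * y a)) = 0 := by
  simp only [Fin.sum_univ_three]
  simp [dKz, Kz]
  linear_combination (-(1 + 2 * z1 ^ 2) * (4 + 14 * z1 ^ 2)) * hy
    + (2 * y 0 * z1 + 4 * y 0 * z1 ^ 3) * hz

end Pool.Agent.Helper28
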