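import Mathlib
import Pool.Agent.Helper28.S3Fin

open MeasureTheory Metric

namespace Pool.Agent.Helper28

noncomputable def mf (Φ : ℝ → E4 → E4) (a b : Fin 3) (t : ℝ) (x : E4) : ℝ :=
  inner ℝ (Af a x) (fderiv ℝ (Φ t) x (Af b x))

noncomputable def Ff (Φ : ℝ → E4 → E4) (t : ℝ) (x : E4) : ℝ :=
  Real.sqrt (det3 (gramG (fun a b => mf Φ a b t x)))

noncomputable def yf (Φ : ℝ → E4 → E4) (a : Fin 3) (x : E4) : ℝ := inner ℝ (Af a x) (eta Φ x)

noncomputable def Wf (x : E4) : ℝ := (Real.sqrt (1 + 2 * z1 x ^ 2))⁻¹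

noncomputable def Nf (Φ : ℝ → E4 → E4) (b : Fin 3) (x : E4) : ℝ :=
  ∑ a, Kz (z1 x) (z2 x) (z3 x) a b * yf Φ a x

noncomputable def hf (Φ : ℝ → E4 → E4) (b : Fin 3) (x : E4) : ℝ := Wf x * Nf Φ b x

section fin
variable {Φ : ℝ → E4 → E4} (hΦ : ContDiff ℝ ((⊤ : ℕ∞) : WithTop ℕ∞) (Ph Φ))
include hΦ

theorem mf_contDiff (a b : Fin 3) :
    ContDiff ℝ 1 (fun p : ℝ × E4 => mf Φ a b p.1 p.2) :=
  (mm_contDiff hΦ (Af a) (Af b)).of_le (by exact_mod_cast le_top)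

theorem Ff_contDiff : ContDiff ℝ 1 (fun p : ℝ × E4 => Ff Φ p.1 p.2) := by
  unfold Ff
  refine ContDiff.sqrt ?_ (fun p => (det3_pos (fun a b => mf Φ a b p.1 p.2)).ne')
  have h := mf_contDiff hΦ
  have hG : ∀ i j, ContDiff ℝ 1 (fun p : ℝ × E4 => gramG (fun a b => mf Φ a b p.1 p.2) i j) := by
    intro i j
    unfold gramG
    exact contDiff_const.add ((((h 0 i).mul (h 0 j)).add ((h 1 i).mul (h 1 j))).add
      ((h 2 i).mul (h 2 j)))
  unfold det3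
  exact ((((((((hG 0 0).mul (hG 1 1)).mul (hG 2 2)).sub (((hG 0 0).mul (hG 1 2)).mul (hG 2 1))).sub
    (((hG 0 1).mul (hG 1 0)).mul (hG 2 2))).add (((hG 0 1).mul (hG 1 2)).mul (hG 2 0))).add
    (((hG 0 2).mul (hG 1 0)).mul (hG 2 1))).sub (((hG 0 2).mul (hG 1 1)).mul (hG 2 0)))

theorem yf_contDiff (a : Fin 3) : ContDiff ℝ 1 (yf Φ a) :=
  (yy_contDiff hΦ (Af a)).of_le (by exact_mod_cast le_top)

omit hΦ in
theorem Wf_contDiff : ContDiff ℝ 1 Wf := by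
  unfold Wf
  have h1 : ContDiff ℝ 1 (fun x => 1 + 2 * z1 x ^ 2) :=
    contDiff_const.add (contDiff_const.mul (z1_contDiff.pow 2))
  have hpos : ∀ x, (0 : ℝ) < 1 + 2 * z1 x ^ 2 := fun x => by positivity
  exact (h1.sqrt (fun x => (hpos x).ne')).inv (fun x => (Real.sqrt_pos.2 (hpos x)).ne')

omit hΦ in
theorem Kz_contDiff (a b : Fin 3) : ContDiff ℝ 1 (fun x => Kz (z1 x) (z2 x) (z3 x) a b) := by
  have h1 : ContDiff ℝ 1 z1 := z1_contDiff
  have h2 : ContDiff ℝ 1 z2 := z2_contDiff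
  have h3 : ContDiff ℝ 1 z3 := z3_contDiff
  fin_cases a <;> fin_cases b <;> simp [Kz] <;> fun_prop

theorem Nf_contDiff (b : Fin 3) : ContDiff ℝ 1 (Nf Φ b) := by
  unfold Nf
  exact ContDiff.sum fun a _ => (Kz_contDiff a b).mul (yf_contDiff hΦ a)

theorem hf_contDiff (b : Fin 3) : ContDiff ℝ 1 (hf Φ b) :=
  Wf_contDiff.mul (Nf_contDiff hΦ b)

omit hΦ in
theorem curve_deriv (f : E4 → ℝ) (hf : Differentiable ℝ f) (x v : E4) :
    HasDerivAt (fun s : ℝ => f (x + s • v)) (fderiv ℝ f x v) 0 := by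
  have h2 : HasDerivAt (fun s : ℝ => x + s • v) v 0 := by
    have := ((hasDerivAt_id (0 : ℝ)).smul_const v).const_add x
    simpa using this
  have h3 : HasFDerivAt f (fderiv ℝ f x) (x + (0 : ℝ) • v) := by
    simpa using (hf x).hasFDerivAt
  exact h3.comp_hasDerivAt (0 : ℝ) h2

theorem fderiv_hf (b : Fin 3) (x v : E4) (s : ℝ) (hs : s = Real.sqrt (1 + 2 * z1 x ^ 2)) :
    fderiv ℝ (hf Φ b) x v =
      -(2 * z1 x * fderiv ℝ z1 x v) / s ^ 3 * (∑ a, Kz (z1 x) (z2 x) (z3 x) a b * yf Φ a x)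
      + s⁻¹ * (∑ a, (dKz (z1 x) (z2 x) (z3 x) (fderiv ℝ z1 x v) (fderiv ℝ z2 x v)
          (fderiv ℝ z3 x v) a b * yf Φ a x
        + Kz (z1 x) (z2 x) (z3 x) a b * fderiv ℝ (yf Φ a) x v)) := by
  have hpos : (0 : ℝ) < 1 + 2 * z1 x ^ 2 := by positivity
  have hs0 : 0 < s := by rw [hs]; exact Real.sqrt_pos.2 hpos
  have hs2 : s ^ 2 = 1 + 2 * z1 x ^ 2 := by rw [hs]; exact Real.sq_sqrt hpos.le
  have c1 := curve_deriv z1 z1_diff x v
  have c2 := curve_deriv z2 z2_diff x v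
  have c3 := curve_deriv z3 z3_diff x v
  have cy := fun a => curve_deriv (yf Φ a) ((yf_contDiff hΦ a).differentiable (by norm_num)) x v
  have ch := curve_deriv (hf Φ b) ((hf_contDiff hΦ b).differentiable (by norm_num)) x v
  have hx0 : x + (0 : ℝ) • v = x := by simp
  have cg : HasDerivAt (fun u : ℝ => 1 + 2 * z1 (x + u • v) ^ 2) (4 * z1 x * fderiv ℝ z1 x v) 0 :=
    hd_congr ((c1.pow 2).const_mul 2 |>.const_add 1) (fun u => by simp)
      (by simp only [Nat.cast_ofNat, Nat.add_one_sub_one, pow_one, hx0]; ring)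
  have cs : HasDerivAt (fun u : ℝ => Real.sqrt (1 + 2 * z1 (x + u • v) ^ 2))
      (4 * z1 x * fderiv ℝ z1 x v / (2 * Real.sqrt (1 + 2 * z1 (x + (0 : ℝ) • v) ^ 2))) 0 :=
    cg.sqrt (by rw [hx0]; exact hpos.ne')
  have cW : HasDerivAt (fun u : ℝ => Wf (x + u • v)) (-(2 * z1 x * fderiv ℝ z1 x v) / s ^ 3) 0 := by
    have hne : Real.sqrt (1 + 2 * z1 (x + (0 : ℝ) • v) ^ 2) ≠ 0 := by
      rw [hx0, ← hs]; exact hs0.ne'
    refine hd_congr (cs.fun_inv hne) (fun u => rfl) ?_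
    rw [hx0, ← hs]
    field_simp
    ring
  have cK := fun a => Kz_deriv _ _ _ _ _ _ c1 c2 c3 a b
  have cN : HasDerivAt (fun u : ℝ => Nf Φ b (x + u • v))
      (∑ a, (dKz (z1 x) (z2 x) (z3 x) (fderiv ℝ z1 x v) (fderiv ℝ z2 x v)
          (fderiv ℝ z3 x v) a b * yf Φ a x
        + Kz (z1 x) (z2 x) (z3 x) a b * fderiv ℝ (yf Φ a) x v)) 0 := by
    have h := HasDerivAt.fun_sum (u := Finset.univ) (fun a _ => (cK a).mul (cy a))
    simp only [hx0] at h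
    exact h
  have cH := cW.mul cN
  have := ch.unique cH
  rw [this, hx0, show Wf x = s⁻¹ from by rw [hs]; rfl]
  rfl

/-- the variation vector is tangent and orthogonal to the field -/
theorem yf_orth (r : ℝ) (hr : r ≠ 0)
    (h0 : ∀ x ∈ sphere (0 : E4) 1, Φ 0 x = r • Vf x)
    (hc : ∀ t : ℝ, ∀ x ∈ sphere (0 : E4) 1, ‖Φ t x‖ = r ∧ inner ℝ x (Φ t x) = 0)
    (x : E4) (hx : x ∈ sphere (0 : E4) 1) :
    inner ℝ x (eta Φ x) = 0 ∧
      z1 x * yf Φ 0 x + z2 x * yf Φ 1 x + z3 x * yf Φ 2 x = 0 := by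
  have hd := hasDerivAt_slice hΦ 0 x
  constructor
  · have h1 : HasDerivAt (fun t : ℝ => inner ℝ x (Φ t x)) (inner ℝ x (eta Φ x)) 0 := by
      have := (hasDerivAt_const (0 : ℝ) x).inner ℝ hd
      simpa [eta] using this
    have e : (fun t : ℝ => inner ℝ x (Φ t x)) = fun _ => (0 : ℝ) := by
      funext t; exact (hc t x hx).2
    rw [e] at h1
    exact h1.unique (hasDerivAt_const _ _)
  · have h1 : HasDerivAt (fun t : ℝ => inner ℝ (Φ t x) (Φ t x))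
        (inner ℝ (Φ 0 x) (eta Φ x) + inner ℝ (eta Φ x) (Φ 0 x)) 0 := hd.inner ℝ hd
    have e : (fun t : ℝ => inner ℝ (Φ t x) (Φ t x)) = fun _ => r ^ 2 := by
      funext t; rw [real_inner_self_eq_norm_sq, (hc t x hx).1]
    rw [e] at h1
    have h2 := h1.unique (hasDerivAt_const _ _)
    rw [real_inner_comm (eta Φ x) (Φ 0 x), h0 x hx, ← two_mul] at h2
    rw [real_inner_smul_right] at h2
    have h3 : inner ℝ (eta Φ x) (Vf x) = 0 := by
      rcases mul_eq_zero.1 h2 with h | h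
      · norm_num at h
      · rcases mul_eq_zero.1 h with h | h
        · exact absurd h hr
        · exact h
    simp only [Vf, inner_add_right, real_inner_smul_right] at h3
    simp only [yf, Af, Matrix.cons_val_zero, Matrix.cons_val_one, Matrix.cons_val]
    rw [real_inner_comm (eta Φ x) (A1 x), real_inner_comm (eta Φ x) (A2 x),
      real_inner_comm (eta Φ x) (A3 x)]
    exact h3

theorem pointwise (r : ℝ) (hr : 0 < r) (hr2 : r ^ 2 = 1 / 3)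
    (h0 : ∀ x ∈ sphere (0 : E4) 1, Φ 0 x = r • Vf x)
    (hc : ∀ t : ℝ, ∀ x ∈ sphere (0 : E4) 1, ‖Φ t x‖ = r ∧ inner ℝ x (Φ t x) = 0)
    (x : E4) (hx : x ∈ sphere (0 : E4) 1) :
    deriv (fun t => Ff Φ t x) 0
      = fderiv ℝ (hf Φ 0) x (A1 x) + fderiv ℝ (hf Φ 1) x (A2 x) + fderiv ℝ (hf Φ 2) x (A3 x) := by
  have hxn : ‖x‖ = 1 := by simpa using hx
  have hz := z_sq x hxn
  obtain ⟨hex, hzy⟩ := yf_orth hΦ r hr.ne' h0 hc x hx
  set s := Real.sqrt (1 + 2 * z1 x ^ 2) with hs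
  have hpos : (0 : ℝ) < 1 + 2 * z1 x ^ 2 := by positivity
  have hs0 : 0 < s := Real.sqrt_pos.2 hpos
  have hs2 : s ^ 2 = 1 + 2 * z1 x ^ 2 := Real.sq_sqrt hpos.le
  -- values at zero
  have hskew : ∀ a : Fin 3, (∀ y, inner ℝ (Af a y) y = 0) ∧ (∀ y, ‖Af a y‖ = ‖y‖) := by
    intro a
    fin_cases a
    · exact ⟨A1_skew, A1_norm⟩
    · exact ⟨A2_skew, A2_norm⟩
    · exact ⟨A3_skew, A3_norm⟩
  have hVd : Differentiable ℝ (fun y => r • Vf y) :=
    (Vf_contDiff (n := 1)).differentiable (by norm_num) |>.const_smul r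
  have hΦ0d : Differentiable ℝ (Φ 0) := by
    have : ContDiff ℝ ((⊤ : ℕ∞) : WithTop ℕ∞) (fun y : E4 => Ph Φ (0, y)) :=
      hΦ.comp (contDiff_const.prodMk contDiff_id)
    exact this.differentiable (by simp)
  have hm0 : ∀ a b, mf Φ a b 0 x = r * Mz (z1 x) (z2 x) (z3 x) a b := by
    intro a b
    unfold mf
    rw [fderiv_eq_of_sphere (Af b) (hskew b).1 (hskew b).2 (Φ 0) (fun y => r • Vf y) hΦ0d hVd
      h0 x hxn]
    have e : fderiv ℝ (fun y => r • Vf y) x (Af b x) = r • fderiv ℝ Vf x (Af b x) := by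
      have := ((Vf_contDiff (n := 1)).differentiable (by norm_num) x).hasFDerivAt.const_smul r
      exact congrArg (fun L : E4 →L[ℝ] E4 => L (Af b x)) this.fderiv
    rw [e, real_inner_smul_right, M_at_zero x hxn]
  -- derivatives
  set d : Fin 3 → Fin 3 → ℝ := fun a b =>
    fderiv ℝ (yf Φ a) x (Af b x) - inner ℝ (Af a (Af b x)) (eta Φ x) with hd
  have hmd : ∀ a b, HasDerivAt (fun t => mf Φ a b t x) (d a b) 0 := fun a b =>
    mm_hasDerivAt hΦ (Af a) (Af b) x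
  have hG := gramG_deriv (fun a b t => mf Φ a b t x) d hmd
  have hD := det3_deriv (fun t => gramG (fun a b => mf Φ a b t x)) _ hG
  have hgz := gram_at_zero r (z1 x) (z2 x) (z3 x) hr2 hz (fun a b => mf Φ a b 0 x) hm0
  have hval : det3 (gramG (fun a b => mf Φ a b 0 x)) = 16 / 3 * s ^ 2 := by
    rw [hgz, det3_at_zero _ _ _ hz, hs2]
  have hsq : Real.sqrt (det3 (gramG (fun a b => mf Φ a b 0 x))) = 4 * r * s := by
    rw [hval, show (16 : ℝ) / 3 * s ^ 2 = (4 * r * s) ^ 2 by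
      rw [mul_pow, mul_pow, hr2]; ring]
    exact Real.sqrt_sq (by positivity)
  have hF : HasDerivAt (fun t => Ff Φ t x)
      ((8 * r * ∑ a, ∑ b, Kz (z1 x) (z2 x) (z3 x) a b * d a b) / (2 * (4 * r * s))) 0 := by
    have h1 := hD.sqrt (det3_pos _).ne'
    rw [hsq] at h1
    simp only [hgz] at h1
    rw [det3D_at_zero r _ _ _ hz (fun a b => mf Φ a b 0 x) d hm0] at h1
    exact h1
  rw [hF.deriv]
  rw [fderiv_hf hΦ 0 x (A1 x) s hs, fderiv_hf hΦ 1 x (A2 x) s hs, fderiv_hf hΦ 2 x (A3 x) s hs]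
  rw [D1z1, D1z2, D1z3, D2z1, D2z2, D2z3, D3z1, D3z2, D3z3]
  have L2 := lem2 (z1 x) (z2 x) (z3 x) (fun a => yf Φ a x) hz hzy
  have hA00 : d 0 0 = fderiv ℝ (yf Φ 0) x (A1 x) := by
    simp only [hd, Af, Matrix.cons_val_zero, A11, inner_neg_left, hex]; ring
  have hA11 : d 1 1 = fderiv ℝ (yf Φ 1) x (A2 x) := by
    simp [hd, Af, A22, hex]
  have hA22 : d 2 2 = fderiv ℝ (yf Φ 2) x (A3 x) := by
    simp [hd, Af, A33, hex]
  have hA01 : d 0 1 = fderiv ℝ (yf Φ 0) x (A2 x) - yf Φ 2 x := by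
    simp [hd, Af, A12, yf]
  have hA02 : d 0 2 = fderiv ℝ (yf Φ 0) x (A3 x) + yf Φ 1 x := by
    simp [hd, Af, A13, yf]
  have hA10 : d 1 0 = fderiv ℝ (yf Φ 1) x (A1 x) + yf Φ 2 x := by
    simp [hd, Af, A21, yf]
  have hA12 : d 1 2 = fderiv ℝ (yf Φ 1) x (A3 x) - yf Φ 0 x := by
    simp [hd, Af, A23, yf]
  have hA20 : d 2 0 = fderiv ℝ (yf Φ 2) x (A1 x) - yf Φ 1 x := by
    simp [hd, Af, A31, yf]
  have hA21 : d 2 1 = fderiv ℝ (yf Φ 2) x (A2 x) + yf Φ 0 x := by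
    simp [hd, Af, A32, yf]
  simp only [Fin.sum_univ_three] at L2 ⊢
  rw [hA00, hA11, hA22, hA01, hA02, hA10, hA12, hA20, hA21]
  rw [← hs2] at L2
  have hr0 : r ≠ 0 := hr.ne'
  have hsn : s ≠ 0 := hs0.ne'
  generalize dKz (z1 x) (z2 x) (z3 x) 0 (-2 * z3 x) (2 * z2 x) = D0 at L2 ⊢
  generalize dKz (z1 x) (z2 x) (z3 x) (-2 * z3 x) 0 (2 * z1 x) = D1 at L2 ⊢
  generalize dKz (z1 x) (z2 x) (z3 x) (2 * z2 x) (-2 * z1 x) 0 = D2 at L2 ⊢
  field_simp
  linear_combination (-8) * L2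

theorem deriv_zero (r : ℝ) (hr : 0 < r) (hr2 : r ^ 2 = 1 / 3)
    (h0 : ∀ x ∈ sphere (0 : E4) 1, Φ 0 x = r • Vf x)
    (hc : ∀ t : ℝ, ∀ x ∈ sphere (0 : E4) 1, ‖Φ t x‖ = r ∧ inner ℝ x (Φ t x) = 0) :
    deriv (fun t : ℝ => ∫ x : sphere (0 : E4) 1, Ff Φ t x ∂(volume : Measure E4).toSphere) 0 = 0 := by
  have h := hasDerivAt_sphere (volume : Measure E4).toSphere (Ff Φ) (Ff_contDiff hΦ) 0
  rw [h.deriv]
  have e : ∀ x : sphere (0 : E4) 1, deriv (fun t => Ff Φ t x) 0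
      = fderiv ℝ (hf Φ 0) x (A1 x) + fderiv ℝ (hf Φ 1) x (A2 x) + fderiv ℝ (hf Φ 2) x (A3 x) :=
    fun x => pointwise hΦ r hr hr2 h0 hc x x.2
  rw [integral_congr_ae (Filter.Eventually.of_forall e)]
  have hint : ∀ (b : Fin 3) (A : E4 →L[ℝ] E4),
      Integrable (fun x : sphere (0 : E4) 1 => fderiv ℝ (hf Φ b) x (A x))
        (volume : Measure E4).toSphere := by
    intro b A
    have hc : Continuous (fun x : E4 => fderiv ℝ (hf Φ b) x (A x)) :=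
      ((hf_contDiff hΦ b).continuous_fderiv (by norm_num)).clm_apply A.continuous
    exact (hc.comp continuous_subtype_val).integrable_of_hasCompactSupport
      (HasCompactSupport.of_compactSpace _)
  have i1 := integral_add (hint 0 A1) (hint 1 A2)
  have i2 := integral_add ((hint 0 A1).add (hint 1 A2)) (hint 2 A3)
  simp only [Pi.add_apply] at i2
  rw [i2, i1, integral_fderiv_skew A1 A1_skew A1_norm _ (hf_contDiff hΦ 0),
    integral_fderiv_skew A2 A2_skew A2_norm _ (hf_contDiff hΦ 1),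
    integral_fderiv_skew A3 A3_skew A3_norm _ (hf_contDiff hΦ 2)]
  simp

end fin

end Pool.Agent.Helper28
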